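import Mathlib

set_option autoImplicit false

/-!
# Real analysis: the exponential law, uniform version

`fin_exp`: Proof.  Let `m = n / 2`, `l = m / k`, `r = m % k`, `m = l k + r`.  `A (2m) ≤ b^(2r) A (2 l k)` (`hA2` iterated)
`≤ b^(2r) (b^k - 1)^(2l) = b^(2m) (1 - b^(-k))^(2l) ≤ b^(2m) exp (-2 l b^(-k))`.  `4 k ≤ b^2`, so `b^(-k) ≥ b^(-b^2)` (`1 ≤ b`) and
`l ≥ m / k - 1 ≥ 4 m / b^2 - 1`, so `2 l b^(-k) ≥ (8 m / b^2) b^(-b^2) - 2` (also if `4 m / b^2 - 1 < 0`).  With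
`δ = 8 b^(-b^2 - 2)`: `A (2m) ≤ b^(2m) e^2 exp (- δ m)`, and `b^(2m) ≤ (m + 1)^(b^2) h (2m)`.
`(m + 1)^(b^2) ≤ C₁ exp (δ m / 2)` with a constant `C₁` (depending on `b`): e.g. `exp y ≥ y^j / j!`
(`Real.pow_div_factorial_le_exp`) for `y = δ (m + 1) / 2`, `j = b^2`.  So `exp (δ m / 2) A (2m) ≤ e^2 C₁ h (2m)`.
`A n ≤ A (2 (m + 1)) ≤ b^2 A (2m)`, `h (2m) ≤ h n`, `m ≥ (n - 1) / 2`.
-/

noncomputable section

namespace ZSp

/-- Iteration of the doubling bound. -/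
theorem NAn_iter (b : ℕ) (A : ℕ → ℝ)
    (hA2 : ∀ m, A (2 * (m + 1)) ≤ (b : ℝ) ^ 2 * A (2 * m)) (s r : ℕ) :
    A (2 * (s + r)) ≤ (b : ℝ) ^ (2 * r) * A (2 * s) := by
  induction r with
  | zero => simp
  | succ r ih =>
    calc A (2 * (s + (r + 1))) = A (2 * ((s + r) + 1)) := by rw [add_assoc]
      _ ≤ (b : ℝ) ^ 2 * A (2 * (s + r)) := hA2 _
      _ ≤ (b : ℝ) ^ 2 * ((b : ℝ) ^ (2 * r) * A (2 * s)) :=
          mul_le_mul_of_nonneg_left ih (by positivity)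
      _ = (b : ℝ) ^ (2 * (r + 1)) * A (2 * s) := by ring

theorem NAn_even (b : ℕ) (hb : 2 ≤ b) (A : ℕ → ℝ) (k : ℕ) (hk : 1 ≤ k) (hkb : 4 * k ≤ b ^ 2)
    (hA2 : ∀ m, A (2 * (m + 1)) ≤ (b : ℝ) ^ 2 * A (2 * m))
    (hAk : ∀ l : ℕ, A (2 * (l * k)) ≤ (((b : ℝ) ^ k - 1) ^ l) ^ 2) (m : ℕ) :
    A (2 * m) ≤ (b : ℝ) ^ (2 * m) *
      Real.exp (2 - 8 * ((b : ℝ) ^ (b ^ 2))⁻¹ / (b : ℝ) ^ 2 * m) := by
  have hb0 : (0 : ℝ) < b := by
    have : 0 < b := by omega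
    exact_mod_cast this
  have hb1 : (1 : ℝ) ≤ b := by
    have : 1 ≤ b := by omega
    exact_mod_cast this
  set q : ℝ := ((b : ℝ) ^ (b ^ 2))⁻¹ with hq
  have hq0 : 0 < q := by positivity
  have hq1 : q ≤ 1 := inv_le_one_of_one_le₀ (one_le_pow₀ hb1)
  set l := m / k with hl
  set r := m % k with hr
  have hm : l * k + r = m := by rw [hl, hr]; exact Nat.div_add_mod' m k
  have h1 := NAn_iter b A hA2 (l * k) r
  rw [hm] at h1
  have h2 := hAk l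
  have hbk : (1 : ℝ) ≤ (b : ℝ) ^ k := one_le_pow₀ hb1
  have hbk0 : (0 : ℝ) < (b : ℝ) ^ k := by positivity
  -- the base
  have h3 : (b : ℝ) ^ k - 1 ≤ (b : ℝ) ^ k * Real.exp (-((b : ℝ) ^ k)⁻¹) := by
    have := Real.add_one_le_exp (-((b : ℝ) ^ k)⁻¹)
    have h4 := mul_le_mul_of_nonneg_left this hbk0.le
    have h5 : (b : ℝ) ^ k * (-((b : ℝ) ^ k)⁻¹ + 1) = (b : ℝ) ^ k - 1 := by
      field_simp
      ring
    linarith
  have h6 : (((b : ℝ) ^ k - 1) ^ l) ^ 2 ≤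
      (b : ℝ) ^ (2 * (l * k)) * Real.exp (-(2 * l * ((b : ℝ) ^ k)⁻¹)) := by
    have h7 : ((b : ℝ) ^ k - 1) ^ l ≤ ((b : ℝ) ^ k * Real.exp (-((b : ℝ) ^ k)⁻¹)) ^ l :=
      pow_le_pow_left₀ (by linarith) h3 l
    have h8 := pow_le_pow_left₀ (pow_nonneg (by linarith : (0 : ℝ) ≤ (b : ℝ) ^ k - 1) l) h7 2
    refine h8.trans (le_of_eq ?_)
    rw [mul_pow, mul_pow, ← Real.exp_nat_mul, ← Real.exp_nat_mul]
    have e1 : ((b : ℝ) ^ k) ^ l = (b : ℝ) ^ (l * k) := by rw [← pow_mul, mul_comm]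
    rw [e1, ← pow_mul]
    congr 1
    · congr 1; ring
    · congr 1
      push_cast
      ring
  have h9 : q ≤ ((b : ℝ) ^ k)⁻¹ := by
    rw [hq]
    apply inv_anti₀ hbk0
    exact pow_le_pow_right₀ hb1 (by omega)
  have hkR : (0 : ℝ) < k := by exact_mod_cast hk
  have h10 : (4 : ℝ) * m / (b : ℝ) ^ 2 - 1 ≤ l := by
    have h11 : (m : ℝ) / k ≤ l + 1 := by
      rw [div_le_iff₀ hkR]
      have : m ≤ (l + 1) * k := by
        have : r < k := Nat.mod_lt _ (by omega)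
        calc m = l * k + r := hm.symm
          _ ≤ (l + 1) * k := by rw [add_mul, one_mul]; omega
      exact_mod_cast this
    have h12 : (4 : ℝ) * m / (b : ℝ) ^ 2 ≤ (m : ℝ) / k := by
      rw [div_le_div_iff₀ (by positivity) hkR]
      have : (4 : ℝ) * k ≤ (b : ℝ) ^ 2 := by exact_mod_cast hkb
      have hm0 : (0 : ℝ) ≤ m := Nat.cast_nonneg m
      nlinarith
    linarith
  have h13 : 8 * q / (b : ℝ) ^ 2 * m - 2 ≤ 2 * l * ((b : ℝ) ^ k)⁻¹ := by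
    have hl0 : (0 : ℝ) ≤ l := Nat.cast_nonneg l
    have e1 : 2 * (l : ℝ) * q ≤ 2 * l * ((b : ℝ) ^ k)⁻¹ :=
      mul_le_mul_of_nonneg_left h9 (by positivity)
    have e2 : 2 * q * ((4 : ℝ) * m / (b : ℝ) ^ 2 - 1) ≤ 2 * q * l :=
      mul_le_mul_of_nonneg_left h10 (by positivity)
    have e3 : 2 * q * ((4 : ℝ) * m / (b : ℝ) ^ 2 - 1) = 8 * q / (b : ℝ) ^ 2 * m - 2 * q := by
      ring
    linarith
  calc A (2 * m) ≤ (b : ℝ) ^ (2 * r) * A (2 * (l * k)) := h1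
    _ ≤ (b : ℝ) ^ (2 * r) *
        ((b : ℝ) ^ (2 * (l * k)) * Real.exp (-(2 * l * ((b : ℝ) ^ k)⁻¹))) :=
        mul_le_mul_of_nonneg_left (h2.trans h6) (by positivity)
    _ = (b : ℝ) ^ (2 * m) * Real.exp (-(2 * l * ((b : ℝ) ^ k)⁻¹)) := by
        rw [← mul_assoc, ← pow_add]
        congr 2
        rw [← hm]; ring
    _ ≤ (b : ℝ) ^ (2 * m) * Real.exp (2 - 8 * q / (b : ℝ) ^ 2 * m) := by
        apply mul_le_mul_of_nonneg_left _ (by positivity)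
        apply Real.exp_le_exp.2
        linarith

theorem fin_exp (b : ℕ) (hb : 1 ≤ b) : ∃ c : ℝ, 0 < c ∧ ∀ (A h : ℕ → ℝ) (k : ℕ), 1 ≤ k →
      4 * k ≤ b ^ 2 → (∀ n, 1 ≤ A n) → (∀ n, A n ≤ A (n + 1)) → (∀ n, h n ≤ h (n + 1)) →
      (∀ m, A (2 * (m + 1)) ≤ (b : ℝ) ^ 2 * A (2 * m)) →
      (∀ m : ℕ, (b : ℝ) ^ (2 * m) ≤ (m + 1 : ℝ) ^ (b ^ 2) * h (2 * m)) →
      (∀ l : ℕ, A (2 * (l * k)) ≤ (((b : ℝ) ^ k - 1) ^ l) ^ 2) →
      ∀ n : ℕ, c * Real.exp (c * n) * A n ≤ h n := by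
  have hb0 : (0 : ℝ) < b := by exact_mod_cast hb
  set δ : ℝ := 8 * ((b : ℝ) ^ (b ^ 2))⁻¹ / (b : ℝ) ^ 2 with hδ
  have hδ0 : 0 < δ := by positivity
  set j : ℕ := b ^ 2 with hj
  set C₁ : ℝ := (j.factorial : ℝ) * (2 / δ) ^ j * Real.exp (δ / 2) with hC₁
  have hC₁0 : 0 < C₁ := by positivity
  set K : ℝ := Real.exp (δ / 4) * (b : ℝ) ^ 2 * Real.exp 2 * C₁ with hK
  have hK0 : 0 < K := by positivity
  refine ⟨min (δ / 4) K⁻¹, lt_min (by positivity) (by positivity), ?_⟩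
  intro A h k hk hkb hA1 hAm hhm hA2 hbm hAk n
  have hb2 : 2 ≤ b := by
    by_contra hc
    have : b ≤ 1 := by omega
    have : b ^ 2 ≤ 1 := by
      calc b ^ 2 ≤ 1 ^ 2 := Nat.pow_le_pow_left this 2
        _ = 1 := by norm_num
    omega
  set m := n / 2 with hm
  have hmn : 2 * m ≤ n := by omega
  have hnm : n ≤ 2 * (m + 1) := by omega
  have hnm' : n ≤ 2 * m + 1 := by omega
  have hAmono : Monotone A := monotone_nat_of_le_succ hAm
  have hhmono : Monotone h := monotone_nat_of_le_succ hhm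
  have e1 := NAn_even b hb2 A k hk hkb hA2 hAk m
  rw [← hδ] at e1
  have e2 := hbm m
  have hm1 : (0 : ℝ) < (m : ℝ) + 1 := by positivity
  have hh0 : 0 ≤ h (2 * m) := by
    by_contra hc
    push Not at hc
    have h3 : (m + 1 : ℝ) ^ (b ^ 2) * h (2 * m) < 0 :=
      mul_neg_of_pos_of_neg (by positivity) hc
    have h4 : (0 : ℝ) < (b : ℝ) ^ (2 * m) := by positivity
    linarith
  -- polynomial against exponential
  have e3 : ((m : ℝ) + 1) ^ j ≤ C₁ * Real.exp (δ / 2 * m) := by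
    have h1 := Real.pow_div_factorial_le_exp (x := δ * (m + 1) / 2) (by positivity) j
    rw [div_le_iff₀ (by positivity)] at h1
    have h2 : ((m : ℝ) + 1) ^ j = (2 / δ) ^ j * (δ * (m + 1) / 2) ^ j := by
      rw [← mul_pow]
      congr 1
      field_simp
    have h3 : Real.exp (δ * (m + 1) / 2) = Real.exp (δ / 2) * Real.exp (δ / 2 * m) := by
      rw [← Real.exp_add]; congr 1; ring
    rw [h2]
    calc (2 / δ) ^ j * (δ * (m + 1) / 2) ^ j ≤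
        (2 / δ) ^ j * (Real.exp (δ * (m + 1) / 2) * (j.factorial : ℝ)) :=
          mul_le_mul_of_nonneg_left h1 (by positivity)
      _ = C₁ * Real.exp (δ / 2 * m) := by rw [h3, hC₁]; ring
  have e4 : Real.exp (δ / 2 * m) * A (2 * m) ≤ Real.exp 2 * C₁ * h (2 * m) := by
    have h1 : A (2 * m) ≤ (C₁ * Real.exp (δ / 2 * m) * h (2 * m)) * Real.exp (2 - δ * m) := by
      refine e1.trans ?_
      apply mul_le_mul_of_nonneg_right _ (Real.exp_pos _).le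
      refine e2.trans ?_
      exact mul_le_mul_of_nonneg_right e3 hh0
    have h2 := mul_le_mul_of_nonneg_left h1 (Real.exp_pos (δ / 2 * m)).le
    refine h2.trans (le_of_eq ?_)
    have h3 : Real.exp (2 - δ * m) = Real.exp 2 * (Real.exp (δ / 2 * m) *
        Real.exp (δ / 2 * m))⁻¹ := by
      rw [← Real.exp_add, ← Real.exp_neg, ← Real.exp_add]
      congr 1; ring
    rw [h3]
    have h4 : Real.exp (δ / 2 * m) ≠ 0 := (Real.exp_pos _).ne'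
    field_simp
  have hAn0 : 0 ≤ A n := le_trans zero_le_one (hA1 n)
  have e5 : A n ≤ (b : ℝ) ^ 2 * A (2 * m) := (hAmono hnm).trans (hA2 m)
  have e6 : h (2 * m) ≤ h n := hhmono hmn
  have e7 : Real.exp (δ / 4 * n) ≤ Real.exp (δ / 4) * Real.exp (δ / 2 * m) := by
    rw [← Real.exp_add]
    apply Real.exp_le_exp.2
    have : (n : ℝ) ≤ 2 * m + 1 := by exact_mod_cast hnm'
    nlinarith
  have e8 : Real.exp (δ / 4 * n) * A n ≤ K * h n := by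
    calc Real.exp (δ / 4 * n) * A n ≤
        (Real.exp (δ / 4) * Real.exp (δ / 2 * m)) * ((b : ℝ) ^ 2 * A (2 * m)) :=
          mul_le_mul e7 e5 hAn0 (by positivity)
      _ = Real.exp (δ / 4) * (b : ℝ) ^ 2 * (Real.exp (δ / 2 * m) * A (2 * m)) := by ring
      _ ≤ Real.exp (δ / 4) * (b : ℝ) ^ 2 * (Real.exp 2 * C₁ * h (2 * m)) :=
          mul_le_mul_of_nonneg_left e4 (by positivity)
      _ = K * h (2 * m) := by rw [hK]; ring
      _ ≤ K * h n := mul_le_mul_of_nonneg_left e6 hK0.le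
  have hc0 : 0 < min (δ / 4) K⁻¹ := lt_min (by positivity) (by positivity)
  have hc1 : min (δ / 4) K⁻¹ ≤ δ / 4 := min_le_left _ _
  have hc2 : min (δ / 4) K⁻¹ ≤ K⁻¹ := min_le_right _ _
  have e9 : Real.exp (min (δ / 4) K⁻¹ * n) ≤ Real.exp (δ / 4 * n) := by
    apply Real.exp_le_exp.2
    exact mul_le_mul_of_nonneg_right hc1 (Nat.cast_nonneg n)
  have e10 : Real.exp (min (δ / 4) K⁻¹ * n) * A n ≤ K * h n :=
    (mul_le_mul_of_nonneg_right e9 hAn0).trans e8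
  have hKh : 0 ≤ K * h n := (mul_nonneg (Real.exp_pos _).le hAn0).trans e10
  calc min (δ / 4) K⁻¹ * Real.exp (min (δ / 4) K⁻¹ * n) * A n =
      min (δ / 4) K⁻¹ * (Real.exp (min (δ / 4) K⁻¹ * n) * A n) := by ring
    _ ≤ min (δ / 4) K⁻¹ * (K * h n) := mul_le_mul_of_nonneg_left e10 hc0.le
    _ ≤ K⁻¹ * (K * h n) := mul_le_mul_of_nonneg_right hc2 hKh
    _ = h n := by field_simp

end ZSp
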