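import Pool.Agent.W_f569db_sp.SAnP

set_option autoImplicit false

/-!
# Real analysis: the logarithmic law

`fin_log`: Proof.  Let `n ≥ 1`, `m = n / 2`, `x = m + 1`.  `n = 1`: `(log 2)^(1/E) ≤ 1`, `A 1 ≤ h 1 ≤ d h 1` if `c ≤ 1`.  Let `n ≥ 2`, so
`m ≥ 1`, `x ≥ 2`, `n + 1 ≤ 2 x ≤ x^2`, `A n ≤ A (2 (m + 1)) ≤ b^2 A (2m)`, `h (2m) ≤ h n`.
Case 1: `log x / (4 b) ≤ k - 1`.  Let `M = min m (k - 1)`.  Then `M ≥ log x / (4 b)` (`log x ≤ m`), `log x ≥ log (n + 1) / 2`.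
`fin_core` with this `M`: `(log (n + 1) / (8 b C))^(1/E) A n ≤ 4 b^2 d h n`.
Case 2: `k < log x / (4 b) + 1`.  Then `b^k ≤ b * exp (log b * log x / (4 b)) ≤ b x^(1/4)` (`log b ≤ b`).  Let `l = m / k`,
`r = m % k`, `m = l k + r`.  `A (2m) ≤ b^(2r) A (2 l k) ≤ b^(2r) (b^k - 1)^(2l) = b^(2m) (1 - b^(-k))^(2l) ≤ b^(2m) exp (-2 l b^(-k))`.
`k ≤ b x^(1/4)` too: for `b ≥ 2`, `k < 2^k ≤ b^k`; for `b = 1` the hypothesis for `l = 1` gives `A (2k) ≤ 0`, contradiction.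
`l ≥ m / k - 1` (real) and `m ≥ x / 2`, so `2 l b^(-k) ≥ 2 (m / (b x^(1/4)) - 1) / (b x^(1/4)) ≥ x^(1/2) / b^2 - 2`
(`b x^(1/4) ≥ 1`).  So `A (2m) ≤ b^(2m) exp (2 - x^(1/2) / b^2)` and `b^(2m) ≤ x^(b^2) h (2m)`.  With `y = x^(1/2) / b^2` and
`k' = 2 b^2 + 2`: `exp y ≥ y^k' / k'!` (`Real.pow_div_factorial_le_exp`), so
`x^(b^2) exp (- y) ≤ k'! b^(2 k') x^(b^2) / x^(b^2 + 1) = k'! b^(2 k') / x`.  So `x A (2m) ≤ e^2 k'! b^(2 k') h (2m)`, and
`(log (n + 1))^(1/E) ≤ n + 1 ≤ 2 x` (`log (n+1) ≤ n + 1`, `1 ≤ n + 1`, `1/E ≤ 1`).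
-/

noncomputable section

namespace ZSp

theorem SAnL_iter (b : ℝ) (hb : 1 ≤ b) (A : ℕ → ℝ) (hA2 : ∀ m, A (2 * (m + 1)) ≤ b ^ 2 * A (2 * m)) (s r : ℕ) :
    A (2 * (s + r)) ≤ b ^ (2 * r) * A (2 * s) := by
  induction r with
  | zero => simp
  | succ r ih =>
    have h1 := hA2 (s + r)
    have h2 : b ^ 2 * A (2 * (s + r)) ≤ b ^ 2 * (b ^ (2 * r) * A (2 * s)) :=
      mul_le_mul_of_nonneg_left ih (by positivity)
    have h3 : b ^ 2 * (b ^ (2 * r) * A (2 * s)) = b ^ (2 * (r + 1)) * A (2 * s) := by ring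
    rw [← add_assoc]
    linarith

/-- The second case. -/
theorem SAnL_two (b : ℕ) (hb : 1 ≤ b) (A h : ℕ → ℝ) (k m : ℕ) (hk : 1 ≤ k) (hA1 : ∀ n, 1 ≤ A n) (hh0 : ∀ n, 0 ≤ h n)
    (hA2 : ∀ m, A (2 * (m + 1)) ≤ (b : ℝ) ^ 2 * A (2 * m))
    (hlow : ∀ m : ℕ, (b : ℝ) ^ (2 * m) ≤ (m + 1 : ℝ) ^ (b ^ 2) * h (2 * m))
    (hk2 : ∀ l : ℕ, A (2 * (l * k)) ≤ (((b : ℝ) ^ k - 1) ^ l) ^ 2) (hm : 1 ≤ m)
    (hc : (k : ℝ) < Real.log (m + 1) / (4 * b) + 1) :
    (m + 1 : ℝ) * A (2 * m) ≤ Real.exp 2 * (((2 * b ^ 2 + 2).factorial : ℕ) : ℝ) * (b : ℝ) ^ (2 * (2 * b ^ 2 + 2)) * h (2 * m) := by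
  obtain ⟨x, hx⟩ : ∃ x : ℝ, x = m + 1 := ⟨_, rfl⟩
  have hm' : (1 : ℝ) ≤ m := by exact_mod_cast hm
  have hx2 : 2 ≤ x := by linarith
  have hx0 : 0 < x := by linarith
  have hb' : (1 : ℝ) ≤ b := by exact_mod_cast hb
  have hb0 : (0 : ℝ) < b := by linarith
  rw [← hx] at hc ⊢
  -- b is at least 2
  have hb2 : 2 ≤ b := by
    by_contra hcon
    have h1 : b = 1 := by omega
    have h2 := hk2 1
    rw [h1] at h2
    have h3 := hA1 (2 * (1 * k))
    simp at h2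
    simp at h3
    linarith
  have hb2' : (2 : ℝ) ≤ b := by exact_mod_cast hb2
  -- the fourth root
  obtain ⟨w, hw⟩ : ∃ w : ℝ, w = Real.exp (Real.log x / 4) := ⟨_, rfl⟩
  have hw0 : 0 < w := by rw [hw]; exact Real.exp_pos _
  have hw4 : w ^ 4 = x := by
    rw [hw, ← Real.exp_nat_mul]
    push_cast
    rw [show (4 : ℝ) * (Real.log x / 4) = Real.log x by ring, Real.exp_log hx0]
  have hw1 : 1 ≤ w := by
    rw [hw]
    apply Real.one_le_exp
    have := Real.log_nonneg (show 1 ≤ x by linarith)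
    positivity
  have hlogx : 0 ≤ Real.log x := Real.log_nonneg (by linarith)
  have hbk : (b : ℝ) ^ k ≤ b * w := by
    have h1 : (b : ℝ) ^ k = Real.exp (k * Real.log b) := by
      rw [Real.exp_nat_mul, Real.exp_log hb0]
    have h2 : b * w = Real.exp (Real.log b + Real.log x / 4) := by
      rw [Real.exp_add, Real.exp_log hb0, hw]
    rw [h1, h2]
    apply Real.exp_le_exp.2
    have h3 : 0 ≤ Real.log b := Real.log_nonneg hb'
    have h4 : Real.log b ≤ b := by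
      have := Real.log_le_sub_one_of_pos hb0
      linarith
    have h5 : (k : ℝ) * Real.log b ≤ (Real.log x / (4 * b) + 1) * Real.log b :=
      mul_le_mul_of_nonneg_right hc.le h3
    have h6 : Real.log x / (4 * b) * Real.log b ≤ Real.log x / 4 := by
      rw [div_mul_eq_mul_div, div_le_div_iff₀ (by positivity) (by norm_num)]
      nlinarith
    nlinarith
  obtain ⟨B, hB⟩ : ∃ B : ℝ, B = b * w := ⟨_, rfl⟩
  rw [← hB] at hbk
  have hB1 : 1 ≤ B := by rw [hB]; nlinarith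
  have hkB : (k : ℝ) ≤ B := by
    refine le_trans ?_ hbk
    have h1 : k < 2 ^ k := Nat.lt_two_pow_self
    have h2 : (k : ℝ) ≤ (2 : ℝ) ^ k := by exact_mod_cast h1.le
    exact h2.trans (pow_le_pow_left₀ (by norm_num) hb2' k)
  -- division with remainder
  obtain ⟨l, hl⟩ : ∃ l : ℕ, l = m / k := ⟨_, rfl⟩
  obtain ⟨r, hr⟩ : ∃ r : ℕ, r = m % k := ⟨_, rfl⟩
  have hmlr : m = l * k + r := by
    rw [hl, hr, mul_comm]
    exact (Nat.div_add_mod m k).symm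
  have hrk : r < k := by rw [hr]; exact Nat.mod_lt _ hk
  have hk0 : (0 : ℝ) < k := by exact_mod_cast hk
  have hl1 : (m : ℝ) ≤ (l + 1) * k := by
    have : m ≤ (l + 1) * k := by
      rw [hmlr, add_mul, one_mul]
      omega
    exact_mod_cast this
  have hbk0 : (0 : ℝ) < (b : ℝ) ^ k := by positivity
  have hbk1 : (1 : ℝ) ≤ (b : ℝ) ^ k := one_le_pow₀ hb'
  have hA : A (2 * m) ≤ (b : ℝ) ^ (2 * m) * Real.exp (-(2 * l / (b : ℝ) ^ k)) := by
    have h1 : A (2 * m) ≤ (b : ℝ) ^ (2 * r) * A (2 * (l * k)) := by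
      have := SAnL_iter b hb' A hA2 (l * k) r
      rwa [← hmlr] at this
    refine h1.trans ?_
    refine (mul_le_mul_of_nonneg_left (hk2 l) (by positivity)).trans ?_
    have h2 : ((b : ℝ) ^ k - 1) ≤ (b : ℝ) ^ k * Real.exp (-(1 / (b : ℝ) ^ k)) := by
      have h3 := Real.add_one_le_exp (-(1 / (b : ℝ) ^ k))
      have h4 : (b : ℝ) ^ k - 1 = (b : ℝ) ^ k * (-(1 / (b : ℝ) ^ k) + 1) := by
        field_simp
        ring
      rw [h4]
      exact mul_le_mul_of_nonneg_left h3 hbk0.le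
    have h3 : (((b : ℝ) ^ k - 1) ^ l) ^ 2 ≤ (((b : ℝ) ^ k * Real.exp (-(1 / (b : ℝ) ^ k))) ^ l) ^ 2 := by
      apply pow_le_pow_left₀ (pow_nonneg (by linarith) _)
      apply pow_le_pow_left₀ (by linarith) h2
    refine (mul_le_mul_of_nonneg_left h3 (by positivity)).trans (le_of_eq ?_)
    rw [mul_pow, mul_pow, ← Real.exp_nat_mul, ← Real.exp_nat_mul, ← mul_assoc]
    congr 1
    · rw [hmlr]; ring
    · congr 1
      push_cast
      ring
  have hexp : w ^ 2 / b ^ 2 - 2 ≤ 2 * l / (b : ℝ) ^ k := by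
    have h1 : 2 * l / B ≤ 2 * l / (b : ℝ) ^ k := by
      apply div_le_div_of_nonneg_left (by positivity) hbk0 hbk
    refine le_trans ?_ h1
    have h2 : (m : ℝ) / B - 1 ≤ l := by
      have h3 : (m : ℝ) ≤ (l + 1) * B := hl1.trans (mul_le_mul_of_nonneg_left hkB (by positivity))
      have h4 : (m : ℝ) / B ≤ l + 1 := by
        rw [div_le_iff₀ (by linarith)]
        exact h3
      linarith
    have h3 : 2 * ((m : ℝ) / B - 1) / B ≤ 2 * l / B := by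
      apply div_le_div_of_nonneg_right _ (by linarith)
      linarith
    refine le_trans ?_ h3
    have h4 : 2 * ((m : ℝ) / B - 1) / B = 2 * m / B ^ 2 - 2 / B := by
      field_simp
    rw [h4]
    have h5 : 2 / B ≤ 2 := by
      rw [div_le_iff₀ (by linarith)]
      linarith
    have h6 : w ^ 2 / b ^ 2 ≤ 2 * m / B ^ 2 := by
      rw [hB, div_le_div_iff₀ (by positivity) (by positivity)]
      have h7 : x ≤ 2 * m := by linarith
      rw [← hw4] at h7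
      have h8 : 0 < (b : ℝ) ^ 2 := by positivity
      calc w ^ 2 * ((b : ℝ) * w) ^ 2 = w ^ 4 * (b : ℝ) ^ 2 := by ring
        _ ≤ 2 * (m : ℝ) * (b : ℝ) ^ 2 := mul_le_mul_of_nonneg_right h7 h8.le
    linarith
  obtain ⟨y, hy⟩ : ∃ y : ℝ, y = w ^ 2 / b ^ 2 := ⟨_, rfl⟩
  rw [← hy] at hexp
  have hy0 : 0 < y := by rw [hy]; positivity
  obtain ⟨k', hk'⟩ : ∃ k' : ℕ, k' = 2 * b ^ 2 + 2 := ⟨_, rfl⟩
  have hA' : A (2 * m) ≤ x ^ (b ^ 2) * h (2 * m) * (Real.exp 2 * Real.exp (-y)) := by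
    refine hA.trans ?_
    have h1 : Real.exp (-(2 * l / (b : ℝ) ^ k)) ≤ Real.exp 2 * Real.exp (-y) := by
      rw [← Real.exp_add]
      apply Real.exp_le_exp.2
      linarith
    have h2 := hlow m
    rw [← hx] at h2
    exact mul_le_mul h2 h1 (Real.exp_pos _).le (le_trans (by positivity) h2)
  have hyk : y ^ k' * (b : ℝ) ^ (2 * k') = x ^ (b ^ 2 + 1) := by
    rw [hy, div_pow, ← pow_mul, ← pow_mul, div_mul_cancel₀ _ (by positivity), ← hw4, ← pow_mul]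
    congr 1
    rw [hk']
    ring
  have hey : Real.exp (-y) * x ^ (b ^ 2 + 1) ≤ (k'.factorial : ℝ) * (b : ℝ) ^ (2 * k') := by
    have h1 := Real.pow_div_factorial_le_exp y hy0.le k'
    have hf : (0 : ℝ) < k'.factorial := by exact_mod_cast Nat.factorial_pos k'
    rw [div_le_iff₀ hf] at h1
    rw [← hyk, ← mul_assoc]
    apply mul_le_mul_of_nonneg_right _ (by positivity)
    have h2 : Real.exp (-y) * Real.exp y = 1 := by rw [← Real.exp_add]; simp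
    have h3 := mul_le_mul_of_nonneg_left h1 (Real.exp_pos (-y)).le
    calc Real.exp (-y) * y ^ k' ≤ Real.exp (-y) * (Real.exp y * k'.factorial) := h3
      _ = k'.factorial := by rw [← mul_assoc, h2, one_mul]
  rw [← hk']
  have h1 := mul_le_mul_of_nonneg_left hA' hx0.le
  refine h1.trans ?_
  have h2 : x * (x ^ (b ^ 2) * h (2 * m) * (Real.exp 2 * Real.exp (-y))) =
      Real.exp 2 * (Real.exp (-y) * x ^ (b ^ 2 + 1)) * h (2 * m) := by ring
  rw [h2]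
  have h3 := mul_le_mul_of_nonneg_left hey (Real.exp_pos 2).le
  have h4 := mul_le_mul_of_nonneg_right h3 (hh0 (2 * m))
  refine h4.trans (le_of_eq ?_)
  ring

theorem fin_log (b C E : ℕ) (hb : 1 ≤ b) (hC : 1 ≤ C) (hE : 1 ≤ E) :
    ∃ c : ℝ, 0 < c ∧ ∀ (A h : ℕ → ℝ) (d k : ℕ), 1 ≤ d → 1 ≤ k → (∀ n, 1 ≤ A n) →
      (∀ n, A n ≤ A (n + 1)) → (∀ n, h n ≤ h (n + 1)) → (∀ n, A n ≤ h n) →
      (∀ m, A (2 * (m + 1)) ≤ (b : ℝ) ^ 2 * A (2 * m)) →
      (∀ m J M : ℕ, M ≤ m → M < k → C * (J * d) ^ E ≤ M → J * A (2 * m) ≤ 2 * h (2 * m)) →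
      (∀ m : ℕ, (b : ℝ) ^ (2 * m) ≤ (m + 1 : ℝ) ^ (b ^ 2) * h (2 * m)) →
      (∀ l : ℕ, A (2 * (l * k)) ≤ (((b : ℝ) ^ k - 1) ^ l) ^ 2) →
      ∀ n : ℕ, 1 ≤ n → c * Real.log (n + 1) ^ (1 / (E : ℝ)) * A n ≤ d * h n := by
  obtain ⟨K₁, hK₁⟩ : ∃ K₁ : ℝ, K₁ = 4 * (b : ℝ) ^ 2 * (8 * b * C : ℝ) ^ (1 / (E : ℝ)) := ⟨_, rfl⟩
  obtain ⟨K₂, hK₂⟩ : ∃ K₂ : ℝ, K₂ = Real.exp 2 * (((2 * b ^ 2 + 2).factorial : ℕ) : ℝ) *
    (b : ℝ) ^ (2 * (2 * b ^ 2 + 2)) := ⟨_, rfl⟩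
  have hb' : (1 : ℝ) ≤ b := by exact_mod_cast hb
  have hC' : (1 : ℝ) ≤ C := by exact_mod_cast hC
  have hE' : (1 : ℝ) ≤ E := by exact_mod_cast hE
  have hK1 : 0 < K₁ := by rw [hK₁]; positivity
  have hK2 : 0 < K₂ := by
    rw [hK₂]
    have hf : (0 : ℝ) < ((2 * b ^ 2 + 2).factorial : ℕ) := by exact_mod_cast Nat.factorial_pos _
    have := Real.exp_pos 2
    positivity
  obtain ⟨K, hK⟩ : ∃ K : ℝ, K = 1 + K₁ + 2 * (b : ℝ) ^ 2 * K₂ := ⟨_, rfl⟩
  have hbK2 : 0 < 2 * (b : ℝ) ^ 2 * K₂ := by positivity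
  have hK0 : 0 < K := by rw [hK]; positivity
  refine ⟨1 / K, by positivity, ?_⟩
  intro A h d k hd hk hA1 hA hh hAh hA2 hJ hlow hk2 n hn
  have hd' : (1 : ℝ) ≤ d := by exact_mod_cast hd
  have hh1 : ∀ n, 1 ≤ h n := fun n => (hA1 n).trans (hAh n)
  have hdh : ∀ n, h n ≤ d * h n := fun n => by nlinarith [hh1 n]
  suffices hs : Real.log (n + 1) ^ (1 / (E : ℝ)) * A n ≤ K * (d * h n) by
    have h1 : 1 / K * Real.log (n + 1) ^ (1 / (E : ℝ)) * A n = (Real.log (n + 1) ^ (1 / (E : ℝ)) * A n) / K := by ring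
    rw [h1, div_le_iff₀ hK0]
    linarith
  have hn' : (1 : ℝ) ≤ n := by exact_mod_cast hn
  have hlog0 : 0 ≤ Real.log (n + 1) := Real.log_nonneg (by linarith)
  have hinvE : 0 ≤ 1 / (E : ℝ) := by positivity
  have hinvE1 : 1 / (E : ℝ) ≤ 1 := by rw [div_le_one (by linarith)]; exact hE'
  have hAmono : Monotone A := monotone_nat_of_le_succ hA
  have hhmono : Monotone h := monotone_nat_of_le_succ hh
  have hDn : 0 < d * h n := by nlinarith [hh1 n]
  rcases Nat.lt_or_ge n 2 with hn2 | hn2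
  · have h1 : n = 1 := by omega
    have h2 : Real.log (n + 1) ^ (1 / (E : ℝ)) ≤ 1 := by
      apply Real.rpow_le_one hlog0 _ hinvE
      rw [h1]
      have := Real.log_two_lt_d9
      norm_num
      linarith
    have h3 : Real.log (n + 1) ^ (1 / (E : ℝ)) * A n ≤ 1 * A n :=
      mul_le_mul_of_nonneg_right h2 (by linarith [hA1 n])
    have h4 : 1 * (d * h n) ≤ K * (d * h n) := by
      apply mul_le_mul_of_nonneg_right _ hDn.le
      rw [hK]; linarith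
    linarith [hAh n, hdh n]
  · obtain ⟨m, hm⟩ : ∃ m : ℕ, m = n / 2 := ⟨_, rfl⟩
    have hm1 : 1 ≤ m := by omega
    have hm1' : (1 : ℝ) ≤ m := by exact_mod_cast hm1
    have hnm : n = 2 * m ∨ n = 2 * m + 1 := by omega
    have hn2m : (n : ℝ) + 1 ≤ 2 * (m + 1) := by
      have : n + 1 ≤ 2 * (m + 1) := by omega
      exact_mod_cast this
    have hAn : A n ≤ (b : ℝ) ^ 2 * A (2 * m) := (hAmono (by omega : n ≤ 2 * (m + 1))).trans (hA2 m)
    have hhn : h (2 * m) ≤ h n := hhmono (by omega)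
    have hlogx : Real.log (n + 1) ≤ 2 * Real.log (m + 1) := by
      have h1 : (n : ℝ) + 1 ≤ (m + 1) ^ 2 := by nlinarith
      have h2 := Real.log_le_log (by linarith) h1
      rw [Real.log_pow] at h2
      push_cast at h2
      exact h2
    rcases le_or_gt (Real.log (m + 1) / (4 * b)) ((k : ℝ) - 1) with hc | hc
    · -- first case
      have hk1 : ((k - 1 : ℕ) : ℝ) = (k : ℝ) - 1 := by
        rw [Nat.cast_sub hk, Nat.cast_one]
      have hM : Real.log (m + 1) / (4 * b) ≤ ((min m (k - 1) : ℕ) : ℝ) := by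
        rw [Nat.cast_min]
        apply le_min
        · have h1 : Real.log (m + 1) ≤ m := by
            have := Real.log_le_sub_one_of_pos (show (0 : ℝ) < m + 1 by linarith)
            linarith
          rw [div_le_iff₀ (by positivity)]
          nlinarith
        · rw [hk1]; exact hc
      have h1 := fin_core b C E d m (min m (k - 1)) n hb hC hE hd A h hA1 hA hh hAh hA2
        (fun J hJ' => hJ m J (min m (k - 1)) (min_le_left _ _) (by omega) hJ') hnm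
      have h2 : Real.log (n + 1) / (8 * b * C) ≤ ((min m (k - 1) : ℕ) : ℝ) / C := by
        have h3 : Real.log (n + 1) / (8 * b * C) = (Real.log (n + 1) / 2 / (4 * b)) / C := by
          ring
        rw [h3]
        apply div_le_div_of_nonneg_right _ (by linarith)
        refine le_trans ?_ hM
        apply div_le_div_of_nonneg_right _ (by positivity)
        linarith
      have h3 := Real.rpow_le_rpow (by positivity) h2 hinvE
      rw [Real.div_rpow hlog0 (by positivity), div_le_iff₀ (by positivity)] at h3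
      have h4 : Real.log (n + 1) ^ (1 / (E : ℝ)) * A n ≤
          ((((min m (k - 1) : ℕ) : ℝ) / C) ^ (1 / (E : ℝ)) * A n) * (8 * b * C : ℝ) ^ (1 / (E : ℝ)) := by
        have := mul_le_mul_of_nonneg_right h3 (show 0 ≤ A n by linarith [hA1 n])
        linarith
      have h5 : ((((min m (k - 1) : ℕ) : ℝ) / C) ^ (1 / (E : ℝ)) * A n) * (8 * b * C : ℝ) ^ (1 / (E : ℝ)) ≤
          (4 * (b : ℝ) ^ 2 * (d * h n)) * (8 * b * C : ℝ) ^ (1 / (E : ℝ)) :=
        mul_le_mul_of_nonneg_right h1 (by positivity)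
      have h6 : (4 * (b : ℝ) ^ 2 * (d * h n)) * (8 * b * C : ℝ) ^ (1 / (E : ℝ)) = K₁ * (d * h n) := by
        rw [hK₁]; ring
      have h7 : K₁ * (d * h n) ≤ K * (d * h n) := by
        apply mul_le_mul_of_nonneg_right _ hDn.le
        rw [hK]; linarith
      linarith
    · have h1 := SAnL_two b hb A h k m hk hA1 (fun n => by linarith [hh1 n]) hA2 hlow hk2 hm1 (by linarith)
      rw [← hK₂] at h1
      have h2 : Real.log (n + 1) ^ (1 / (E : ℝ)) ≤ 2 * (m + 1) := by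
        have h3 : Real.log (n + 1) ≤ n + 1 := by
          have := Real.log_le_sub_one_of_pos (show (0 : ℝ) < n + 1 by linarith)
          linarith
        have h4 := Real.rpow_le_rpow hlog0 h3 hinvE
        have h5 : ((n : ℝ) + 1) ^ (1 / (E : ℝ)) ≤ ((n : ℝ) + 1) ^ (1 : ℝ) :=
          Real.rpow_le_rpow_of_exponent_le (by linarith) hinvE1
        rw [Real.rpow_one] at h5
        linarith
      have h3 : Real.log (n + 1) ^ (1 / (E : ℝ)) * A n ≤ (2 * (m + 1)) * ((b : ℝ) ^ 2 * A (2 * m)) :=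
        mul_le_mul h2 hAn (by linarith [hA1 n]) (by positivity)
      have h4 : (2 * ((m : ℝ) + 1)) * ((b : ℝ) ^ 2 * A (2 * m)) = 2 * (b : ℝ) ^ 2 * (((m : ℝ) + 1) * A (2 * m)) := by ring
      have h5 : 2 * (b : ℝ) ^ 2 * (((m : ℝ) + 1) * A (2 * m)) ≤ 2 * (b : ℝ) ^ 2 * (K₂ * h (2 * m)) :=
        mul_le_mul_of_nonneg_left h1 (by positivity)
      have h6 : 2 * (b : ℝ) ^ 2 * (K₂ * h (2 * m)) ≤ 2 * (b : ℝ) ^ 2 * K₂ * (d * h n) := by
        have := mul_le_mul_of_nonneg_left (hhn.trans (hdh n)) hbK2.le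
        linarith
      have h7 : 2 * (b : ℝ) ^ 2 * K₂ * (d * h n) ≤ K * (d * h n) := by
        apply mul_le_mul_of_nonneg_right _ hDn.le
        rw [hK]; linarith
      linarith

end ZSp
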