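import Pool.Agent.W_f569db_sp.SPow
import Pool.Agent.W_f569db_sp.SAnL
import Pool.Agent.W_f569db_zs.Tri

set_option autoImplicit false

/-!
# The super power law, abstract form

`E = 8 b (b + 2)`, `C = C2 b`, `1 ≤ C`, `1 ≤ E` for `1 ≤ b`.
* `A_two`: `pT_one` for the shape `o.p o` and `t = lin m`: `A (2 + 2 m) = pT t (o.p o) 1 ≤ rank 1 * a t t = b^2 A (2 m)` (`pT_le`,
  `Matrix.rank_one`, `a_eq_A`, `card_L`; `0 < a`: `one_le_A`).
* `sp_pow`: `fin_pow` for `b`, `C2 b`, `8 b (b + 2)`; the last hypothesis is `power` with `M₀ = m`.  Other hypotheses: `one_le_A`,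
  `A_mono`, `h_mono`, `A_le_h`, `A_two`.
* `sp_log`: let `k₀ = M - 1`, `M` the smallest number with `¬ NilBelow M` (`Nat.find`; `NilBelow 0` holds).  There is a shape with `k₀`
  letters and a non-nilpotent element of `N s s` (otherwise `NilBelow M`), so `nil_or_bound` gives the bound for `A (2 (l k₀))`, and
  `1 ≤ k₀` (otherwise `A 0 ≤ 0`, see `zero_one` in `W_f569db_zs/Main`).  `NilBelow k₀` implies `NilBelow (M₀ + 1)` for `M₀ < k₀`, so
  `fin_log` applies (`power`, `low`).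
* `sp_poly`: `fin_poly` with `lowA`; `h n ≤ b^n` (as in `A_le`, `W_f569db_zs/Main`).
-/

noncomputable section

namespace ZS

open Matrix Module ZO ZSp

universe v

namespace Sgn

theorem SFin_C2 (b : ℕ) (hb : 1 ≤ b) : 1 ≤ C2 b := by
  unfold C2 C1
  apply Nat.one_le_iff_ne_zero.2
  apply mul_ne_zero
  · apply pow_ne_zero; omega
  · apply pow_ne_zero
    apply mul_ne_zero (by norm_num)
    apply mul_ne_zero (by positivity)
    have : 0 < b ^ (b + 4) := by positivity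
    omega

theorem SFin_u0 {α : Type} [Fintype α] [DecidableEq α] {K : Type v} [Field K] [CharZero K]
    {u : Matrix (Unit → α) (Empty → α) K} {v : Matrix (Empty → α) (Unit → α) K} (hvu : v * u = 1) : u ≠ 0 := by
  rintro rfl
  rw [Matrix.mul_zero] at hvu
  have h1 := congrFun (congrFun hvu (fun e => e.elim)) (fun e => e.elim)
  rw [Matrix.one_apply_eq] at h1
  exact zero_ne_one h1

theorem SFin_nil_mono {α : Type} [Fintype α] [DecidableEq α] {K : Type v} [Field K] [CharZero K]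
    (Q : SSys α K) {M M' : ℕ} (h : Q.NilBelow M') (hM : M ≤ M') : Q.NilBelow M := by
  intro S _ _ s hs x hx
  exact h S s (lt_of_lt_of_le hs hM) x hx

theorem A_two {α : Type} [Fintype α] [DecidableEq α] [Nonempty α] {K : Type v} [Field K] [CharZero K]
    (Q : SSys α K) {u : Matrix (Unit → α) (Empty → α) K}
    {v : Matrix (Empty → α) (Unit → α) K} (hu : u ∈ Q.P Shp.e Shp.o) (hv : v ∈ Q.P Shp.o Shp.e)
    (hvu : v * u = 1) (m : ℕ) :
    Q.A (2 * (m + 1)) ≤ (Fintype.card α : ℝ) ^ 2 * Q.A (2 * m) := by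
  have hpos : 0 < Q.a (lin m) (lin m) := by
    rw [Q.a_eq_A]
    exact lt_of_lt_of_le one_pos (Q.one_le_A hu hv hvu _)
  have h1 := Q.pT_le (s := Shp.o.p Shp.o) (t := lin m) (Q.one_mem (Shp.o.p Shp.o)) (Matrix.mul_one _) hpos
  rw [Q.pT_one, Matrix.rank_one, Q.a_eq_A, card_L, Fintype.card_fun, Fintype.card_sum, Fintype.card_unit] at h1
  have h2 : 1 + 1 + 2 * m = 2 * (m + 1) := by ring
  have h3 : m + m = 2 * m := by ring
  rw [h2, h3] at h1
  push_cast at h1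
  exact h1

theorem sp_pow (b : ℕ) (hb : 1 ≤ b) : ∃ c : ℝ, 0 < c ∧
    ∀ {α : Type} [Fintype α] [DecidableEq α] {K : Type v} [Field K] [CharZero K]
      (Q : SSys α K) (_ : Sgn Q), Fintype.card α = b → Q.HasPerm →
      ∀ {u : Matrix (Unit → α) (Empty → α) K} {v : Matrix (Empty → α) (Unit → α) K},
      u ∈ Q.P Shp.e Shp.o → v ∈ Q.P Shp.o Shp.e → v * u = 1 → (∀ M, Q.NilBelow M) →
      ∀ (d : ℕ) (z : Matrix (L d → α) (Empty → α) K), 1 ≤ d → z ∈ Q.N Shp.e (lin d) → z ≠ 0 →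
      ∀ n : ℕ, 1 ≤ n → c * (n : ℝ) ^ (1 / (8 * b * (b + 2)) : ℝ) * Q.A n ≤ d * Q.h n := by
  obtain ⟨c, hc, hmain⟩ := fin_pow b (C2 b) (8 * b * (b + 2)) hb (SFin_C2 b hb) (by nlinarith)
  refine ⟨c, hc, ?_⟩
  intro α _ _ K _ _ Q G hcard hQ u v hu hv hvu hnil d z hd hz hz0 n hn
  subst hcard
  have : Nonempty α := Fintype.card_pos_iff.1 hb
  have hu0 := SFin_u0 hvu
  have h1 := hmain Q.A Q.h d hd (Q.one_le_A hu hv hvu) (Q.A_mono hu hv hvu) (Q.h_mono hu hu0) Q.A_le_h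
    (A_two Q hu hv hvu) (by
      intro m J hJ
      apply G.power hQ hu hv hvu (D := L d) (d := lin d) (by rw [card_L]; exact hd) hz hz0 (M₀ := m)
        (hnil (m + 1)) m J le_rfl
      rw [card_L]
      exact hJ) n hn
  push_cast at h1
  exact h1

theorem sp_log (b : ℕ) (hb : 1 ≤ b) : ∃ c : ℝ, 0 < c ∧
    ∀ {α : Type} [Fintype α] [DecidableEq α] {K : Type v} [Field K] [CharZero K]
      (Q : SSys α K) (_ : Sgn Q), Fintype.card α = b → Q.HasPerm →
      ∀ {u : Matrix (Unit → α) (Empty → α) K} {v : Matrix (Empty → α) (Unit → α) K},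
      u ∈ Q.P Shp.e Shp.o → v ∈ Q.P Shp.o Shp.e → v * u = 1 → (¬ ∀ M, Q.NilBelow M) →
      ∀ (d : ℕ) (z : Matrix (L d → α) (Empty → α) K), 1 ≤ d → z ∈ Q.N Shp.e (lin d) → z ≠ 0 →
      ∀ n : ℕ, 1 ≤ n →
        c * Real.log (n + 1) ^ (1 / (8 * b * (b + 2)) : ℝ) * Q.A n ≤ d * Q.h n := by
  obtain ⟨c, hc, hmain⟩ := fin_log b (C2 b) (8 * b * (b + 2)) hb (SFin_C2 b hb) (by nlinarith)
  refine ⟨c, hc, ?_⟩
  intro α _ _ K _ _ Q G hcard hQ u v hu hv hvu hnil d z hd hz hz0 n hn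
  subst hcard
  have : Nonempty α := Fintype.card_pos_iff.1 hb
  have hu0 := SFin_u0 hvu
  push Not at hnil
  classical
  have hM := Nat.find_spec hnil
  have hmin : ∀ M, M < Nat.find hnil → Q.NilBelow M := fun M hM => not_not.1 (Nat.find_min hnil hM)
  have hM0 : Nat.find hnil ≠ 0 := by
    intro h0
    rw [h0] at hM
    apply hM
    intro S _ _ s hs
    omega
  obtain ⟨k₀, hk₀⟩ : ∃ k₀ : ℕ, Nat.find hnil = k₀ + 1 := ⟨Nat.find hnil - 1, by omega⟩
  rw [hk₀] at hM hmin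
  have hM' : ∃ (S : Type) (_ : Fintype S) (_ : DecidableEq S) (s : Shp S), Fintype.card S = k₀ ∧
      ∃ x ∈ Q.N s s, ¬ IsNilpotent x := by
    by_contra hcon
    push Not at hcon
    apply hM
    intro S i1 i2 s hs x hx
    rcases Nat.lt_or_ge (Fintype.card S) k₀ with h1 | h1
    · exact hmin k₀ (by omega) S s h1 x hx
    · exact hcon S i1 i2 s (by omega) x hx
  obtain ⟨S, _, _, s, hs, x, hx, hxn⟩ := hM'
  have h1 : ∀ l : ℕ, Q.A (2 * (l * k₀)) ≤
      (((Fintype.card α : ℝ) ^ k₀ - 1) ^ l) ^ 2 := by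
    have h2 := (Q.nil_or_bound s).resolve_left fun h => hxn (h x hx)
    rw [hs] at h2
    exact h2
  have hk : 1 ≤ k₀ := by
    by_contra hk
    have hk0 : k₀ = 0 := by omega
    have h2 := h1 1
    rw [hk0] at h2
    norm_num at h2
    have h3 := Q.one_le_A_zero
    linarith
  have h2 := hmain Q.A Q.h d k₀ hd hk (Q.one_le_A hu hv hvu) (Q.A_mono hu hv hvu) (Q.h_mono hu hu0) Q.A_le_h
    (A_two Q hu hv hvu) (by
      intro m J M₀ hM₀ hM₀' hJ
      apply G.power hQ hu hv hvu (D := L d) (d := lin d) (by rw [card_L]; exact hd) hz hz0 (M₀ := M₀)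
        (hmin (M₀ + 1) (by omega)) m J hM₀
      rw [card_L]
      exact hJ) (low Q hQ) h1 n hn
  push_cast at h2
  exact h2

theorem sp_poly {α : Type} [Fintype α] [DecidableEq α] [Nonempty α] {K : Type v} [Field K]
    [CharZero K] (Q : SSys α K) (hQ : Q.HasPerm) {u : Matrix (Unit → α) (Empty → α) K}
    {v : Matrix (Empty → α) (Unit → α) K} (hu : u ∈ Q.P Shp.e Shp.o) (hv : v ∈ Q.P Shp.o Shp.e)
    (hvu : v * u = 1) (hnil : ∀ M, Q.NilBelow M) (n : ℕ) (hn : 1 ≤ n) :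
    Q.h n ≤ Fintype.card α * (n : ℝ) ^ (Fintype.card α ^ 2) * Q.A n := by
  exact fin_poly (Fintype.card α) Fintype.card_pos Q.A Q.h (Q.A_mono hu hv hvu) Q.h_le (lowA Q hQ hnil) n hn

end Sgn

end ZS
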