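import Pool.Agent.W_f569db_sp.NTest
import Pool.Agent.W_f569db_sp.NAn
import Pool.Agent.W_f569db_sp.SFin

set_option autoImplicit false

/-!
# The uniform exponential law, abstract form
-/

noncomputable section

namespace ZS

open Matrix Module ZO ZSp

universe v

namespace Sgn

theorem sp_exp (b : ℕ) (hb : 1 ≤ b) : ∃ c : ℝ, 0 < c ∧
    ∀ {α : Type} [Fintype α] [DecidableEq α] {K : Type v} [Field K] [CharZero K]
      (Q : SSys α K) (G : Sgn Q), Fintype.card α = b → Q.HasPerm →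
      (∀ a, (-1 : K) ^ G.par a = Q.ε a) →
      ∀ {u : Matrix (Unit → α) (Empty → α) K} {v : Matrix (Empty → α) (Unit → α) K},
      u ∈ Q.P Shp.e Shp.o → v ∈ Q.P Shp.o Shp.e → v * u = 1 → (¬ ∀ M, Q.NilBelow M) →
      ∀ n : ℕ, c * Real.exp (c * n) * Q.A n ≤ Q.h n := by
  obtain ⟨c, hc, hmain⟩ := fin_exp b hb
  refine ⟨c, hc, ?_⟩
  intro α _ _ K _ _ Q G hcard hQ hε u v hu hv hvu hnil n
  subst hcard
  have : Nonempty α := Fintype.card_pos_iff.1 hb
  have hu0 := SFin_u0 hvu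
  obtain ⟨m, hm, x, hx, hxn⟩ := G.exists_not_nil hε hnil
  have h1 : ∀ l : ℕ, Q.A (2 * (l * m)) ≤ (((Fintype.card α : ℝ) ^ m - 1) ^ l) ^ 2 := by
    have h2 := (Q.nil_or_bound (lin m)).resolve_left fun h => hxn (h x hx)
    rw [card_L] at h2
    exact h2
  have hk : 1 ≤ m := by
    by_contra hk
    have hk0 : m = 0 := by omega
    have h2 := h1 1
    rw [hk0] at h2
    norm_num at h2
    have h3 := Q.one_le_A_zero
    linarith
  exact hmain Q.A Q.h m hk hm (Q.one_le_A hu hv hvu) (Q.A_mono hu hv hvu) (Q.h_mono hu hu0)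
    (A_two Q hu hv hvu) (low Q hQ) h1 n

end Sgn

end ZS
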