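import Pool.Agent.W_f569db_sp.NPar
import Pool.Agent.W_f569db_sp.NFin
import Pool.Agent.W_f569db_zs.SLaw

set_option autoImplicit false

/-!
# The growth trichotomy, uniform version
-/

noncomputable section

namespace ZS

open AlgebraicGeometry CategoryTheory MonoidalCategory ZO
open Pool.Agent.WeilH_h6 Pool.Agent.WeilH_h6.VarClass

universe u v w

/-- There are no numerically trivial endomorphisms of the unit. -/
theorem N_zero {α : Type} [Fintype α] [DecidableEq α] {K : Type v} [Field K] (Q : SSys α K)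
    {z : Matrix (Empty → α) (Empty → α) K} (hz : z ∈ Q.N Shp.e Shp.e) : z = 0 := by
  have h1 : Matrix.trace z = 0 := by
    have h2 := Q.str_N hz
    rw [dg_empty, Matrix.one_mul] at h2
    exact h2
  ext c d
  have h3 : Matrix.trace z = z c d := by
    rw [Matrix.trace, Fintype.sum_unique]
    change z default default = z c d
    rw [Subsingleton.elim c default, Subsingleton.elim d default]
  rw [← h3, h1]
  rfl

variable {k : Type u} [Field k] {𝒱 : VarClass k} {K : Type v} [Field K] [CharZero K]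
  (W : Weil.{u, v, w} 𝒱 K)

/-- All numerically trivial algebraic endomorphisms of `H(Y)` are nilpotent. -/
def NilAt (Y : 𝒱.Obj) : Prop :=
  ∀ φ : W.Hom Y Y, NumTrivEnd W Y φ → ∃ N : ℕ, ∀ x : W.H Y, (W.ap φ)^[N] x = 0

section

variable {X : 𝒱.Obj} {α : Type} [Fintype α] [DecidableEq α] (bs : Module.Basis α K (W.H X))
  (π : α → ℕ) (hπ : ∀ a, W.par X (bs a) = ((-1 : K) ^ π a) • bs a)

include hπ in
/-- a failure of `D(X^m)` in coordinates -/
theorem exists_z {m : ℕ} (hm : ¬ W.HomEqNum (X.pow m)) : 1 ≤ m ∧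
    ∃ z : Matrix (L m → α) (Empty → α) K, z ∈ (sysS W bs π hπ).N Shp.e (lin m) ∧ z ≠ 0 := by
  obtain ⟨a, ha, ha0⟩ := exists_nt W hm
  have key : ∃ z : Matrix (L m → α) (Empty → α) K,
      z ∈ (sysS W bs π hπ).N Shp.e (lin m) ∧ z ≠ 0 := by
    by_contra hcon
    push Not at hcon
    have h2 : (ntSub W (ob X (lin m))).map (vM W bs (lin m)) = ⊥ := by
      rw [map_vM_N W bs π hπ, eq_bot_iff]
      intro z hz
      exact (Submodule.mem_bot K).2 (hcon z hz)
    have h3 : ntSub W (ob X (lin m)) = ⊥ :=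
      Submodule.map_injective_of_injective (vM_injective W bs (lin m))
        (h2.trans (Submodule.map_bot _).symm)
    rw [ob_lin] at h3
    apply ha0
    rw [← Submodule.mem_bot K, ← h3]
    exact ha
  refine ⟨?_, key⟩
  rcases Nat.eq_zero_or_pos m with rfl | h
  · obtain ⟨z, hz, hz0⟩ := key
    exact absurd (N_zero _ hz) hz0
  · exact h

/-- nilpotency on one power in coordinates -/
theorem nilAt_iff (m : ℕ) : NilAt W (X.pow m) ↔
    ∀ x ∈ (sysS W bs π hπ).N (lin m) (lin m), IsNilpotent x := by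
  have hob : NilAt W (X.pow m) ↔ NilAt W (ob X (lin m)) := by rw [ob_lin]
  rw [hob]
  constructor
  · intro h x hx
    obtain ⟨φ, hφ, rfl⟩ := hx.1
    obtain ⟨a, ha, rfl⟩ := hφ
    have h1 : W.NT a := (mt_act_mem_N W bs π hπ (lin m) ha).1 hx
    obtain ⟨N, hN⟩ := h (W.act a) ((numTrivEnd_iff W).2 ⟨a, h1, rfl⟩)
    exact ⟨N, (mt_pow W bs (lin m) (W.act a) N).2 hN⟩
  · intro h φ hφ
    obtain ⟨a, ha, rfl⟩ := (numTrivEnd_iff W).1 hφ
    have h1 := (mt_act_mem_N W bs π hπ (lin m) ha.1).2 ha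
    obtain ⟨N, hN⟩ := h _ h1
    exact ⟨N, (mt_pow W bs (lin m) (W.act a) N).1 hN⟩

end

/-- The criterion and the growth trichotomy, uniform version. -/
theorem law2 (b : ℕ) : ∃ c : ℝ, 0 < c ∧ ∀ {k : Type u} [Field k] {𝒱 : VarClass k} {K : Type v}
    [Field K] [CharZero K] (W : Weil.{u, v, w} 𝒱 K) (X : 𝒱.Obj), Module.finrank K (W.H X) = b →
    (∀ m n : ℕ, 1 ≤ n → (m : ℝ) * homRank W (X.pow n) <
      c * (n : ℝ) ^ (1 / (8 * b * (b + 2)) : ℝ) * numRank W (X.pow n) → W.HomEqNum (X.pow m)) ∧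
    (((∀ n, W.HomEqNum (X.pow n)) ∧ ∀ n, homRank W (X.pow n) = numRank W (X.pow n)) ∨
    ((∃ n, ¬ W.HomEqNum (X.pow n)) ∧ NilNum W X ∧ ∀ n : ℕ, 1 ≤ n →
        (homRank W (X.pow n) : ℝ) ≤ b * (n : ℝ) ^ (b ^ 2) * numRank W (X.pow n)) ∨
    ((∃ n, ¬ W.HomEqNum (X.pow n)) ∧
      (∃ (m : ℕ) (φ : W.Hom (X.pow m) (X.pow m)), 4 * m ≤ b ^ 2 ∧ NumTrivEnd W (X.pow m) φ ∧
        ∀ N : ℕ, ∃ x : W.H (X.pow m), (W.ap φ)^[N] x ≠ 0) ∧
      ¬ AlgParity W X ∧
      ∀ n : ℕ, c * Real.exp (c * n) * numRank W (X.pow n) ≤ homRank W (X.pow n))) := by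
  classical
  rcases Nat.eq_zero_or_pos b with hb | hb
  · subst hb
    refine ⟨1, one_pos, ?_⟩
    intro k _ 𝒱 K _ _ W X hX
    exfalso
    obtain ⟨b', bs, π, hπ⟩ := exists_par_basis W X
    have hne : Nonempty (Fin b') := law_nonempty W bs
    have h1 : Module.finrank K (W.H X) = b' := by
      rw [Module.finrank_eq_card_basis bs, Fintype.card_fin]
    obtain ⟨i⟩ := hne
    have := i.pos
    omega
  obtain ⟨c₁, hc₁, H₁⟩ := Sgn.sp_pow.{v} b hb
  obtain ⟨c₂, hc₂, H₂⟩ := Sgn.sp_exp.{v} b hb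
  obtain ⟨c, hc⟩ : ∃ c, c = min c₁ (min c₂ (c₂ * c₂)) := ⟨_, rfl⟩
  have hc0 : 0 < c := by
    rw [hc]
    exact lt_min hc₁ (lt_min hc₂ (mul_pos hc₂ hc₂))
  have hcc₁ : c ≤ c₁ := by
    rw [hc]
    exact min_le_left _ _
  have hcc₂ : c ≤ c₂ := by
    rw [hc]
    exact (min_le_right _ _).trans (min_le_left _ _)
  have hcc₃ : c ≤ c₂ * c₂ := by
    rw [hc]
    exact (min_le_right _ _).trans (min_le_right _ _)
  have hγ0 : (0 : ℝ) ≤ 1 / (8 * b * (b + 2)) := by positivity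
  have hγ1 : (1 / (8 * b * (b + 2)) : ℝ) ≤ 1 := by
    have hb1 : (1 : ℝ) ≤ b := by exact_mod_cast hb
    rw [div_le_one (by positivity)]
    nlinarith
  refine ⟨c, hc0, ?_⟩
  intro k _ 𝒱 K _ _ W X hX
  obtain ⟨b', bs, π, hπ⟩ := exists_par_basis W X
  have hne : Nonempty (Fin b') := law_nonempty W bs
  obtain ⟨u, v, hu, hv, hvu⟩ := exists_uv W bs π hπ
  have hA : ∀ n, (sysS W bs π hπ).A n = (numRank W (X.pow n) : ℝ) := by
    intro n
    rw [A_sysS, numRank_eq]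
  have hh : ∀ n, (sysS W bs π hπ).h n = (homRank W (X.pow n) : ℝ) := by
    intro n
    rw [h_sysS]
    rfl
  have hb' : Fintype.card (Fin b') = b := by
    rw [← hX, Module.finrank_eq_card_basis bs]
  have hP := sysS_hasPerm W bs π hπ
  have hexp : ¬ NilNum W X → ∀ n : ℕ,
      c₂ * Real.exp (c₂ * n) * numRank W (X.pow n) ≤ homRank W (X.pow n) := by
    intro hnil n
    have hnil' : ¬ ∀ M, (sysS W bs π hπ).NilBelow M :=
      fun h => hnil ((nilNum_iff W bs π hπ).2 h)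
    have h2 := H₂ (sysS W bs π hπ) (sgnS W bs π hπ) hb' hP (par_sgnS W bs π hπ) hu hv hvu hnil' n
    rw [hA, hh] at h2
    exact h2
  refine ⟨?_, ?_⟩
  · intro m n hn1 hlt
    by_contra hm
    obtain ⟨hm1, z, hz, hz0⟩ := exists_z W bs π hπ hm
    have h3 : (0 : ℝ) ≤ (n : ℝ) ^ (1 / (8 * b * (b + 2)) : ℝ) :=
      Real.rpow_nonneg (Nat.cast_nonneg _) _
    by_cases hnil : NilNum W X
    · have h2 := H₁ (sysS W bs π hπ) (sgnS W bs π hπ) hb' hP hu hv hvu
        ((nilNum_iff W bs π hπ).1 hnil) m z hm1 hz hz0 n hn1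
      rw [hA, hh] at h2
      have h4 : c * (n : ℝ) ^ (1 / (8 * b * (b + 2)) : ℝ) * numRank W (X.pow n) ≤
          c₁ * (n : ℝ) ^ (1 / (8 * b * (b + 2)) : ℝ) * numRank W (X.pow n) :=
        mul_le_mul_of_nonneg_right (mul_le_mul_of_nonneg_right hcc₁ h3) (Nat.cast_nonneg _)
      linarith
    · have h2 := hexp hnil n
      have hn1' : (1 : ℝ) ≤ n := by exact_mod_cast hn1
      have h5 : (n : ℝ) ^ (1 / (8 * b * (b + 2)) : ℝ) ≤ n := by
        have h6 := Real.rpow_le_rpow_of_exponent_le hn1' hγ1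
        rwa [Real.rpow_one] at h6
      have h7 : c₂ * n ≤ Real.exp (c₂ * n) := by
        have := Real.add_one_le_exp (c₂ * (n : ℝ))
        linarith
      have h8 : c * (n : ℝ) ^ (1 / (8 * b * (b + 2)) : ℝ) ≤ c₂ * Real.exp (c₂ * n) := by
        calc c * (n : ℝ) ^ (1 / (8 * b * (b + 2)) : ℝ) ≤ c₂ * c₂ * n :=
              mul_le_mul hcc₃ h5 h3 (mul_pos hc₂ hc₂).le
          _ = c₂ * (c₂ * n) := by ring
          _ ≤ c₂ * Real.exp (c₂ * n) := mul_le_mul_of_nonneg_left h7 hc₂.le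
      have h9 : c * (n : ℝ) ^ (1 / (8 * b * (b + 2)) : ℝ) * numRank W (X.pow n) ≤
          c₂ * Real.exp (c₂ * n) * numRank W (X.pow n) :=
        mul_le_mul_of_nonneg_right h8 (Nat.cast_nonneg _)
      have h10 : (homRank W (X.pow n) : ℝ) ≤ m * homRank W (X.pow n) := by
        have hm1' : (1 : ℝ) ≤ m := by exact_mod_cast hm1
        have h11 : (0 : ℝ) ≤ homRank W (X.pow n) := Nat.cast_nonneg _
        nlinarith
      linarith
  · by_cases hD : ∀ n : ℕ, W.HomEqNum (X.pow n)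
    · exact Or.inl ⟨hD, fun n => rank_eq_of_homEqNum W (hD n)⟩
    have hn : ∃ n, ¬ W.HomEqNum (X.pow n) := by
      push Not at hD
      exact hD
    by_cases hnil : NilNum W X
    · refine Or.inr (Or.inl ⟨hn, hnil, ?_⟩)
      intro n hn1
      have h2 := Sgn.sp_poly (sysS W bs π hπ) hP hu hv hvu ((nilNum_iff W bs π hπ).1 hnil) n hn1
      rw [hA, hh, hb'] at h2
      exact h2
    · have hnil' : ¬ ∀ M, (sysS W bs π hπ).NilBelow M :=
        fun h => hnil ((nilNum_iff W bs π hπ).2 h)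
      refine Or.inr (Or.inr ⟨hn, ?_, fun h => hnil (nilNum_of_algParity W h), ?_⟩)
      · obtain ⟨m, hm, x, hx, hxn⟩ := (sgnS W bs π hπ).exists_not_nil (par_sgnS W bs π hπ) hnil'
        rw [hb'] at hm
        have h3 : ¬ NilAt W (X.pow m) := fun h => hxn ((nilAt_iff W bs π hπ m).1 h x hx)
        unfold NilAt at h3
        push Not at h3
        obtain ⟨φ, hφ, h4⟩ := h3
        exact ⟨m, φ, hm, hφ, h4⟩
      · intro n
        refine le_trans ?_ (hexp hnil n)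
        have h5 : c * (n : ℝ) ≤ c₂ * n := mul_le_mul_of_nonneg_right hcc₂ (Nat.cast_nonneg _)
        have h4 : c * Real.exp (c * n) ≤ c₂ * Real.exp (c₂ * n) :=
          mul_le_mul hcc₂ (Real.exp_le_exp.2 h5) (Real.exp_pos _).le hc₂.le
        exact mul_le_mul_of_nonneg_right h4 (Nat.cast_nonneg _)

end ZS
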