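import Pool.Agent.W_f569db_zs.BrA

set_option autoImplicit false

/-!
# The morphisms `X^s' → X^s` of maps of letters

`pr X s i : X^s → X` is the projection to the factor of the letter `i`, `lf s f : T → X^s` the morphism with components `f`,
`mor X s s' e : X^s' → X^s` the morphism of a map `e : S → S'` of the letters.

* `lf_pr`, `ob_hom_ext`: induction on `s` (generalizing the functions and morphisms), with `Obj.lift_fst`, `Obj.lift_snd`, `Obj.hom_ext`,
  `Obj.toPt_unique` (`W_f569db_zs/BrB`, `BrD`: `lhom_ext`, `jI_jm` show the technique).  The object `ob X (s.p t)` is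
  `(ob X s).prod (ob X t)` by definition, `ob X .o = X`, `ob X .e = Obj.pt`.
* `mor_id`, `mor_comp`, `mor_fst`, `mor_snd`: `ob_hom_ext` and `lf_pr`.
-/

noncomputable section

namespace ZS

open AlgebraicGeometry CategoryTheory MonoidalCategory ZO
open Pool.Agent.WeilH_h6 Pool.Agent.WeilH_h6.VarClass Pool.Agent.WeilH_h6.Weil

universe u v w

variable {k : Type u} [Field k] {𝒱 : VarClass k}

/-- the projection of `X^s` to the factor of a letter -/
def pr (X : 𝒱.Obj) : {S : Type} → (s : Shp S) → S → (ob X s ⟶ X)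
  | _, .e, i => i.elim
  | _, .o, _ => 𝟙 X
  | _, .p s t, i => Sum.elim (fun i => Obj.fst (ob X s) (ob X t) ≫ pr X s i)
      (fun j => Obj.snd (ob X s) (ob X t) ≫ pr X t j) i

/-- the morphism to `X^s` with given components -/
def lf {X T : 𝒱.Obj} : {S : Type} → (s : Shp S) → (S → (T ⟶ X)) → (T ⟶ ob X s)
  | _, .e, _ => T.toPt
  | _, .o, f => f ()
  | _, .p s t, f => Obj.lift (lf s (f ∘ Sum.inl)) (lf t (f ∘ Sum.inr))

theorem lf_pr {X T : 𝒱.Obj} {S : Type} (s : Shp S) (f : S → (T ⟶ X)) (i : S) :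
    lf s f ≫ pr X s i = f i := by
  induction s with
  | e => exact i.elim
  | o => exact Category.comp_id _
  | p s t ihs iht =>
    rcases i with i | j
    · have h1 : lf (s.p t) f ≫ pr X (s.p t) (Sum.inl i) =
          Obj.lift (lf s (f ∘ Sum.inl)) (lf t (f ∘ Sum.inr)) ≫
            (Obj.fst (ob X s) (ob X t) ≫ pr X s i) := rfl
      rw [h1, ← Category.assoc, Obj.lift_fst]
      exact ihs (f ∘ Sum.inl) i
    · have h1 : lf (s.p t) f ≫ pr X (s.p t) (Sum.inr j) =
          Obj.lift (lf s (f ∘ Sum.inl)) (lf t (f ∘ Sum.inr)) ≫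
            (Obj.snd (ob X s) (ob X t) ≫ pr X t j) := rfl
      rw [h1, ← Category.assoc, Obj.lift_snd]
      exact iht (f ∘ Sum.inr) j

theorem ob_hom_ext {X T : 𝒱.Obj} {S : Type} (s : Shp S) {f g : T ⟶ ob X s}
    (h : ∀ i, f ≫ pr X s i = g ≫ pr X s i) : f = g := by
  induction s with
  | e => exact Obj.toPt_unique f g
  | o =>
    exact (Category.comp_id (X := T) (Y := X) f).symm.trans
      ((h ()).trans (Category.comp_id (X := T) (Y := X) g))
  | p s t ihs iht =>
    refine Obj.hom_ext (X := ob X s) (Y := ob X t) (ihs fun i => ?_) (iht fun j => ?_)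
    · rw [Category.assoc, Category.assoc]
      exact h (Sum.inl i)
    · rw [Category.assoc, Category.assoc]
      exact h (Sum.inr j)

/-- the morphism `X^s' → X^s` of a map of letters -/
def mor (X : 𝒱.Obj) {S S' : Type} (s : Shp S) (s' : Shp S') (e : S → S') : ob X s' ⟶ ob X s :=
  lf s fun i => pr X s' (e i)

theorem mor_pr (X : 𝒱.Obj) {S S' : Type} (s : Shp S) (s' : Shp S') (e : S → S') (i : S) :
    mor X s s' e ≫ pr X s i = pr X s' (e i) := lf_pr s _ i

theorem mor_id (X : 𝒱.Obj) {S : Type} (s : Shp S) : mor X s s (fun i => i) = 𝟙 (ob X s) := by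
  refine ob_hom_ext s fun i => ?_
  rw [mor_pr, Category.id_comp]

theorem mor_comp (X : 𝒱.Obj) {S S' S'' : Type} (s : Shp S) (s' : Shp S') (s'' : Shp S'')
    (e : S → S') (e' : S' → S'') :
    mor X s' s'' e' ≫ mor X s s' e = mor X s s'' (fun i => e' (e i)) := by
  refine ob_hom_ext s fun i => ?_
  rw [Category.assoc, mor_pr, mor_pr, mor_pr]

theorem mor_fst (X : 𝒱.Obj) {S S' T T' : Type} (s : Shp S) (s' : Shp S') (t : Shp T) (t' : Shp T')
    (e : S → S') (f : T → T') :
    mor X (s.p t) (s'.p t') (Sum.map e f) ≫ Obj.fst (ob X s) (ob X t) =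
      Obj.fst (ob X s') (ob X t') ≫ mor X s s' e := by
  refine ob_hom_ext s fun i => ?_
  have h1 := mor_pr X (s.p t) (s'.p t') (Sum.map e f) (Sum.inl i)
  have h2 : mor X s s' e ≫ pr X s i = pr X s' (e i) := mor_pr X s s' e i
  exact (Category.assoc _ _ _).trans (h1.trans
    ((congrArg (fun z => Obj.fst (ob X s') (ob X t') ≫ z) h2.symm).trans
      (Category.assoc _ _ _).symm))

theorem mor_snd (X : 𝒱.Obj) {S S' T T' : Type} (s : Shp S) (s' : Shp S') (t : Shp T) (t' : Shp T')
    (e : S → S') (f : T → T') :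
    mor X (s.p t) (s'.p t') (Sum.map e f) ≫ Obj.snd (ob X s) (ob X t) =
      Obj.snd (ob X s') (ob X t') ≫ mor X t t' f := by
  refine ob_hom_ext t fun i => ?_
  have h1 := mor_pr X (s.p t) (s'.p t') (Sum.map e f) (Sum.inr i)
  have h2 : mor X t t' f ≫ pr X t i = pr X t' (f i) := mor_pr X t t' f i
  exact (Category.assoc _ _ _).trans (h1.trans
    ((congrArg (fun z => Obj.snd (ob X s') (ob X t') ≫ z) h2.symm).trans
      (Category.assoc _ _ _).symm))

end ZS
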