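import Mathlib

set_option autoImplicit false

/-!
# Colorings, Young idempotents, matrices with given margins

Definitions for the pure algebra part of the super power law (folder `W_f569db_sp`).
-/

noncomputable section

namespace ZSp

/-- The permutations which preserve the coloring `u`. -/
def stab {X ι : Type} [Fintype X] [DecidableEq X] [DecidableEq ι] (u : X → ι) :
    Finset (Equiv.Perm X) :=
  Finset.univ.filter fun σ => u ∘ σ = u

theorem mem_stab {X ι : Type} [Fintype X] [DecidableEq X] [DecidableEq ι] {u : X → ι}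
    {σ : Equiv.Perm X} : σ ∈ stab u ↔ u ∘ σ = u := by
  unfold stab
  rw [Finset.mem_filter]
  exact ⟨fun h => h.2, fun h => ⟨Finset.mem_univ _, h⟩⟩

theorem one_mem_stab {X ι : Type} [Fintype X] [DecidableEq X] [DecidableEq ι] (u : X → ι) :
    (1 : Equiv.Perm X) ∈ stab u := mem_stab.2 rfl

theorem card_stab_pos {X ι : Type} [Fintype X] [DecidableEq X] [DecidableEq ι] (u : X → ι) :
    0 < (stab u).card := Finset.card_pos.2 ⟨1, one_mem_stab u⟩

/-- The number of points of color `i`. -/
def fib {X ι : Type} [Fintype X] [DecidableEq ι] (u : X → ι) (i : ι) : ℕ :=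
  (Finset.univ.filter fun x => u x = i).card

/-- The Young idempotent of a coloring: the average of the permutations which preserve it. -/
def yng (K : Type*) [Field K] {X ι : Type} [Fintype X] [DecidableEq X] [DecidableEq ι] (u : X → ι) :
    MonoidAlgebra K (Equiv.Perm X) :=
  ((stab u).card : K)⁻¹ • ∑ σ ∈ stab u, MonoidAlgebra.of K (Equiv.Perm X) σ

/-- The number of matrices of natural numbers with row sums `μ` and column sums `ν`. -/
def nMat {r : ℕ} (μ ν : Fin r → ℕ) : ℕ :=
  ((Fintype.piFinset fun i => Finset.Nat.antidiagonalTuple r (μ i)).filter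
    fun M => ∀ j, ∑ i, M i j = ν j).card

/-- The permutations `w` with `w i ≤ A i` for all `i`. -/
def good {r : ℕ} (A : Fin r → ℕ) : Finset (Equiv.Perm (Fin r)) :=
  Finset.univ.filter fun w => ∀ i, (w i : ℕ) ≤ A i

theorem mem_good {r : ℕ} {A : Fin r → ℕ} {w : Equiv.Perm (Fin r)} :
    w ∈ good A ↔ ∀ i, (w i : ℕ) ≤ A i := by
  unfold good
  rw [Finset.mem_filter]
  exact ⟨fun h => h.2, fun h => ⟨Finset.mem_univ _, h⟩⟩

/-- `A - w` -/
def sb {r : ℕ} (A : Fin r → ℕ) (w : Equiv.Perm (Fin r)) : Fin r → ℕ := fun i => A i - w i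

/-- the sign of a permutation as an integer -/
def sgi {X : Type} [Fintype X] [DecidableEq X] (w : Equiv.Perm X) : ℤ := (Equiv.Perm.sign w : ℤˣ)

/-- The complete homogeneous symmetric polynomials. -/
def hh (r n : ℕ) : MvPolynomial (Fin r) ℤ :=
  ∑ x ∈ Finset.Nat.antidiagonalTuple r n, ∏ j, (MvPolynomial.X j) ^ (x j)

/-- `h_{a - j}`, zero if `a < j` -/
def hz (r a j : ℕ) : MvPolynomial (Fin r) ℤ := if j ≤ a then hh r (a - j) else 0

/-- The power series `(1 + t)^q / (1 - t)^p`. -/
def Hs (p q : ℕ) : PowerSeries ℤ := (1 + PowerSeries.X) ^ q * (PowerSeries.mk fun _ => (1 : ℤ)) ^ p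

/-- Its coefficients. -/
def Rn (p q n : ℕ) : ℤ := PowerSeries.coeff n (Hs p q)

/-- `R_{a - j}`, zero if `a < j` -/
def Rz (p q a j : ℕ) : ℤ := if j ≤ a then Rn p q (a - j) else 0

/-- The exponents `(a, q + 1, q + 2, .., q + p)`. -/
def Ax (p q a : ℕ) : Fin (p + 1) → ℕ := Fin.cons a fun i : Fin p => q + 1 + i

/-- The matrix `R_{q + 1 + i - j}`, `i < p`, `j ≤ p`. -/
def Bx (p q : ℕ) : Matrix (Fin p) (Fin (p + 1)) ℤ := Matrix.of fun i j => Rz p q (q + 1 + i) j

/-- The minor of `Bx` without the first column. -/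
def kap (p q : ℕ) : ℤ := ((Bx p q).submatrix id (Fin.succAbove 0)).det

end ZSp
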