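import Pool.Agent.W_f569db_zs.Chain
import Pool.Agent.W_f569db_zs.LowA
import Pool.Agent.W_f569db_sp.PDefs

set_option autoImplicit false

/-!
# Definitions for the super power law

`Sgn Q`: signed reindexing.  For every bijection `e : S ≃ S'` of the letters of two shapes a morphism
`sg s s' e ∈ Q.P s s'` which maps the basis vector of the word `d : S → α` to a nonzero multiple of the basis vector of
`d ∘ e⁻¹`, functorial and compatible with external products.

`rk κ s σ = (sgn σ)^κ • sg s s σ`, a representation of `Perm S`; `av κ s H`: the average of `rk κ s` over `H`; `esg κ s`: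
over all permutations (the super symmetrizer for `κ = 0`, the super antisymmetrizer for `κ = 1`).

`LS l`, `sS l`: letters and shape of `V^{⊗ l_0} ⊗ (V^{⊗ l_1} ⊗ ⋯)`; `eS κ l` the product of the symmetrizers;
`col l` the number of the block of a letter.

`df t s X = rank X - pT t s X / a t t`, the deficit of an idempotent.
-/

noncomputable section

namespace ZS

open Matrix Module ZO ZSp

/-- Signed reindexing. -/
structure Sgn {α : Type} [Fintype α] [DecidableEq α] {K : Type*} [Field K] (Q : SSys α K) where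
  /-- the morphism of a bijection of the letters -/
  sg : {S S' : Type} → Shp S → Shp S' → (S ≃ S') → Matrix (S' → α) (S → α) K
  mem : ∀ {S S' : Type} [Fintype S] [DecidableEq S] [Fintype S'] [DecidableEq S'] (s : Shp S)
    (s' : Shp S') (e : S ≃ S'), sg s s' e ∈ Q.P s s'
  refl : ∀ {S : Type} [Fintype S] [DecidableEq S] (s : Shp S),
    sg s s (Equiv.refl S) = (1 : Matrix (S → α) (S → α) K)
  trans : ∀ {S S' S'' : Type} [Fintype S] [DecidableEq S] [Fintype S'] [DecidableEq S']
    [Fintype S''] [DecidableEq S''] (s : Shp S) (s' : Shp S') (s'' : Shp S'') (e : S ≃ S')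
    (e' : S' ≃ S''), sg s' s'' e' * sg s s' e = sg s s'' (e.trans e')
  congr : ∀ {S S' T T' : Type} [Fintype S] [DecidableEq S] [Fintype S'] [DecidableEq S']
    [Fintype T] [DecidableEq T] [Fintype T'] [DecidableEq T'] (s : Shp S) (s' : Shp S')
    (t : Shp T) (t' : Shp T') (e : S ≃ S') (f : T ≃ T'),
    sg (s.p t) (s'.p t') (Equiv.sumCongr e f) = kr (sg s s' e) (sg t t' f)
  ne_zero : ∀ {S S' : Type} [Fintype S] [DecidableEq S] [Fintype S'] [DecidableEq S'] (s : Shp S)
    (s' : Shp S') (e : S ≃ S') (c : S' → α), sg s s' e c (c ∘ e) ≠ 0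
  eq_zero : ∀ {S S' : Type} [Fintype S] [DecidableEq S] [Fintype S'] [DecidableEq S'] (s : Shp S)
    (s' : Shp S') (e : S ≃ S') (c : S' → α) (d : S → α), c ∘ e ≠ d → sg s s' e c d = 0

/-- The letters of `V^{⊗ l_0} ⊗ (V^{⊗ l_1} ⊗ ⋯)`. -/
def LS : List ℕ → Type
  | [] => Empty
  | a :: l => L a ⊕ LS l

instance instFintypeLS : (l : List ℕ) → Fintype (LS l)
  | [] => inferInstanceAs (Fintype Empty)
  | a :: l => @instFintypeSum (L a) (LS l) _ (instFintypeLS l)

instance instDecidableEqLS : (l : List ℕ) → DecidableEq (LS l)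
  | [] => inferInstanceAs (DecidableEq Empty)
  | a :: l => @instDecidableEqSum (L a) (LS l) _ (instDecidableEqLS l)

/-- The shape of `V^{⊗ l_0} ⊗ (V^{⊗ l_1} ⊗ ⋯)`. -/
def sS : (l : List ℕ) → Shp (LS l)
  | [] => Shp.e
  | a :: l => (lin a).p (sS l)

/-- The number of the block of a letter. -/
def col : (l : List ℕ) → LS l → ℕ
  | [], x => Empty.elim x
  | _ :: l, x => Sum.elim (fun _ => 0) (fun y => col l y + 1) x

variable {α : Type} [Fintype α] [DecidableEq α] {K : Type*} [Field K] {Q : SSys α K}

namespace Sgn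

variable (G : Sgn Q)

theorem sg_mul {S : Type} [Fintype S] [DecidableEq S] (s : Shp S) (σ τ : Equiv.Perm S) :
    G.sg s s (σ * τ) = G.sg s s σ * G.sg s s τ := (G.trans s s s τ σ).symm

/-- The permutations of the factors, multiplied by the `κ`-th power of the sign. -/
def rk (κ : ℕ) {S : Type} [Fintype S] [DecidableEq S] (s : Shp S) :
    Equiv.Perm S →* Matrix (S → α) (S → α) K where
  toFun σ := ((sgi σ : ℤ) : K) ^ κ • G.sg s s σ
  map_one' := by
    have h : G.sg s s (1 : Equiv.Perm S) = 1 := G.refl s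
    unfold sgi
    rw [h, Equiv.Perm.sign_one, Units.val_one, Int.cast_one, one_pow, one_smul]
  map_mul' σ τ := by
    unfold sgi
    rw [G.sg_mul, Equiv.Perm.sign_mul, Units.val_mul, Int.cast_mul, mul_pow, smul_mul_smul_comm]

theorem rk_apply (κ : ℕ) {S : Type} [Fintype S] [DecidableEq S] (s : Shp S) (σ : Equiv.Perm S) :
    G.rk κ s σ = ((sgi σ : ℤ) : K) ^ κ • G.sg s s σ := rfl

/-- The average over a set of permutations. -/
def av (κ : ℕ) {S : Type} [Fintype S] [DecidableEq S] (s : Shp S) (H : Finset (Equiv.Perm S)) :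
    Matrix (S → α) (S → α) K :=
  (H.card : K)⁻¹ • ∑ σ ∈ H, G.rk κ s σ

/-- The super symmetrizer (`κ` even) and antisymmetrizer (`κ` odd). -/
def esg (κ : ℕ) {S : Type} [Fintype S] [DecidableEq S] (s : Shp S) : Matrix (S → α) (S → α) K :=
  G.av κ s Finset.univ

/-- The product of the symmetrizers of the blocks. -/
def eS (κ : ℕ) : (l : List ℕ) → Matrix (LS l → α) (LS l → α) K
  | [] => (1 : Matrix (Empty → α) (Empty → α) K)
  | a :: l => kr (G.esg κ (lin a)) (eS κ l)

theorem eS_cons (κ a : ℕ) (l : List ℕ) : G.eS κ (a :: l) = kr (G.esg κ (lin a)) (G.eS κ l) := rfl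

/-- The span of the permutations of the factors. -/
def pspan {S : Type} (s : Shp S) : Submodule K (Matrix (S → α) (S → α) K) :=
  Submodule.span K (Set.range fun σ : Equiv.Perm S => G.sg s s σ)

open Classical in
/-- The parity of a letter: `0` if the exchange of the two factors fixes `a ⊗ a`, `1` otherwise. -/
def par (a : α) : ℕ :=
  if G.sg (Shp.o.p Shp.o) (Shp.o.p Shp.o) (Equiv.sumComm Unit Unit) (fun _ => a) (fun _ => a) = 1
  then 0 else 1

/-- The number of letters `a` with `κ + par a` even. -/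
def pk (κ : ℕ) : ℕ := (Finset.univ.filter fun a : α => (κ + G.par a) % 2 = 0).card

/-- The number of letters `a` with `κ + par a` odd. -/
def qk (κ : ℕ) : ℕ := (Finset.univ.filter fun a : α => (κ + G.par a) % 2 = 1).card

end Sgn

namespace SSys

variable (Q)

/-- The deficit of an idempotent. -/
def df {T S : Type} [Fintype S] [DecidableEq S] [Fintype T] [DecidableEq T] (t : Shp T) (s : Shp S)
    (X : Matrix (S → α) (S → α) K) : ℝ :=
  (X.rank : ℝ) - Q.pT t s X / Q.a t t

end SSys

/-- the constant of the deficit of the symmetrizers -/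
def C1 (b : ℕ) : ℕ := 2 ^ b * (b ^ (b + 4) + 2 * (b + 1).factorial * b ^ (b ^ 2 + 3))

/-- the constant of the power law -/
def C2 (b : ℕ) : ℕ := (2 * b) ^ 8 * (2 * C1 b) ^ 4

end ZS
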