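import Pool.Agent.W_f569db_sp.BMor
import Pool.Agent.W_f569db_sp.SDefs
import Pool.Agent.W_f569db_zs.BrE

set_option autoImplicit false

/-!
# Signed reindexing for the system of a variety

* `bS_prod`: `bS s d` is the product, in the order of the letters, of the pullbacks of `bs (d i)` by the projections `pr X s i`:
  induction on `s` (`bS_e`, `bS_o`, `bS_p`, `List.prod_append`, `W.pull_comp`; `W.p1 = W.pull fst`, `map_list_prod`).
* `lets_nodup`, `mem_lets`: induction.
* `perm_prod`: the product of a list of elements of `H(Y)` which are homogeneous for the parity operator changes by a factor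
  `ε ≠ 0` if the list is permuted (induction on `List.Perm`; `W.supercomm` for the swap; `ε` depends on the list).
* `pull_mor`: `pull (mor e) (bS s d)` is the product of the `pull (pr X s' (e i)) (bs (d i))`, `i ∈ lets s` (`mor_pr`), that is the
  product over the list `(lets s).map e` of `F j = pull (pr X s' j) (bs (d (e.symm j)))`; `(lets s).map e` is a permutation of
  `lets s'` (`List.perm_ext_iff_of_nodup`), `W.par_pull` and `hπ` give the parity of `F j`; `perm_prod`, `bS_prod`.
* `sgnS`: `mem`: `W.pull_mem_algHom`; `refl`: `mor_id`, `mt_id`; `trans`: `mor_comp`, `mt_comp`, `W.pull_comp`; `congr`: `mt_ext` and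
  `pull (mor (e ⊕ f)) = extHom (pull (mor e)) (pull (mor f))` (check on the basis or on external products `p1 x * p2 y`,
  `W.extHom_apply`, `mor_fst`, `mor_snd`); `ne_zero`, `eq_zero`: `pull_mor` (see `sysS_hasPerm` in `W_f569db_zs/BrE`).
-/

noncomputable section

namespace ZS

open AlgebraicGeometry CategoryTheory MonoidalCategory ZO Matrix
open Pool.Agent.WeilH_h6 Pool.Agent.WeilH_h6.VarClass Pool.Agent.WeilH_h6.Weil

universe u v w

/-- the letters of a shape in their order -/
def lets : {S : Type} → Shp S → List S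
  | _, .e => []
  | _, .o => [()]
  | _, .p s t => (lets s).map Sum.inl ++ (lets t).map Sum.inr

theorem lets_nodup {S : Type} (s : Shp S) : (lets s).Nodup := by
  induction s with
  | e => exact List.nodup_nil
  | o => exact List.nodup_singleton ()
  | p s t hs ht =>
    change ((lets s).map Sum.inl ++ (lets t).map Sum.inr).Nodup
    refine List.Nodup.append (hs.map Sum.inl_injective) (ht.map Sum.inr_injective) ?_
    intro x hx hy
    obtain ⟨i, _, rfl⟩ := List.mem_map.1 hx
    obtain ⟨j, _, hj⟩ := List.mem_map.1 hy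
    exact Sum.inr_ne_inl hj

theorem mem_lets {S : Type} (s : Shp S) (i : S) : i ∈ lets s := by
  induction s with
  | e => exact i.elim
  | o => exact List.mem_singleton.2 rfl
  | p s t hs ht =>
    change i ∈ (lets s).map Sum.inl ++ (lets t).map Sum.inr
    rw [List.mem_append]
    rcases i with i | i
    · exact Or.inl (List.mem_map.2 ⟨i, hs i, rfl⟩)
    · exact Or.inr (List.mem_map.2 ⟨i, ht i, rfl⟩)

variable {k : Type u} [Field k] {𝒱 : VarClass k} {K : Type v} [Field K]
  (W : Weil.{u, v, w} 𝒱 K)

theorem perm_prod [CharZero K] {Y : 𝒱.Obj} {l l' : List (W.H Y)} (h : l.Perm l')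
    (hl : ∀ x ∈ l, ∃ i : ℕ, W.par Y x = ((-1 : K) ^ i) • x) :
    ∃ ε : K, ε ≠ 0 ∧ l.prod = ε • l'.prod := by
  induction h with
  | nil => exact ⟨1, one_ne_zero, (one_smul K _).symm⟩
  | cons x h ih =>
    obtain ⟨ε, hε, h1⟩ := ih fun y hy => hl y (List.mem_cons_of_mem _ hy)
    refine ⟨ε, hε, ?_⟩
    rw [List.prod_cons, List.prod_cons, h1, mul_smul_comm]
  | swap x y l =>
    obtain ⟨i, hi⟩ := hl x (List.mem_cons_of_mem _ (List.mem_cons_self))
    obtain ⟨j, hj⟩ := hl y (List.mem_cons_self)
    refine ⟨(-1 : K) ^ (j * i), pow_ne_zero _ (neg_ne_zero.2 one_ne_zero), ?_⟩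
    rw [List.prod_cons, List.prod_cons, List.prod_cons, List.prod_cons, ← mul_assoc, ← mul_assoc,
      W.supercomm hj hi, smul_mul_assoc]
  | trans h h' ih ih' =>
    obtain ⟨ε, hε, h1⟩ := ih hl
    obtain ⟨ε', hε', h2⟩ := ih' fun y hy => hl y (h.mem_iff.2 hy)
    exact ⟨ε * ε', mul_ne_zero hε hε', by rw [h1, h2, smul_smul]⟩

variable {X : 𝒱.Obj} {α : Type} (bs : Module.Basis α K (W.H X))

theorem bS_prod {S : Type} (s : Shp S) (d : S → α) :
    bS W bs s d = ((lets s).map fun i => W.pull (pr X s i) (bs (d i))).prod := by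
  induction s with
  | e => exact bS_e W bs d
  | o =>
    rw [bS_o]
    change bs (d ()) = (([()] : List Unit).map fun i => W.pull (𝟙 X) (bs (d i))).prod
    rw [List.map_singleton, List.prod_singleton, W.pull_id]
  | p s t hs ht =>
    rw [bS_p, hs, ht]
    change W.pull (Obj.fst (ob X s) (ob X t)) _ * W.pull (Obj.snd (ob X s) (ob X t)) _ =
      (((lets s).map Sum.inl ++ (lets t).map Sum.inr).map
        fun i => W.pull (pr X (s.p t) i) (bs (d i))).prod
    rw [List.map_append, List.prod_append, map_list_prod, map_list_prod, List.map_map, List.map_map,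
      List.map_map, List.map_map]
    congr 2
    · refine List.map_congr_left fun i _ => ?_
      exact (W.pull_comp (Obj.fst (ob X s) (ob X t)) (pr X s i) (bs (d (Sum.inl i)))).symm
    · refine List.map_congr_left fun i _ => ?_
      exact (W.pull_comp (Obj.snd (ob X s) (ob X t)) (pr X t i) (bs (d (Sum.inr i)))).symm

theorem pull_mor [CharZero K] (π : α → ℕ)
    (hπ : ∀ a, W.par X (bs a) = ((-1 : K) ^ π a) • bs a) {S S' : Type} (s : Shp S) (s' : Shp S')
    (e : S ≃ S') (d : S → α) :
    ∃ ε : K, ε ≠ 0 ∧ W.pull (mor X s s' e) (bS W bs s d) = ε • bS W bs s' (d ∘ e.symm) := by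
  have h1 : W.pull (mor X s s' e) (bS W bs s d) =
      (((lets s).map e).map fun j => W.pull (pr X s' j) (bs (d (e.symm j)))).prod := by
    rw [bS_prod, map_list_prod, List.map_map, List.map_map]
    congr 1
    refine List.map_congr_left fun i _ => ?_
    change W.pull (mor X s s' e) (W.pull (pr X s i) (bs (d i))) =
      W.pull (pr X s' (e i)) (bs (d (e.symm (e i))))
    rw [← W.pull_comp, mor_pr, Equiv.symm_apply_apply]
  have h2 : ((lets s).map e).Perm (lets s') := by
    rw [List.perm_ext_iff_of_nodup ((lets_nodup s).map e.injective) (lets_nodup s')]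
    intro j
    refine ⟨fun _ => mem_lets s' j, fun _ => ?_⟩
    exact List.mem_map.2 ⟨e.symm j, mem_lets s _, e.apply_symm_apply j⟩
  rw [h1, bS_prod]
  refine perm_prod W (h2.map _) ?_
  intro x hx
  obtain ⟨j, _, rfl⟩ := List.mem_map.1 hx
  refine ⟨π (d (e.symm j)), ?_⟩
  rw [W.par_pull, hπ, map_smul]

variable [CharZero K] [Fintype α] [DecidableEq α] (π : α → ℕ)
  (hπ : ∀ a, W.par X (bs a) = ((-1 : K) ^ π a) • bs a)

/-- signed reindexing -/
def sgnS : Sgn (sysS W bs π hπ) where
  sg s s' e := mt W bs s s' (W.pull (mor X s s' e)).toLinearMap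
  mem := by
    intro S S' _ _ _ _ s s' e
    exact mt_mem_PS W bs (W.pull_mem_algHom _)
  refl := by
    intro S _ _ s
    rw [← mt_id W bs s]
    congr 1
    refine LinearMap.ext fun x => ?_
    change W.pull (mor X s s (fun i => i)) x = x
    rw [mor_id, W.pull_id]
  trans := by
    intro S S' S'' _ _ _ _ _ _ s s' s'' e e'
    rw [← mt_comp]
    congr 1
    refine LinearMap.ext fun x => ?_
    change W.pull (mor X s' s'' e') (W.pull (mor X s s' e) x) =
      W.pull (mor X s s'' (fun i => e' (e i))) x
    rw [← W.pull_comp, mor_comp]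
  congr := by
    intro S S' T T' _ _ _ _ _ _ _ _ s s' t t' e f
    rw [← mt_ext]
    congr 1
    refine (bS W bs (s.p t)).ext fun c => ?_
    rw [bS_p]
    refine Eq.trans ?_ (W.extHom_apply (W.pull (mor X s s' e)).toLinearMap
      (W.pull (mor X t t' f)).toLinearMap (bS W bs s (c ∘ Sum.inl)) (bS W bs t (c ∘ Sum.inr))).symm
    refine (map_mul (W.pull (mor X (s.p t) (s'.p t') (Sum.map e f)))
      (show W.H (ob X (s.p t)) from W.pull (Obj.fst (ob X s) (ob X t)) (bS W bs s (c ∘ Sum.inl)))
      (show W.H (ob X (s.p t)) from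
        W.pull (Obj.snd (ob X s) (ob X t)) (bS W bs t (c ∘ Sum.inr)))).trans ?_
    refine congrArg₂ (fun x y : W.H (ob X (s'.p t')) => x * y) ?_ ?_
    · refine (W.pull_comp (mor X (s.p t) (s'.p t') (Sum.map e f)) (Obj.fst (ob X s) (ob X t))
        (bS W bs s (c ∘ Sum.inl))).symm.trans ?_
      refine (congrArg (fun m => W.pull m (bS W bs s (c ∘ Sum.inl)))
        (mor_fst X s s' t t' e f)).trans ?_
      exact W.pull_comp (Obj.fst (ob X s') (ob X t')) (mor X s s' e) (bS W bs s (c ∘ Sum.inl))
    · refine (W.pull_comp (mor X (s.p t) (s'.p t') (Sum.map e f)) (Obj.snd (ob X s) (ob X t))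
        (bS W bs t (c ∘ Sum.inr))).symm.trans ?_
      refine (congrArg (fun m => W.pull m (bS W bs t (c ∘ Sum.inr)))
        (mor_snd X s s' t t' e f)).trans ?_
      exact W.pull_comp (Obj.snd (ob X s') (ob X t')) (mor X t t' f) (bS W bs t (c ∘ Sum.inr))
  ne_zero := by
    intro S S' _ _ _ _ s s' e c
    obtain ⟨ε, hε, h⟩ := pull_mor W bs π hπ s s' e (c ∘ e)
    have h1 : (c ∘ e) ∘ e.symm = c := by
      funext i
      simp
    change (bS W bs s').repr (W.pull (mor X s s' e) (bS W bs s (c ∘ e))) c ≠ 0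
    rw [h, h1, map_smul, Module.Basis.repr_self, Finsupp.smul_apply, Finsupp.single_eq_same,
      smul_eq_mul, mul_one]
    exact hε
  eq_zero := by
    intro S S' _ _ _ _ s s' e c d hcd
    obtain ⟨ε, hε, h⟩ := pull_mor W bs π hπ s s' e d
    change (bS W bs s').repr (W.pull (mor X s s' e) (bS W bs s d)) c = 0
    rw [h, map_smul, Module.Basis.repr_self, Finsupp.smul_apply, Finsupp.single_apply, if_neg,
      smul_zero]
    intro h1
    apply hcd
    rw [← h1]
    funext i
    simp

end ZS
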