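import Pool.Agent.W_f569db_sp.BSgn

set_option autoImplicit false

/-!
# The parity of a letter for the system of a variety

`par_sgnS`: the entry of the exchange `sg (o.p o) (o.p o) (sumComm Unit Unit)` at `(aa, aa)` is `(-1)^(π a * π a) = (-1)^(π a)`:
`mt` of the pull-back by `mor X (o.p o) (o.p o) (swap)`, which maps `p1 x * p2 y` to `p2 x * p1 y` (`mor_pr`, `bS_p`, `bS_o`; `pr X (o.p o)
(inl ()) = fst ≫ 𝟙`, ..), and `p2 (bs a) * p1 (bs a) = (-1)^(π a * π a) • (p1 (bs a) * p2 (bs a))` (`W.supercomm`, `W.par_pull`,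
`hπ`).  So the entry is `1` if `π a` is even and `-1 ≠ 1` if `π a` is odd; the definition of `Sgn.par`.
-/

noncomputable section

namespace ZS

open AlgebraicGeometry CategoryTheory MonoidalCategory ZO Matrix
open Pool.Agent.WeilH_h6 Pool.Agent.WeilH_h6.VarClass Pool.Agent.WeilH_h6.Weil

universe u v w

variable {k : Type u} [Field k] {𝒱 : VarClass k} {K : Type v} [Field K] [CharZero K]
  (W : Weil.{u, v, w} 𝒱 K) {X : 𝒱.Obj} {α : Type} [Fintype α] [DecidableEq α]
  (bs : Module.Basis α K (W.H X)) (π : α → ℕ)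
  (hπ : ∀ a, W.par X (bs a) = ((-1 : K) ^ π a) • bs a)

theorem NPar_pull {S S' : Type} (s : Shp S) (s' : Shp S') (e : S ≃ S') (d : S → α) :
    W.pull (mor X s s' e) (bS W bs s d) =
      (((lets s).map e).map fun j => W.pull (pr X s' j) (bs (d (e.symm j)))).prod := by
  rw [bS_prod, map_list_prod, List.map_map, List.map_map]
  congr 1
  refine List.map_congr_left fun i _ => ?_
  change W.pull (mor X s s' e) (W.pull (pr X s i) (bs (d i))) =
    W.pull (pr X s' (e i)) (bs (d (e.symm (e i))))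
  rw [← W.pull_comp, mor_pr, Equiv.symm_apply_apply]

theorem NPar_entry (a : α) : (sgnS W bs π hπ).sg (Shp.o.p Shp.o) (Shp.o.p Shp.o)
    (Equiv.sumComm Unit Unit) (fun _ => a) (fun _ => a) = (-1 : K) ^ (π a * π a) := by
  have h1 : W.pull (mor X (Shp.o.p Shp.o) (Shp.o.p Shp.o) (Equiv.sumComm Unit Unit))
      (bS W bs (Shp.o.p Shp.o) (fun _ => a)) =
      ((-1 : K) ^ (π a * π a)) • bS W bs (Shp.o.p Shp.o) (fun _ => a) := by
    rw [NPar_pull W bs, bS_prod]
    have e1 : ((lets (Shp.o.p Shp.o)).map (Equiv.sumComm Unit Unit)) = [Sum.inr (), Sum.inl ()] :=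
      rfl
    have e2 : lets (Shp.o.p Shp.o) = [Sum.inl (), Sum.inr ()] := rfl
    rw [e1, e2]
    simp only [List.map_cons, List.map_nil, List.prod_cons, List.prod_nil, mul_one]
    exact W.supercomm (by rw [W.par_pull, hπ, map_smul]) (by rw [W.par_pull, hπ, map_smul])
  change (bS W bs (Shp.o.p Shp.o)).repr
    (W.pull (mor X (Shp.o.p Shp.o) (Shp.o.p Shp.o) (Equiv.sumComm Unit Unit))
      (bS W bs (Shp.o.p Shp.o) (fun _ => a))) (fun _ => a) = _
  rw [h1, map_smul, Module.Basis.repr_self, Finsupp.smul_apply, Finsupp.single_eq_same,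
    smul_eq_mul, mul_one]

theorem par_sgnS (a : α) : (-1 : K) ^ (sgnS W bs π hπ).par a = (sysS W bs π hπ).ε a := by
  have h1 : (sysS W bs π hπ).ε a = (-1 : K) ^ π a := rfl
  rw [h1]
  unfold Sgn.par
  rw [NPar_entry]
  rcases Nat.even_or_odd (π a) with h | h
  · rw [(h.mul_left (π a)).neg_one_pow, h.neg_one_pow, if_pos rfl, pow_zero]
  · rw [(h.mul h).neg_one_pow, h.neg_one_pow, if_neg, pow_one]
    intro h2
    have h3 : (2 : K) = 0 := by
      have h4 : (2 : K) = 1 - (-1) := by norm_num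
      rw [h4, h2, sub_self]
    exact two_ne_zero h3

end ZS
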