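import Pool.Agent.W_f569db_sp.SDefs
import Pool.Agent.W_f569db_zs.Two

set_option autoImplicit false

/-!
# Partial supertraces

For `x ∈ P (s.p t) (s.p t)` the partial supertrace `ptr x`, `ptr x c c' = ∑_d (∏ ε (d i)) * x (c, d) (c', d)`, is in `P s s`, and in
`N s s` if `x ∈ N (s.p t) (s.p t)`.

Proof of `ptr_mem`.  `ptr x` is the product of the following elements of the system:
`pm (sumEmpty S Empty).symm : s → s.p e`, `kr 1 (cupG (G' t)) : s.p e → s.p (t.p t)`, `pm (sumAssoc S T T).symm : → (s.p t).p t`,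
`kr x 1 : (s.p t).p t → (s.p t).p t`, `pm (sumAssoc S T T) : → s.p (t.p t)`, `kr 1 (capG (G t)) : → s.p e`,
`pm (sumEmpty S Empty) : → s`.  The entry of this product at `(c, c')` is
`∑_{d, d', d''} x (c, d'') (c', d) * G' t d d' * G t d'' d'` and `∑_{d'} G' t d d' * G t d'' d' = (G' t * (G t)ᵀ) d d''`;
`(G t)ᵀ = dg * G t = G t * dg` (`g_symm`, `g_even`), so `G' t * (G t)ᵀ = dg` (`g'g`), the diagonal matrix of the `∏ ε (d i)`.
See `W_f569db_zs/Bend`, `BendB` for similar computations (`bnd`).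
`ptr_mem_N`: `kr x 1 ∈ N` if `x ∈ N` (`kr_one_mem_N`), then `N_mul_left`, `N_mul_right`.
`trace_ptr`: `Fintype.sum` over `S ⊕ T → α` (`Equiv.sumArrowEquivProdArrow`).
-/

noncomputable section

namespace ZS

open Matrix Module ZO ZSp

variable {α : Type} [Fintype α] [DecidableEq α] {K : Type*} [Field K] [CharZero K]
  {S T : Type} [Fintype S] [DecidableEq S] [Fintype T] [DecidableEq T]

namespace SSys

variable (Q : SSys α K)

/-- the partial supertrace -/
def ptr (x : Matrix (S ⊕ T → α) (S ⊕ T → α) K) : Matrix (S → α) (S → α) K :=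
  Matrix.of fun c c' => ∑ d : T → α, (∏ i, Q.ε (d i)) * x (Sum.elim c d) (Sum.elim c' d)

theorem NPtr_entry (t : Shp T) (c1 c' : S → α) (d e : T → α) :
    (pm α K (Equiv.sumAssoc S T T).symm *
      (kr (1 : Matrix (S → α) (S → α) K) (cupG (Q.G' t)) *
        pm α K (Equiv.sumEmpty S Empty).symm)) (Sum.elim (Sum.elim c1 d) e) c' =
      (1 : Matrix (S → α) (S → α) K) c1 c' * Q.G' t d e := by
  rw [pm_mul_apply, mul_pm_apply]
  rfl

theorem NPtr_mid (t : Shp T) (x : Matrix (S ⊕ T → α) (S ⊕ T → α) K) (w : (S ⊕ T) ⊕ T → α)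
    (c' : S → α) :
    (kr x (1 : Matrix (T → α) (T → α) K) * (pm α K (Equiv.sumAssoc S T T).symm *
      (kr (1 : Matrix (S → α) (S → α) K) (cupG (Q.G' t)) *
        pm α K (Equiv.sumEmpty S Empty).symm))) w c' =
      ∑ d : T → α, x (w ∘ Sum.inl) (Sum.elim c' d) * Q.G' t d (w ∘ Sum.inr) := by
  rw [BendA_one_kr_mul, BendA_sum, Finset.sum_eq_single c']
  · refine Finset.sum_congr rfl fun d _ => ?_
    rw [NPtr_entry, Matrix.one_apply_eq, one_mul]
  · intro c1 _ hc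
    refine Finset.sum_eq_zero fun d _ => ?_
    rw [NPtr_entry, Matrix.one_apply_ne hc, zero_mul, mul_zero]
  · intro h
    exact absurd (Finset.mem_univ _) h

theorem NPtr_gg (t : Shp T) (d d1 : T → α) :
    ∑ d2 : T → α, Q.G t d1 d2 * Q.G' t d d2 = dg Q.ε T d d1 := by
  have hG : Q.G' t * (Q.G t)ᵀ = dg Q.ε T := by
    rw [Q.g_symm, Q.g_even, ← Matrix.mul_assoc, Q.g'g, Matrix.one_mul]
  rw [← hG, Matrix.mul_apply]
  refine Finset.sum_congr rfl fun d2 _ => ?_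
  rw [Matrix.transpose_apply, mul_comm]

/-- the partial supertrace as a product -/
theorem NPtr_eq (t : Shp T) (x : Matrix (S ⊕ T → α) (S ⊕ T → α) K) :
    Q.ptr x = pm α K (Equiv.sumEmpty S Empty) *
      (kr (1 : Matrix (S → α) (S → α) K) (capG (Q.G t)) * (pm α K (Equiv.sumAssoc S T T) *
        (kr x (1 : Matrix (T → α) (T → α) K) * (pm α K (Equiv.sumAssoc S T T).symm *
          (kr (1 : Matrix (S → α) (S → α) K) (cupG (Q.G' t)) *
            pm α K (Equiv.sumEmpty S Empty).symm))))) := by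
  ext c c'
  rw [pm_mul_apply, BendA_kr_one_mul, BendA_sum]
  have h1 : ∀ d1 d2 : T → α, capG (Q.G t) ((c ∘ (Equiv.sumEmpty S Empty)) ∘ Sum.inr)
      (Sum.elim d1 d2) * (pm α K (Equiv.sumAssoc S T T) *
        (kr x (1 : Matrix (T → α) (T → α) K) * (pm α K (Equiv.sumAssoc S T T).symm *
          (kr (1 : Matrix (S → α) (S → α) K) (cupG (Q.G' t)) *
            pm α K (Equiv.sumEmpty S Empty).symm))))
              (Sum.elim ((c ∘ (Equiv.sumEmpty S Empty)) ∘ Sum.inl) (Sum.elim d1 d2)) c' =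
      ∑ d : T → α, x (Sum.elim c d1) (Sum.elim c' d) * (Q.G t d1 d2 * Q.G' t d d2) := by
    intro d1 d2
    rw [pm_mul_apply, NPtr_mid, Finset.mul_sum]
    refine Finset.sum_congr rfl fun d _ => ?_
    have e1 : (Sum.elim ((c ∘ (Equiv.sumEmpty S Empty)) ∘ Sum.inl) (Sum.elim d1 d2) ∘
        (Equiv.sumAssoc S T T)) ∘ Sum.inl = Sum.elim c d1 := by
      funext y
      rcases y with y | y <;> rfl
    have e2 : (Sum.elim ((c ∘ (Equiv.sumEmpty S Empty)) ∘ Sum.inl) (Sum.elim d1 d2) ∘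
        (Equiv.sumAssoc S T T)) ∘ Sum.inr = d2 := by
      funext y
      rfl
    have e3 : capG (Q.G t) ((c ∘ (Equiv.sumEmpty S Empty)) ∘ Sum.inr) (Sum.elim d1 d2) =
        Q.G t d1 d2 := rfl
    rw [e1, e2, e3]
    ring
  simp_rw [h1]
  show ∑ d : T → α, (∏ i, Q.ε (d i)) * x (Sum.elim c d) (Sum.elim c' d) = _
  refine Finset.sum_congr rfl fun d1 _ => ?_
  rw [Finset.sum_comm]
  simp_rw [← Finset.mul_sum, NPtr_gg]
  rw [Finset.sum_eq_single d1]
  · unfold dg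
    rw [Matrix.diagonal_apply_eq, mul_comm]
  · intro d _ hd
    unfold dg
    rw [Matrix.diagonal_apply_ne _ hd, mul_zero]
  · intro h
    exact absurd (Finset.mem_univ _) h

theorem ptr_mem (s : Shp S) (t : Shp T) {x : Matrix (S ⊕ T → α) (S ⊕ T → α) K}
    (hx : x ∈ Q.P (s.p t) (s.p t)) : Q.ptr x ∈ Q.P s s := by
  rw [Q.NPtr_eq t x]
  exact Q.mul_mem (Q.runit_mem s) (Q.mul_mem (Q.kr_mem (Q.one_mem s) (Q.cap_mem t))
    (Q.mul_mem (Q.assoc_mem s t t) (Q.mul_mem (Q.kr_mem hx (Q.one_mem t))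
      (Q.mul_mem (Q.assoc_symm_mem s t t) (Q.mul_mem (Q.kr_mem (Q.one_mem s) (Q.cup_mem t))
        (Q.runit_symm_mem s))))))

theorem ptr_mem_N (s : Shp S) (t : Shp T) {x : Matrix (S ⊕ T → α) (S ⊕ T → α) K}
    (hx : x ∈ Q.N (s.p t) (s.p t)) : Q.ptr x ∈ Q.N s s := by
  rw [Q.NPtr_eq t x]
  exact Q.N_mul_left (Q.runit_mem s) (Q.N_mul_left (Q.kr_mem (Q.one_mem s) (Q.cap_mem t))
    (Q.N_mul_left (Q.assoc_mem s t t) (Q.N_mul_right (Q.kr_one_mem_N (s := t) hx)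
      (Q.mul_mem (Q.assoc_symm_mem s t t) (Q.mul_mem (Q.kr_mem (Q.one_mem s) (Q.cup_mem t))
        (Q.runit_symm_mem s))))))

theorem trace_ptr (x : Matrix (S ⊕ T → α) (S ⊕ T → α) K) :
    Matrix.trace (Q.ptr x) = ∑ w : S ⊕ T → α, (∏ i, Q.ε (w (Sum.inr i))) * x w w := by
  rw [BendA_sum]
  rfl

end SSys

end ZS
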