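import Pool.Agent.W_f569db_sp.SPar

set_option autoImplicit false

/-!
# The pigeonhole relation

* `sg_swap`: if `c x = c y` the transposition `swap x y` acts on the word `c` by `(-1)^(par (c x))`.  Proof: as in `par_const`
  (`SPar.lean`): transport by a bijection `e : S ≃ (Unit ⊕ Unit) ⊕ L k` with `e x = inl (inl ())`, `e y = inl (inr ())`
  (`sg_conj`; a diagonal entry is invariant because `sg e` has in each row only one nonzero entry and
  `sg e * sg e.symm = 1`), then `G.congr`, `G.refl` and the definition of `par` (`(± 1)`: the square of the entry is one).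
* `pigeon`: let `p = #{a | ε a = 1}`, `q = #{a | ε a = -1}`, `p q < #S`, `(-1)^(par a) = ε a`.  If all letters of `c` have `ε = 1` and
  all letters of `d'` have `ε = -1` then `∑_σ sg σ c c' * sg σ⁻¹ d d' = 0`.
  Proof.  The map `x ↦ (c x, d' x)` from `S` to `{a | ε a = 1} × {a | ε a = -1}` is not injective
  (`Finset.exists_ne_map_eq_of_card_lt_of_maps_to`): `x ≠ y`, `c x = c y`, `d' x = d' y`.  Let `τ = swap x y`.  Substitute `τ * σ` for `σ`
  (`Equiv.sum_comp (Equiv.mulLeft τ)`): `sg (τ * σ) c c' = ∑_b sg τ c b * sg σ b c' = sg τ c c * sg σ c c'` (`eq_zero`: only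
  `b = c ∘ τ = c`), `sg (τ * σ)⁻¹ d d' = ∑_b sg σ⁻¹ d b * sg τ b d' = sg σ⁻¹ d d' * sg τ d' d'` (`b ∘ τ = d'` means `b = d'`).  The
  product changes by the factor `(-1)^(par (c x)) (-1)^(par (d' x)) = ε (c x) ε (d' x) = -1` (`sg_swap`), so the sum `s` satisfies
  `s = - s`.
-/

noncomputable section

namespace ZS

open Matrix Module ZO ZSp

variable {α : Type} [Fintype α] [DecidableEq α] {K : Type*} [Field K] [CharZero K] {Q : SSys α K}
  {S : Type} [Fintype S] [DecidableEq S]

open Classical in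
/-- the number of even letters -/
def SSys.np (Q : SSys α K) : ℕ := (Finset.univ.filter fun a : α => Q.ε a = 1).card

open Classical in
/-- the number of odd letters -/
def SSys.nq (Q : SSys α K) : ℕ := (Finset.univ.filter fun a : α => Q.ε a = -1).card

theorem SSys.np_add_nq (Q : SSys α K) : Q.np + Q.nq = Fintype.card α := by
  classical
  unfold SSys.np SSys.nq
  rw [← Finset.card_union_of_disjoint]
  · have h : (Finset.univ.filter fun a : α => Q.ε a = 1) ∪ (Finset.univ.filter fun a : α => Q.ε a = -1) = Finset.univ := by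
      ext a
      simp only [Finset.mem_union, Finset.mem_filter, Finset.mem_univ, true_and, iff_true]
      exact mul_self_eq_one_iff.1 (Q.ε_sq a)
    rw [h, Finset.card_univ]
  · rw [Finset.disjoint_left]
    intro a ha hb
    have h1 := (Finset.mem_filter.1 ha).2
    have h2 := (Finset.mem_filter.1 hb).2
    rw [h1] at h2
    exact one_ne_zero (self_eq_neg.1 h2)

namespace Sgn

variable (G : Sgn Q)

theorem NSgn_equiv {S' : Type} [Fintype S'] [DecidableEq S'] (hcard : Fintype.card S = Fintype.card S') {x y : S}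
    (hxy : x ≠ y) {A B : S'} (hAB : A ≠ B) : ∃ e : S ≃ S', e x = A ∧ e y = B := by
  let e0 : S ≃ S' := Fintype.equivOfCardEq hcard
  let e1 : S ≃ S' := e0.trans (Equiv.swap (e0 x) A)
  have h1 : e1 x = A := by
    show Equiv.swap (e0 x) A (e0 x) = A
    exact Equiv.swap_apply_left _ _
  refine ⟨e1.trans (Equiv.swap (e1 y) B), ?_, ?_⟩
  · show Equiv.swap (e1 y) B (e1 x) = A
    rw [h1]
    apply Equiv.swap_apply_of_ne_of_ne _ hAB
    intro h
    rw [← h1] at h
    exact hxy (e1.injective h)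
  · show Equiv.swap (e1 y) B (e1 y) = B
    exact Equiv.swap_apply_left _ _

theorem NSgn_comp_swap {x y : S} {c : S → α} (hc : c x = c y) : c ∘ (Equiv.swap x y) = c := by
  funext z
  show c (Equiv.swap x y z) = c z
  by_cases h1 : z = x
  · rw [h1, Equiv.swap_apply_left, hc]
  · by_cases h2 : z = y
    · rw [h2, Equiv.swap_apply_right, hc]
    · rw [Equiv.swap_apply_of_ne_of_ne h1 h2]

theorem NSgn_sgi : ((sgi (Equiv.sumComm Unit Unit : Equiv.Perm (Unit ⊕ Unit)) : ℤ) : K) = -1 := by
  have h : (Equiv.sumComm Unit Unit : Equiv.Perm (Unit ⊕ Unit)) = Equiv.swap (Sum.inl ()) (Sum.inr ()) := by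
    apply Equiv.ext
    rintro (⟨⟩ | ⟨⟩)
    · rw [Equiv.swap_apply_left]
      rfl
    · rw [Equiv.swap_apply_right]
      rfl
  rw [h]
  unfold sgi
  rw [Equiv.Perm.sign_swap (fun h => by cases h), Units.val_neg, Units.val_one, Int.cast_neg, Int.cast_one]

theorem NSgn_transport {S' : Type} [Fintype S'] [DecidableEq S'] (s : Shp S) (s' : Shp S')
    (e : S ≃ S') (σ : Equiv.Perm S) (c : S → α) :
    G.sg s' s' (e.symm.trans (σ.trans e)) (c ∘ e.symm) (c ∘ e.symm) = G.sg s s σ c c := by
  have hce : (c ∘ e.symm) ∘ e = c := by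
    funext z
    show c (e.symm (e z)) = c z
    rw [Equiv.symm_apply_apply]
  have hz : ∀ j : S → α, j ≠ c → G.sg s' s e.symm j (c ∘ e.symm) = 0 := by
    intro j hj
    apply G.eq_zero
    intro h
    apply hj
    funext z
    have h4 := congrFun h (e z)
    simp only [Function.comp_apply, Equiv.symm_apply_apply] at h4
    exact h4
  have hz2 : ∀ k : S → α, k ≠ c → G.sg s s' e (c ∘ e.symm) k = 0 := by
    intro k hk
    apply G.eq_zero
    intro h
    apply hk
    rw [← h, hce]
  have h1 : (G.sg s s' e * G.sg s' s e.symm) (c ∘ e.symm) (c ∘ e.symm) = 1 := by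
    rw [G.sg_mul_symm, Matrix.one_apply_eq]
  have h2 : (G.sg s s' e * G.sg s' s e.symm) (c ∘ e.symm) (c ∘ e.symm) =
      G.sg s s' e (c ∘ e.symm) c * G.sg s' s e.symm c (c ∘ e.symm) := by
    rw [Matrix.mul_apply]
    refine Finset.sum_eq_single c (fun d _ hd => ?_) (fun h => ?_)
    · rw [hz2 d hd, zero_mul]
    · exact absurd (Finset.mem_univ _) h
  have h3 : (G.sg s s' e * G.sg s s σ) (c ∘ e.symm) c = G.sg s s' e (c ∘ e.symm) c * G.sg s s σ c c := by
    rw [Matrix.mul_apply]
    refine Finset.sum_eq_single c (fun d _ hd => ?_) (fun h => ?_)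
    · rw [hz2 d hd, zero_mul]
    · exact absurd (Finset.mem_univ _) h
  rw [← G.sg_conj s s' e σ, Matrix.mul_apply, Finset.sum_eq_single c]
  · rw [h3, mul_right_comm, ← h2, h1, one_mul]
  · intro d _ hd
    rw [hz d hd, mul_zero]
  · intro h
    exact absurd (Finset.mem_univ _) h

theorem sg_swap (s : Shp S) {x y : S} (hxy : x ≠ y) {c : S → α} (hc : c x = c y) :
    G.sg s s (Equiv.swap x y) c c = (-1 : K) ^ G.par (c x) := by
  have hc2 : Fintype.card S = Fintype.card ((Unit ⊕ Unit) ⊕ L (Fintype.card S - 2)) := by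
    have h1 : 1 < Fintype.card S := Fintype.one_lt_card_iff.2 ⟨x, y, hxy⟩
    rw [Fintype.card_sum, Fintype.card_sum, card_L, Fintype.card_unit]
    omega
  obtain ⟨e, hex, hey⟩ := NSgn_equiv (S' := (Unit ⊕ Unit) ⊕ L (Fintype.card S - 2)) hc2 hxy
    (A := Sum.inl (Sum.inl ())) (B := Sum.inl (Sum.inr ())) (fun h => by cases h)
  have hcs : c ∘ (Equiv.swap x y) = c := NSgn_comp_swap hc
  rw [← NSgn_transport G s ((Shp.o.p Shp.o).p (lin (Fintype.card S - 2))) e (Equiv.swap x y) c]
  have h4 : e.symm.trans ((Equiv.swap x y).trans e) =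
      Equiv.sumCongr (Equiv.sumComm Unit Unit) (Equiv.refl (L (Fintype.card S - 2))) := by
    have h5 : e.symm.trans ((Equiv.swap x y).trans e) =
      Equiv.swap (Sum.inl (Sum.inl ())) (Sum.inl (Sum.inr ())) := by
      rw [← Equiv.trans_assoc, Equiv.symm_trans_swap_trans, hex, hey]
    rw [h5]
    apply Equiv.ext
    rintro ((⟨⟩ | ⟨⟩) | z)
    · rw [Equiv.swap_apply_left]
      rfl
    · rw [Equiv.swap_apply_right]
      rfl
    · rw [Equiv.swap_apply_of_ne_of_ne (fun h => by cases h) (fun h => by cases h)]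
      rfl
  rw [h4, G.congr, G.refl]
  have h6 : (c ∘ e.symm) ∘ Sum.inl = fun _ : Unit ⊕ Unit => c x := by
    funext z
    rcases z with ⟨⟩ | ⟨⟩
    · show c (e.symm (Sum.inl (Sum.inl ()))) = c x
      rw [← hex, Equiv.symm_apply_apply]
    · show c (e.symm (Sum.inl (Sum.inr ()))) = c x
      rw [← hey, Equiv.symm_apply_apply, hc]
  unfold kr
  rw [Matrix.of_apply, h6, Matrix.one_apply_eq, mul_one, G.par_const, NSgn_sgi]

theorem pigeon (hε : ∀ a, (-1 : K) ^ G.par a = Q.ε a) (s : Shp S)
    (hS : Q.np * Q.nq < Fintype.card S) {c c' d d' : S → α} (hc : ∀ x, Q.ε (c x) = 1)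
    (hd : ∀ x, Q.ε (d' x) = -1) :
    ∑ σ : Equiv.Perm S, G.sg s s σ c c' * G.sg s s σ⁻¹ d d' = 0 := by
  classical
  obtain ⟨x, -, y, -, hxy, hmap⟩ := Finset.exists_ne_map_eq_of_card_lt_of_maps_to
    (s := (Finset.univ : Finset S))
    (t := (Finset.univ.filter fun a : α => Q.ε a = 1) ×ˢ (Finset.univ.filter fun a : α => Q.ε a = -1))
    (by
      rw [Finset.card_product, Finset.card_univ]
      unfold SSys.np SSys.nq at hS
      exact hS)
    (f := fun x => (c x, d' x))
    (fun x _ => by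
      simp only [Finset.coe_product, Set.mem_prod, Finset.mem_coe, Finset.mem_filter, Finset.mem_univ, true_and]
      exact ⟨hc x, hd x⟩)
  have hcx : c x = c y := congrArg Prod.fst hmap
  have hdx : d' x = d' y := congrArg Prod.snd hmap
  have hsc : c ∘ (Equiv.swap x y) = c := NSgn_comp_swap hcx
  have hsd : d' ∘ (Equiv.swap x y) = d' := NSgn_comp_swap hdx
  have hdx0 : (-1 : K) ^ G.par (d' x) = -1 := by rw [hε, hd]
  have hcx0 : (-1 : K) ^ G.par (c x) = 1 := by rw [hε, hc]
  have key : ∀ σ : Equiv.Perm S, G.sg s s (Equiv.swap x y * σ) c c' * G.sg s s (Equiv.swap x y * σ)⁻¹ d d' =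
      -(G.sg s s σ c c' * G.sg s s σ⁻¹ d d') := by
    intro σ
    have h1 : G.sg s s (Equiv.swap x y * σ) c c' = G.sg s s σ c c' := by
      rw [G.sg_mul, Matrix.mul_apply, Finset.sum_eq_single c]
      · rw [G.sg_swap s hxy hcx, hcx0, one_mul]
      · intro b _ hb
        rw [G.eq_zero s s (Equiv.swap x y) c b (fun h => hb (by rw [← h, hsc])), zero_mul]
      · intro h
        exact absurd (Finset.mem_univ _) h
    have h2 : G.sg s s (Equiv.swap x y * σ)⁻¹ d d' = -G.sg s s σ⁻¹ d d' := by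
      rw [_root_.mul_inv_rev, Equiv.swap_inv, G.sg_mul, Matrix.mul_apply, Finset.sum_eq_single d']
      · rw [G.sg_swap s hxy hdx, hdx0, mul_neg_one]
      · intro b _ hb
        rw [G.eq_zero s s (Equiv.swap x y) b d' (fun h => hb ?_), mul_zero]
        rw [← hsd, ← h]
        funext z
        show b z = b (Equiv.swap x y (Equiv.swap x y z))
        rw [Equiv.swap_apply_self]
      · intro h
        exact absurd (Finset.mem_univ _) h
    rw [h1, h2, mul_neg]
  have hsum := Equiv.sum_comp (Equiv.mulLeft (Equiv.swap x y))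
    (fun σ : Equiv.Perm S => G.sg s s σ c c' * G.sg s s σ⁻¹ d d')
  simp only [Equiv.coe_mulLeft] at hsum
  rw [Finset.sum_congr rfl (fun σ _ => key σ), Finset.sum_neg_distrib] at hsum
  exact self_eq_neg.1 hsum.symm

end Sgn

end ZS
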