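import Pool.Agent.W_f569db_sp.NTwo
import Pool.Agent.W_f569db_sp.NSgn
import Pool.Agent.W_f569db_sp.NPtr
import Pool.Agent.W_f569db_zs.Par

set_option autoImplicit false

/-!
# Nilpotency can be tested on `p q` letters

`nil_test`: if the elements of `N s s` are nilpotent for all shapes with at most `p q` letters (`p`, `q` the numbers of even and of
odd letters) then for all shapes.

Proof.  Strong induction on `n = #S > p q`.  All shapes with less than `n` letters are fine.  Let `x ∈ N s s`.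
(1) `trace_J`: for every nonempty `J ⊆ S`: `∑_w (∏_{j ∈ J} ε (w j)) * x w w = 0`.  Choose `f : S ≃ L i ⊕ L l` with `f j` in the
second summand iff `j ∈ J`, `l = #J`, `i = n - l < n`.  `x' = sg f * x * sg f.symm ∈ N ((lin i).p (lin l)) (..)` (`N_mul_left`,
`N_mul_right`), `ptr x' ∈ N (lin i) (lin i)` is nilpotent, so its trace is zero (`Matrix.isNilpotent_trace_of_isNilpotent`).
`trace_ptr`, and `x' w w = x (w ∘ f) (w ∘ f)` (`sg f` has in row `w` only the entry at `w ∘ f`, `sg f * sg f.symm = 1`).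
(2) `trace_pm`: for `t = ± 1`: `∑_w x w w = 2^n ∑_{w, all ε (w j) = t} x w w`: sum (1) times `t^#J` over all `J` (`J = ∅` gives the
trace): `∑_J ∏_{j ∈ J} t ε (w j) = ∏_j (1 + t ε (w j))` (`Finset.prod_one_add`), which is `2^n` if all `ε (w j) = t` and zero
otherwise (`ε = ± 1` by `ε_sq`).
(3) Let `D t` be the diagonal matrix with entry `1` at the words with all `ε (w j) = t` and `0` otherwise; it commutes with the
`sg s s σ` (`eq_zero`; the letters of `w ∘ σ` are the letters of `w`) and `D t * D t = D t`.  Let `φ σ = trace (x * sg s s σ)`.  As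
`x * sg s s σ ∈ N s s`, (2) gives `φ σ = 2^n trace (x * sg s s σ * D t)`.
`two_rep` for `R σ = sg s s σ * D 1`, `T σ = sg s s σ * D (-1)`: multiplicative; the relation is `pigeon` (the entry `(c, c')` of
`R σ` is zero unless all letters of `c'`, hence of `c = c' ∘ σ⁻¹`, are even; the same for `T σ⁻¹ d d'`); `h0`, `h1`:
`∑ a σ * φ σ = 2^n trace (x * ∑ a σ • R σ)`.  So `φ 1 = trace x = 0`.
(4) The powers `x^k`, `k ≥ 1`, are in `N s s` too, so all their traces are zero and `x` is nilpotent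
(`isNilpotent_of_trace_pow`, see `W_f569db_zs/Par`).

`exists_not_nil`: by `nil_test` there are a shape `s` with `m = #S ≤ p q` letters and a non-nilpotent `x ∈ N s s`; conjugate by
`sg s (lin m) e`, `e : S ≃ L m`; `4 p q ≤ (p + q)^2 = (#α)^2` (`np_add_nq`).
-/

noncomputable section

namespace ZS

open Matrix Module ZO ZSp

variable {α : Type} [Fintype α] [DecidableEq α] {K : Type*} [Field K] [CharZero K] {Q : SSys α K}

namespace Sgn

variable (G : Sgn Q)

omit [CharZero K] in
/-- the diagonal entries of a conjugate -/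
theorem NTest_diag {S S' : Type} [Fintype S] [DecidableEq S] [Fintype S'] [DecidableEq S']
    (s : Shp S) (s' : Shp S') (e : S ≃ S') (x : Matrix (S → α) (S → α) K) (w : S' → α) :
    (G.sg s s' e * x * G.sg s' s e.symm) w w = x (w ∘ e) (w ∘ e) := by
  have h1 : ∀ b : S → α, b ≠ w ∘ e → G.sg s' s e.symm b w = 0 := by
    intro b hb
    refine G.eq_zero s' s e.symm b w fun h => hb ?_
    rw [← h]
    funext y
    exact congrArg b (e.symm_apply_apply y).symm
  have h2 : ∀ a : S → α, a ≠ w ∘ e → G.sg s s' e w a = 0 := fun a ha =>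
    G.eq_zero s s' e w a fun h => ha h.symm
  have h3 : G.sg s s' e w (w ∘ e) * G.sg s' s e.symm (w ∘ e) w = 1 := by
    have h4 : G.sg s s' e * G.sg s' s e.symm = 1 := by
      rw [G.trans s' s s' e.symm e, Equiv.symm_trans_self]
      exact G.refl s'
    have h5 : (G.sg s s' e * G.sg s' s e.symm) w w = 1 := by
      rw [h4, Matrix.one_apply_eq]
    rw [Matrix.mul_apply, Finset.sum_eq_single (w ∘ e)
      (fun b _ hb => by rw [h1 b hb, mul_zero])
      (fun h => absurd (Finset.mem_univ _) h)] at h5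
    exact h5
  rw [Matrix.mul_apply, Finset.sum_eq_single (w ∘ e)
    (fun b _ hb => by rw [h1 b hb, mul_zero])
    (fun h => absurd (Finset.mem_univ _) h), Matrix.mul_apply,
    Finset.sum_eq_single (w ∘ e)
    (fun a _ ha => by rw [h2 a ha, zero_mul])
    (fun h => absurd (Finset.mem_univ _) h)]
  calc G.sg s s' e w (w ∘ e) * x (w ∘ e) (w ∘ e) * G.sg s' s e.symm (w ∘ e) w
      = (G.sg s s' e w (w ∘ e) * G.sg s' s e.symm (w ∘ e) w) * x (w ∘ e) (w ∘ e) := by ring
    _ = x (w ∘ e) (w ∘ e) := by rw [h3, one_mul]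

include G in
theorem trace_J {S : Type} [Fintype S] [DecidableEq S] (s : Shp S)
    (hlt : Q.NilBelow (Fintype.card S)) {x : Matrix (S → α) (S → α) K} (hx : x ∈ Q.N s s)
    (J : Finset S) (hJ : J.Nonempty) : ∑ w : S → α, (∏ j ∈ J, Q.ε (w j)) * x w w = 0 := by
  classical
  have hc1 : Fintype.card {y // ¬ y ∈ J} < Fintype.card S := by
    obtain ⟨j, hj⟩ := hJ
    exact Fintype.card_subtype_lt (x := j) (fun h => h hj)
  have e1 : {y // ¬ y ∈ J} ≃ L (Fintype.card {y // ¬ y ∈ J}) :=
    Fintype.equivOfCardEq (card_L _).symm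
  have e2 : {y // y ∈ J} ≃ L (Fintype.card {y // y ∈ J}) :=
    Fintype.equivOfCardEq (card_L _).symm
  obtain ⟨f, hf⟩ : ∃ f : S ≃ L (Fintype.card {y // ¬ y ∈ J}) ⊕ L (Fintype.card {y // y ∈ J}),
      ∀ i, f.symm (Sum.inr i) = (e2.symm i).1 :=
    ⟨((Equiv.sumComm _ _).trans (Equiv.sumCompl (fun y => y ∈ J))).symm.trans
      (Equiv.sumCongr e1 e2), fun i => rfl⟩
  have hx' : G.sg s _ f * x * G.sg _ s f.symm ∈
      Q.N ((lin (Fintype.card {y // ¬ y ∈ J})).p (lin (Fintype.card {y // y ∈ J})))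
        ((lin (Fintype.card {y // ¬ y ∈ J})).p (lin (Fintype.card {y // y ∈ J}))) :=
    Q.N_mul_right (Q.N_mul_left (G.mem s _ f) hx) (G.mem _ s f.symm)
  have h1 := Q.ptr_mem_N _ _ hx'
  have h2 := hlt _ _ (by rw [card_L]; exact hc1) _ h1
  have h3 := (Matrix.isNilpotent_trace_of_isNilpotent h2).eq_zero
  rw [Q.trace_ptr] at h3
  rw [← h3]
  refine Fintype.sum_equiv (Equiv.arrowCongr f (Equiv.refl α)) _ _ fun w => ?_
  have hw : (Equiv.arrowCongr f (Equiv.refl α)) w = w ∘ f.symm := rfl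
  rw [hw, G.NTest_diag]
  have hw2 : (w ∘ f.symm) ∘ f = w := by
    funext y
    exact congrArg w (f.symm_apply_apply y)
  rw [hw2]
  congr 1
  have h4 : ∀ i, Q.ε ((w ∘ f.symm) (Sum.inr i)) = Q.ε (w (e2.symm i).1) := by
    intro i
    rw [Function.comp_apply, hf]
  rw [Finset.prod_congr rfl fun i _ => h4 i]
  rw [Equiv.prod_comp e2.symm (fun j : {y // y ∈ J} => Q.ε (w j.1))]
  exact (Finset.prod_coe_sort J fun j => Q.ε (w j)).symm

/-- the projection onto the words all of whose letters have sign `t` -/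
def NTest_D (Q : SSys α K) (t : K) (S : Type) [Fintype S] [DecidableEq S] :
    Matrix (S → α) (S → α) K :=
  open Classical in Matrix.diagonal fun w => if ∀ j, Q.ε (w j) = t then 1 else 0

omit [CharZero K] in
theorem NTest_D_sq (t : K) (S : Type) [Fintype S] [DecidableEq S] :
    NTest_D Q t S * NTest_D Q t S = NTest_D Q t S := by
  classical
  unfold NTest_D
  rw [Matrix.diagonal_mul_diagonal]
  congr 1
  funext w
  split_ifs
  · rw [mul_one]
  · rw [mul_zero]

omit [CharZero K] in
theorem NTest_D_comm (t : K) {S : Type} [Fintype S] [DecidableEq S] (s : Shp S)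
    (σ : Equiv.Perm S) : NTest_D Q t S * G.sg s s σ = G.sg s s σ * NTest_D Q t S := by
  classical
  ext c d
  unfold NTest_D
  rw [Matrix.diagonal_mul, Matrix.mul_diagonal]
  by_cases hcd : c ∘ σ = d
  · subst hcd
    have h1 : (∀ j, Q.ε (c j) = t) ↔ (∀ j, Q.ε ((c ∘ σ) j) = t) := by
      constructor
      · intro h j
        exact h (σ j)
      · intro h j
        have h2 := h (σ.symm j)
        rw [Function.comp_apply, Equiv.apply_symm_apply] at h2
        exact h2
    by_cases h2 : ∀ j, Q.ε (c j) = t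
    · rw [if_pos h2, if_pos (h1.1 h2), one_mul, mul_one]
    · rw [if_neg h2, if_neg (fun h3 => h2 (h1.2 h3)), zero_mul, mul_zero]
  · rw [G.eq_zero s s σ c d hcd, mul_zero, zero_mul]

include G in
theorem NTest_pm {S : Type} [Fintype S] [DecidableEq S] (s : Shp S)
    (hlt : Q.NilBelow (Fintype.card S)) {x : Matrix (S → α) (S → α) K} (hx : x ∈ Q.N s s)
    {t : K} (ht : t * t = 1) :
    Matrix.trace x = 2 ^ Fintype.card S * Matrix.trace (x * NTest_D Q t S) := by
  classical
  have h1 : ∑ J ∈ (Finset.univ : Finset S).powerset,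
      t ^ J.card * ∑ w : S → α, (∏ j ∈ J, Q.ε (w j)) * x w w = Matrix.trace x := by
    rw [Finset.sum_eq_single ∅]
    · rw [Finset.card_empty, pow_zero, one_mul]
      refine Finset.sum_congr rfl fun w _ => ?_
      rw [Finset.prod_empty, one_mul]
      rfl
    · intro J _ hJ
      rw [G.trace_J s hlt hx J (Finset.nonempty_iff_ne_empty.2 hJ), mul_zero]
    · intro h
      exact absurd (Finset.empty_mem_powerset _) h
  have h2 : ∀ w : S → α, ∑ J ∈ (Finset.univ : Finset S).powerset,
      t ^ J.card * (∏ j ∈ J, Q.ε (w j)) =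
        2 ^ Fintype.card S * (if ∀ j, Q.ε (w j) = t then 1 else 0) := by
    intro w
    have h3 : ∀ J : Finset S, t ^ J.card * (∏ j ∈ J, Q.ε (w j)) = ∏ j ∈ J, (t * Q.ε (w j)) := by
      intro J
      rw [Finset.prod_mul_distrib, Finset.prod_const]
    rw [Finset.sum_congr rfl fun J _ => h3 J, ← Finset.prod_one_add]
    by_cases h4 : ∀ j, Q.ε (w j) = t
    · rw [if_pos h4, mul_one]
      have h5 : ∀ j ∈ (Finset.univ : Finset S), 1 + t * Q.ε (w j) = 2 := by
        intro j _
        rw [h4 j, ht]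
        norm_num
      rw [Finset.prod_congr rfl h5, Finset.prod_const, Finset.card_univ]
    · rw [if_neg h4, mul_zero]
      push Not at h4
      obtain ⟨j, hj⟩ := h4
      refine Finset.prod_eq_zero (Finset.mem_univ j) ?_
      have h6 : (Q.ε (w j) - t) * (Q.ε (w j) + t) = 0 := by
        have h7 := Q.ε_sq (w j)
        linear_combination h7 - ht
      rcases mul_eq_zero.1 h6 with h7 | h7
      · exact absurd (sub_eq_zero.1 h7) hj
      · have h8 : Q.ε (w j) = -t := eq_neg_of_add_eq_zero_left h7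
        rw [h8]
        linear_combination -ht
  rw [← h1]
  have h3 : ∑ J ∈ (Finset.univ : Finset S).powerset,
      t ^ J.card * ∑ w : S → α, (∏ j ∈ J, Q.ε (w j)) * x w w =
      ∑ w : S → α, (∑ J ∈ (Finset.univ : Finset S).powerset,
        t ^ J.card * (∏ j ∈ J, Q.ε (w j))) * x w w := by
    rw [Finset.sum_congr rfl fun J _ => Finset.mul_sum _ _ _, Finset.sum_comm]
    refine Finset.sum_congr rfl fun w _ => ?_
    rw [Finset.sum_mul]
    refine Finset.sum_congr rfl fun J _ => ?_
    rw [mul_assoc]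
  rw [h3, Matrix.trace, Finset.mul_sum]
  refine Finset.sum_congr rfl fun w _ => ?_
  rw [h2 w, Matrix.diag_apply]
  unfold NTest_D
  rw [Matrix.mul_diagonal]
  ring

include G in
theorem NTest_trace {S : Type} [Fintype S] [DecidableEq S] (s : Shp S)
    (hε : ∀ a, (-1 : K) ^ G.par a = Q.ε a) (hS : Q.np * Q.nq < Fintype.card S)
    (hlt : Q.NilBelow (Fintype.card S)) {x : Matrix (S → α) (S → α) K} (hx : x ∈ Q.N s s) :
    Matrix.trace x = 0 := by
  classical
  have hmul : ∀ (t : K) (g h : Equiv.Perm S), G.sg s s (g * h) * NTest_D Q t S =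
      G.sg s s g * NTest_D Q t S * (G.sg s s h * NTest_D Q t S) := by
    intro t g h
    rw [Matrix.mul_assoc (G.sg s s g), ← Matrix.mul_assoc (NTest_D Q t S), G.NTest_D_comm,
      Matrix.mul_assoc (G.sg s s h), NTest_D_sq, ← Matrix.mul_assoc, ← G.sg_mul]
  have hlin : ∀ t : K, t * t = 1 → ∀ a : Equiv.Perm S → K,
      ∑ g, a g • (G.sg s s g * NTest_D Q t S) = 0 →
      ∑ g, a g * Matrix.trace (x * G.sg s s g) = 0 := by
    intro t ht a ha
    have h1 : ∀ g : Equiv.Perm S, a g * Matrix.trace (x * G.sg s s g) =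
        2 ^ Fintype.card S * Matrix.trace (x * (a g • (G.sg s s g * NTest_D Q t S))) := by
      intro g
      rw [G.NTest_pm s hlt (Q.N_mul_right hx (G.mem s s g)) ht, Matrix.mul_smul,
        Matrix.trace_smul, smul_eq_mul, Matrix.mul_assoc]
      ring
    rw [Finset.sum_congr rfl fun g _ => h1 g, ← Finset.mul_sum, ← Matrix.trace_sum,
      ← Matrix.mul_sum, ha, Matrix.mul_zero, Matrix.trace_zero, mul_zero]
  have h := two_rep (fun σ => G.sg s s σ * NTest_D Q (1 : K) S)
    (fun σ => G.sg s s σ * NTest_D Q (-1 : K) S) (hmul 1) (hmul (-1)) ?_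
    (fun σ => Matrix.trace (x * G.sg s s σ)) (hlin 1 (one_mul 1)) (hlin (-1) (by ring))
  · have h2 : G.sg s s (1 : Equiv.Perm S) = 1 := G.refl s
    have h3 : Matrix.trace (x * G.sg s s (1 : Equiv.Perm S)) = 0 := h
    rw [h2, Matrix.mul_one] at h3
    exact h3
  · intro c c' d d'
    have hR : ∀ (t : K) (σ : Equiv.Perm S) (c c' : S → α),
        (G.sg s s σ * NTest_D Q t S) c c' =
          G.sg s s σ c c' * (if ∀ j, Q.ε (c' j) = t then 1 else 0) := by
      intro t σ c c'
      unfold NTest_D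
      rw [Matrix.mul_diagonal]
    change ∑ σ : Equiv.Perm S, (G.sg s s σ * NTest_D Q (1 : K) S) c c' *
      (G.sg s s σ⁻¹ * NTest_D Q (-1 : K) S) d d' = 0
    have h4 : ∀ σ : Equiv.Perm S, (G.sg s s σ * NTest_D Q (1 : K) S) c c' *
        (G.sg s s σ⁻¹ * NTest_D Q (-1 : K) S) d d' =
        (G.sg s s σ c c' * G.sg s s σ⁻¹ d d') *
          ((if ∀ j, Q.ε (c' j) = 1 then 1 else 0) * (if ∀ j, Q.ε (d' j) = -1 then 1 else 0)) := by
      intro σ
      rw [hR, hR]
      ring
    rw [Finset.sum_congr rfl fun σ _ => h4 σ, ← Finset.sum_mul]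
    by_cases hd : ∀ j, Q.ε (d' j) = -1
    · by_cases hc' : ∀ j, Q.ε (c' j) = 1
      · by_cases hc : ∀ j, Q.ε (c j) = 1
        · rw [G.pigeon hε s hS hc hd, zero_mul]
        · have h5 : ∀ σ : Equiv.Perm S, G.sg s s σ c c' * G.sg s s σ⁻¹ d d' = 0 := by
            intro σ
            rw [G.eq_zero s s σ c c' (fun h6 => hc fun j => ?_), zero_mul]
            have h7 := hc' (σ.symm j)
            rw [← h6, Function.comp_apply, Equiv.apply_symm_apply] at h7
            exact h7
          rw [Finset.sum_eq_zero fun σ _ => h5 σ, zero_mul]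
      · rw [if_neg hc', zero_mul, mul_zero]
    · rw [if_neg hd, mul_zero, mul_zero]

include G in
theorem nil_test (hε : ∀ a, (-1 : K) ^ G.par a = Q.ε a) (h : Q.NilBelow (Q.np * Q.nq + 1)) (M : ℕ) :
    Q.NilBelow M := by
  induction M with
  | zero => intro S _ _ s hS; exact absurd hS (Nat.not_lt_zero _)
  | succ M ih =>
    intro S _ _ s hS x hx
    rcases Nat.lt_or_ge (Fintype.card S) M with h1 | h1
    · exact ih S s h1 x hx
    rcases Nat.lt_or_ge (Fintype.card S) (Q.np * Q.nq + 1) with h2 | h2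
    · exact h S s h2 x hx
    have h3 : Fintype.card S = M := le_antisymm (Nat.lt_succ_iff.1 hS) h1
    have hlt : Q.NilBelow (Fintype.card S) := by
      rw [h3]
      exact ih
    have hpow : ∀ k : ℕ, x ^ (k + 1) ∈ Q.N s s := by
      intro k
      induction k with
      | zero => rw [zero_add, pow_one]; exact hx
      | succ k ihk => rw [pow_succ]; exact Q.N_mul_right ihk hx.1
    refine isNilpotent_of_trace_pow x fun k hk => ?_
    obtain ⟨k, rfl⟩ : ∃ j, k = j + 1 := ⟨k - 1, (Nat.sub_add_cancel hk).symm⟩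
    exact G.NTest_trace s hε h2 hlt (hpow k)

include G in
theorem exists_not_nil (hε : ∀ a, (-1 : K) ^ G.par a = Q.ε a) (h : ¬ ∀ M, Q.NilBelow M) :
    ∃ m : ℕ, 4 * m ≤ Fintype.card α ^ 2 ∧
      ∃ x ∈ Q.N (lin m) (lin m), ¬ IsNilpotent x := by
  have h1 : ¬ Q.NilBelow (Q.np * Q.nq + 1) := fun h2 => h (G.nil_test hε h2)
  unfold SSys.NilBelow at h1
  push Not at h1
  obtain ⟨S, iF, iD, s, hS, x, hx, hnil⟩ := h1
  refine ⟨Fintype.card S, ?_, ?_⟩
  · have h2 : Fintype.card S ≤ Q.np * Q.nq := Nat.lt_succ_iff.1 hS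
    rw [← Q.np_add_nq]
    have h3 : 4 * (Q.np * Q.nq) ≤ (Q.np + Q.nq) ^ 2 := by
      zify
      nlinarith [sq_nonneg ((Q.np : ℤ) - Q.nq)]
    exact (Nat.mul_le_mul_left 4 h2).trans h3
  · have e : S ≃ L (Fintype.card S) := Fintype.equivOfCardEq (card_L _).symm
    refine ⟨G.sg s (lin _) e * x * G.sg (lin _) s e.symm,
      Q.N_mul_right (Q.N_mul_left (G.mem s _ e) hx) (G.mem _ s e.symm), fun hy => hnil ?_⟩
    have h2 : G.sg (lin (Fintype.card S)) s e.symm * G.sg s (lin (Fintype.card S)) e = 1 := by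
      rw [G.trans s _ s e e.symm, Equiv.self_trans_symm]
      exact G.refl s
    have h3 : ∀ k : ℕ, (G.sg s (lin _) e * x * G.sg (lin _) s e.symm) ^ k * G.sg s (lin _) e =
        G.sg s (lin _) e * x ^ k := by
      intro k
      induction k with
      | zero => rw [pow_zero, pow_zero, Matrix.one_mul, Matrix.mul_one]
      | succ k ihk =>
        rw [pow_succ, pow_succ, Matrix.mul_assoc, Matrix.mul_assoc (G.sg s (lin _) e * x), h2,
          Matrix.mul_one, ← Matrix.mul_assoc, ihk, Matrix.mul_assoc]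
    obtain ⟨k, hk⟩ := hy
    refine ⟨k, ?_⟩
    have h4 := h3 k
    rw [hk, Matrix.zero_mul] at h4
    calc x ^ k = G.sg (lin (Fintype.card S)) s e.symm * G.sg s (lin (Fintype.card S)) e * x ^ k := by
          rw [h2, Matrix.one_mul]
      _ = G.sg (lin (Fintype.card S)) s e.symm * (G.sg s (lin (Fintype.card S)) e * x ^ k) := by
          rw [Matrix.mul_assoc]
      _ = 0 := by rw [← h4, Matrix.mul_zero]

end Sgn

end ZS
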