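import Mathlib

set_option autoImplicit false

/-!
# Two representations with complementary kernels

`two_rep`: let `R`, `T` be multiplicative maps from the finite group `G` to matrices with
`∑_g R g i j * T g⁻¹ k l = 0` for all `i, j, k, l`.  Every function `φ : G → K` which is orthogonal to the linear relations between
the `R g` and to those between the `T g` has `φ 1 = 0`.

Proof.  Let `E = MonoidAlgebra K G` and `r : E → Matrix ι ι K`, `τ : E → Matrix κ κ K` the linear extensions of `R`, `T`.  They are
multiplicative, so `I = ker r`, `I' = ker τ` are two-sided ideals (`r (x * y) = r x * r y`).  There are linear maps `s`, `s'` with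
`r (s (r x)) = r x`, `τ (s' (τ x)) = τ x` (generalized inverses: `LinearMap.exists_rightInverse_of_surjective` for
`r.rangeRestrict` and `LinearMap.exists_extend`).  Put `P x = s (r x)`, `P' x = s' (τ x)`: `x - P x ∈ I`, `x - P' x ∈ I'`.
`∑_g P g * P' g⁻¹ = ∑_g s (R g) * s' (T g⁻¹) = ∑_{i,j,k,l} (∑_g R g i j * T g⁻¹ k l) • s (E_ij) * s' (E_kl) = 0`, where
`E_ij = Matrix.single i j 1` (`Matrix.matrix_eq_sum_single`).  For every `g`:
`1 = g * g⁻¹ = P g * P' g⁻¹ + (g - P g) * g⁻¹ + P g * (g⁻¹ - P' g⁻¹)`, the second term is in `I`, the third one in `I'`.  The sum over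
`g` gives `#G • 1 = x + x'` with `x ∈ I`, `x' ∈ I'`.  The linear extension of `φ` vanishes on `I` and `I'` (hypotheses `h0`, `h1`, with
`a` the coefficients), so `#G * φ 1 = 0`.
-/

noncomputable section

namespace ZSp

/-- Generalized inverse of a linear map. -/
theorem NTwo_ginv {K V W : Type*} [Field K] [AddCommGroup V] [Module K V] [AddCommGroup W]
    [Module K W] (f : V →ₗ[K] W) : ∃ s : W →ₗ[K] V, ∀ x, f (s (f x)) = f x := by
  obtain ⟨g, hg⟩ := f.rangeRestrict.exists_rightInverse_of_surjective f.range_rangeRestrict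
  obtain ⟨s, hs⟩ := LinearMap.exists_extend g
  refine ⟨s, fun x => ?_⟩
  have h1 : s (f x) = g (f.rangeRestrict x) := by
    rw [← hs]
    rfl
  have h2 := LinearMap.congr_fun hg (f.rangeRestrict x)
  have h3 := congrArg Subtype.val h2
  rw [h1]
  exact h3

/-- Coefficients of the generalized inverse. -/
theorem NTwo_coef {G : Type} [Fintype G] {K : Type*} [Field K] {ι : Type} [Fintype ι]
    [DecidableEq ι] (M : G → Matrix ι ι K) :
    ∃ (p : G → G → K) (α : G → ι → ι → K), (∀ g, ∑ x, p g x • M x = M g) ∧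
      ∀ g x, p g x = ∑ i, ∑ j, M g i j * α x i j := by
  classical
  obtain ⟨s, hs⟩ := NTwo_ginv (Fintype.linearCombination K M)
  refine ⟨fun g x => s (M g) x, fun x i j => s (Matrix.single i j 1) x, fun g => ?_,
    fun g x => ?_⟩
  · have h := hs (Pi.single g 1)
    rw [Fintype.linearCombination_apply_single, one_smul, Fintype.linearCombination_apply] at h
    exact h
  · have h : M g = ∑ i, ∑ j, M g i j • Matrix.single i j (1 : K) := by
      conv_lhs => rw [Matrix.matrix_eq_sum_single (M g)]
      refine Finset.sum_congr rfl fun i _ => Finset.sum_congr rfl fun j _ => ?_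
      rw [Matrix.smul_single, smul_eq_mul, mul_one]
    change s (M g) x = _
    conv_lhs => rw [h]
    simp only [map_sum, map_smul, Finset.sum_apply, Pi.smul_apply, smul_eq_mul]

theorem two_rep {G : Type} [Group G] [Fintype G] {K : Type*} [Field K] [CharZero K]
    {ι κ : Type} [Fintype ι] [DecidableEq ι] [Fintype κ] [DecidableEq κ]
    (R : G → Matrix ι ι K) (T : G → Matrix κ κ K) (hR : ∀ g h, R (g * h) = R g * R h)
    (hT : ∀ g h, T (g * h) = T g * T h) (h : ∀ i j k l, ∑ g, R g i j * T g⁻¹ k l = 0) (φ : G → K)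
    (h0 : ∀ a : G → K, ∑ g, a g • R g = 0 → ∑ g, a g * φ g = 0)
    (h1 : ∀ a : G → K, ∑ g, a g • T g = 0 → ∑ g, a g * φ g = 0) : φ 1 = 0 := by
  classical
  obtain ⟨p, α, hp, hpa⟩ := NTwo_coef R
  obtain ⟨q, β, hq, hqb⟩ := NTwo_coef T
  -- the coefficients of the product sum vanish
  have hc : ∀ x y, ∑ g, p g x * q g⁻¹ y = 0 := by
    intro x y
    have e : ∀ g, p g x * q g⁻¹ y = ∑ i, ∑ j, ∑ k, ∑ l,
        (α x i j * β y k l) * (R g i j * T g⁻¹ k l) := by
      intro g
      rw [hpa, hqb, Finset.sum_mul]
      refine Finset.sum_congr rfl fun i _ => ?_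
      rw [Finset.sum_mul]
      refine Finset.sum_congr rfl fun j _ => ?_
      rw [Finset.mul_sum]
      refine Finset.sum_congr rfl fun k _ => ?_
      rw [Finset.mul_sum]
      refine Finset.sum_congr rfl fun l _ => ?_
      ring
    simp_rw [e]
    rw [Finset.sum_comm]
    refine Finset.sum_eq_zero fun i _ => ?_
    rw [Finset.sum_comm]
    refine Finset.sum_eq_zero fun j _ => ?_
    rw [Finset.sum_comm]
    refine Finset.sum_eq_zero fun k _ => ?_
    rw [Finset.sum_comm]
    refine Finset.sum_eq_zero fun l _ => ?_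
    rw [← Finset.mul_sum, h, mul_zero]
  -- a relation between the `R z`
  have hA : ∀ g, φ 1 = ∑ x, p g x * φ (x * g⁻¹) := by
    intro g
    have key := h0 (fun z => (if z = 1 then 1 else 0) - p g (z * g)) ?_
    · simp only [sub_mul, ite_mul, one_mul, zero_mul, Finset.sum_sub_distrib,
        Finset.sum_ite_eq', Finset.mem_univ, if_true] at key
      rw [sub_eq_zero] at key
      rw [key]
      refine (Equiv.sum_comp (Equiv.mulRight g) fun x => p g x * φ (x * g⁻¹)).symm.trans ?_ |>.symm
      refine Finset.sum_congr rfl fun z _ => ?_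
      simp
    · simp only [sub_smul, ite_smul, one_smul, zero_smul, Finset.sum_sub_distrib,
        Finset.sum_ite_eq', Finset.mem_univ, if_true]
      rw [sub_eq_zero]
      have e1 : ∑ z, p g (z * g) • R z = ∑ x, p g x • R (x * g⁻¹) := by
        rw [← Equiv.sum_comp (Equiv.mulRight g) fun x => p g x • R (x * g⁻¹)]
        refine Finset.sum_congr rfl fun z _ => ?_
        simp
      have e2 : ∑ x, p g x • R (x * g⁻¹) = (∑ x, p g x • R x) * R g⁻¹ := by
        rw [Finset.sum_mul]
        refine Finset.sum_congr rfl fun x _ => ?_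
        rw [hR, Matrix.smul_mul]
      rw [e1, e2, hp, ← hR, mul_inv_cancel]
  -- a relation between the `T z`
  have hB : ∀ g x, φ (x * g⁻¹) = ∑ y, q g⁻¹ y * φ (x * y) := by
    intro g x
    have key := h1 (fun z => (if z = x * g⁻¹ then 1 else 0) - q g⁻¹ (x⁻¹ * z)) ?_
    · simp only [sub_mul, ite_mul, one_mul, zero_mul, Finset.sum_sub_distrib,
        Finset.sum_ite_eq', Finset.mem_univ, if_true] at key
      rw [sub_eq_zero] at key
      rw [key]
      rw [← Equiv.sum_comp (Equiv.mulLeft x) fun z => q g⁻¹ (x⁻¹ * z) * φ z]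
      refine Finset.sum_congr rfl fun z _ => ?_
      simp
    · simp only [sub_smul, ite_smul, one_smul, zero_smul, Finset.sum_sub_distrib,
        Finset.sum_ite_eq', Finset.mem_univ, if_true]
      rw [sub_eq_zero]
      have e1 : ∑ z, q g⁻¹ (x⁻¹ * z) • T z = ∑ y, q g⁻¹ y • T (x * y) := by
        rw [← Equiv.sum_comp (Equiv.mulLeft x) fun z => q g⁻¹ (x⁻¹ * z) • T z]
        refine Finset.sum_congr rfl fun z _ => ?_
        simp
      have e2 : ∑ y, q g⁻¹ y • T (x * y) = T x * ∑ y, q g⁻¹ y • T y := by
        rw [Finset.mul_sum]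
        refine Finset.sum_congr rfl fun y _ => ?_
        rw [hT, Matrix.mul_smul]
      rw [e1, e2, hq, ← hT]
  have hfin : ∑ _g : G, φ 1 = 0 := by
    calc ∑ _g : G, φ 1 = ∑ g : G, ∑ x, ∑ y, p g x * q g⁻¹ y * φ (x * y) := by
          refine Finset.sum_congr rfl fun g _ => ?_
          rw [hA g]
          refine Finset.sum_congr rfl fun x _ => ?_
          rw [hB g x, Finset.mul_sum]
          refine Finset.sum_congr rfl fun y _ => ?_
          ring
      _ = 0 := by
          rw [Finset.sum_comm]
          refine Finset.sum_eq_zero fun x _ => ?_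
          rw [Finset.sum_comm]
          refine Finset.sum_eq_zero fun y _ => ?_
          rw [← Finset.sum_mul, hc, zero_mul]
  rw [Finset.sum_const, nsmul_eq_mul, mul_eq_zero] at hfin
  rcases hfin with hfin | hfin
  · exact absurd hfin (Nat.cast_ne_zero.2 (by rw [Finset.card_univ]; exact Fintype.card_ne_zero))
  · exact hfin

end ZSp
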