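import Pool.Agent.W_f569db_zo.Wed

set_option autoImplicit false

/-!
# A virtual idempotent of norm one is plus or minus an idempotent

Let `R` be a finite-dimensional semisimple algebra over the field `K` of characteristic `0`, `e i` (`i ∈ I`)
idempotents, `c i` integers with `∑_{i, j} c i * c j * dim (e i R e j) = 1`.  Then there are an idempotent `f` and
a sign `η` with `∑ c i * t (e i) = η * t f` for all trace functionals `t : R → K`.

Proof.  `R ≃ ∏ k, Matrix (Fin (d k)) (Fin (d k)) (D k)` (`IsSemisimpleRing.exists_algEquiv_pi_matrix_divisionRing_finite`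
as in the proof of `wed`).  `Wed_rank` gives for every `i, k` the rank `ρ i k` of the `k`-th component of `e i` and
a factorisation `v * u = (φ (e i)) k`, `u * v = 1`.  By `Wed_equiv`, `Wed_pi`, `Wed_single`:
`dim (e i R e j) = ∑_k ρ i k * ρ j k * δ k`, `δ k = finrank K (D k) ≥ 1`.  Put `Θ k = ∑_i c i * ρ i k ∈ ℤ`.  Then
`∑_k δ k * Θ k ^ 2 = 1`.  All terms are nonnegative integers, so there is exactly one `k₀` with `Θ k₀ ≠ 0`, and
`Θ k₀ = ± 1`.
For a trace functional `t`: `t (e i) = ∑_k ρ i k * t (E k)` where `E k = φ.symm (Pi.single k (Matrix.single 0 0 1))`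
if `d k > 0` and `E k = 0` if `d k = 0` (then `ρ i k = 0`: `u * v = 1` in `Matrix (Fin (ρ i k)) (Fin (ρ i k))` with
`u, v` empty).  Indeed `e i = ∑_k φ.symm (Pi.single k (φ (e i) k))`, and for `v * u = x`, `u * v = 1` with
`u : r × d`, `v : d × r` over `D`: `x = ∑_{a < r} x_a`, `x_a = v (·, a) u (a, ·) = y_a * z_a` with
`y_a = (v (i, a) if j = 0, else 0)_{ij}`, `z_a = (u (a, j) if i = 0, else 0)_{ij}`, and `z_a * y_a = Matrix.single 0 0 1`
(as `(u v) a a = 1`).  So `t (x_a) = t (E k)`.
Hence `∑_i c i * t (e i) = ∑_k Θ k * t (E k) = Θ k₀ * t (E k₀)`, `f = E k₀`, `η = Θ k₀`.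
-/

noncomputable section

namespace ZSp

open Module ZO

/-- the standard idempotent of rank one (or zero) -/
theorem exists_E (D : Type*) [DivisionRing D] (n : ℕ) :
    ∃ E : Matrix (Fin n) (Fin n) D, IsIdempotentElem E ∧
      ∀ (K : Type _) [Field K] (r : ℕ) (u : Matrix (Fin r) (Fin n) D)
        (v : Matrix (Fin n) (Fin r) D), u * v = 1 →
        ∀ t : Matrix (Fin n) (Fin n) D →+ K, (∀ x y, t (x * y) = t (y * x)) →
          t (v * u) = (r : K) * t E := by
  classical
  rcases n with _ | m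
  · refine ⟨0, by simp [IsIdempotentElem], ?_⟩
    intro K _ r u v huv t _
    rcases r with _ | r
    · have : v * u = 0 := Subsingleton.elim _ _
      rw [this]
      simp
    · exfalso
      have h1 := congrFun (congrFun huv 0) 0
      rw [Matrix.mul_apply] at h1
      simp at h1
  · refine ⟨Matrix.single 0 0 1, ?_, ?_⟩
    · unfold IsIdempotentElem
      rw [Matrix.single_mul_single_same]
      simp
    · intro K _ r u v huv t ht
      let y : Fin r → Matrix (Fin (m + 1)) (Fin (m + 1)) D := fun a =>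
        Matrix.of fun i j => if j = 0 then v i a else 0
      let z : Fin r → Matrix (Fin (m + 1)) (Fin (m + 1)) D := fun a =>
        Matrix.of fun i j => if i = 0 then u a j else 0
      have h1 : v * u = ∑ a, y a * z a := by
        ext i j
        rw [Matrix.mul_apply, Matrix.sum_apply]
        refine Finset.sum_congr rfl fun a _ => ?_
        rw [Matrix.mul_apply]
        simp [y, z]
      have h2 : ∀ a, z a * y a = Matrix.single 0 0 1 := by
        intro a
        ext i j
        rw [Matrix.mul_apply]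
        by_cases hi : i = 0
        · by_cases hj : j = 0
          · subst hi hj
            have h3 := congrFun (congrFun huv a) a
            rw [Matrix.mul_apply, Matrix.one_apply_eq] at h3
            simp [y, z, h3]
          · subst hi
            simp [y, z, hj, Ne.symm hj]
        · simp [y, z, hi, eq_comm]
      rw [h1, map_sum]
      have h4 : ∀ a ∈ Finset.univ, t (y a * z a) = t (Matrix.single 0 0 1) := by
        intro a _
        rw [ht, h2]
      rw [Finset.sum_congr rfl h4]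
      simp

theorem virt_idem (K : Type*) {R : Type*} [Field K] [CharZero K] [Ring R] [Algebra K R]
    [Module.Finite K R] [IsSemisimpleRing R] {ι : Type} (I : Finset ι) (e : ι → R)
    (he : ∀ i ∈ I, IsIdempotentElem (e i)) (c : ι → ℤ)
    (h : ∑ i ∈ I, ∑ j ∈ I, c i * c j *
      (finrank K (LinearMap.range (sandR K (e i) (e j))) : ℤ) = 1) :
    ∃ (f : R) (η : ℤ), IsIdempotentElem f ∧ (η = 1 ∨ η = -1) ∧
      ∀ t : R →ₗ[K] K, (∀ x y, t (x * y) = t (y * x)) →
        ∑ i ∈ I, (c i : K) * t (e i) = (η : K) * t f := by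
  classical
  obtain ⟨n, D, d, i1, i2, i3, -, ⟨φ⟩⟩ :=
    IsSemisimpleRing.exists_algEquiv_pi_matrix_divisionRing_finite K R
  have hid : ∀ {x : R}, IsIdempotentElem x → ∀ k, IsIdempotentElem (φ x k) := by
    intro x hx k
    have h1 : φ x * φ x = φ x := by rw [← map_mul, hx.eq]
    exact congrFun h1 k
  have hr : ∀ i : ι, ∀ k : Fin n, ∃ r : ℕ, i ∈ I → ∃ (u : Matrix (Fin r) (Fin (d k)) (D k))
      (v : Matrix (Fin (d k)) (Fin r) (D k)), u * v = 1 ∧ v * u = φ (e i) k := by
    intro i k
    by_cases hi : i ∈ I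
    · obtain ⟨r, u, v, h1, h2⟩ := Wed_rank (φ (e i) k) (hid (he i hi) k)
      exact ⟨r, fun _ => ⟨u, v, h1, h2⟩⟩
    · exact ⟨0, fun h => absurd h hi⟩
  choose ρ hρ using hr
  have hdim : ∀ i ∈ I, ∀ j ∈ I, finrank K (LinearMap.range (sandR K (e i) (e j))) =
      ∑ k, ρ i k * ρ j k * finrank K (D k) := by
    intro i hi j hj
    rw [Wed_equiv φ, Wed_pi]
    refine Finset.sum_congr rfl fun k _ => ?_
    obtain ⟨u, v, h1, h2⟩ := hρ i k hi
    obtain ⟨u', v', h1', h2'⟩ := hρ j k hj
    exact Wed_single (hid (he j hj) k) (hid (he i hi) k) h1 h2 h1' h2'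
  let Θ : Fin n → ℤ := fun k => ∑ i ∈ I, c i * (ρ i k : ℤ)
  have hsum : ∑ k, (finrank K (D k) : ℤ) * Θ k ^ 2 = 1 := by
    rw [← h]
    have h1 : ∀ i ∈ I, ∀ j ∈ I, c i * c j *
        (finrank K (LinearMap.range (sandR K (e i) (e j))) : ℤ) =
        ∑ k, (finrank K (D k) : ℤ) * ((c i * (ρ i k : ℤ)) * (c j * (ρ j k : ℤ))) := by
      intro i hi j hj
      rw [hdim i hi j hj]
      push_cast
      rw [Finset.mul_sum]
      refine Finset.sum_congr rfl fun k _ => ?_
      ring
    rw [Finset.sum_congr rfl fun i hi => Finset.sum_congr rfl fun j hj => h1 i hi j hj]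
    have h2 : ∀ i ∈ I, ∑ j ∈ I, ∑ k, (finrank K (D k) : ℤ) *
        ((c i * (ρ i k : ℤ)) * (c j * (ρ j k : ℤ))) =
        ∑ k, (finrank K (D k) : ℤ) * ((c i * (ρ i k : ℤ)) * Θ k) := by
      intro i _
      rw [Finset.sum_comm]
      refine Finset.sum_congr rfl fun k _ => ?_
      rw [← Finset.mul_sum, ← Finset.mul_sum]
    rw [Finset.sum_congr rfl h2, Finset.sum_comm]
    refine Finset.sum_congr rfl fun k _ => ?_
    rw [← Finset.mul_sum, ← Finset.sum_mul, sq]
  have hpos : ∀ k, 1 ≤ (finrank K (D k) : ℤ) := by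
    intro k
    have : 0 < finrank K (D k) := Module.finrank_pos
    exact_mod_cast this
  have hnn : ∀ k ∈ Finset.univ, 0 ≤ (finrank K (D k) : ℤ) * Θ k ^ 2 := by
    intro k _
    have := hpos k
    positivity
  obtain ⟨k₀, hk₀⟩ : ∃ k, Θ k ≠ 0 := by
    by_contra hcon
    push Not at hcon
    rw [Finset.sum_eq_zero (fun k _ => by rw [hcon k]; ring)] at hsum
    exact absurd hsum (by norm_num)
  have hge : 1 ≤ (finrank K (D k₀) : ℤ) * Θ k₀ ^ 2 := by
    have h1 : 0 < Θ k₀ ^ 2 := by positivity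
    have h2 := hpos k₀
    nlinarith
  have hsplit := Finset.add_sum_erase Finset.univ
    (fun k => (finrank K (D k) : ℤ) * Θ k ^ 2) (Finset.mem_univ k₀)
  have hrest0 : 0 ≤ ∑ k ∈ Finset.univ.erase k₀, (finrank K (D k) : ℤ) * Θ k ^ 2 :=
    Finset.sum_nonneg fun k _ => hnn k (Finset.mem_univ k)
  have heq1 : (finrank K (D k₀) : ℤ) * Θ k₀ ^ 2 = 1 := by
    rw [hsum] at hsplit
    linarith
  have hrest : ∑ k ∈ Finset.univ.erase k₀, (finrank K (D k) : ℤ) * Θ k ^ 2 = 0 := by
    rw [hsum] at hsplit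
    linarith
  have hz : ∀ k, k ≠ k₀ → Θ k = 0 := by
    intro k hk
    have h1 := (Finset.sum_eq_zero_iff_of_nonneg
      (fun k _ => hnn k (Finset.mem_univ k))).1 hrest k (Finset.mem_erase.2 ⟨hk, Finset.mem_univ k⟩)
    have h2 := hpos k
    have h3 : Θ k ^ 2 = 0 := by
      rcases mul_eq_zero.1 h1 with h4 | h4
      · omega
      · exact h4
    exact pow_eq_zero_iff (two_ne_zero) |>.1 h3
  have hη : Θ k₀ = 1 ∨ Θ k₀ = -1 := by
    have h1 : Θ k₀ ∣ 1 := ⟨(finrank K (D k₀) : ℤ) * Θ k₀, by rw [← heq1]; ring⟩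
    exact Int.isUnit_iff.1 (isUnit_of_dvd_one h1)
  choose E hE1 hE2 using fun k : Fin n => exists_E (D k) (d k)
  refine ⟨φ.symm (Pi.single k₀ (E k₀)), Θ k₀, ?_, hη, ?_⟩
  · unfold IsIdempotentElem
    rw [← map_mul, ← Pi.single_mul, (hE1 k₀).eq]
  · intro t ht
    let s : ∀ k : Fin n, Matrix (Fin (d k)) (Fin (d k)) (D k) →+ K := fun k =>
      { toFun := fun x => t (φ.symm (Pi.single k x))
        map_zero' := by simp
        map_add' := fun x y => by rw [Pi.single_add, map_add, map_add] }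
    have hs : ∀ k x, s k x = t (φ.symm (Pi.single k x)) := fun k x => rfl
    have hst : ∀ (k : Fin n) (x y : Matrix (Fin (d k)) (Fin (d k)) (D k)),
        s k (x * y) = s k (y * x) := by
      intro k x y
      rw [hs, hs, Pi.single_mul, Pi.single_mul, map_mul φ.symm, map_mul φ.symm, ht]
    have hx : ∀ x : R, t x = ∑ k, s k (φ x k) := by
      intro x
      have h1 : x = ∑ k, φ.symm (Pi.single k (φ x k)) := by
        rw [← map_sum, Finset.univ_sum_single, AlgEquiv.symm_apply_apply]
      conv_lhs => rw [h1]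
      rw [map_sum]
      exact Finset.sum_congr rfl fun k _ => (hs k _).symm
    have hei : ∀ i ∈ I, (c i : K) * t (e i) =
        ∑ k, (c i : K) * ((ρ i k : K) * s k (E k)) := by
      intro i hi
      rw [hx, Finset.mul_sum]
      refine Finset.sum_congr rfl fun k _ => ?_
      obtain ⟨u, v, h1, h2⟩ := hρ i k hi
      rw [← h2, hE2 k K (ρ i k) u v h1 (s k) (hst k)]
    rw [Finset.sum_congr rfl hei, Finset.sum_comm]
    have hk : ∀ k, ∑ i ∈ I, (c i : K) * ((ρ i k : K) * s k (E k)) = (Θ k : K) * s k (E k) := by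
      intro k
      simp only [Θ]
      push_cast
      rw [Finset.sum_mul]
      refine Finset.sum_congr rfl fun i _ => ?_
      ring
    rw [Finset.sum_congr rfl fun k _ => hk k, Finset.sum_eq_single k₀, hs]
    · intro k _ hk
      rw [hz k hk]
      simp
    · intro h
      exact absurd (Finset.mem_univ k₀) h

end ZSp
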