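import Pool.Agent.W_f569db_sp.PDefs

set_option autoImplicit false

/-!
# The bialternant identity

`bialternant`: `det (X_k ^ (A i)) = det (h_{A i - j}) * det (X_k ^ i)` in `ℤ[X_0, .., X_{r-1}]`
(`i, j, k < r`).

Proof.  `S = MvPolynomial (Fin r) ℤ`.

(1) `bia_series`: in `S⟦t⟧`: `∏_k (∑_n X_k^n t^n) = ∑_n h_n t^n` (`PowerSeries.coeff_prod` gives the sum over
`Finset.finsuppAntidiag Finset.univ n` of `∏_k X_k^(l k)`; compare with the sum over
`Finset.Nat.antidiagonalTuple r n`, e.g. by `Finset.sum_bij`/`Finset.sum_nbij'` with `Finsupp.equivFunOnFinite`;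
`Finset.Nat.mem_antidiagonalTuple`, `Finset.mem_finsuppAntidiag`.  Or by induction on `r`: any proof is fine).

(2) `bia_pow`: put `c j k = coeff_j (∏_{m ≠ k} (1 - X_m t))` (a polynomial in `t` of degree `≤ r - 1`, so
`c j k = 0` for `j ≥ r`).  As `(1 - X_m t) * ∑_n X_m^n t^n = 1`, multiplying (1) by `∏_{m ≠ k} (1 - X_m t)` gives
`∑_n X_k^n t^n = (∏_{m ≠ k} (1 - X_m t)) * ∑_n h_n t^n`, and the coefficient of `t^a` is
`X_k^a = ∑_{j < r} c j k * hz r a j`.

(3) So `(X_k^(A i))_{i,k} = (hz r (A i) j)_{i,j} * (c j k)_{j,k}` for every `A`, and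
`det (X_k^(A i)) = det (hz r (A i) j) * det c`.  For `A i = i` the matrix `(hz r i j)_{i,j}` is lower triangular
with diagonal entries `h_0 = 1`, so `det c = det (X_k ^ i)`.
-/

noncomputable section

namespace ZSp

theorem hh_zero (r : ℕ) : hh r 0 = 1 := by
  unfold hh
  rw [Finset.Nat.antidiagonalTuple_zero_right, Finset.sum_singleton]
  simp

theorem bia_series (r : ℕ) :
    (∏ k : Fin r, PowerSeries.mk fun n => (MvPolynomial.X k : MvPolynomial (Fin r) ℤ) ^ n) =
      PowerSeries.mk fun n => hh r n := by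
  classical
  ext1 n
  rw [PowerSeries.coeff_prod, PowerSeries.coeff_mk]
  unfold hh
  refine Finset.sum_bij' (fun l _ => (l : Fin r → ℕ)) (fun x _ => Finsupp.equivFunOnFinite.symm x)
    ?_ ?_ ?_ ?_ ?_
  · intro l hl
    rw [Finset.mem_finsuppAntidiag] at hl
    rw [Finset.Nat.mem_antidiagonalTuple]
    exact hl.1
  · intro x hx
    rw [Finset.Nat.mem_antidiagonalTuple] at hx
    rw [Finset.mem_finsuppAntidiag]
    refine ⟨?_, Finset.subset_univ _⟩
    rw [← hx]
    rfl
  · intro l _
    exact Finsupp.equivFunOnFinite.symm_apply_apply l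
  · intro x _
    exact Finsupp.equivFunOnFinite.apply_symm_apply x
  · intro l _
    refine Finset.prod_congr rfl fun k _ => ?_
    rw [PowerSeries.coeff_mk]

/-- The polynomials `∏_{m ≠ k} (1 - X_m t)`. -/
def PBia_Q (r : ℕ) (k : Fin r) : Polynomial (MvPolynomial (Fin r) ℤ) :=
  ∏ m ∈ Finset.univ.erase k, (1 - Polynomial.C (MvPolynomial.X m) * Polynomial.X)

theorem PBia_deg (r : ℕ) (k : Fin r) (j : ℕ) (hj : r ≤ j) : (PBia_Q r k).coeff j = 0 := by
  refine Polynomial.coeff_eq_zero_of_natDegree_lt ?_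
  have h1 : (PBia_Q r k).natDegree ≤ ∑ _m ∈ Finset.univ.erase k, 1 := by
    refine (Polynomial.natDegree_prod_le _ _).trans (Finset.sum_le_sum fun m _ => ?_)
    refine (Polynomial.natDegree_sub_le _ _).trans ?_
    rw [Polynomial.natDegree_one]
    refine max_le (Nat.zero_le _) ?_
    refine (Polynomial.natDegree_C_mul_le _ _).trans ?_
    exact Polynomial.natDegree_X_le
  rw [Finset.sum_const, smul_eq_mul, mul_one, Finset.card_erase_of_mem (Finset.mem_univ k),
    Finset.card_univ, Fintype.card_fin] at h1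
  have := k.2
  omega

theorem PBia_geo {S : Type*} [CommRing S] (a : S) :
    (1 - PowerSeries.C a * PowerSeries.X) * (PowerSeries.mk fun n => a ^ n) = 1 := by
  ext n
  rw [sub_mul, one_mul, mul_assoc, map_sub, PowerSeries.coeff_C_mul, PowerSeries.coeff_mk]
  cases n with
  | zero =>
    rw [PowerSeries.coeff_zero_X_mul, mul_zero, sub_zero, pow_zero, PowerSeries.coeff_zero_one]
  | succ n =>
    rw [PowerSeries.coeff_succ_X_mul, PowerSeries.coeff_mk, PowerSeries.coeff_one,
      if_neg (Nat.succ_ne_zero n), pow_succ]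
    ring

theorem PBia_mul (r : ℕ) (k : Fin r) :
    (PowerSeries.mk fun n => (MvPolynomial.X k : MvPolynomial (Fin r) ℤ) ^ n) =
      (PBia_Q r k : PowerSeries (MvPolynomial (Fin r) ℤ)) * PowerSeries.mk fun n => hh r n := by
  rw [← bia_series, ← Finset.mul_prod_erase Finset.univ _ (Finset.mem_univ k)]
  have h1 : (PBia_Q r k : PowerSeries (MvPolynomial (Fin r) ℤ)) =
      ∏ m ∈ Finset.univ.erase k, (1 - PowerSeries.C (MvPolynomial.X m) * PowerSeries.X) := by
    unfold PBia_Q
    rw [← Polynomial.coeToPowerSeries.ringHom_apply, map_prod]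
    refine Finset.prod_congr rfl fun m _ => ?_
    rw [Polynomial.coeToPowerSeries.ringHom_apply]
    push_cast
    rfl
  rw [h1, mul_comm (PowerSeries.mk _), ← mul_assoc, ← Finset.prod_mul_distrib]
  have h2 : ∏ m ∈ Finset.univ.erase k,
      (1 - PowerSeries.C (MvPolynomial.X m : MvPolynomial (Fin r) ℤ) * PowerSeries.X) *
        (PowerSeries.mk fun n => (MvPolynomial.X m : MvPolynomial (Fin r) ℤ) ^ n) = 1 :=
    Finset.prod_eq_one fun m _ => PBia_geo _
  rw [h2, one_mul]

theorem bia_pow (r : ℕ) (k : Fin r) (a : ℕ) : (MvPolynomial.X k : MvPolynomial (Fin r) ℤ) ^ a =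
    ∑ j : Fin r, hz r a (j : ℕ) * (PBia_Q r k).coeff (j : ℕ) := by
  have h1 := congrArg (PowerSeries.coeff a) (PBia_mul r k)
  rw [PowerSeries.coeff_mk, PowerSeries.coeff_mul,
    Finset.Nat.sum_antidiagonal_eq_sum_range_succ_mk] at h1
  rw [h1]
  have h2 : ∑ j : Fin r, hz r a (j : ℕ) * (PBia_Q r k).coeff (j : ℕ) =
      ∑ j ∈ Finset.range r, hz r a j * (PBia_Q r k).coeff j :=
    Fin.sum_univ_eq_sum_range (fun j => hz r a j * (PBia_Q r k).coeff j) r
  rw [h2]
  have h3 : ∑ j ∈ Finset.range r, hz r a j * (PBia_Q r k).coeff j =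
      ∑ j ∈ Finset.range (r + (a + 1)), hz r a j * (PBia_Q r k).coeff j := by
    refine Finset.sum_subset (Finset.range_subset_range.2 (by omega)) fun j _ hj => ?_
    rw [Finset.mem_range, not_lt] at hj
    rw [PBia_deg r k j hj, mul_zero]
  have h4 : ∑ j ∈ Finset.range (a + 1), hz r a j * (PBia_Q r k).coeff j =
      ∑ j ∈ Finset.range (r + (a + 1)), hz r a j * (PBia_Q r k).coeff j := by
    refine Finset.sum_subset (Finset.range_subset_range.2 (by omega)) fun j _ hj => ?_
    rw [Finset.mem_range, not_lt] at hj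
    have : hz r a j = 0 := by
      unfold hz
      rw [if_neg (by omega)]
    rw [this, zero_mul]
  rw [h3, ← h4]
  refine Finset.sum_congr rfl fun j hj => ?_
  rw [Finset.mem_range] at hj
  simp only [PowerSeries.coeff_mk, Polynomial.coeff_coe]
  unfold hz
  rw [if_pos (by omega), mul_comm]

theorem bialternant (r : ℕ) (A : Fin r → ℕ) :
    Matrix.det (Matrix.of fun i k : Fin r => (MvPolynomial.X k : MvPolynomial (Fin r) ℤ) ^ (A i)) =
      Matrix.det (Matrix.of fun i j : Fin r => hz r (A i) (j : ℕ)) *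
        Matrix.det (Matrix.of fun i k : Fin r =>
          (MvPolynomial.X k : MvPolynomial (Fin r) ℤ) ^ (i : ℕ)) := by
  have key : ∀ B : Fin r → ℕ,
      (Matrix.of fun i k : Fin r => (MvPolynomial.X k : MvPolynomial (Fin r) ℤ) ^ (B i)) =
      (Matrix.of fun i j : Fin r => hz r (B i) (j : ℕ)) *
        (Matrix.of fun j k : Fin r => (PBia_Q r k).coeff (j : ℕ)) := by
    intro B
    ext1 i k
    rw [Matrix.mul_apply]
    exact bia_pow r k (B i)
  have h1 : Matrix.det (Matrix.of fun i k : Fin r =>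
      (MvPolynomial.X k : MvPolynomial (Fin r) ℤ) ^ (i : ℕ)) =
      Matrix.det (Matrix.of fun j k : Fin r => (PBia_Q r k).coeff (j : ℕ)) := by
    rw [key fun i => (i : ℕ), Matrix.det_mul]
    have h2 : Matrix.det (Matrix.of fun i j : Fin r => hz r (i : ℕ) (j : ℕ)) = 1 := by
      rw [Matrix.det_of_isLowerTriangular]
      · refine Finset.prod_eq_one fun i _ => ?_
        rw [Matrix.of_apply]
        unfold hz
        rw [if_pos le_rfl, Nat.sub_self, hh_zero]
      · intro i j hij
        rw [Matrix.of_apply]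
        unfold hz
        rw [if_neg]
        have : i < j := hij
        have : (i : ℕ) < (j : ℕ) := this
        omega
    rw [h2, one_mul]
  rw [key A, Matrix.det_mul, h1]

end ZSp
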