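import Pool.Agent.W_f569db_sp.PDefs
import Pool.Agent.W_f569db_zo.Wed

set_option autoImplicit false

/-!
# Peirce blocks of Young idempotents: the trace

`yng_idem`: the average over the subgroup of the permutations which preserve a coloring is an idempotent (`stab u` is
closed under products; for `σ ∈ stab u` the map `τ ↦ σ * τ` is a bijection of `stab u`).

`finrank_yng_count`: the operator `x ↦ yng u * x * yng v` of `K[Perm X]` is idempotent, so the dimension of its range
is its trace (`LinearMap.IsIdempotentElem.isProj_range`, `LinearMap.IsProj.trace`), which is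
`(#stab u * #stab v)⁻¹ * ∑_{g ∈ stab u, h ∈ stab v} tr (x ↦ g x h)`, and the trace of `x ↦ g x h` (a permutation of
the basis `Perm X` of `K[Perm X]`) is the number of `x` with `g * x * h = x` (e.g.
`LinearMap.trace_eq_matrix_trace` with the basis `Finsupp.basisSingleOne`; diagonal entries `1` or `0`).
-/

noncomputable section

namespace ZSp

open Module ZO

variable (K : Type*) [Field K] [CharZero K] {X ι : Type} [Fintype X] [DecidableEq X]
  [DecidableEq ι]

theorem PDCa_mem {u : X → ι} {σ τ : Equiv.Perm X} (hσ : σ ∈ stab u) :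
    σ * τ ∈ stab u ↔ τ ∈ stab u := by
  rw [mem_stab] at hσ
  rw [mem_stab, mem_stab]
  have h1 : u ∘ (σ * τ : Equiv.Perm X) = u ∘ τ := by
    funext x
    exact congrFun hσ (τ x)
  rw [h1]

theorem PDCa_mul (u : X → ι) {σ : Equiv.Perm X} (hσ : σ ∈ stab u) :
    MonoidAlgebra.of K (Equiv.Perm X) σ * ∑ τ ∈ stab u, MonoidAlgebra.of K (Equiv.Perm X) τ =
      ∑ τ ∈ stab u, MonoidAlgebra.of K (Equiv.Perm X) τ := by
  rw [Finset.mul_sum]
  refine Finset.sum_bij (fun τ _ => σ * τ) (fun τ hτ => (PDCa_mem hσ).2 hτ)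
    (fun τ _ τ' _ h => mul_left_cancel h) (fun τ hτ => ?_) (fun τ _ => ?_)
  · refine ⟨σ⁻¹ * τ, ?_, mul_inv_cancel_left σ τ⟩
    rw [← PDCa_mem hσ, mul_inv_cancel_left]
    exact hτ
  · rw [map_mul]

theorem PDCa_trace (g h : Equiv.Perm X) :
    LinearMap.trace K _ (sandR K (MonoidAlgebra.of K (Equiv.Perm X) g)
      (MonoidAlgebra.of K (Equiv.Perm X) h)) =
      ((Finset.univ.filter fun x : Equiv.Perm X => g * x * h = x).card : K) := by
  rw [LinearMap.trace_eq_matrix_trace K (MonoidAlgebra.basis (Equiv.Perm X) K), Matrix.trace,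
    Finset.card_filter, Nat.cast_sum]
  refine Finset.sum_congr rfl fun x _ => ?_
  rw [Matrix.diag_apply, LinearMap.toMatrix_apply, MonoidAlgebra.basis_apply, sandR_apply,
    MonoidAlgebra.of_apply, MonoidAlgebra.of_apply, MonoidAlgebra.single_mul_single,
    MonoidAlgebra.single_mul_single, one_mul, one_mul]
  show (Finsupp.single (g * (x * h)) (1 : K)) x = _
  rw [Finsupp.single_apply, mul_assoc]
  split_ifs
  · rw [Nat.cast_one]
  · rw [Nat.cast_zero]

theorem PDCa_sand (u v : X → ι) : sandR K (yng K u) (yng K v) =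
    (((stab u).card : K)⁻¹ * ((stab v).card : K)⁻¹) • ∑ g ∈ stab u, ∑ h ∈ stab v,
      sandR K (MonoidAlgebra.of K (Equiv.Perm X) g) (MonoidAlgebra.of K (Equiv.Perm X) h) := by
  refine LinearMap.ext fun x => ?_
  rw [sandR_apply, LinearMap.smul_apply, LinearMap.sum_apply]
  unfold yng
  rw [mul_smul_comm, mul_smul_comm, smul_mul_assoc, smul_smul, Finset.sum_mul,
    mul_comm ((stab v).card : K)⁻¹]
  congr 1
  refine Finset.sum_congr rfl fun g _ => ?_
  rw [LinearMap.sum_apply, Finset.mul_sum, Finset.mul_sum]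
  exact Finset.sum_congr rfl fun h _ => rfl

theorem yng_idem (u : X → ι) : IsIdempotentElem (yng K u) := by
  have h1 : (∑ σ ∈ stab u, MonoidAlgebra.of K (Equiv.Perm X) σ) *
      (∑ σ ∈ stab u, MonoidAlgebra.of K (Equiv.Perm X) σ) =
      ((stab u).card : K) • ∑ σ ∈ stab u, MonoidAlgebra.of K (Equiv.Perm X) σ := by
    rw [Finset.sum_mul, Finset.sum_congr rfl fun σ hσ => PDCa_mul K u hσ, Finset.sum_const,
      ← Nat.cast_smul_eq_nsmul K]
  have hc : ((stab u).card : K) ≠ 0 := Nat.cast_ne_zero.2 (card_stab_pos u).ne'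
  show yng K u * yng K u = yng K u
  unfold yng
  rw [smul_mul_smul_comm, h1, smul_smul]
  congr 1
  field_simp

theorem finrank_yng_count (u v : X → ι) :
    (stab u).card * (stab v).card *
        finrank K (LinearMap.range (sandR K (yng K u) (yng K v))) =
      ((stab u ×ˢ stab v ×ˢ (Finset.univ : Finset (Equiv.Perm X))).filter fun p =>
        p.1 * p.2.2 * p.2.1 = p.2.2).card := by
  have hfin : Module.Finite K (MonoidAlgebra K (Equiv.Perm X)) :=
    Module.Finite.of_basis (MonoidAlgebra.basis (Equiv.Perm X) K)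
  have hT : IsIdempotentElem (sandR K (yng K u) (yng K v)) := by
    refine LinearMap.ext fun x => ?_
    rw [Module.End.mul_apply, sandR_apply, sandR_apply]
    have h1 : yng K u * yng K u = yng K u := yng_idem K u
    have h2 : yng K v * yng K v = yng K v := yng_idem K v
    calc yng K u * (yng K u * (x * yng K v) * yng K v)
        = (yng K u * yng K u) * (x * (yng K v * yng K v)) := by simp only [mul_assoc]
      _ = yng K u * (x * yng K v) := by rw [h1, h2]
  have htr := (LinearMap.IsIdempotentElem.isProj_range _ hT).trace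
  rw [PDCa_sand, map_smul, map_sum] at htr
  simp only [map_sum, PDCa_trace] at htr
  rw [← PDCa_sand] at htr
  have hu : ((stab u).card : K) ≠ 0 := Nat.cast_ne_zero.2 (card_stab_pos u).ne'
  have hv : ((stab v).card : K) ≠ 0 := Nat.cast_ne_zero.2 (card_stab_pos v).ne'
  apply Nat.cast_injective (R := K)
  rw [Nat.cast_mul, Nat.cast_mul, ← htr, smul_eq_mul, Finset.card_filter,
    Finset.sum_product]
  simp only [Finset.sum_product]
  rw [← mul_assoc]
  have h3 : ((stab u).card : K) * (stab v).card * (((stab u).card : K)⁻¹ * ((stab v).card : K)⁻¹) = 1 := by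
    field_simp
  rw [h3, one_mul, Nat.cast_sum]
  refine Finset.sum_congr rfl fun g _ => ?_
  rw [Nat.cast_sum]
  refine Finset.sum_congr rfl fun h _ => ?_
  rw [Finset.card_filter]

end ZSp
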