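import Pool.Agent.W_f569db_sp.PDefs
import Pool.Agent.W_f569db_zo.Orb

set_option autoImplicit false

/-!
# Peirce blocks of Young idempotents: counting

`count_eq`: the number of triples `(g, h, x)`, `g ∈ stab u`, `h ∈ stab v`, `x ∈ Perm X` with `g x h = x` is
`#stab u * #stab v * nMat (fib u) (fib v)`.

Proof.  (1) For fixed `x` the number of `(g, h)` is the number of `h ∈ stab v` with `x h⁻¹ x⁻¹ ∈ stab u`, i.e. with
`(u ∘ x) ∘ h = u ∘ x`, i.e. `#stab (z_x)` for the coloring `z_x = (u ∘ x, v) : X → Fin r × Fin r`.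
(2) `x ↦ u ∘ x` is a map from `Perm X` onto the set of the colorings `u'` with `fib u' = fib u` (surjective by
`ZO.orb_perm`), and every fiber has `#stab u` elements.  So the number of triples is
`#stab u * ∑_{u' : fib u' = fib u} #stab (u', v)`.
(3) Group the `u'` by the matrix `M i j = fib (u', v) (i, j)`, whose row sums are `fib u' = fib u` and whose column sums
are `fib v`.  All matrices `M` with these row and column sums occur (`∑_i M i j = fib v j`: split every color class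
of `v`), and the `u'` with matrix `M` form one orbit of the group `stab v` acting by `u' ↦ u' ∘ h` (`ZO.orb_perm` for the
pair colorings), the stabilizer of `u'` being `stab (u', v)`; so `∑_{u' with matrix M} #stab (u', v) = #stab v`
(orbit-stabilizer; e.g. the map `h ↦ u' ∘ h` from `stab v` onto the orbit has fibers with `#stab (u', v)` elements, and
`#stab` is constant on the orbit by conjugation).  So the sum is `#stab v * nMat (fib u) (fib v)`.
(Alternatively use `#stab z = ∏_c (fib z c)!` and multinomial coefficients.)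
-/

noncomputable section

namespace ZSp

/-- The matrix of a pair of colorings. -/
def PDCb_mat {r : ℕ} {X : Type} [Fintype X] (u v : X → Fin r) (i j : Fin r) : ℕ :=
  (Finset.univ.filter fun s => u s = i ∧ v s = j).card

theorem PDCb_row {r : ℕ} {X : Type} [Fintype X] (u v : X → Fin r) (i : Fin r) :
    ∑ j, PDCb_mat u v i j = fib u i := by
  unfold fib
  rw [Finset.card_eq_sum_card_fiberwise (f := v) (t := Finset.univ)
    (fun _ _ => Finset.mem_coe.2 (Finset.mem_univ _))]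
  refine Finset.sum_congr rfl fun j _ => ?_
  unfold PDCb_mat
  rw [Finset.filter_filter]

theorem PDCb_col {r : ℕ} {X : Type} [Fintype X] (u v : X → Fin r) (j : Fin r) :
    ∑ i, PDCb_mat u v i j = fib v j := by
  unfold fib
  rw [Finset.card_eq_sum_card_fiberwise (f := u) (t := Finset.univ)
    (fun _ _ => Finset.mem_coe.2 (Finset.mem_univ _))]
  refine Finset.sum_congr rfl fun i _ => ?_
  unfold PDCb_mat
  rw [Finset.filter_filter]
  congr 1
  refine Finset.filter_congr fun s _ => ?_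
  exact and_comm

theorem PDCb_comp {r : ℕ} {X : Type} [Fintype X] (u v : X → Fin r) (e : Equiv.Perm X) :
    PDCb_mat (u ∘ e) (v ∘ e) = PDCb_mat u v := by
  funext i j
  unfold PDCb_mat
  refine Finset.card_bij (fun s _ => e s) ?_ ?_ ?_
  · intro s hs
    rw [Finset.mem_filter] at hs ⊢
    exact ⟨Finset.mem_univ _, hs.2⟩
  · intro s _ t _ h
    exact e.injective h
  · intro t ht
    rw [Finset.mem_filter] at ht
    refine ⟨e.symm t, ?_, e.apply_symm_apply t⟩
    rw [Finset.mem_filter]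
    refine ⟨Finset.mem_univ _, ?_⟩
    show u (e (e.symm t)) = i ∧ v (e (e.symm t)) = j
    rw [e.apply_symm_apply]
    exact ht.2

theorem PDCb_fib_comp {r : ℕ} {X : Type} [Fintype X] (u : X → Fin r) (e : Equiv.Perm X) :
    fib (u ∘ e) = fib u := by
  funext i
  rw [← PDCb_row (u ∘ e) (u ∘ e) i, ← PDCb_row u u i, PDCb_comp]

theorem PDCb_card {r : ℕ} {X : Type} [Fintype X] (u v : X → Fin r) (p : Fin r × Fin r) :
    Fintype.card {s // (u s, v s) = p} = PDCb_mat u v p.1 p.2 := by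
  rw [Fintype.card_subtype]
  unfold PDCb_mat
  congr 1
  refine Finset.filter_congr fun s _ => ?_
  exact Prod.ext_iff

theorem PDCb_conj {r : ℕ} {X : Type} [Fintype X] [DecidableEq X] {u v u' v' : X → Fin r}
    (h : PDCb_mat u v = PDCb_mat u' v') : ∃ e : Equiv.Perm X, u' ∘ e = u ∧ v' ∘ e = v := by
  obtain ⟨e, he⟩ := ZO.orb_perm (u := fun s => (u s, v s)) (v := fun s => (u' s, v' s)) fun p => by
    rw [PDCb_card, PDCb_card, h]
  exact ⟨e, funext fun s => congrArg Prod.fst (congrFun he s),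
    funext fun s => congrArg Prod.snd (congrFun he s)⟩

theorem PDCb_conj1 {r : ℕ} {X : Type} [Fintype X] [DecidableEq X] {u u' : X → Fin r}
    (h : fib u = fib u') : ∃ e : Equiv.Perm X, u' ∘ e = u := by
  refine ZO.orb_perm fun p => ?_
  rw [Fintype.card_subtype, Fintype.card_subtype]
  exact congrFun h p

theorem PDCb_exists {r : ℕ} {X : Type} [Fintype X] [DecidableEq X] (v : X → Fin r)
    (M : Fin r → Fin r → ℕ) (hM : ∀ j, ∑ i, M i j = fib v j) :
    ∃ u : X → Fin r, PDCb_mat u v = M := by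
  classical
  have h1 : ∀ j : Fin r, Fintype.card {s // v s = j} =
      Fintype.card {y : Σ p : Fin r × Fin r, Fin (M p.1 p.2) // y.1.2 = j} := by
    intro j
    have h2 : Fintype.card {y : Σ p : Fin r × Fin r, Fin (M p.1 p.2) // y.1.2 = j} =
        Fintype.card (Σ i : Fin r, Fin (M i j)) := by
      refine Fintype.card_congr ⟨fun y => ⟨y.1.1.1, Fin.cast (congrArg (M y.1.1.1) y.2) y.1.2⟩,
        fun z => ⟨⟨(z.1, j), z.2⟩, rfl⟩, ?_, ?_⟩
      · rintro ⟨⟨⟨i, j'⟩, a⟩, rfl⟩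
        rfl
      · rintro ⟨i, a⟩
        rfl
    rw [h2, Fintype.card_sigma, Fintype.card_subtype]
    simp only [Fintype.card_fin]
    rw [hM j]
    rfl
  let e : X ≃ Σ p : Fin r × Fin r, Fin (M p.1 p.2) :=
    Equiv.ofFiberEquiv (f := v) (g := fun y => y.1.2) fun j => Fintype.equivOfCardEq (h1 j)
  have he : ∀ s, (e s).1.2 = v s := fun s =>
    Equiv.ofFiberEquiv_map (f := v) (g := fun y : Σ p : Fin r × Fin r, Fin (M p.1 p.2) => y.1.2)
      (fun j => Fintype.equivOfCardEq (h1 j)) s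
  refine ⟨fun s => (e s).1.1, ?_⟩
  funext i j
  unfold PDCb_mat
  have h3 : (Finset.univ.filter fun s => (e s).1.1 = i ∧ v s = j).card =
      Fintype.card (Fin (M i j)) := by
    rw [← Fintype.card_subtype]
    refine Fintype.card_congr ((e.subtypeEquiv (q := fun y => y.1 = (i, j)) fun s => ?_).trans
      ⟨fun y => Fin.cast (by rw [y.2]) y.1.2, fun a => ⟨⟨(i, j), a⟩, rfl⟩, ?_, ?_⟩)
    · rw [← he s]
      exact ⟨fun h => Prod.ext h.1 h.2, fun h => ⟨congrArg Prod.fst h, congrArg Prod.snd h⟩⟩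
    · rintro ⟨⟨p, a⟩, (hp : p = (i, j))⟩
      subst hp
      rfl
    · intro a
      rfl
  rw [h3, Fintype.card_fin]

/-- The stabilizer as a subgroup. -/
def PDCb_S {r : ℕ} {X : Type} (u : X → Fin r) : Subgroup (Equiv.Perm X) where
  carrier := {σ | u ∘ σ = u}
  mul_mem' {a b} ha hb := by
    show u ∘ (a * b) = u
    rw [Equiv.Perm.coe_mul, ← Function.comp_assoc, show u ∘ a = u from ha]
    exact hb
  one_mem' := rfl
  inv_mem' {a} ha := by
    show u ∘ (a⁻¹ : Equiv.Perm X) = u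
    have h1 : u ∘ a = u := ha
    conv_lhs => rw [← h1]
    funext s
    show u (a (a.symm s)) = u s
    rw [Equiv.apply_symm_apply]

theorem PDCb_mem_S {r : ℕ} {X : Type} (u : X → Fin r) (σ : Equiv.Perm X) :
    σ ∈ PDCb_S u ↔ u ∘ σ = u := Iff.rfl

/-- The action of the product of the stabilizers. -/
abbrev PDCb_act {r : ℕ} {X : Type} (u v : X → Fin r) :
    MulAction (PDCb_S u × PDCb_S v) (Equiv.Perm X) where
  smul p x := p.1.1 * x * (p.2.1)⁻¹
  one_smul x := by
    show (1 : Equiv.Perm X) * x * (1 : Equiv.Perm X)⁻¹ = x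
    rw [one_mul, inv_one, mul_one]
  mul_smul p q x := by
    show (p.1.1 * q.1.1) * x * (p.2.1 * q.2.1)⁻¹ = p.1.1 * (q.1.1 * x * (q.2.1)⁻¹) * (p.2.1)⁻¹
    rw [mul_inv_rev]
    group

theorem PDCb_cardS {r : ℕ} {X : Type} [Fintype X] [DecidableEq X] (u : X → Fin r) :
    Nat.card (PDCb_S u) = (stab u).card := by
  have h1 : Nat.card (PDCb_S u) = Nat.card {σ // σ ∈ stab u} := by
    refine Nat.card_congr (Equiv.subtypeEquivRight fun σ => ?_)
    rw [mem_stab]
    exact Iff.rfl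
  rw [h1, Nat.card_eq_fintype_card, Fintype.card_coe]

theorem PDCb_orbits {r : ℕ} {X : Type} [Fintype X] [DecidableEq X] (u v : X → Fin r) :
    Nat.card (Quotient (@MulAction.orbitRel (PDCb_S u × PDCb_S v) (Equiv.Perm X) _
      (PDCb_act u v))) = nMat (fib u) (fib v) := by
  classical
  let _ := PDCb_act u v
  have hsm : ∀ (p : PDCb_S u × PDCb_S v) (x : Equiv.Perm X), p • x = p.1.1 * x * (p.2.1)⁻¹ :=
    fun _ _ => rfl
  unfold nMat
  set F := (Fintype.piFinset fun i => Finset.Nat.antidiagonalTuple r (fib u i)).filter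
    fun M => ∀ j, ∑ i, M i j = fib v j with hF
  have hmem : ∀ M, M ∈ F ↔ (∀ i, ∑ j, M i j = fib u i) ∧ ∀ j, ∑ i, M i j = fib v j := by
    intro M
    rw [hF, Finset.mem_filter, Fintype.mem_piFinset]
    simp only [Finset.Nat.mem_antidiagonalTuple]
  have hx : ∀ x : Equiv.Perm X, PDCb_mat (u ∘ x) v ∈ F := by
    intro x
    rw [hmem]
    refine ⟨fun i => ?_, fun j => PDCb_col _ v j⟩
    rw [PDCb_row, PDCb_fib_comp]
  have hinv : ∀ (p : PDCb_S u × PDCb_S v) (x : Equiv.Perm X),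
      PDCb_mat (u ∘ (p • x : Equiv.Perm X)) v = PDCb_mat (u ∘ x) v := by
    intro p x
    have h1 : u ∘ (p • x : Equiv.Perm X) = (u ∘ x) ∘ ((p.2.1)⁻¹ : Equiv.Perm X) := by
      rw [hsm, Equiv.Perm.coe_mul, Equiv.Perm.coe_mul, ← Function.comp_assoc, ← Function.comp_assoc,
        show u ∘ p.1.1 = u from p.1.2]
    have h2 : v = v ∘ ((p.2.1)⁻¹ : Equiv.Perm X) := ((PDCb_S v).inv_mem p.2.2).symm
    rw [h1]
    exact (congrArg (fun w => PDCb_mat ((u ∘ x) ∘ ((p.2.1)⁻¹ : Equiv.Perm X)) w) h2).trans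
      (PDCb_comp (u ∘ x) v _)
  let f : Quotient (MulAction.orbitRel (PDCb_S u × PDCb_S v) (Equiv.Perm X)) → {M // M ∈ F} :=
    Quotient.lift (fun x => ⟨PDCb_mat (u ∘ x) v, hx x⟩) (by
      intro x y hxy
      obtain ⟨p, hp⟩ := hxy
      refine Subtype.ext ?_
      show PDCb_mat (u ∘ x) v = PDCb_mat (u ∘ y) v
      have hp' : p • y = x := hp
      rw [← hp']
      exact hinv p y)
  have hf : Function.Bijective f := by
    constructor
    · intro a b
      refine Quotient.inductionOn₂ a b fun x y hxy => ?_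
      have h1 : PDCb_mat (u ∘ x) v = PDCb_mat (u ∘ y) v := congrArg Subtype.val hxy
      obtain ⟨e, he1, he2⟩ := PDCb_conj h1
      refine Quotient.sound ?_
      have h2 : y * e * x⁻¹ ∈ PDCb_S u := by
        rw [PDCb_mem_S, Equiv.Perm.coe_mul, Equiv.Perm.coe_mul, ← Function.comp_assoc,
          ← Function.comp_assoc, he1]
        funext s
        show u (x (x.symm s)) = u s
        rw [Equiv.apply_symm_apply]
      refine ⟨(⟨(y * e * x⁻¹)⁻¹, (PDCb_S u).inv_mem h2⟩, ⟨e⁻¹, (PDCb_S v).inv_mem he2⟩), ?_⟩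
      show (y * e * x⁻¹)⁻¹ * y * (e⁻¹)⁻¹ = x
      group
    · rintro ⟨M, hM⟩
      obtain ⟨h1, h2⟩ := (hmem M).1 hM
      obtain ⟨u', hu'⟩ := PDCb_exists v M h2
      have h3 : fib u' = fib u := by
        funext i
        rw [← PDCb_row u' v i, hu', h1 i]
      obtain ⟨x, hxu⟩ := PDCb_conj1 h3
      refine ⟨Quotient.mk _ x, Subtype.ext ?_⟩
      show PDCb_mat (u ∘ x) v = M
      rw [hxu, hu']
  rw [Nat.card_eq_of_bijective f hf, Nat.card_eq_fintype_card, Fintype.card_coe]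

theorem count_eq {r : ℕ} {X : Type} [Fintype X] [DecidableEq X] (u v : X → Fin r) :
    ((stab u ×ˢ stab v ×ˢ (Finset.univ : Finset (Equiv.Perm X))).filter fun p =>
        p.1 * p.2.2 * p.2.1 = p.2.2).card =
      (stab u).card * (stab v).card * nMat (fib u) (fib v) := by
  classical
  let _ := PDCb_act u v
  have hsm : ∀ (p : PDCb_S u × PDCb_S v) (x : Equiv.Perm X), p • x = p.1.1 * x * (p.2.1)⁻¹ :=
    fun _ _ => rfl
  have h1 := Nat.card_congr
    (MulAction.sigmaFixedByEquivOrbitsProdGroup (PDCb_S u × PDCb_S v) (Equiv.Perm X))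
  rw [Nat.card_prod, Nat.card_prod, PDCb_orbits, PDCb_cardS, PDCb_cardS] at h1
  rw [mul_comm ((stab u).card * (stab v).card), ← h1, ← Fintype.card_coe, ← Nat.card_eq_fintype_card]
  set T := (stab u ×ˢ stab v ×ˢ (Finset.univ : Finset (Equiv.Perm X))).filter fun p =>
    p.1 * p.2.2 * p.2.1 = p.2.2 with hT
  have hmem : ∀ p, p ∈ T ↔ (p.1 ∈ PDCb_S u ∧ p.2.1 ∈ PDCb_S v) ∧ p.1 * p.2.2 * p.2.1 = p.2.2 := by
    intro p
    rw [hT, Finset.mem_filter, Finset.mem_product, Finset.mem_product, mem_stab, mem_stab]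
    constructor
    · rintro ⟨⟨a, b, _⟩, c⟩
      exact ⟨⟨a, b⟩, c⟩
    · rintro ⟨⟨a, b⟩, c⟩
      exact ⟨⟨a, b, Finset.mem_univ _⟩, c⟩
  refine Nat.card_congr ⟨fun p => ⟨(⟨p.1.1, ((hmem p.1).1 p.2).1.1⟩,
      ⟨p.1.2.1⁻¹, (PDCb_S v).inv_mem ((hmem p.1).1 p.2).1.2⟩), ⟨p.1.2.2, ?_⟩⟩,
    fun q => ⟨(q.1.1.1, q.1.2.1⁻¹, q.2.1), ?_⟩, ?_, ?_⟩
  · show p.1.1 * p.1.2.2 * (p.1.2.1⁻¹)⁻¹ = p.1.2.2
    rw [inv_inv]
    exact ((hmem p.1).1 p.2).2
  · rw [hmem]
    refine ⟨⟨q.1.1.2, (PDCb_S v).inv_mem q.1.2.2⟩, ?_⟩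
    have h2 : q.1 • q.2.1 = q.2.1 := q.2.2
    rw [hsm] at h2
    exact h2
  · intro p
    refine Subtype.ext ?_
    show (p.1.1, (p.1.2.1⁻¹)⁻¹, p.1.2.2) = p.1
    rw [inv_inv]
  · rintro ⟨⟨⟨g, hg⟩, ⟨h, hh⟩⟩, ⟨x, hx⟩⟩
    rfl

end ZSp
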