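import Pool.Agent.W_f569db_sp.PNorm
import Pool.Agent.W_f569db_sp.PAL
import Pool.Agent.W_f569db_sp.PDCa
import Pool.Agent.W_f569db_sp.PDCb
import Pool.Agent.W_f569db_zo.TwoA

set_option autoImplicit false

/-!
# The Jacobi-Trudi relation for representations of the symmetric group

`finrank_yng`: from `finrank_yng_count` and `count_eq`, `dim (yng u * K[Perm X] * yng v) = nMat (fib u) (fib v)`.

`jt`: let `A : Fin r → ℕ` be injective, and for good `w` let `u w : X → Fin r` be a coloring with fibers `A - w`.  Let `ρ` be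
a representation of `Perm X` by matrices, `P` a subalgebra which contains all `ρ σ`, `t` a trace functional on `P`.
If the alternating sum of the averages of the ordinary traces
`∑_{w good} sgn w * (#stab (u w))⁻¹ ∑_{σ ∈ stab (u w)} tr (ρ σ)` is zero, then so is
`∑_{w good} sgn w * (#stab (u w))⁻¹ ∑_{σ ∈ stab (u w)} t (ρ σ)`.
Proof.  `virt_idem` for `R = K[Perm X]` (`MonoidAlgebra`; semisimple by Maschke: `IsSemisimpleRing` instance, or
`MonoidAlgebra.Submodule.complementedLattice`, see `W_f569db_zo/SymAlg` or `W_f569db_zs/Low` (`exists_symS`)), `I = good A`,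
`e w = yng K (u w)`, `c w = sgn w`: the hypothesis is `finrank_yng` and `norm_one` (for good `w`: `fib (u w) = sb A w`).
It gives `f`, `η`.  Let `Φ : K[Perm X] → P` be the algebra homomorphism of `ρ` (`MonoidAlgebra.lift`).  The functional
`x ↦ tr (Φ x)` is a trace functional with value `(#stab)⁻¹ ∑ tr (ρ σ)` at `yng K (u w)`, so `tr (Φ f) = 0` (`η = ± 1`).
`Φ f` is an idempotent matrix with trace `0`, so its rank is `0` (`ZO.trace_idem`: trace of an idempotent is its rank;
characteristic `0`) and `Φ f = 0`.  So `t (Φ f) = 0`, and `virt_idem` for the trace functional `t ∘ Φ` gives the claim.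
-/

noncomputable section

namespace ZSp

open Module ZO

theorem finrank_yng (K : Type*) [Field K] [CharZero K] {r : ℕ} {X : Type} [Fintype X]
    [DecidableEq X] (u v : X → Fin r) :
    finrank K (LinearMap.range (sandR K (yng K u) (yng K v))) = nMat (fib u) (fib v) := by
  have h1 := finrank_yng_count K u v
  rw [count_eq u v] at h1
  exact Nat.eq_of_mul_eq_mul_left (Nat.mul_pos (card_stab_pos u) (card_stab_pos v)) h1

theorem jt {K : Type*} [Field K] [CharZero K] {r : ℕ} {X : Type} [Fintype X] [DecidableEq X]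
    (A : Fin r → ℕ) (hA : Function.Injective A) (u : Equiv.Perm (Fin r) → X → Fin r)
    (hu : ∀ w ∈ good A, ∀ i, fib (u w) i = A i - w i) {ι : Type} [Fintype ι] [DecidableEq ι]
    (ρ : Equiv.Perm X →* Matrix ι ι K) (P : Subalgebra K (Matrix ι ι K)) (hP : ∀ σ, ρ σ ∈ P)
    (t : P →ₗ[K] K) (ht : ∀ x y, t (x * y) = t (y * x))
    (h0 : ∑ w ∈ good A, (sgi w : K) * (((stab (u w)).card : K)⁻¹ *
      ∑ σ ∈ stab (u w), Matrix.trace (ρ σ)) = 0) :
    ∑ w ∈ good A, (sgi w : K) * (((stab (u w)).card : K)⁻¹ *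
      ∑ σ ∈ stab (u w), t ⟨ρ σ, hP σ⟩) = 0 := by
  have hne : NeZero (Nat.card (Equiv.Perm X) : K) :=
    ⟨Nat.cast_ne_zero.2 Nat.card_pos.ne'⟩
  have hfib : ∀ w ∈ good A, fib (u w) = sb A w := fun w hw => funext (hu w hw)
  have hI : ∑ i ∈ good A, ∑ j ∈ good A, sgi i * sgi j *
      (finrank K (LinearMap.range (sandR K (yng K (u i)) (yng K (u j)))) : ℤ) = 1 := by
    rw [← norm_one A hA]
    refine Finset.sum_congr rfl fun i hi => Finset.sum_congr rfl fun j hj => ?_
    rw [finrank_yng, hfib i hi, hfib j hj]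
  obtain ⟨f, η, hf, hη, hft⟩ := virt_idem K (R := MonoidAlgebra K (Equiv.Perm X)) (good A)
    (fun w => yng K (u w)) (fun w _ => yng_idem K (u w)) (fun w => sgi w) hI
  let ρ' : Equiv.Perm X →* P :=
    { toFun := fun σ => ⟨ρ σ, hP σ⟩
      map_one' := Subtype.ext (map_one ρ)
      map_mul' := fun a b => Subtype.ext (map_mul ρ a b) }
  let Φ : MonoidAlgebra K (Equiv.Perm X) →ₐ[K] P := MonoidAlgebra.lift K P (Equiv.Perm X) ρ'
  have hΦ : ∀ σ, Φ (MonoidAlgebra.of K (Equiv.Perm X) σ) = ⟨ρ σ, hP σ⟩ := by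
    intro σ
    show MonoidAlgebra.lift K P (Equiv.Perm X) ρ' (MonoidAlgebra.of K (Equiv.Perm X) σ) = ρ' σ
    rw [MonoidAlgebra.lift_of]
  have hyng : ∀ (T : P →ₗ[K] K) (v : X → Fin r), (T.comp Φ.toLinearMap) (yng K v) =
      ((stab v).card : K)⁻¹ * ∑ σ ∈ stab v, T ⟨ρ σ, hP σ⟩ := by
    intro T v
    unfold yng
    rw [map_smul, map_sum, smul_eq_mul]
    congr 1
    refine Finset.sum_congr rfl fun σ _ => ?_
    show T (Φ _) = _
    rw [hΦ]
  let T1 : P →ₗ[K] K := (Matrix.traceLinearMap ι K K).comp P.val.toLinearMap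
  have hT1 : ∀ x y, T1 (x * y) = T1 (y * x) := fun x y => Matrix.trace_mul_comm _ _
  have hcomp : ∀ (T : P →ₗ[K] K), (∀ x y, T (x * y) = T (y * x)) → ∀ x y,
      (T.comp Φ.toLinearMap) (x * y) = (T.comp Φ.toLinearMap) (y * x) := by
    intro T hT x y
    show T (Φ (x * y)) = T (Φ (y * x))
    rw [map_mul Φ x y, map_mul Φ y x, hT]
  have h1 := hft (T1.comp Φ.toLinearMap) (hcomp T1 hT1)
  have h2 := hft (t.comp Φ.toLinearMap) (hcomp t ht)
  simp only [hyng] at h1 h2
  have h1' : (η : K) * (T1.comp Φ.toLinearMap) f = 0 := by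
    rw [← h1]
    exact h0
  have hη0 : (η : K) ≠ 0 := by
    rcases hη with rfl | rfl <;> simp
  have h3 : Matrix.trace ((Φ f : P) : Matrix ι ι K) = 0 := by
    rcases mul_eq_zero.1 h1' with h | h
    · exact absurd h hη0
    · exact h
  have hq : ((Φ f : P) : Matrix ι ι K) * ((Φ f : P) : Matrix ι ι K) = ((Φ f : P) : Matrix ι ι K) := by
    have h4 : Φ f * Φ f = Φ f := by rw [← map_mul, hf.eq]
    exact congrArg Subtype.val h4
  rw [trace_idem hq] at h3
  have h4 : ((Φ f : P) : Matrix ι ι K).rank = 0 := by exact_mod_cast h3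
  have h5 : ((Φ f : P) : Matrix ι ι K) = 0 := by
    have h6 : LinearMap.range ((Φ f : P) : Matrix ι ι K).mulVecLin = ⊥ :=
      Submodule.finrank_eq_zero.1 h4
    have h7 := LinearMap.range_eq_bot.1 h6
    ext i j
    have h8 := congrFun (LinearMap.congr_fun h7 (Pi.single j 1)) i
    rw [Matrix.mulVecLin_apply, Matrix.mulVec_single_one] at h8
    exact h8
  have h6 : Φ f = 0 := Subtype.ext h5
  rw [h2]
  show (η : K) * t (Φ f) = 0
  rw [h6, map_zero, mul_zero]

end ZSp
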