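import Pool.Agent.W_f569db_sp.PBia

set_option autoImplicit false

/-!
# The virtual Young idempotent has norm one

`coeff_prod_hh`: the coefficient of `X^ν` in `∏_i h_{μ i}` is the number `nMat μ ν` of matrices with row sums `μ`
and column sums `ν` (`Finset.prod_univ_sum` turns the product of sums into a sum over `Fintype.piFinset`; the
monomial of `M` is `∏_i ∏_j X_j^(M i j) = ∏_j X_j^(∑_i M i j)`; `MvPolynomial.coeff_monomial` or
`MvPolynomial.coeff_X_pow`.. after writing `∏_j X_j^(n j) = monomial n 1`: `MvPolynomial.monomial_eq`,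
`Finsupp.prod_fintype`).

`norm_one`: for injective `A : Fin r → ℕ`
`∑_{w, w' good} sgn w * sgn w' * nMat (A - w) (A - w') = 1`.
Proof.  Take the coefficient of `X^A = ∏_k X_k^(A k)` in `bialternant`.
Left hand side: `Matrix.det_apply'`: `∑_σ sgn σ ∏_k X_k^(A (σ k))`; the monomial of `σ` is `X^A` iff `A ∘ σ = A` iff
`σ = 1` (`A` injective).  So the coefficient is `1`.
Right hand side: `det (hz (A i) j) = ∑_w sgn w ∏_i hz (A i) (w i)` (`Matrix.det_transpose`, `Matrix.det_apply'`), the
product is zero unless `w` is good and is then `∏_i h_{A i - w i}`; `det (X_k^i) = ∑_{w'} sgn w' ∏_k X_k^(w' k)`.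
The coefficient of `X^A` in `(∏_k X_k^(w' k)) * ∏_i h_{(A - w) i}` is zero if `w'` is not good and is the coefficient
of `X^(A - w')` in `∏_i h_{(A - w) i}` if `w'` is good (`MvPolynomial.coeff_monomial_mul'`,
`monomial s 1 * p`), which is `nMat (A - w) (A - w')`.
-/

noncomputable section

namespace ZSp

theorem PNorm_mon {r : ℕ} (n : Fin r → ℕ) :
    ∏ j, (MvPolynomial.X j : MvPolynomial (Fin r) ℤ) ^ (n j) =
      MvPolynomial.monomial (Finsupp.equivFunOnFinite.symm n) 1 := by
  rw [MvPolynomial.monomial_eq, MvPolynomial.C_1, one_mul,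
    Finsupp.prod_fintype _ _ fun i => pow_zero _]
  rfl

theorem coeff_prod_hh (r : ℕ) (μ : Fin r → ℕ) (ν : Fin r →₀ ℕ) :
    MvPolynomial.coeff ν (∏ i, hh r (μ i)) = (nMat μ ν : ℤ) := by
  classical
  unfold hh nMat
  rw [Finset.prod_univ_sum, MvPolynomial.coeff_sum, Finset.card_filter, Nat.cast_sum]
  refine Finset.sum_congr rfl fun M _ => ?_
  have h1 : ∏ i, ∏ j, (MvPolynomial.X j : MvPolynomial (Fin r) ℤ) ^ (M i j) =
      MvPolynomial.monomial (Finsupp.equivFunOnFinite.symm fun j => ∑ i, M i j) 1 := by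
    rw [Finset.prod_comm, ← PNorm_mon]
    refine Finset.prod_congr rfl fun j _ => ?_
    rw [Finset.prod_pow_eq_pow_sum]
  rw [h1, MvPolynomial.coeff_monomial]
  by_cases h : ∀ j, ∑ i, M i j = ν j
  · rw [if_pos h, if_pos]
    · simp
    · ext j
      exact h j
  · rw [if_neg h, if_neg]
    · simp
    · intro hc
      apply h
      intro j
      rw [← hc]
      rfl

theorem norm_one {r : ℕ} (A : Fin r → ℕ) (hA : Function.Injective A) :
    ∑ w ∈ good A, ∑ w' ∈ good A, sgi w * sgi w' * (nMat (sb A w) (sb A w') : ℤ) = 1 := by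
  classical
  have h0 := congrArg (MvPolynomial.coeff (Finsupp.equivFunOnFinite.symm A)) (bialternant r A)
  have hL : Matrix.det (Matrix.of fun i k : Fin r =>
      (MvPolynomial.X k : MvPolynomial (Fin r) ℤ) ^ (A i)) =
      ∑ σ : Equiv.Perm (Fin r), MvPolynomial.C (sgi σ) *
        MvPolynomial.monomial (Finsupp.equivFunOnFinite.symm fun k => A (σ k)) 1 := by
    rw [Matrix.det_apply']
    refine Finset.sum_congr rfl fun σ _ => ?_
    rw [← PNorm_mon]
    unfold sgi
    simp only [Matrix.of_apply]
    congr 1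
  have hV : Matrix.det (Matrix.of fun i k : Fin r =>
      (MvPolynomial.X k : MvPolynomial (Fin r) ℤ) ^ (i : ℕ)) =
      ∑ σ : Equiv.Perm (Fin r), MvPolynomial.C (sgi σ) *
        MvPolynomial.monomial (Finsupp.equivFunOnFinite.symm fun k => (σ k : ℕ)) 1 := by
    rw [Matrix.det_apply']
    refine Finset.sum_congr rfl fun σ _ => ?_
    rw [← PNorm_mon]
    unfold sgi
    simp only [Matrix.of_apply]
    congr 1
  have hH : Matrix.det (Matrix.of fun i j : Fin r => hz r (A i) (j : ℕ)) =
      ∑ w ∈ good A, MvPolynomial.C (sgi w) * ∏ i, hh r (sb A w i) := by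
    rw [← Matrix.det_transpose, Matrix.det_apply']
    have h1 : ∀ w : Equiv.Perm (Fin r), (((Equiv.Perm.sign w : ℤˣ) : ℤ) : MvPolynomial (Fin r) ℤ) *
        ∏ i, (Matrix.of fun i j : Fin r => hz r (A i) (j : ℕ)).transpose (w i) i =
        if w ∈ good A then MvPolynomial.C (sgi w) * ∏ i, hh r (sb A w i) else 0 := by
      intro w
      simp only [Matrix.transpose_apply, Matrix.of_apply]
      split_ifs with hw
      · rw [mem_good] at hw
        have h2 : ∏ i, hz r (A i) ((w i : Fin r) : ℕ) = ∏ i, hh r (sb A w i) := by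
          refine Finset.prod_congr rfl fun i _ => ?_
          unfold hz sb
          rw [if_pos (hw i)]
        rw [h2]
        congr 1
      · rw [mem_good] at hw
        push Not at hw
        obtain ⟨i, hi⟩ := hw
        rw [Finset.prod_eq_zero (Finset.mem_univ i), mul_zero]
        unfold hz
        rw [if_neg (by omega)]
    rw [Finset.sum_congr rfl fun w _ => h1 w, ← Finset.sum_filter]
    refine Finset.sum_congr ?_ fun _ _ => rfl
    ext w
    simp
  rw [hL, hV, hH, MvPolynomial.coeff_sum, Finset.sum_mul, MvPolynomial.coeff_sum] at h0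
  have h3 : ∑ σ : Equiv.Perm (Fin r), MvPolynomial.coeff (Finsupp.equivFunOnFinite.symm A)
      (MvPolynomial.C (sgi σ) *
        MvPolynomial.monomial (Finsupp.equivFunOnFinite.symm fun k => A (σ k)) 1) = 1 := by
    rw [Finset.sum_eq_single (1 : Equiv.Perm (Fin r))]
    · rw [MvPolynomial.coeff_C_mul, MvPolynomial.coeff_monomial, if_pos (by simp)]
      unfold sgi
      simp
    · intro σ _ hσ
      rw [MvPolynomial.coeff_C_mul, MvPolynomial.coeff_monomial, if_neg, mul_zero]
      intro hc
      apply hσ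
      ext k
      have h4 := DFunLike.congr_fun hc k
      have h5 : A (σ k) = A k := h4
      rw [hA h5]
      rfl
    · intro h
      exact absurd (Finset.mem_univ _) h
  rw [h3] at h0
  rw [h0]
  refine Finset.sum_congr rfl fun w _ => ?_
  rw [Finset.mul_sum, MvPolynomial.coeff_sum, ← Finset.sum_filter_add_sum_filter_not Finset.univ
    (fun w' => w' ∈ good A)]
  have h6 : ∀ w' : Equiv.Perm (Fin r), MvPolynomial.coeff (Finsupp.equivFunOnFinite.symm A)
      (MvPolynomial.C (sgi w) * (∏ i, hh r (sb A w i)) * (MvPolynomial.C (sgi w') *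
        MvPolynomial.monomial (Finsupp.equivFunOnFinite.symm fun k => (w' k : ℕ)) 1)) =
      if w' ∈ good A then sgi w * sgi w' * (nMat (sb A w) (sb A w') : ℤ) else 0 := by
    intro w'
    have h7 : MvPolynomial.C (sgi w) * (∏ i, hh r (sb A w i)) * (MvPolynomial.C (sgi w') *
        MvPolynomial.monomial (Finsupp.equivFunOnFinite.symm fun k => (w' k : ℕ)) 1) =
        MvPolynomial.C (sgi w * sgi w') *
          (MvPolynomial.monomial (Finsupp.equivFunOnFinite.symm fun k => (w' k : ℕ)) 1 *
            ∏ i, hh r (sb A w i)) := by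
      rw [MvPolynomial.C_mul]
      ring
    rw [h7, MvPolynomial.coeff_C_mul, MvPolynomial.coeff_monomial_mul', one_mul]
    split_ifs with h8 h9 h9
    · rw [coeff_prod_hh]
      congr 2
    · exfalso
      apply h9
      rw [mem_good]
      intro k
      exact h8 k
    · exfalso
      apply h8
      intro k
      exact (mem_good.1 h9) k
    · rw [mul_zero]
  rw [Finset.sum_congr rfl fun w' _ => h6 w',
    Finset.sum_congr (s₂ := Finset.univ.filter fun w' => ¬ w' ∈ good A) rfl fun w' _ => h6 w']
  have h10 : (Finset.univ.filter fun w' : Equiv.Perm (Fin r) => w' ∈ good A) = good A := by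
    ext w'
    simp
  have h11 : ∑ w' ∈ (Finset.univ.filter fun w' : Equiv.Perm (Fin r) => ¬ w' ∈ good A),
      (if w' ∈ good A then sgi w * sgi w' * (nMat (sb A w) (sb A w') : ℤ) else 0) = 0 := by
    refine Finset.sum_eq_zero fun w' hw' => ?_
    rw [if_neg (Finset.mem_filter.1 hw').2]
  rw [h11, add_zero, h10]
  exact Finset.sum_congr rfl fun w' hw' => (if_pos hw').symm

end ZSp
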