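import Pool.Agent.W_f569db_sp.RNum

set_option autoImplicit false

/-!
# A Toeplitz determinant of the numbers `R` is not zero

`kap p q = det (R_{q + i - j})_{i, j < p}` (`Bx` without the column `0`: entries `Rz p q (q + 1 + i) (j + 1)`).

`kap_ne_zero`.  Suppose `det = 0`.  Then (over `ℚ`, or over `ℤ`: `Matrix.exists_mulVec_eq_zero_iff` for a domain) there is
a nonzero vector `c : Fin p → ℤ` with `∑_{j < p} Rz p q (q + 1 + i) (j + 1) * c j = 0` for all `i < p`.  Let
`C(t) = ∑_{j < p} c j * t^j` and `G = C * Hs p q = ∑ g_n t^n`.  The coefficient `g_{q + i}` is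
`∑_j c j * R_{q + i - j} = 0` for `i < p`.  As `(1 - t)^p * G = C(t) * (1 + t)^q` (`Hs_mul`) has degree `< p + q`, the
coefficients satisfy `∑_{j ≤ p} (-1)^j binom(p, j) g_{n - j} = 0` for `n ≥ p + q`, so `g_n = 0` for all `n ≥ q` by strong
induction.  So `G` is (the power series of) a polynomial of degree `< q` (`G = 0` if `q = 0`) with
`(1 - t)^p * G = C(t) * (1 + t)^q` as polynomials.  `(1 + t)^q` and `(1 - t)^p` are coprime over `ℚ`
(`IsCoprime.pow`; `(1 + t) + (1 - t) = 2`), so `(1 + t)^q ∣ G`, hence `G = 0` by degrees, hence `C = 0`: contradiction.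
-/

noncomputable section

namespace ZSp

/-- coefficients of `(1 - X)^p` above `p` -/
theorem RDet_coeff (p i : ℕ) (h : p < i) :
    PowerSeries.coeff i (((1 : PowerSeries ℤ) - PowerSeries.X) ^ p) = 0 := by
  have h1 : ((1 : PowerSeries ℤ) - PowerSeries.X) ^ p =
      (((1 - Polynomial.X) ^ p : Polynomial ℤ) : PowerSeries ℤ) := by
    simp
  rw [h1, Polynomial.coeff_coe]
  refine Polynomial.coeff_eq_zero_of_natDegree_lt (lt_of_le_of_lt ?_ h)
  refine (Polynomial.natDegree_pow_le).trans ?_
  have h2 : ((1 : Polynomial ℤ) - Polynomial.X).natDegree ≤ 1 := by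
    refine (Polynomial.natDegree_sub_le _ _).trans (max_le ?_ ?_)
    · simp
    · exact Polynomial.natDegree_X_le
  calc p * ((1 : Polynomial ℤ) - Polynomial.X).natDegree ≤ p * 1 := Nat.mul_le_mul_left _ h2
    _ = p := mul_one p

theorem RDet_coeff_zero (p : ℕ) :
    PowerSeries.coeff 0 (((1 : PowerSeries ℤ) - PowerSeries.X) ^ p) = 1 := by
  simp

theorem kap_ne_zero (p q : ℕ) : kap p q ≠ 0 := by
  intro h0
  unfold kap at h0
  obtain ⟨v, hv, hv0⟩ := Matrix.exists_mulVec_eq_zero_iff.2 h0
  set Cp : Polynomial ℤ := ∑ j : Fin p, Polynomial.C (v j) * Polynomial.X ^ (j : ℕ) with hCp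
  set G : PowerSeries ℤ := (Cp : PowerSeries ℤ) * Hs p q with hG
  have hCc : (Cp : PowerSeries ℤ) = ∑ j : Fin p, PowerSeries.C (v j) * PowerSeries.X ^ (j : ℕ) := by
    rw [hCp, ← Polynomial.coeToPowerSeries.ringHom_apply, map_sum]
    refine Finset.sum_congr rfl fun j _ => ?_
    rw [Polynomial.coeToPowerSeries.ringHom_apply, Polynomial.coe_mul, Polynomial.coe_C,
      Polynomial.coe_pow, Polynomial.coe_X]
  have hcoe : ∀ n, PowerSeries.coeff n G = ∑ j : Fin p, v j * Rz p q n j := by
    intro n
    rw [hG, hCc, Finset.sum_mul, map_sum]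
    refine Finset.sum_congr rfl fun j _ => ?_
    rw [mul_assoc, PowerSeries.coeff_C_mul, PowerSeries.coeff_X_pow_mul']
    rfl
  have hCdeg : ∀ i, p ≤ i → Cp.coeff i = 0 := by
    intro i hi
    refine Polynomial.coeff_eq_zero_of_degree_lt (lt_of_lt_of_le
      (Polynomial.degree_sum_fin_lt v) ?_)
    exact_mod_cast hi
  -- the low coefficients vanish
  have hlow : ∀ n, q ≤ n → n < p + q → PowerSeries.coeff n G = 0 := by
    intro n h1 h2
    have hi : n - q < p := by omega
    have h3 := congrFun hv0 ⟨n - q, hi⟩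
    rw [hcoe]
    simp only [Matrix.mulVec, dotProduct, Matrix.submatrix_apply, id, Bx, Matrix.of_apply,
      Fin.succAbove_zero, Fin.val_succ, Pi.zero_apply] at h3
    rw [← h3]
    refine Finset.sum_congr rfl fun j _ => ?_
    rw [mul_comm]
    congr 1
    unfold Rz
    have e1 : (q + 1 + (n - q)) - ((j : ℕ) + 1) = n - j := by omega
    have e2 : ((j : ℕ) + 1 ≤ q + 1 + (n - q)) ↔ (j : ℕ) ≤ n := by omega
    simp only [e1, e2]
  have hGm : (1 - PowerSeries.X) ^ p * G = ((Cp * (1 + Polynomial.X) ^ q : Polynomial ℤ) :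
      PowerSeries ℤ) := by
    have h1 := Hs_mul p q
    rw [hG, mul_left_comm, h1]
    simp
  have hPz : ∀ n, p + q ≤ n → (Cp * (1 + Polynomial.X) ^ q).coeff n = 0 := by
    intro n hn
    rw [Polynomial.coeff_mul]
    refine Finset.sum_eq_zero fun x hx => ?_
    rw [Finset.HasAntidiagonal.mem_antidiagonal] at hx
    rcases Nat.lt_or_ge x.1 p with h1 | h1
    · rw [Polynomial.coeff_one_add_X_pow, Nat.choose_eq_zero_of_lt (by omega)]
      simp
    · rw [hCdeg _ h1, zero_mul]
  have hg : ∀ n, q ≤ n → PowerSeries.coeff n G = 0 := by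
    intro n
    induction n using Nat.strong_induction_on with
    | _ n ih =>
      intro hqn
      rcases Nat.lt_or_ge n (p + q) with hn | hn
      · exact hlow n hqn hn
      · have h1 := hPz n hn
        rw [← Polynomial.coeff_coe, ← hGm, PowerSeries.coeff_mul] at h1
        rw [Finset.sum_eq_single (0, n)] at h1
        · simpa using h1
        · rintro ⟨i, j⟩ hx hne
          rw [Finset.HasAntidiagonal.mem_antidiagonal] at hx
          dsimp only at hx ⊢
          have hi : i ≠ 0 := by
            rintro rfl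
            apply hne
            rw [zero_add] at hx
            rw [hx]
          rcases Nat.lt_or_ge p i with hpi | hpi
          · rw [RDet_coeff p i hpi, zero_mul]
          · rw [ih j (by omega) (by omega), mul_zero]
        · intro hx
          exact absurd (Finset.HasAntidiagonal.mem_antidiagonal.2 (zero_add n)) hx
  -- `G` is a polynomial of degree less than `q`
  set Gp : Polynomial ℤ := PowerSeries.trunc q G with hGp
  have hGe : (Gp : PowerSeries ℤ) = G := by
    ext n
    rw [Polynomial.coeff_coe, hGp, PowerSeries.coeff_trunc]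
    split_ifs with h1
    · rfl
    · exact (hg n (by omega)).symm
  have hpoly : (1 - Polynomial.X) ^ p * Gp = Cp * (1 + Polynomial.X) ^ q := by
    apply Polynomial.coe_injective ℤ
    rw [← hGm, Polynomial.coe_mul, hGe]
    simp
  have hprime : Prime (Polynomial.X - Polynomial.C (-1 : ℤ)) := Polynomial.prime_X_sub_C (-1)
  have hX : (1 : Polynomial ℤ) + Polynomial.X = Polynomial.X - Polynomial.C (-1 : ℤ) := by
    simp [add_comm]
  have hnd : ¬ (Polynomial.X - Polynomial.C (-1 : ℤ)) ∣ (1 - Polynomial.X) ^ p := by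
    intro hd
    rw [Polynomial.dvd_iff_isRoot, Polynomial.IsRoot.def] at hd
    simp at hd
  have hdvd : (Polynomial.X - Polynomial.C (-1 : ℤ)) ^ q ∣ Gp := by
    refine hprime.pow_dvd_of_dvd_mul_left q hnd ?_
    rw [hpoly, hX]
    exact dvd_mul_left _ _
  have hGp0 : Gp = 0 := by
    by_contra hne
    have h1 := Polynomial.natDegree_le_of_dvd hdvd hne
    rw [(Polynomial.monic_X_sub_C (-1 : ℤ)).natDegree_pow, Polynomial.natDegree_X_sub_C,
      mul_one] at h1
    rcases Nat.eq_zero_or_pos q with hq | hq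
    · apply hne
      rw [hGp, hq]
      ext n
      rw [PowerSeries.coeff_trunc]
      simp
    · have h2 : Gp.natDegree < q := by
        obtain ⟨q', rfl⟩ := Nat.exists_eq_succ_of_ne_zero hq.ne'
        rw [hGp]
        exact PowerSeries.natDegree_trunc_lt G q'
      omega
  rw [hGp0, mul_zero] at hpoly
  have hC0 : Cp = 0 := by
    rcases mul_eq_zero.1 hpoly.symm with h1 | h1
    · exact h1
    · exfalso
      rw [hX] at h1
      exact pow_ne_zero q hprime.ne_zero h1
  apply hv
  funext j
  have h1 : Cp.coeff j = v j := by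
    rw [hCp, Polynomial.finsetSum_coeff, Finset.sum_eq_single j]
    · simp
    · intro b _ hb
      rw [Polynomial.coeff_C_mul_X_pow, if_neg]
      intro h
      exact hb (Fin.ext h.symm)
    · intro h
      exact absurd (Finset.mem_univ j) h
  rw [← h1, hC0]
  simp

end ZSp
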