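import Pool.Agent.W_f569db_sp.RDet

set_option autoImplicit false

/-!
# The minors of the Toeplitz matrix, expansion of the alternating sum

`minor_eq`: the minor of `Bx p q` without the column `j` is `kap p q * binom(p, j)`.
Proof.  Let `m j = (-1)^j * det (Bx without column j)` and `v j = (-1)^j binom(p, j)`.  `Bx * m = 0` (the determinant of
`Bx` with its row `i` added on top is zero as two rows are equal, expand along the top row:
`Matrix.det_succ_row_zero`) and `Bx * v = 0` (`Rz_rec`).  `x = m - kap p q • v` satisfies `Bx * x = 0` and `x 0 = 0` (`m 0 =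
kap p q`, `v 0 = 1`).  So the vector `(x (j+1))_j` is in the kernel of `Bx` without the column `0`, whose determinant
`kap p q` is not zero (`kap_ne_zero`): `x = 0` (`Matrix.eq_zero_of_mulVec_eq_zero`).

`expand`: for `a ≥ p` the sum over the good `w` for `A = Ax p q a = (a, q+1, .., q+p)` (the condition `w 0 ≤ a` is
automatic) of `sgn w * f (a - w 0) * ∏_{i < p} R_{q + 1 + i - w (i+1)}` is `kap p q * ∑_j (-1)^j binom(p, j) f (a - j)`.
Proof.  For `w` not good some `Rz p q (q+1+i) (w (i+1))` is zero, so the sum is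
`∑_w sgn w * M 0 (w 0) * ∏_{i<p} M (i+1) (w (i+1)) = det M` for the matrix `M` with top row `M 0 j = f (a - j)` and lower
rows `Bx p q` (cast to `ℝ`) (`Matrix.det_apply`, `Matrix.det_transpose`), which is `∑_j (-1)^j f (a - j) * minor j`
(`Matrix.det_succ_row_zero`).

`det_zero`: the case `f = R` (`a ≥ q + p + 1`): `Rz_rec`.
-/

noncomputable section

namespace ZSp

/-- The vector of the signed minors is in the kernel. -/
theorem RMin_ker (p q : ℕ) (i : Fin p) :
    ∑ j : Fin (p + 1), Bx p q i j *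
      ((-1) ^ (j : ℕ) * ((Bx p q).submatrix id j.succAbove).det) = 0 := by
  obtain ⟨M, hM⟩ : ∃ M : Matrix (Fin (p + 1)) (Fin (p + 1)) ℤ,
      M = Matrix.of (Fin.cons (Bx p q i) (Bx p q)) := ⟨_, rfl⟩
  have h0 : M.det = 0 := by
    apply Matrix.det_zero_of_row_eq (Fin.succ_ne_zero i).symm
    rw [hM]
    funext j
    simp [Matrix.of_apply]
  rw [Matrix.det_succ_row_zero] at h0
  rw [← h0]
  refine Finset.sum_congr rfl fun j _ => ?_
  have h1 : M 0 j = Bx p q i j := by
    rw [hM]
    simp [Matrix.of_apply]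
  have h2 : M.submatrix Fin.succ j.succAbove = (Bx p q).submatrix id j.succAbove := by
    rw [hM]
    ext a b
    simp [Matrix.of_apply]
  rw [h1, h2]
  ring

theorem RMin_bin (p q : ℕ) (i : Fin p) :
    ∑ j : Fin (p + 1), Bx p q i j * ((-1) ^ (j : ℕ) * (p.choose j : ℤ)) = 0 := by
  have h := Rz_rec p q (q + 1 + i) (by omega)
  rw [Finset.sum_range] at h
  rw [← h]
  refine Finset.sum_congr rfl fun j _ => ?_
  have h1 : Bx p q i j = Rz p q (q + 1 + i) j := rfl
  rw [h1]
  ring

theorem minor_eq (p q : ℕ) (j : Fin (p + 1)) :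
    ((Bx p q).submatrix id j.succAbove).det = kap p q * (p.choose j : ℤ) := by
  obtain ⟨x, hx⟩ : ∃ x : Fin (p + 1) → ℤ, x = fun j : Fin (p + 1) => (-1) ^ (j : ℕ) *
      ((Bx p q).submatrix id j.succAbove).det - kap p q * ((-1) ^ (j : ℕ) * (p.choose j : ℤ)) :=
    ⟨_, rfl⟩
  have hx0 : x 0 = 0 := by
    rw [hx]
    simp [kap]
  have hker : ∀ i : Fin p, ∑ j : Fin (p + 1), Bx p q i j * x j = 0 := by
    intro i
    have h1 : ∀ j : Fin (p + 1), Bx p q i j * x j =
        Bx p q i j * ((-1) ^ (j : ℕ) * ((Bx p q).submatrix id j.succAbove).det) -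
        kap p q * (Bx p q i j * ((-1) ^ (j : ℕ) * (p.choose j : ℤ))) := by
      intro j
      rw [hx]
      ring
    rw [Finset.sum_congr rfl fun j _ => h1 j, Finset.sum_sub_distrib, ← Finset.mul_sum,
      RMin_ker, RMin_bin, mul_zero, sub_zero]
  have hv : (fun j : Fin p => x j.succ) = 0 := by
    apply Matrix.eq_zero_of_mulVec_eq_zero (M := (Bx p q).submatrix id (Fin.succAbove 0))
      (kap_ne_zero p q)
    funext i
    have h1 := hker i
    rw [Fin.sum_univ_succ, hx0, mul_zero, zero_add] at h1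
    show ∑ j : Fin p, Bx p q i (Fin.succAbove 0 j) * x j.succ = 0
    rw [← h1]
    refine Finset.sum_congr rfl fun j _ => ?_
    rw [Fin.succAbove_zero]
  have hxj : x j = 0 := by
    refine Fin.cases hx0 (fun j => ?_) j
    exact congrFun hv j
  rw [hx] at hxj
  have h2 : (-1 : ℤ) ^ (j : ℕ) * (-1) ^ (j : ℕ) = 1 := by
    rw [← mul_pow]
    norm_num
  have h3 := congrArg (fun z => (-1 : ℤ) ^ (j : ℕ) * z) hxj
  simp only [mul_zero] at h3
  have h4 : (-1 : ℤ) ^ (j : ℕ) * ((-1) ^ (j : ℕ) * ((Bx p q).submatrix id j.succAbove).det -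
      kap p q * ((-1) ^ (j : ℕ) * (p.choose j : ℤ))) =
      ((-1 : ℤ) ^ (j : ℕ) * (-1) ^ (j : ℕ)) * (((Bx p q).submatrix id j.succAbove).det -
      kap p q * (p.choose j : ℤ)) := by ring
  rw [h4, h2, one_mul] at h3
  linarith

theorem expand (p q a : ℕ) (ha : p ≤ a) (f : ℕ → ℝ) :
    ∑ w ∈ good (Ax p q a), (sgi w : ℝ) * (f (a - w 0) *
        ∏ i : Fin p, (Rn p q (q + 1 + i - w i.succ) : ℝ)) =
      kap p q * ∑ j ∈ Finset.range (p + 1), (-1 : ℝ) ^ j * (p.choose j : ℝ) * f (a - j) := by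
  classical
  obtain ⟨N, hN⟩ : ∃ N : Matrix (Fin (p + 1)) (Fin (p + 1)) ℝ,
      N = Matrix.of (Fin.cons (fun j : Fin (p + 1) => f (a - j)) fun (i : Fin p) (j : Fin (p + 1)) =>
        (Bx p q i j : ℝ)) := ⟨_, rfl⟩
  have hN0 : ∀ j, N 0 j = f (a - j) := by
    intro j
    rw [hN]
    simp [Matrix.of_apply]
  have hNs : ∀ (i : Fin p) j, N i.succ j = (Rz p q (q + 1 + i) j : ℝ) := by
    intro i j
    rw [hN]
    simp [Matrix.of_apply, Bx]
  have h1 : ∑ w ∈ good (Ax p q a), (sgi w : ℝ) * (f (a - w 0) *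
        ∏ i : Fin p, (Rn p q (q + 1 + i - w i.succ) : ℝ)) =
      ∑ w : Equiv.Perm (Fin (p + 1)), (sgi w : ℝ) * ∏ i, N i (w i) := by
    have h2 : ∀ w ∈ good (Ax p q a), (sgi w : ℝ) * (f (a - w 0) *
        ∏ i : Fin p, (Rn p q (q + 1 + i - w i.succ) : ℝ)) =
        (sgi w : ℝ) * ∏ i, N i (w i) := by
      intro w hw
      rw [mem_good] at hw
      rw [Fin.prod_univ_succ, hN0]
      congr 2
      refine Finset.prod_congr rfl fun i _ => ?_
      rw [hNs]
      have h3 := hw i.succ
      have h4 : Ax p q a i.succ = q + 1 + i := rfl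
      rw [h4] at h3
      unfold Rz
      rw [if_pos h3]
    rw [Finset.sum_congr rfl h2]
    apply Finset.sum_subset (Finset.subset_univ _)
    intro w _ hw
    rw [mem_good] at hw
    push Not at hw
    obtain ⟨i, hi⟩ := hw
    have h5 : N i (w i) = 0 := by
      revert hi
      refine Fin.cases (fun hi => ?_) (fun i hi => ?_) i
      · exfalso
        have h6 : Ax p q a 0 = a := rfl
        rw [h6] at hi
        have h7 := (w 0).isLt
        omega
      · rw [hNs]
        have h4 : Ax p q a i.succ = q + 1 + i := rfl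
        rw [h4] at hi
        unfold Rz
        rw [if_neg (by omega), Int.cast_zero]
    rw [Finset.prod_eq_zero (Finset.mem_univ i) h5, mul_zero]
  have h8 : ∑ w : Equiv.Perm (Fin (p + 1)), (sgi w : ℝ) * ∏ i, N i (w i) = N.det := by
    rw [← Matrix.det_transpose, Matrix.det_apply']
    refine Finset.sum_congr rfl fun w _ => ?_
    unfold sgi
    simp only [Matrix.transpose_apply]
  rw [h1, h8, Matrix.det_succ_row_zero, Finset.mul_sum, Finset.sum_range]
  refine Finset.sum_congr rfl fun j _ => ?_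
  have h9 : (N.submatrix Fin.succ j.succAbove).det = ((kap p q * (p.choose j : ℤ) : ℤ) : ℝ) := by
    rw [← minor_eq p q j]
    have h10 := RingHom.map_det (Int.castRingHom ℝ) ((Bx p q).submatrix id j.succAbove)
    rw [eq_intCast] at h10
    rw [h10]
    congr 1
    ext b c
    rw [Matrix.submatrix_apply, hNs]
    rfl
  rw [h9, hN0]
  push_cast
  ring

theorem det_zero (p q a : ℕ) (ha : q + p + 1 ≤ a) :
    ∑ w ∈ good (Ax p q a), sgi w * ∏ i : Fin (p + 1), Rn p q (Ax p q a i - w i) = 0 := by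
  have h1 := expand p q a (by omega) (fun n => (Rn p q n : ℝ))
  have h2 := Rz_rec p q a (by omega)
  have h3 : ∑ j ∈ Finset.range (p + 1), (-1 : ℝ) ^ j * (p.choose j : ℝ) * (Rn p q (a - j) : ℝ) =
      0 := by
    have h4 := congrArg (fun z : ℤ => (z : ℝ)) h2
    push_cast at h4
    rw [← h4]
    refine Finset.sum_congr rfl fun j hj => ?_
    rw [Finset.mem_range] at hj
    unfold Rz
    rw [if_pos (by omega)]
  rw [h3, mul_zero] at h1
  have h5 : ((∑ w ∈ good (Ax p q a), sgi w * ∏ i : Fin (p + 1), Rn p q (Ax p q a i - w i) : ℤ) :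
      ℝ) = 0 := by
    rw [← h1]
    push_cast
    refine Finset.sum_congr rfl fun w _ => ?_
    rw [Fin.prod_univ_succ]
    rfl
  exact_mod_cast h5

theorem Ax_injective (p q a : ℕ) (ha : q + p + 1 ≤ a) : Function.Injective (Ax p q a) := by
  unfold Ax
  rw [Fin.cons_injective_iff]
  constructor
  · rintro ⟨i, hi⟩
    have h1 := i.isLt
    simp only at hi
    omega
  · intro i j hij
    simp only at hij
    apply Fin.ext
    omega

end ZSp
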