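import Pool.Agent.W_f569db_sp.PDefs

set_option autoImplicit false

/-!
# The coefficients of `(1 + t)^q / (1 - t)^p`

`(1 - t) * ∑ t^n = 1` (`PowerSeries.mk_one_mul_one_sub_eq_one`), so `(1 - t)^p * Hs p q = (1 + t)^q`.

* `Rn_le`: by induction on `p + q`: `Hs (p+1) q = Hs p q * ∑ t^n`: `R_{p+1,q} n = ∑_{i ≤ n} R_{p,q} i`, and
  `Hs p (q+1) = Hs p q * (1 + t)`: `R_{p,q+1} n = R_{p,q} n + R_{p,q} (n-1)`; a sum of at most `n + 1` terms
  `≤ (n+1)^(p+q)` (for the second one `n ≥ 1` is used only if the second term is there: `2 ≤ n + 1`).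
* `Rz_rec`: the coefficient of `t^a` in `(1 - t)^p * Hs p q = (1 + t)^q` for `a ≥ q + 1`
  (`(1 - t)^p = ∑_j (-1)^j binom(p, j) t^j`; `(1 + t)^q` has degree `q`).
-/

noncomputable section

namespace ZSp

theorem RNum_mul_nonneg {f g : PowerSeries ℤ} (hf : ∀ n, 0 ≤ PowerSeries.coeff n f)
    (hg : ∀ n, 0 ≤ PowerSeries.coeff n g) (n : ℕ) : 0 ≤ PowerSeries.coeff n (f * g) := by
  rw [PowerSeries.coeff_mul]
  exact Finset.sum_nonneg fun x _ => mul_nonneg (hf _) (hg _)

theorem RNum_pow_nonneg {f : PowerSeries ℤ} (hf : ∀ n, 0 ≤ PowerSeries.coeff n f) (k n : ℕ) :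
    0 ≤ PowerSeries.coeff n (f ^ k) := by
  induction k generalizing n with
  | zero =>
    rw [pow_zero, PowerSeries.coeff_one]
    split_ifs <;> norm_num
  | succ k ih =>
    rw [pow_succ]
    exact RNum_mul_nonneg ih hf n

theorem RNum_succ_p (p q n : ℕ) : Rn (p + 1) q n = ∑ i ∈ Finset.range (n + 1), Rn p q i := by
  have h : Hs (p + 1) q = Hs p q * (PowerSeries.mk fun _ => (1 : ℤ)) := by
    unfold Hs
    rw [pow_succ]
    ring
  unfold Rn
  rw [h, PowerSeries.coeff_mul, Finset.Nat.sum_antidiagonal_eq_sum_range_succ_mk]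
  refine Finset.sum_congr rfl fun i _ => ?_
  rw [PowerSeries.coeff_mk, mul_one]

theorem RNum_succ_q (p q n : ℕ) : Rn p (q + 1) (n + 1) = Rn p q (n + 1) + Rn p q n := by
  have h : Hs p (q + 1) = Hs p q + Hs p q * PowerSeries.X := by
    unfold Hs
    rw [pow_succ]
    ring
  unfold Rn
  rw [h, map_add, PowerSeries.coeff_succ_mul_X]

theorem RNum_coeff_big (q a : ℕ) (ha : q + 1 ≤ a) :
    PowerSeries.coeff a ((1 + PowerSeries.X : PowerSeries ℤ) ^ q) = 0 := by
  rw [add_comm, add_pow, map_sum]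
  refine Finset.sum_eq_zero fun m hm => ?_
  have hm' : m < q + 1 := Finset.mem_range.1 hm
  rw [one_pow, mul_one, ← map_natCast (PowerSeries.C (R := ℤ)), PowerSeries.coeff_mul_C,
    PowerSeries.coeff_X_pow, if_neg (by omega), zero_mul]

theorem Hs_mul (p q : ℕ) : (1 - PowerSeries.X) ^ p * Hs p q = (1 + PowerSeries.X) ^ q := by
  have h : (PowerSeries.mk fun _ => (1 : ℤ)) * (1 - PowerSeries.X) = 1 :=
    PowerSeries.mk_one_mul_one_sub_eq_one ℤ
  have h2 : (1 - PowerSeries.X) ^ p * (PowerSeries.mk fun _ => (1 : ℤ)) ^ p = 1 := by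
    rw [← mul_pow, mul_comm, h, one_pow]
  unfold Hs
  calc (1 - PowerSeries.X) ^ p * ((1 + PowerSeries.X) ^ q * (PowerSeries.mk fun _ => (1 : ℤ)) ^ p)
      = (1 + PowerSeries.X) ^ q * ((1 - PowerSeries.X) ^ p * (PowerSeries.mk fun _ => (1 : ℤ)) ^ p) := by
        ring
    _ = (1 + PowerSeries.X) ^ q := by rw [h2, mul_one]

theorem Rn_zero (p q : ℕ) : Rn p q 0 = 1 := by
  unfold Rn Hs
  have h1 : PowerSeries.constantCoeff (PowerSeries.mk fun _ => (1 : ℤ)) = 1 := by
    rw [← PowerSeries.coeff_zero_eq_constantCoeff_apply, PowerSeries.coeff_mk]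
  rw [PowerSeries.coeff_zero_eq_constantCoeff_apply, map_mul, map_pow, map_pow, map_add, map_one,
    PowerSeries.constantCoeff_X, h1, add_zero, one_pow, one_pow, mul_one]

theorem Rn_nonneg (p q n : ℕ) : 0 ≤ Rn p q n := by
  unfold Rn Hs
  refine RNum_mul_nonneg (RNum_pow_nonneg ?_ q) (RNum_pow_nonneg ?_ p) n
  · intro m
    rw [map_add, PowerSeries.coeff_one, PowerSeries.coeff_X]
    split_ifs <;> norm_num
  · intro m
    rw [PowerSeries.coeff_mk]
    norm_num

theorem Rn_le (p q n : ℕ) : Rn p q n ≤ (n + 1) ^ (p + q) := by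
  induction p generalizing n with
  | zero =>
    induction q generalizing n with
    | zero =>
      unfold Rn Hs
      simp only [pow_zero, mul_one, PowerSeries.coeff_one, add_zero]
      split_ifs <;> norm_num
    | succ q ih =>
      rcases n with _ | n
      · rw [Rn_zero]
        norm_num
      · rw [RNum_succ_q]
        have h1 := ih (n + 1)
        have h2 := ih n
        push_cast at h1 h2 ⊢
        have h3 : ((n : ℤ) + 1) ^ (0 + q) ≤ ((n : ℤ) + 1 + 1) ^ (0 + q) :=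
          pow_le_pow_left₀ (by positivity) (by linarith) _
        have h4 : (0 : ℤ) ≤ ((n : ℤ) + 1 + 1) ^ (0 + q) := by positivity
        have h5 : ((n : ℤ) + 1 + 1) ^ (0 + (q + 1)) = ((n : ℤ) + 1 + 1) ^ (0 + q) * ((n : ℤ) + 1 + 1) := by
          rw [← add_assoc, pow_succ]
        rw [h5]
        have hn : (0 : ℤ) ≤ n := by positivity
        nlinarith
  | succ p ih =>
    rw [RNum_succ_p]
    have h1 : ∀ i ∈ Finset.range (n + 1), Rn p q i ≤ ((n : ℤ) + 1) ^ (p + q) := by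
      intro i hi
      have hi' : i ≤ n := Nat.lt_succ_iff.1 (Finset.mem_range.1 hi)
      refine (ih i).trans (pow_le_pow_left₀ (by positivity) ?_ _)
      have : (i : ℤ) ≤ n := by exact_mod_cast hi'
      linarith
    refine (Finset.sum_le_card_nsmul _ _ _ h1).trans ?_
    rw [Finset.card_range, nsmul_eq_mul]
    have h5 : ((n : ℤ) + 1) ^ (p + 1 + q) = ((n : ℤ) + 1) * ((n : ℤ) + 1) ^ (p + q) := by
      rw [show p + 1 + q = (p + q) + 1 by ring, pow_succ]
      ring
    rw [h5]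
    push_cast
    exact le_rfl

theorem Rz_rec (p q a : ℕ) (ha : q + 1 ≤ a) :
    ∑ j ∈ Finset.range (p + 1), (-1 : ℤ) ^ j * (p.choose j : ℤ) * Rz p q a j = 0 := by
  have h := congrArg (PowerSeries.coeff a) (Hs_mul p q)
  rw [RNum_coeff_big q a ha] at h
  rw [← h]
  have hb : ((1 : PowerSeries ℤ) - PowerSeries.X) ^ p =
      ∑ j ∈ Finset.range (p + 1), PowerSeries.C ((-1 : ℤ) ^ j * (p.choose j : ℤ)) * PowerSeries.X ^ j := by
    rw [show (1 : PowerSeries ℤ) - PowerSeries.X = -PowerSeries.X + 1 by ring, add_pow]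
    refine Finset.sum_congr rfl fun j _ => ?_
    rw [one_pow, mul_one, neg_pow, map_mul, map_pow, map_neg, map_one, map_natCast]
    ring
  rw [hb, Finset.sum_mul, map_sum]
  refine Finset.sum_congr rfl fun j _ => ?_
  rw [mul_assoc (PowerSeries.C _), PowerSeries.coeff_C_mul, PowerSeries.coeff_X_pow_mul']
  rfl

end ZSp
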