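import Mathlib

set_option autoImplicit false

/-!
# Sequences with small `p`-th differences

`rec_bound`: let `|f a| ≤ ε` for `a ≤ B`, `p ≤ B`, and `|∑_{j ≤ p} (-1)^j binom(p, j) f (a - j)| ≤ η` for `B < a ≤ N`.  Then
`|f a| ≤ (2 (N + 1))^p * (ε + η)` for all `a ≤ N`.
Proof.  Induction on `p` (for all `f`, `B`, `ε`, `η`).  `p = 0`: clear.  `p + 1`: let `g a = f a - f (a - 1)` for `a ≥ 1`, `g 0 = f 0`.
`|g a| ≤ 2 ε` for `a ≤ B`.  For `B < a ≤ N` and `j ≤ p` one has `a - j ≥ B + 1 - p ≥ 2`, so by Pascal's rule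
(`Nat.choose_succ_succ`) `∑_{j ≤ p} (-1)^j binom(p, j) g (a - j) = ∑_{j ≤ p+1} (-1)^j binom(p+1, j) f (a - j)`.  So the
induction hypothesis for `g`, `2 ε`, `η` gives `|g a| ≤ (2 (N + 1))^p * (2 ε + η)` for `a ≤ N`, and
`f a = ∑_{i ≤ a} g i`, so `|f a| ≤ (N + 1) (2 (N + 1))^p (2 ε + η) ≤ (2 (N + 1))^(p+1) (ε + η)`.
-/

noncomputable section

namespace ZSp

private theorem RRec_pascal (p : ℕ) (F : ℕ → ℝ) :
    ∑ j ∈ Finset.range (p + 2), (-1 : ℝ) ^ j * ((p + 1).choose j : ℝ) * F j =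
      ∑ j ∈ Finset.range (p + 1), (-1 : ℝ) ^ j * (p.choose j : ℝ) * (F j - F (j + 1)) := by
  have h1 : ∑ j ∈ Finset.range (p + 1), (-1 : ℝ) ^ j * (p.choose j : ℝ) * F j =
      F 0 + ∑ j ∈ Finset.range (p + 1), (-1 : ℝ) ^ (j + 1) * (p.choose (j + 1) : ℝ) * F (j + 1) := by
    rw [Finset.sum_range_succ', Finset.sum_range_succ (fun j => (-1 : ℝ) ^ (j + 1) * (p.choose (j + 1) : ℝ) * F (j + 1))]
    simp [Nat.choose_succ_self]
    ring
  rw [Finset.sum_range_succ']
  have h2 : ∀ j, (-1 : ℝ) ^ j * (p.choose j : ℝ) * (F j - F (j + 1)) =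
      (-1 : ℝ) ^ j * (p.choose j : ℝ) * F j - (-1 : ℝ) ^ j * (p.choose j : ℝ) * F (j + 1) := fun j => by ring
  simp only [h2]
  rw [Finset.sum_sub_distrib, h1]
  have h3 : ∀ j, (-1 : ℝ) ^ (j + 1) * ((p + 1).choose (j + 1) : ℝ) * F (j + 1) =
      (-1 : ℝ) ^ (j + 1) * (p.choose (j + 1) : ℝ) * F (j + 1) - (-1 : ℝ) ^ j * (p.choose j : ℝ) * F (j + 1) := by
    intro j
    rw [Nat.choose_succ_succ, Nat.cast_add, pow_succ]
    ring
  simp only [h3]
  rw [Finset.sum_sub_distrib]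
  simp
  ring

theorem rec_bound (p : ℕ) (f : ℕ → ℝ) (B N : ℕ) (hB : p ≤ B) {ε η : ℝ} (hε : 0 ≤ ε) (hη : 0 ≤ η)
    (h1 : ∀ a, a ≤ B → |f a| ≤ ε)
    (h2 : ∀ a, B < a → a ≤ N →
      |∑ j ∈ Finset.range (p + 1), (-1 : ℝ) ^ j * (p.choose j : ℝ) * f (a - j)| ≤ η)
    (a : ℕ) (ha : a ≤ N) : |f a| ≤ (2 * ((N : ℝ) + 1)) ^ p * (ε + η) := by
  induction p generalizing f ε a with
  | zero =>
    rw [pow_zero, one_mul]
    rcases Nat.lt_or_ge B a with h | h
    · have := h2 a h ha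
      simp at this
      linarith
    · have := h1 a h
      linarith
  | succ p ih =>
    set g : ℕ → ℝ := fun a => if a = 0 then f 0 else f a - f (a - 1) with hg
    have hg0 : g 0 = f 0 := by simp [hg]
    have hgs : ∀ a, g (a + 1) = f (a + 1) - f a := fun a => by simp [hg]
    have hgB : ∀ a, a ≤ B → |g a| ≤ 2 * ε := by
      intro a haB
      cases a with
      | zero => rw [hg0]; have := h1 0 haB; linarith
      | succ a =>
        rw [hgs]
        have e1 := h1 (a + 1) haB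
        have e2 := h1 a (by omega)
        have := abs_sub (f (a + 1)) (f a)
        linarith
    have hgN : ∀ a, B < a → a ≤ N →
        |∑ j ∈ Finset.range (p + 1), (-1 : ℝ) ^ j * (p.choose j : ℝ) * g (a - j)| ≤ η := by
      intro a haB haN
      have e := h2 a haB haN
      rw [RRec_pascal p (fun j => f (a - j))] at e
      refine le_of_eq_of_le ?_ e
      congr 1
      refine Finset.sum_congr rfl fun j hj => ?_
      have hj' : j ≤ p := by have := Finset.mem_range.1 hj; omega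
      have e3 : a - j = (a - (j + 1)) + 1 := by omega
      rw [e3, hgs, ← e3]
    have hG := fun a ha => ih g (by omega) (by linarith : (0 : ℝ) ≤ 2 * ε) hgB hgN a ha
    have hsum : ∀ a, f a = ∑ i ∈ Finset.range (a + 1), g i := by
      intro a
      induction a with
      | zero => simp [hg0]
      | succ a iha => rw [Finset.sum_range_succ, ← iha, hgs]; ring
    rw [hsum a]
    have hX : (0 : ℝ) ≤ (2 * ((N : ℝ) + 1)) ^ p := by positivity
    calc |∑ i ∈ Finset.range (a + 1), g i| ≤ ∑ i ∈ Finset.range (a + 1), |g i| :=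
          Finset.abs_sum_le_sum_abs _ _
      _ ≤ ∑ _i ∈ Finset.range (a + 1), (2 * ((N : ℝ) + 1)) ^ p * (2 * ε + η) := by
          refine Finset.sum_le_sum fun i hi => hG i ?_
          have := Finset.mem_range.1 hi
          omega
      _ = ((a : ℝ) + 1) * ((2 * ((N : ℝ) + 1)) ^ p * (2 * ε + η)) := by
          rw [Finset.sum_const, Finset.card_range, nsmul_eq_mul]; push_cast; ring
      _ ≤ ((N : ℝ) + 1) * ((2 * ((N : ℝ) + 1)) ^ p * (2 * (ε + η))) := by
          have haN : (a : ℝ) ≤ N := by exact_mod_cast ha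
          have h3 : 2 * ε + η ≤ 2 * (ε + η) := by linarith
          gcongr
      _ = (2 * ((N : ℝ) + 1)) ^ (p + 1) * (ε + η) := by rw [pow_succ]; ring

end ZSp
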