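import Mathlib

set_option autoImplicit false

/-!
# Real analysis: the power law

* `fin_core`: let `n = 2 m` or `n = 2 m + 1`, and `J A (2m) ≤ 2 h (2m)` whenever `C (J d)^E ≤ M`.  Then
  `(M / C)^(1/E) A n ≤ 4 b^2 d h n`.
  Proof.  `A n ≤ A (2 (m + 1)) ≤ b^2 A (2 m)` and `h (2 m) ≤ h n`.  Let `y = (M / C)^(1/E)`, `J = ⌊y / d⌋₊`.  If `J ≥ 1` then
  `J d ≤ y`, so `C (J d)^E ≤ M` (cast to natural numbers), and `y / d < J + 1 ≤ 2 J`, so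
  `y A n ≤ 2 J d b^2 A (2m) ≤ 4 b^2 d h (2m) ≤ 4 b^2 d h n`.  If `J = 0` then `y < d`, so `y A n ≤ d A n ≤ d h n`.
* `fin_pow`: `n ≥ 2`: `m = n / 2 ≥ n / 4` (real), `fin_core` with `M = m`.  `n = 1`: `(1 / (4 C))^(1/E) ≤ 1`, `A 1 ≤ h 1`.
* `fin_poly`: `m = n / 2` (so `m + 1 ≤ n`): `h n ≤ b^n ≤ b * b^(2m) ≤ b (m + 1)^(b^2) A (2m) ≤ b n^(b^2) A n`
  for `n = 2m + 1`; the same for `n = 2m` (`1 ≤ b`).
-/

noncomputable section

namespace ZSp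

theorem fin_core (b C E d m M n : ℕ) (hb : 1 ≤ b) (hC : 1 ≤ C) (hE : 1 ≤ E) (hd : 1 ≤ d)
    (A h : ℕ → ℝ) (hA1 : ∀ n, 1 ≤ A n) (hA : ∀ n, A n ≤ A (n + 1)) (hh : ∀ n, h n ≤ h (n + 1))
    (hAh : ∀ n, A n ≤ h n) (hA2 : ∀ m, A (2 * (m + 1)) ≤ (b : ℝ) ^ 2 * A (2 * m))
    (hJ : ∀ J : ℕ, C * (J * d) ^ E ≤ M → J * A (2 * m) ≤ 2 * h (2 * m))
    (hn : n = 2 * m ∨ n = 2 * m + 1) :
    ((M : ℝ) / C) ^ (1 / (E : ℝ)) * A n ≤ 4 * (b : ℝ) ^ 2 * (d * h n) := by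
  have hAm : Monotone A := monotone_nat_of_le_succ hA
  have hhm : Monotone h := monotone_nat_of_le_succ hh
  have hb' : (1 : ℝ) ≤ (b : ℝ) := by exact_mod_cast hb
  have hb2 : (1 : ℝ) ≤ (b : ℝ) ^ 2 := one_le_pow₀ hb'
  have hd' : (1 : ℝ) ≤ (d : ℝ) := by exact_mod_cast hd
  have hC' : (0 : ℝ) < (C : ℝ) := by exact_mod_cast hC
  have hE' : (E : ℝ) ≠ 0 := by
    have : (0 : ℝ) < (E : ℝ) := by exact_mod_cast hE
    exact this.ne'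
  have hMC : (0 : ℝ) ≤ (M : ℝ) / C := by positivity
  set y : ℝ := ((M : ℝ) / C) ^ (1 / (E : ℝ)) with hy
  have hy0 : 0 ≤ y := Real.rpow_nonneg hMC _
  have hyE : y ^ E = (M : ℝ) / C := by
    rw [hy, ← Real.rpow_natCast, ← Real.rpow_mul hMC, one_div_mul_cancel hE', Real.rpow_one]
  have hh0 : 0 ≤ h n := le_trans (le_trans zero_le_one (hA1 n)) (hAh n)
  have hA0 : 0 ≤ A n := le_trans zero_le_one (hA1 n)
  have hdpos : (0 : ℝ) < d := lt_of_lt_of_le zero_lt_one hd'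
  rcases Nat.eq_zero_or_pos ⌊y / d⌋₊ with h0 | hpos
  · have h1 : y / d < 1 := by
      have := Nat.lt_floor_add_one (y / d)
      rw [h0] at this
      simpa using this
    have h2 : y < d := by
      rw [div_lt_one hdpos] at h1
      exact h1
    calc y * A n ≤ d * A n := mul_le_mul_of_nonneg_right h2.le hA0
      _ ≤ d * h n := mul_le_mul_of_nonneg_left (hAh n) hdpos.le
      _ ≤ 4 * (b : ℝ) ^ 2 * (d * h n) := by
          have h3 : 0 ≤ d * h n := mul_nonneg hdpos.le hh0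
          nlinarith
  · set J := ⌊y / d⌋₊ with hJdef
    have hJ1 : (1 : ℝ) ≤ (J : ℝ) := by exact_mod_cast hpos
    have h1 : (J : ℝ) ≤ y / d := Nat.floor_le (div_nonneg hy0 hdpos.le)
    have h2 : (J : ℝ) * d ≤ y := by rwa [le_div_iff₀ hdpos] at h1
    have h3 : ((J : ℝ) * d) ^ E ≤ (M : ℝ) / C := by
      rw [← hyE]
      exact pow_le_pow_left₀ (by positivity) h2 E
    have h4 : C * (J * d) ^ E ≤ M := by
      rw [le_div_iff₀ hC'] at h3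
      have h5 : ((C * (J * d) ^ E : ℕ) : ℝ) ≤ (M : ℝ) := by
        push_cast
        linarith
      exact_mod_cast h5
    have h5 := hJ J h4
    have h6 : y ≤ 2 * (J : ℝ) * d := by
      have := Nat.lt_floor_add_one (y / d)
      rw [← hJdef, div_lt_iff₀ hdpos] at this
      nlinarith
    have h7 : A n ≤ (b : ℝ) ^ 2 * A (2 * m) :=
      le_trans (hAm (by rcases hn with h | h <;> omega)) (hA2 m)
    have h8 : h (2 * m) ≤ h n := hhm (by rcases hn with h | h <;> omega)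
    calc y * A n ≤ (2 * (J : ℝ) * d) * ((b : ℝ) ^ 2 * A (2 * m)) :=
          mul_le_mul h6 h7 hA0 (by positivity)
      _ = 2 * d * (b : ℝ) ^ 2 * (J * A (2 * m)) := by ring
      _ ≤ 2 * d * (b : ℝ) ^ 2 * (2 * h (2 * m)) :=
          mul_le_mul_of_nonneg_left h5 (by positivity)
      _ = 4 * (b : ℝ) ^ 2 * d * h (2 * m) := by ring
      _ ≤ 4 * (b : ℝ) ^ 2 * d * h n := mul_le_mul_of_nonneg_left h8 (by positivity)
      _ = 4 * (b : ℝ) ^ 2 * (d * h n) := by ring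

theorem fin_pow (b C E : ℕ) (hb : 1 ≤ b) (hC : 1 ≤ C) (hE : 1 ≤ E) :
    ∃ c : ℝ, 0 < c ∧ ∀ (A h : ℕ → ℝ) (d : ℕ), 1 ≤ d → (∀ n, 1 ≤ A n) → (∀ n, A n ≤ A (n + 1)) →
      (∀ n, h n ≤ h (n + 1)) → (∀ n, A n ≤ h n) →
      (∀ m, A (2 * (m + 1)) ≤ (b : ℝ) ^ 2 * A (2 * m)) →
      (∀ m J : ℕ, C * (J * d) ^ E ≤ m → J * A (2 * m) ≤ 2 * h (2 * m)) →
      ∀ n : ℕ, 1 ≤ n → c * (n : ℝ) ^ (1 / (E : ℝ)) * A n ≤ d * h n := by
  have hb' : (1 : ℝ) ≤ (b : ℝ) := by exact_mod_cast hb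
  have hb2 : (1 : ℝ) ≤ (b : ℝ) ^ 2 := one_le_pow₀ hb'
  have hC' : (1 : ℝ) ≤ (C : ℝ) := by exact_mod_cast hC
  have hE' : (0 : ℝ) < (E : ℝ) := by exact_mod_cast hE
  have hE1 : (0 : ℝ) ≤ 1 / (E : ℝ) := by positivity
  have hq : (0 : ℝ) < 1 / (4 * (C : ℝ)) := by positivity
  set q : ℝ := (1 / (4 * (C : ℝ))) ^ (1 / (E : ℝ)) with hqd
  have hq0 : 0 < q := Real.rpow_pos_of_pos hq _
  have hq1 : q ≤ 1 := by
    refine Real.rpow_le_one hq.le ?_ hE1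
    rw [div_le_one (by positivity)]
    linarith
  refine ⟨q / (4 * (b : ℝ) ^ 2), by positivity, ?_⟩
  intro A h d hd hA1 hA hh hAh hA2 hJ n hn
  have hd' : (1 : ℝ) ≤ (d : ℝ) := by exact_mod_cast hd
  have hA0 : 0 ≤ A n := le_trans zero_le_one (hA1 n)
  have hh0 : 0 ≤ h n := le_trans hA0 (hAh n)
  rcases Nat.lt_or_ge n 2 with h2 | h2
  · have h1 : n = 1 := by omega
    subst h1
    have h3 : q / (4 * (b : ℝ) ^ 2) ≤ 1 := by
      rw [div_le_one (by positivity)]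
      linarith
    calc q / (4 * (b : ℝ) ^ 2) * ((1 : ℕ) : ℝ) ^ (1 / (E : ℝ)) * A 1
        = q / (4 * (b : ℝ) ^ 2) * A 1 := by simp
      _ ≤ 1 * A 1 := mul_le_mul_of_nonneg_right h3 hA0
      _ ≤ d * h 1 := mul_le_mul hd' (hAh 1) hA0 (by positivity)
  · have hm := fin_core b C E d (n / 2) (n / 2) n hb hC hE hd A h hA1 hA hh hAh hA2
      (fun J hJ' => hJ (n / 2) J hJ') (by omega)
    have h3 : (n : ℝ) ≤ 4 * ((n / 2 : ℕ) : ℝ) := by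
      have : n ≤ 4 * (n / 2) := by omega
      exact_mod_cast this
    have h4 : q * (n : ℝ) ^ (1 / (E : ℝ)) ≤ (((n / 2 : ℕ) : ℝ) / C) ^ (1 / (E : ℝ)) := by
      rw [hqd, ← Real.mul_rpow hq.le (Nat.cast_nonneg n)]
      refine Real.rpow_le_rpow (by positivity) ?_ hE1
      have hC0 : (0 : ℝ) < C := by linarith
      rw [div_mul_eq_mul_div, one_mul, div_le_div_iff₀ (by positivity) hC0]
      nlinarith
    have h5 : q * (n : ℝ) ^ (1 / (E : ℝ)) * A n ≤ 4 * (b : ℝ) ^ 2 * (d * h n) :=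
      le_trans (mul_le_mul_of_nonneg_right h4 hA0) hm
    have h6 : (0 : ℝ) < 4 * (b : ℝ) ^ 2 := by positivity
    calc q / (4 * (b : ℝ) ^ 2) * (n : ℝ) ^ (1 / (E : ℝ)) * A n
        = (q * (n : ℝ) ^ (1 / (E : ℝ)) * A n) / (4 * (b : ℝ) ^ 2) := by ring
      _ ≤ (4 * (b : ℝ) ^ 2 * (d * h n)) / (4 * (b : ℝ) ^ 2) := by gcongr
      _ = d * h n := by field_simp

theorem fin_poly (b : ℕ) (hb : 1 ≤ b) (A h : ℕ → ℝ) (hA : ∀ n, A n ≤ A (n + 1))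
    (hhb : ∀ n, h n ≤ (b : ℝ) ^ n)
    (hlow : ∀ m : ℕ, (b : ℝ) ^ (2 * m) ≤ (m + 1 : ℝ) ^ (b ^ 2) * A (2 * m)) (n : ℕ) (hn : 1 ≤ n) :
    h n ≤ b * (n : ℝ) ^ (b ^ 2) * A n := by
  have hAm : Monotone A := monotone_nat_of_le_succ hA
  have hb' : (1 : ℝ) ≤ (b : ℝ) := by exact_mod_cast hb
  have hm := hlow (n / 2)
  have hb0 : (0 : ℝ) < (b : ℝ) := by linarith
  have hApos : 0 < A (2 * (n / 2)) := by
    have h1 : (0 : ℝ) < (b : ℝ) ^ (2 * (n / 2)) := by positivity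
    have h2 : (0 : ℝ) < (((n / 2 : ℕ) : ℝ) + 1) ^ (b ^ 2) := by positivity
    exact (pos_iff_pos_of_mul_pos (lt_of_lt_of_le h1 hm)).1 h2
  have h1 : (b : ℝ) ^ n ≤ b * (b : ℝ) ^ (2 * (n / 2)) := by
    rw [← pow_succ']
    exact pow_le_pow_right₀ hb' (by omega)
  have h2 : (((n / 2 : ℕ) : ℝ) + 1) ^ (b ^ 2) ≤ (n : ℝ) ^ (b ^ 2) := by
    refine pow_le_pow_left₀ (by positivity) ?_ _
    have : n / 2 + 1 ≤ n := by omega
    exact_mod_cast this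
  calc h n ≤ (b : ℝ) ^ n := hhb n
    _ ≤ b * (b : ℝ) ^ (2 * (n / 2)) := h1
    _ ≤ b * ((((n / 2 : ℕ) : ℝ) + 1) ^ (b ^ 2) * A (2 * (n / 2))) :=
        mul_le_mul_of_nonneg_left hm hb0.le
    _ ≤ b * ((n : ℝ) ^ (b ^ 2) * A n) := by
        refine mul_le_mul_of_nonneg_left ?_ hb0.le
        exact mul_le_mul h2 (hAm (by omega)) hApos.le (by positivity)
    _ = b * (n : ℝ) ^ (b ^ 2) * A n := by ring

end ZSp
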