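import Pool.Agent.W_f569db_sp.SPar

set_option autoImplicit false

/-!
# Diagonal entries of the symmetrizers

* `esg_diag`: the diagonal entries of `esg κ s` are invariant under reindexing: `esg κ s' = sg e * esg κ s * sg e.symm`
  (`esg_congr`) and `sg s s' e` has in the row `c` only the entry at `c ∘ e` (`eq_zero`), so
  `esg κ s' c c = sg s s' e c (c ∘ e) * esg κ s (c ∘ e) (c ∘ e) * sg s' s e.symm (c ∘ e) c`, and
  `sg s s' e c (c ∘ e) * sg s' s e.symm (c ∘ e) c = 1` is the entry `(c, c)` of `sg_mul_symm`.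
* `esg_block`: let `c₁ : S → α`, `c₂ : S' → α` have no letter in common and `c = Sum.elim c₁ c₂`.  In
  `esg κ (s.p s') c c = (N!)⁻¹ ∑_σ (sgn σ)^κ sg σ c c` (`N = #S + #S'`, sum over `Perm (S ⊕ S')`) only `σ` with `c ∘ σ = c`
  contribute (`eq_zero`), these map `inl S` to `inl S` and `inr S'` to `inr S'`, so they are `sumCongr σ₁ σ₂` (bijection with
  the pairs; e.g. `Equiv.Perm.sumCongrHom`, `Equiv.Perm.mem_sumCongrHom_range_of_perm_mapsTo_inl`); `sgn = sgn σ₁ sgn σ₂`
  (`Equiv.Perm.sign_sumCongr`), `sg (sumCongr σ₁ σ₂) = kr (sg σ₁) (sg σ₂)` (`G.congr`).  The pairs with `c ∘ σ ≠ c` contribute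
  zero on both sides, so one may sum over all pairs.
-/

noncomputable section

namespace ZS

open Matrix Module ZO ZSp

variable {α : Type} [Fintype α] [DecidableEq α] {K : Type*} [Field K] [CharZero K] {Q : SSys α K}
  {S S' : Type} [Fintype S] [DecidableEq S] [Fintype S'] [DecidableEq S']

namespace Sgn

variable (G : Sgn Q)

theorem esg_diag (κ : ℕ) (s : Shp S) (s' : Shp S') (e : S ≃ S') (c : S' → α) :
    G.esg κ s' c c = G.esg κ s (c ∘ e) (c ∘ e) := by
  have h1 : (G.sg s s' e * G.esg κ s * G.sg s' s e.symm) c c =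
      G.sg s s' e c (c ∘ e) * G.esg κ s (c ∘ e) (c ∘ e) * G.sg s' s e.symm (c ∘ e) c := by
    rw [Matrix.mul_apply, Finset.sum_eq_single (c ∘ e)]
    · congr 1
      rw [Matrix.mul_apply, Finset.sum_eq_single (c ∘ e)]
      · intro d _ hd
        rw [G.eq_zero s s' e c d (fun h => hd h.symm), zero_mul]
      · intro h
        exact absurd (Finset.mem_univ _) h
    · intro d _ hd
      rw [G.eq_zero s' s e.symm d c (fun h => hd ?_), mul_zero]
      rw [← h]
      funext x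
      simp only [Function.comp_apply, Equiv.symm_apply_apply]
    · intro h
      exact absurd (Finset.mem_univ _) h
  have h2 : G.sg s s' e c (c ∘ e) * G.sg s' s e.symm (c ∘ e) c = 1 := by
    have h3 : (G.sg s s' e * G.sg s' s e.symm) c c = 1 := by
      rw [G.sg_mul_symm, Matrix.one_apply_eq]
    rw [← h3, Matrix.mul_apply, Finset.sum_eq_single (c ∘ e)]
    · intro d _ hd
      rw [G.eq_zero s s' e c d (fun h => hd h.symm), zero_mul]
    · intro h
      exact absurd (Finset.mem_univ _) h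
  rw [← G.esg_congr κ s s' e, h1, mul_right_comm, h2, one_mul]

/-- The factorial times the diagonal entry. -/
theorem SBlk_fac (κ : ℕ) (s : Shp S) (c : S → α) :
    ((Fintype.card S).factorial : K) * G.esg κ s c c = ∑ σ : Equiv.Perm S, G.rk κ s σ c c := by
  have h0 : ((Fintype.card S).factorial : K) ≠ 0 := Nat.cast_ne_zero.2 (Nat.factorial_ne_zero _)
  unfold esg av
  rw [Finset.card_univ, Fintype.card_perm, Matrix.smul_apply, smul_eq_mul, ← mul_assoc,
    mul_inv_cancel₀ h0, one_mul, Matrix.sum_apply]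

theorem SBlk_zero (κ : ℕ) (s : Shp S) (σ : Equiv.Perm S) (c : S → α) (h : c ∘ σ ≠ c) :
    G.rk κ s σ c c = 0 := by
  rw [G.rk_apply, Matrix.smul_apply, G.eq_zero s s σ c c h, smul_zero]

theorem SBlk_rk (κ : ℕ) (s : Shp S) (s' : Shp S') (σ : Equiv.Perm S) (τ : Equiv.Perm S')
    (c₁ : S → α) (c₂ : S' → α) :
    G.rk κ (s.p s') (Equiv.sumCongr σ τ) (Sum.elim c₁ c₂) (Sum.elim c₁ c₂) =
      G.rk κ s σ c₁ c₁ * G.rk κ s' τ c₂ c₂ := by
  rw [G.rk_apply, G.rk_apply, G.rk_apply, G.congr s s s' s' σ τ, Matrix.smul_apply,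
    Matrix.smul_apply, Matrix.smul_apply, smul_eq_mul, smul_eq_mul, smul_eq_mul]
  have h : Equiv.Perm.sign (Equiv.sumCongr σ τ : Equiv.Perm (S ⊕ S')) =
      Equiv.Perm.sign σ * Equiv.Perm.sign τ := Equiv.Perm.sign_sumCongr σ τ
  unfold sgi
  rw [h, Units.val_mul, Int.cast_mul, mul_pow]
  have h1 : kr (G.sg s s σ) (G.sg s' s' τ) (Sum.elim c₁ c₂) (Sum.elim c₁ c₂) =
      G.sg s s σ c₁ c₁ * G.sg s' s' τ c₂ c₂ := by
    simp only [kr, Matrix.of_apply, Sum.elim_comp_inl, Sum.elim_comp_inr]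
  rw [h1]
  ring

theorem esg_block (κ : ℕ) (s : Shp S) (s' : Shp S') (c₁ : S → α) (c₂ : S' → α)
    (h : ∀ x y, c₁ x ≠ c₂ y) :
    ((Fintype.card S + Fintype.card S').factorial : K) *
        G.esg κ (s.p s') (Sum.elim c₁ c₂) (Sum.elim c₁ c₂) =
      ((Fintype.card S).factorial : K) * (Fintype.card S').factorial *
        (G.esg κ s c₁ c₁ * G.esg κ s' c₂ c₂) := by
  have h1 : ((Fintype.card S).factorial : K) * (Fintype.card S').factorial *
      (G.esg κ s c₁ c₁ * G.esg κ s' c₂ c₂) =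
      (((Fintype.card S).factorial : K) * G.esg κ s c₁ c₁) *
        (((Fintype.card S').factorial : K) * G.esg κ s' c₂ c₂) := by ring
  have h2 := G.SBlk_fac κ (s.p s') (Sum.elim c₁ c₂)
  rw [Fintype.card_sum] at h2
  rw [h1, h2, G.SBlk_fac, G.SBlk_fac, Finset.sum_mul_sum, ← Finset.sum_product']
  symm
  refine Finset.sum_of_injOn (fun p => (Equiv.sumCongr p.1 p.2 : Equiv.Perm (S ⊕ S')))
    (Equiv.Perm.sumCongrHom_injective (α := S) (β := S')).injOn
    (fun _ _ => Finset.mem_coe.2 (Finset.mem_univ _)) ?_ ?_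
  · intro σ _ hσ
    refine G.SBlk_zero κ (s.p s') σ _ fun h3 => hσ ?_
    have h4 : Set.MapsTo σ (Set.range Sum.inl) (Set.range Sum.inl) := by
      rintro _ ⟨x, rfl⟩
      have h5 := congrFun h3 (Sum.inl x)
      rcases hy : σ (Sum.inl x) with y | y
      · exact ⟨y, rfl⟩
      · exfalso
        simp only [Function.comp_apply, hy, Sum.elim_inl, Sum.elim_inr] at h5
        exact h x y h5.symm
    obtain ⟨⟨σ₁, σ₂⟩, h5⟩ := Equiv.Perm.mem_sumCongrHom_range_of_perm_mapsTo_inl h4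
    exact ⟨(σ₁, σ₂), Finset.mem_coe.2 (Finset.mem_product.2 ⟨Finset.mem_univ _, Finset.mem_univ _⟩), h5⟩
  · intro p _
    exact (G.SBlk_rk κ s s' p.1 p.2 c₁ c₂).symm

end Sgn

end ZS
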