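import Pool.Agent.W_f569db_sp.STau

set_option autoImplicit false

/-!
# Averages of signed permutations

* `sg_symm_mul`: `sg e.symm * sg e = sg (e.trans e.symm) = 1`.
* `sg_conj`: `sg s s' e * sg s s σ * sg s' s e.symm = sg s' s' (e.symm.trans (σ.trans e))` (`G.trans` twice).
* `av_conj`: conjugation of an average; `#H` does not change and the sign is invariant under conjugation.
  Apply it for `H = stab u`, `H' = stab (u ∘ e.symm)`.
* `av_stab_idem`: `rk` is multiplicative, `stab u` is closed under products; `σ ↦ τ * σ` is a bijection of `stab u`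
  for `τ ∈ stab u`; `#stab u ≠ 0` in characteristic zero.
* `esg`: the case of all permutations (`stab` of a constant coloring is `Finset.univ`).
* `kr_pspan`: `kr (sg σ) (sg τ) = sg (sumCongr σ τ)` (`G.congr`); bilinearity of `kr` (`Submodule.span_induction` twice).
* `esg_congr`: `esg κ s'` is the conjugate of `esg κ s` (`av_conj` for `Finset.univ`); so rank and `pT` of `esg κ s` depend only on
  the number of letters (`rank_conj`, `pT_conj`).
-/

noncomputable section

namespace ZS

open Matrix Module ZO ZSp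

variable {α : Type} [Fintype α] [DecidableEq α] {K : Type*} [Field K] [CharZero K] {Q : SSys α K}
  {S S' T : Type} [Fintype S] [DecidableEq S] [Fintype S'] [DecidableEq S'] [Fintype T]
  [DecidableEq T]

namespace Sgn

variable (G : Sgn Q)

theorem sg_symm_mul (s : Shp S) (s' : Shp S') (e : S ≃ S') :
    G.sg s' s e.symm * G.sg s s' e = 1 := by
  rw [G.trans s s' s e e.symm, Equiv.self_trans_symm]
  exact G.refl s

theorem sg_mul_symm (s : Shp S) (s' : Shp S') (e : S ≃ S') :
    G.sg s s' e * G.sg s' s e.symm = 1 := by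
  rw [G.trans s' s s' e.symm e, Equiv.symm_trans_self]
  exact G.refl s' 

theorem rk_mem (κ : ℕ) (s : Shp S) (σ : Equiv.Perm S) : G.rk κ s σ ∈ Q.P s s := by
  rw [G.rk_apply]
  exact (Q.P s s).smul_mem _ (G.mem s s σ)

theorem rk_mem_pspan (κ : ℕ) (s : Shp S) (σ : Equiv.Perm S) : G.rk κ s σ ∈ G.pspan s := by
  rw [G.rk_apply]
  exact (G.pspan s).smul_mem _ (Submodule.subset_span ⟨σ, rfl⟩)

theorem pspan_le (s : Shp S) : G.pspan s ≤ Q.P s s := by
  unfold pspan
  rw [Submodule.span_le]
  rintro _ ⟨σ, rfl⟩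
  exact G.mem s s σ

theorem av_mem_pspan (κ : ℕ) (s : Shp S) (H : Finset (Equiv.Perm S)) : G.av κ s H ∈ G.pspan s := by
  unfold av
  exact (G.pspan s).smul_mem _ ((G.pspan s).sum_mem fun σ _ => G.rk_mem_pspan κ s σ)

theorem av_mem (κ : ℕ) (s : Shp S) (H : Finset (Equiv.Perm S)) : G.av κ s H ∈ Q.P s s :=
  G.pspan_le s (G.av_mem_pspan κ s H)

theorem SEsg_mul_mem {X ι : Type} [Fintype X] [DecidableEq X] [DecidableEq ι] {u : X → ι}
    {σ : Equiv.Perm X} (hσ : σ ∈ stab u) (τ : Equiv.Perm X) : τ ∈ stab u ↔ σ * τ ∈ stab u := by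
  rw [mem_stab] at hσ
  rw [mem_stab, mem_stab]
  have h : u ∘ (σ * τ : Equiv.Perm X) = (u ∘ σ) ∘ τ := rfl
  rw [h, hσ]

theorem SEsg_stab_const {X : Type} [Fintype X] [DecidableEq X] :
    stab (fun _ : X => ()) = Finset.univ := by
  ext σ
  rw [mem_stab]
  exact ⟨fun _ => Finset.mem_univ _, fun _ => rfl⟩

theorem av_stab_idem {ι : Type} [DecidableEq ι] (κ : ℕ) (s : Shp S) (u : S → ι) :
    G.av κ s (stab u) * G.av κ s (stab u) = G.av κ s (stab u) := by
  have hc : ((stab u).card : K) ≠ 0 := Nat.cast_ne_zero.2 (card_stab_pos u).ne'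
  have h1 : ∀ σ ∈ stab u, G.rk κ s σ * ∑ τ ∈ stab u, G.rk κ s τ = ∑ τ ∈ stab u, G.rk κ s τ := by
    intro σ hσ
    rw [Finset.mul_sum]
    refine Finset.sum_equiv (Equiv.mulLeft σ) (fun τ => ?_) (fun τ _ => ?_)
    · exact SEsg_mul_mem hσ τ
    · exact (map_mul (G.rk κ s) σ τ).symm
  have h2 : (∑ σ ∈ stab u, G.rk κ s σ) * ∑ τ ∈ stab u, G.rk κ s τ
      = ((stab u).card : K) • ∑ τ ∈ stab u, G.rk κ s τ := by
    rw [Finset.sum_mul, Finset.sum_congr rfl h1, Finset.sum_const, Nat.cast_smul_eq_nsmul]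
  unfold av
  rw [smul_mul_assoc, mul_smul_comm, h2]
  congr 1
  rw [smul_smul, inv_mul_cancel₀ hc, one_smul]

theorem esg_mem (κ : ℕ) (s : Shp S) : G.esg κ s ∈ Q.P s s := G.av_mem κ s _

theorem esg_mem_pspan (κ : ℕ) (s : Shp S) : G.esg κ s ∈ G.pspan s := G.av_mem_pspan κ s _

theorem esg_idem (κ : ℕ) (s : Shp S) : G.esg κ s * G.esg κ s = G.esg κ s := by
  unfold esg
  rw [← SEsg_stab_const]
  exact G.av_stab_idem κ s _

theorem sg_conj (s : Shp S) (s' : Shp S') (e : S ≃ S') (σ : Equiv.Perm S) :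
    G.sg s s' e * G.sg s s σ * G.sg s' s e.symm = G.sg s' s' (e.symm.trans (σ.trans e)) := by
  rw [G.trans s s s' σ e, G.trans s' s s' e.symm (σ.trans e)]

theorem av_conj {ι : Type} [DecidableEq ι] (κ : ℕ) (s : Shp S) (s' : Shp S') (e : S ≃ S')
    (u : S → ι) : G.sg s s' e * G.av κ s (stab u) * G.sg s' s e.symm =
      G.av κ s' (stab (u ∘ e.symm)) := by
  have hm : ∀ σ : Equiv.Perm S, σ ∈ stab u ↔ e.permCongr σ ∈ stab (u ∘ e.symm) := by
    intro σ
    rw [mem_stab, mem_stab]
    constructor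
    · intro h
      funext x
      have h1 := congrFun h (e.symm x)
      simp only [Function.comp_apply] at h1
      simp only [Function.comp_apply, Equiv.permCongr_apply, Equiv.symm_apply_apply]
      exact h1
    · intro h
      funext x
      have h1 := congrFun h (e x)
      simp only [Function.comp_apply, Equiv.permCongr_apply, Equiv.symm_apply_apply] at h1
      exact h1
  have hcard : (stab u).card = (stab (u ∘ e.symm)).card :=
    Finset.card_equiv e.permCongr hm
  unfold av
  rw [hcard, Matrix.mul_smul, Matrix.smul_mul, Matrix.mul_sum, Matrix.sum_mul]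
  congr 1
  refine Finset.sum_equiv e.permCongr hm (fun σ _ => ?_)
  rw [G.rk_apply, G.rk_apply, Matrix.mul_smul, Matrix.smul_mul, G.sg_conj]
  unfold sgi
  rw [Equiv.Perm.sign_permCongr]
  rfl

theorem esg_congr (κ : ℕ) (s : Shp S) (s' : Shp S') (e : S ≃ S') :
    G.sg s s' e * G.esg κ s * G.sg s' s e.symm = G.esg κ s' := by
  have h := G.av_conj κ s s' e (fun _ : S => ())
  have h2 : (fun _ : S => ()) ∘ e.symm = fun _ : S' => () := rfl
  rw [h2, SEsg_stab_const, SEsg_stab_const] at h
  exact h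

theorem kr_pspan (s : Shp S) (s' : Shp S') {X : Matrix (S → α) (S → α) K}
    {Y : Matrix (S' → α) (S' → α) K} (hX : X ∈ G.pspan s) (hY : Y ∈ G.pspan s') :
    kr X Y ∈ G.pspan (s.p s') := by
  have h0 : ∀ (X : Matrix (S → α) (S → α) K),
      kr X (0 : Matrix (S' → α) (S' → α) K) = 0 := by
    intro X
    ext i j
    simp [kr]
  have h0' : ∀ (Y : Matrix (S' → α) (S' → α) K),
      kr (0 : Matrix (S → α) (S → α) K) Y = 0 := by
    intro X
    ext i j
    simp [kr]
  unfold pspan at hX
  induction hX using Submodule.span_induction with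
  | mem X hX =>
    obtain ⟨σ, rfl⟩ := hX
    unfold pspan at hY
    induction hY using Submodule.span_induction with
    | mem Y hY =>
      obtain ⟨τ, rfl⟩ := hY
      exact Submodule.subset_span ⟨Equiv.sumCongr σ τ, G.congr s s s' s' σ τ⟩
    | zero =>
      rw [h0]
      exact Submodule.zero_mem _
    | add Y Y' _ _ h1 h2 =>
      have h3 : kr (G.sg s s σ) (Y + Y') = kr (G.sg s s σ) Y + kr (G.sg s s σ) Y' := by
        ext i j
        simp [kr, mul_add]
      show kr (G.sg s s σ) (Y + Y') ∈ _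
      rw [h3]
      exact Submodule.add_mem _ h1 h2
    | smul a Y _ h1 =>
      have h3 : kr (G.sg s s σ) (a • Y) = a • kr (G.sg s s σ) Y := by
        ext i j
        simp only [kr, Matrix.of_apply, Matrix.smul_apply, smul_eq_mul]
        ring
      show kr (G.sg s s σ) (a • Y) ∈ _
      rw [h3]
      exact Submodule.smul_mem _ a h1
  | zero =>
    rw [h0']
    exact Submodule.zero_mem _
  | add X X' _ _ h1 h2 =>
    have h3 : kr (X + X') Y = kr X Y + kr X' Y := by
      ext i j
      simp [kr, add_mul]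
    rw [h3]
    exact Submodule.add_mem _ h1 h2
  | smul a X _ h1 =>
    have h3 : kr (a • X) Y = a • kr X Y := by
      ext i j
      simp only [kr, Matrix.of_apply, Matrix.smul_apply, smul_eq_mul]
      ring
    rw [h3]
    exact Submodule.smul_mem _ a h1

theorem conj_pspan (s : Shp S) (s' : Shp S') (e : S ≃ S') {X : Matrix (S → α) (S → α) K}
    (hX : X ∈ G.pspan s) : G.sg s s' e * X * G.sg s' s e.symm ∈ G.pspan s' := by
  unfold pspan at hX
  induction hX using Submodule.span_induction with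
  | mem X hX =>
    obtain ⟨σ, rfl⟩ := hX
    exact Submodule.subset_span ⟨e.symm.trans (σ.trans e), (G.sg_conj s s' e σ).symm⟩
  | zero =>
    rw [Matrix.mul_zero, Matrix.zero_mul]
    exact Submodule.zero_mem _
  | add X X' _ _ h1 h2 =>
    rw [Matrix.mul_add, Matrix.add_mul]
    exact Submodule.add_mem _ h1 h2
  | smul a X _ h1 =>
    rw [Matrix.mul_smul, Matrix.smul_mul]
    exact Submodule.smul_mem _ a h1

end Sgn

end ZS
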