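import Pool.Agent.W_f569db_sp.SDefs
import Pool.Agent.W_b4801b_h57.GramP

set_option autoImplicit false

/-!
# Gram matrices for finitely many objects, super version

Port of `W_b4801b_h57/Gram` (`gram_rad`) and `W_b4801b_h57/GramP` to `ZS.SSys`.

`gram_radE`: as `gram_rad`, with `exists_quotE` (`W_f569db_zs/Nil`), `cauchy_codE` (`W_f569db_zs/Cauchy`) and
`gram_alg` (`W_b4801b_h57/Gram`).

`gram_P`: apply `gram_radE` to the algebra `D` of the block matrices `M` on `Σ k, (U k → α)` whose block `(k, l)` (rows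
`U l`, columns `U k`) is in `P (sh k) (sh l)`, and `E` = the block diagonal matrix of the parities `dg Q.ε (U k)`, which
commutes with `D` (`SSys.even`).  `radE E D` consists of the block matrices with blocks in `N` (supertraces: test against
the matrices with one nonzero block).  The lemmas `GramP_bl`, `GramP_em`, .. of `GramP.lean` are about arbitrary block
matrices and can be used as they are; see `W_f569db_zs/CSP` for the case of two objects.
-/

noncomputable section

namespace ZS

open Matrix Module ZO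

theorem gram_radE {ι : Type*} [Fintype ι] [DecidableEq ι] {K : Type*} [Field K] [CharZero K]
    {E : Matrix ι ι K} (D : Subalgebra K (Matrix ι ι K)) (hE : ∀ A ∈ D, E * A = A * E)
    {κ : Type} (e : κ → Matrix ι ι K) (he : ∀ k, e k ∈ D) (he2 : ∀ k, e k * e k = e k) :
    ∃ (n : ℕ) (ρ : κ → Fin n → ℝ), ∀ k l,
      cod (sand (e l) (e k)) D.toSubmodule (radE E D) = ∑ i, ρ k i * ρ l i := by
  obtain ⟨R, _, _, _, _, π, hπ, hk⟩ := exists_quotE (D := D) hE
  obtain ⟨n, ρ, h⟩ := gram_alg K (fun k => π ⟨e k, he k⟩) (fun k => by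
    rw [IsIdempotentElem, ← map_mul]
    congr 1
    exact Subtype.ext (he2 k))
  refine ⟨n, ρ, fun k l => ?_⟩
  rw [cauchy_codE D hE π hπ hk (he k) (he l) (he2 k) (he2 l)]
  exact h k l

variable {α : Type} [Fintype α] [DecidableEq α] {K : Type*} [Field K] [CharZero K]

section SGramAux

set_option linter.unusedSectionVars false

variable (Q : SSys α K) {κ : Type} [Fintype κ] [DecidableEq κ] (U : κ → Type)
  [∀ k, Fintype (U k)] [∀ k, DecidableEq (U k)]

/-- the parity operator of the sum of the objects -/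
def SGram_E : Matrix ((k : κ) × (U k → α)) ((k : κ) × (U k → α)) K :=
  Matrix.diagonal fun p => ∏ s, Q.ε (p.2 s)

theorem SGram_E_mul (M : Matrix ((k : κ) × (U k → α)) ((k : κ) × (U k → α)) K) (k l : κ) :
    GramP_bl (I := fun k => U k → α) k l (SGram_E Q U * M) =
      dg Q.ε (U l) * GramP_bl (I := fun k => U k → α) k l M := by
  ext c d
  change (SGram_E Q U * M) ⟨l, c⟩ ⟨k, d⟩ = _
  rw [SGram_E, Matrix.diagonal_mul, dg, Matrix.diagonal_mul]
  rfl

theorem SGram_mul_E (M : Matrix ((k : κ) × (U k → α)) ((k : κ) × (U k → α)) K) (k l : κ) :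
    GramP_bl (I := fun k => U k → α) k l (M * SGram_E Q U) =
      GramP_bl (I := fun k => U k → α) k l M * dg Q.ε (U k) := by
  ext c d
  change (M * SGram_E Q U) ⟨l, c⟩ ⟨k, d⟩ = _
  rw [SGram_E, Matrix.mul_diagonal, dg, Matrix.mul_diagonal]
  rfl

variable (sh : ∀ k, Shp (U k))

/-- the algebra of block matrices -/
def SGram_D : Subalgebra K (Matrix ((k : κ) × (U k → α)) ((k : κ) × (U k → α)) K) where
  carrier := {M | ∀ k l, GramP_bl (I := fun k => U k → α) k l M ∈ Q.P (sh k) (sh l)}
  mul_mem' := by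
    intro M M' h h' k l
    rw [GramP_mul]
    exact sum_mem fun j _ => Q.mul_mem (h j l) (h' k j)
  one_mem' := by
    intro k l
    rcases eq_or_ne k l with rfl | hkl
    · rw [GramP_one_self]
      exact Q.one_mem _
    · rw [GramP_one_ne hkl]
      exact zero_mem _
  add_mem' := by
    intro M M' h h' k l
    rw [map_add]
    exact add_mem (h k l) (h' k l)
  zero_mem' := by
    intro k l
    rw [map_zero]
    exact zero_mem _
  algebraMap_mem' := by
    intro r k l
    rw [Algebra.algebraMap_eq_smul_one, map_smul]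
    refine Submodule.smul_mem _ r ?_
    rcases eq_or_ne k l with rfl | hkl
    · rw [GramP_one_self]
      exact Q.one_mem _
    · rw [GramP_one_ne hkl]
      exact zero_mem _

theorem SGram_memD {M : Matrix ((k : κ) × (U k → α)) ((k : κ) × (U k → α)) K} :
    M ∈ SGram_D Q U sh ↔
      ∀ k l, GramP_bl (I := fun k => U k → α) k l M ∈ Q.P (sh k) (sh l) := Iff.rfl

theorem SGram_E_comm : ∀ M ∈ SGram_D Q U sh, SGram_E Q U * M = M * SGram_E Q U := by
  intro M hM
  refine GramP_ext (I := fun k => U k → α) fun k l => ?_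
  rw [SGram_E_mul, SGram_mul_E]
  exact Q.even ((SGram_memD Q U sh).1 hM k l)

theorem SGram_em_mem (k l : κ) {A : Matrix (U l → α) (U k → α) K}
    (hA : A ∈ Q.P (sh k) (sh l)) :
    GramP_em (I := fun k => U k → α) k l A ∈ SGram_D Q U sh := by
  rw [SGram_memD]
  intro k' l'
  rcases eq_or_ne k' k with rfl | hk
  · rcases eq_or_ne l' l with rfl | hl
    · rw [GramP_bl_em_self]
      exact hA
    · rw [GramP_bl_em_left hl]
      exact zero_mem _
  · rw [GramP_bl_em_right hk]
    exact zero_mem _

theorem SGram_rad {M : Matrix ((k : κ) × (U k → α)) ((k : κ) × (U k → α)) K} :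
    M ∈ radE (SGram_E Q U) (SGram_D Q U sh) ↔
      ∀ k l, GramP_bl (I := fun k => U k → α) k l M ∈ Q.N (sh k) (sh l) := by
  constructor
  · rintro ⟨h, ht⟩ k l
    refine ⟨h k l, fun B hB => ?_⟩
    have h1 := ht _ (SGram_em_mem Q U sh l k hB)
    rw [← Matrix.mul_assoc, GramP_trace_em, SGram_E_mul, Matrix.mul_assoc] at h1
    exact h1
  · intro h
    refine ⟨fun k l => (h k l).1, fun B hB => ?_⟩
    rw [← Matrix.mul_assoc, GramP_trace_mul]
    refine Finset.sum_eq_zero fun l _ => Finset.sum_eq_zero fun j _ => ?_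
    rw [SGram_E_mul, Matrix.mul_assoc]
    exact (h j l).2 _ (hB l j)

end SGramAux

theorem SSys.gram_P (Q : SSys α K) {κ : Type} [Fintype κ] [DecidableEq κ] (U : κ → Type)
    [∀ k, Fintype (U k)] [∀ k, DecidableEq (U k)] (sh : ∀ k, Shp (U k))
    (e : ∀ k, Matrix (U k → α) (U k → α) K) (he : ∀ k, e k ∈ Q.P (sh k) (sh k))
    (he2 : ∀ k, e k * e k = e k) :
    ∃ (n : ℕ) (ρ : κ → Fin n → ℝ), ∀ k l,
      cod (sand (e l) (e k)) (Q.P (sh k) (sh l)) (Q.N (sh k) (sh l)) = ∑ i, ρ k i * ρ l i := by
  obtain ⟨n, ρ, h⟩ := gram_radE (SGram_D Q U sh) (SGram_E_comm Q U sh)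
    (fun k => GramP_em (I := fun k => U k → α) k k (e k))
    (fun k => SGram_em_mem Q U sh k k (he k))
    (fun k => by rw [GramP_em_em, he2])
  refine ⟨n, ρ, fun k l => ?_⟩
  rw [← h k l]
  symm
  have hs : ∀ x : Matrix ((k : κ) × (U k → α)) ((k : κ) × (U k → α)) K,
      sand (GramP_em (I := fun k => U k → α) l l (e l)) (GramP_em (I := fun k => U k → α) k k (e k)) x
        = GramP_em (I := fun k => U k → α) k l (sand (e l) (e k) (GramP_bl k l x)) :=
    fun x => GramP_sand (I := fun k => U k → α) k l (e k) (e l) x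
  refine csp_cod (sand (GramP_em (I := fun k => U k → α) l l (e l))
    (GramP_em (I := fun k => U k → α) k k (e k))) (GramP_em (I := fun k => U k → α) k l)
    (sand (e l) (e k)) (GramP_bl (I := fun k => U k → α) k l) hs
    (GramP_em_inj (I := fun k => U k → α) k l) _ _ _ _ ?_ ?_
  · apply le_antisymm
    · rintro _ ⟨M, hM, rfl⟩
      exact hM k l
    · intro A hA
      exact ⟨GramP_em (I := fun k => U k → α) k l A, SGram_em_mem Q U sh k l hA,
        GramP_bl_em_self (I := fun k => U k → α) k l A⟩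
  · apply le_antisymm
    · rintro _ ⟨M, hM, rfl⟩
      exact (SGram_rad Q U sh).1 hM k l
    · intro A hA
      refine ⟨GramP_em (I := fun k => U k → α) k l A, (SGram_rad Q U sh).2 fun k' l' => ?_,
        GramP_bl_em_self (I := fun k => U k → α) k l A⟩
      rcases eq_or_ne k' k with rfl | hk
      · rcases eq_or_ne l' l with rfl | hl
        · rw [GramP_bl_em_self]
          exact hA
        · rw [GramP_bl_em_left hl]
          exact zero_mem _
      · rw [GramP_bl_em_right hk]
        exact zero_mem _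

end ZS
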