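import Pool.Agent.W_f569db_sp.SEsg
import Pool.Agent.W_f569db_zo.TwoA

set_option autoImplicit false

/-!
# Products of symmetrizers as averages over Young subgroups

* `card_LS`, `col_lt`, `fib_col`: induction on the list.
* `eS_eq`: induction on the list.  `stab (col (a :: l))` consists of the permutations `sumCongr σ τ`, `σ : Perm (L a)`,
  `τ ∈ stab (col l)` (a permutation of `L a ⊕ LS l` which preserves `col` maps `inl` to `inl`:
  `Equiv.Perm.sumCongrHom`, `Equiv.Perm.mem_sumCongrHom_range_of_perm_mapsTo_inl`); `sgn` is multiplicative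
  (`Equiv.Perm.sign_sumCongr`) and `sg (sumCongr σ τ) = kr (sg σ) (sg τ)` (`G.congr`); so
  `∑_{stab (col (a :: l))} rk = kr (∑_σ rk σ) (∑_{τ ∈ stab (col l)} rk τ)` and the number of elements is the product.
  Empty list: `Perm Empty` has one element.
* `eS_mem`, `eS_idem`: `eS_eq` and `av_stab_idem`, or induction with `kr_mem`, `kr_mul`.
* `eS_rank`: induction with `ZO.rank_kr_idem`; empty list: `Matrix.rank_one`, the number of words `Empty → α` is one.
-/

noncomputable section

namespace ZS

open Matrix Module ZO ZSp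

theorem card_LS (l : List ℕ) : Fintype.card (LS l) = l.sum := by
  induction l with
  | nil => rfl
  | cons a l ih =>
    show Fintype.card (L a ⊕ LS l) = _
    rw [Fintype.card_sum, card_L, ih, List.sum_cons]

theorem col_lt (l : List ℕ) (x : LS l) : col l x < l.length := by
  induction l with
  | nil => exact Empty.elim x
  | cons a l ih =>
    rcases x with x | y
    · show 0 < l.length + 1
      omega
    · show col l y + 1 < l.length + 1
      have := ih y
      omega

theorem SYoung_fib_cons (a : ℕ) (l : List ℕ) (i : ℕ) : fib (col (a :: l)) i =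
    (∑ _x : L a, if 0 = i then 1 else 0) + ∑ y : LS l, if col l y + 1 = i then 1 else 0 := by
  unfold fib
  rw [Finset.card_filter]
  exact Fintype.sum_sum_type (fun x : L a ⊕ LS l => if col (a :: l) x = i then 1 else 0)

theorem fib_col (l : List ℕ) (i : ℕ) : fib (col l) i = l.getD i 0 := by
  induction l generalizing i with
  | nil =>
    rw [List.getD_nil]
    unfold fib
    rw [Finset.card_eq_zero, Finset.filter_eq_empty_iff]
    intro x _
    exact Empty.elim x
  | cons a l ih =>
    rw [SYoung_fib_cons]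
    rcases i with _ | j
    · have h1 : ∀ y : LS l, ¬ (col l y + 1 = 0) := fun y => Nat.succ_ne_zero _
      simp only [h1, if_true, if_false, Finset.sum_const, Finset.card_univ, card_L, smul_eq_mul, mul_one, mul_zero, add_zero]
      rfl
    · have h0 : ¬ (0 = j + 1) := (Nat.succ_ne_zero j).symm
      have h1 : (∑ y : LS l, if col l y + 1 = j + 1 then 1 else 0) = fib (col l) j := by
        unfold fib
        rw [Finset.card_filter]
        refine Finset.sum_congr rfl fun y _ => ?_
        by_cases h : col l y = j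
        · rw [if_pos h, if_pos (by omega)]
        · rw [if_neg h, if_neg (by omega)]
      rw [h1, ih]
      simp only [h0, if_false, Finset.sum_const_zero, zero_add]
      rfl

variable {α : Type} [Fintype α] [DecidableEq α] {K : Type*} [Field K] [CharZero K] {Q : SSys α K}

omit [Fintype α] [DecidableEq α] [CharZero K] in
theorem SYoung_kr_smul {S S' T T' : Type} (c d : K) (A : Matrix (S' → α) (S → α) K)
    (B : Matrix (T' → α) (T → α) K) : kr (c • A) (d • B) = (c * d) • kr A B := by
  ext i j
  simp only [kr, Matrix.of_apply, Matrix.smul_apply, smul_eq_mul]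
  ring

omit [Fintype α] [DecidableEq α] [CharZero K] in
theorem SYoung_kr_sum {S S' T T' ι ι' : Type} (s : Finset ι) (t : Finset ι')
    (A : ι → Matrix (S' → α) (S → α) K) (B : ι' → Matrix (T' → α) (T → α) K) :
    kr (∑ i ∈ s, A i) (∑ j ∈ t, B j) = ∑ i ∈ s, ∑ j ∈ t, kr (A i) (B j) := by
  ext i j
  simp only [kr, Matrix.of_apply, Matrix.sum_apply, Finset.sum_mul_sum]

namespace Sgn

variable (G : Sgn Q)

theorem SYoung_rk {S T : Type} [Fintype S] [DecidableEq S] [Fintype T] [DecidableEq T] (κ : ℕ)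
    (s : Shp S) (t : Shp T) (σ : Equiv.Perm S) (τ : Equiv.Perm T) :
    G.rk κ (s.p t) (Equiv.sumCongr σ τ) = kr (G.rk κ s σ) (G.rk κ t τ) := by
  rw [G.rk_apply, G.rk_apply, G.rk_apply, SYoung_kr_smul, ← G.congr s s t t σ τ]
  congr 1
  unfold sgi
  have h : Equiv.Perm.sign (Equiv.sumCongr σ τ : Equiv.Perm (S ⊕ T)) =
      Equiv.Perm.sign σ * Equiv.Perm.sign τ := Equiv.Perm.sign_sumCongr σ τ
  rw [h, Units.val_mul, Int.cast_mul, mul_pow]

/-- The average over a product of two sets of permutations. -/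
theorem SYoung_av {S T : Type} [Fintype S] [DecidableEq S] [Fintype T] [DecidableEq T] (κ : ℕ)
    (s : Shp S) (t : Shp T) (H₁ : Finset (Equiv.Perm S)) (H₂ : Finset (Equiv.Perm T))
    (H : Finset (Equiv.Perm (S ⊕ T)))
    (hH : ∀ σ, σ ∈ H ↔ ∃ p ∈ H₁ ×ˢ H₂, (Equiv.sumCongr p.1 p.2 : Equiv.Perm (S ⊕ T)) = σ) :
    G.av κ (s.p t) H = kr (G.av κ s H₁) (G.av κ t H₂) := by
  have hinj : Function.Injective (fun p : Equiv.Perm S × Equiv.Perm T =>
      (Equiv.sumCongr p.1 p.2 : Equiv.Perm (S ⊕ T))) :=
    Equiv.Perm.sumCongrHom_injective (α := S) (β := T)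
  have h1 : H = (H₁ ×ˢ H₂).map ⟨_, hinj⟩ := by
    ext σ
    rw [hH σ, Finset.mem_map]
    rfl
  unfold av
  rw [SYoung_kr_smul, SYoung_kr_sum, h1, Finset.card_map, Finset.card_product, Finset.sum_map,
    Finset.sum_product, Nat.cast_mul, mul_inv]
  congr 1
  refine Finset.sum_congr rfl fun σ _ => Finset.sum_congr rfl fun τ _ => ?_
  exact G.SYoung_rk κ s t σ τ

theorem SYoung_stab (a : ℕ) (l : List ℕ) (σ : Equiv.Perm (L a ⊕ LS l)) :
    σ ∈ stab (X := L a ⊕ LS l) (col (a :: l)) ↔
      ∃ p ∈ (Finset.univ : Finset (Equiv.Perm (L a))) ×ˢ stab (col l),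
        (Equiv.sumCongr p.1 p.2 : Equiv.Perm (L a ⊕ LS l)) = σ := by
  constructor
  · intro h
    have h0 := mem_stab.1 h
    have h1 : Set.MapsTo σ (Set.range Sum.inl) (Set.range Sum.inl) := by
      rintro _ ⟨x, rfl⟩
      have h2 : col (a :: l) (σ (Sum.inl x)) = 0 := congrFun h0 (Sum.inl x)
      rcases hy : σ (Sum.inl x) with y | y
      · exact ⟨y, rfl⟩
      · rw [hy] at h2
        exact absurd h2 (Nat.succ_ne_zero _)
    obtain ⟨⟨σ₁, σ₂⟩, h2⟩ := Equiv.Perm.mem_sumCongrHom_range_of_perm_mapsTo_inl h1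
    refine ⟨(σ₁, σ₂), ?_, h2⟩
    rw [Finset.mem_product]
    refine ⟨Finset.mem_univ _, ?_⟩
    rw [mem_stab]
    funext y
    have h3 : col (a :: l) (σ (Sum.inr y)) = col l y + 1 := congrFun h0 (Sum.inr y)
    rw [← h2] at h3
    have h4 : col l (σ₂ y) + 1 = col l y + 1 := h3
    exact Nat.succ_injective h4
  · rintro ⟨⟨σ₁, σ₂⟩, h1, rfl⟩
    rw [Finset.mem_product, mem_stab] at h1
    refine mem_stab.2 ?_
    funext x
    rcases x with x | y
    · rfl
    · show col l (σ₂ y) + 1 = col l y + 1
      have h2 : col l (σ₂ y) = col l y := congrFun h1.2 y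
      rw [h2]

theorem eS_eq (κ : ℕ) (l : List ℕ) : G.eS κ l = G.av κ (sS l) (stab (col l)) := by
  induction l with
  | nil =>
    have h1 : stab (col []) = {1} := by
      ext σ
      rw [mem_stab, Finset.mem_singleton]
      constructor
      · intro _
        exact Equiv.ext fun x => Empty.elim x
      · rintro rfl
        rfl
    unfold av
    rw [h1, Finset.card_singleton, Finset.sum_singleton, map_one, Nat.cast_one, inv_one, one_smul]
    rfl
  | cons a l ih =>
    rw [G.eS_cons, ih]
    exact (G.SYoung_av κ (lin a) (sS l) Finset.univ (stab (col l)) (stab (X := L a ⊕ LS l) (col (a :: l)))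
      (SYoung_stab a l)).symm

theorem eS_mem (κ : ℕ) (l : List ℕ) : G.eS κ l ∈ Q.P (sS l) (sS l) := by
  rw [G.eS_eq]
  exact G.av_mem κ _ _

theorem eS_idem (κ : ℕ) (l : List ℕ) : G.eS κ l * G.eS κ l = G.eS κ l := by
  rw [G.eS_eq]
  exact G.av_stab_idem κ _ _

theorem eS_rank (κ : ℕ) (l : List ℕ) :
    (G.eS κ l).rank = (l.map fun a => (G.esg κ (lin a)).rank).prod := by
  induction l with
  | nil =>
    rw [List.map_nil, List.prod_nil]
    show (1 : Matrix (Empty → α) (Empty → α) K).rank = 1
    rw [Matrix.rank_one, Fintype.card_fun, Fintype.card_empty, pow_zero]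
  | cons a l ih =>
    rw [List.map_cons, List.prod_cons, ← ih, G.eS_cons]
    exact rank_kr_idem (G.esg_idem κ (lin a)) (G.eS_idem κ l)

end Sgn

end ZS
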