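import Pool.Agent.W_f569db_sp.SRank
import Pool.Agent.W_f569db_sp.SYoung
import Pool.Agent.W_f569db_sp.RMin
import Pool.Agent.W_f569db_sp.PJT

set_option autoImplicit false

/-!
# The Jacobi-Trudi relation for the numerical traces

`jt_pT`: let `p = pk κ`, `q = qk κ`, `a ≥ q + p + 1`, `A = Ax p q a = (a, q+1, .., q+p)`, `n = ∑_i (A i - i)`.  Apply `ZSp.jt`
with `X = L n`, `ρ = rk κ (lin n)`, `P = Q.alg (lin n)` (`rk_mem`; see `SSys.alg` in `W_f569db_zs`), `t x = tau t (lin n) x`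
(linear by `tau_add`, `tau_smul`; `tau_comm`) and the following colorings.
(1) For `w ∈ good A` the list `l_w = List.ofFn (sb A w)` has sum `∑_i (A i - w i) = n` (`Equiv.sum_comp`; `w i ≤ A i`; for `w = 1`:
`i ≤ A i`), so by `card_LS` there is a bijection `e_w : LS l_w ≃ L n`; `u w x = col l_w (e_w.symm x)`, in `Fin (p + 1)` by
`col_lt`; `fib (u w) i = A i - w i` by `fib_col` (for `w` not good any `u w`, e.g. constant `0`).
(2) `av κ (lin n) (stab (u w)) = sg e_w * eS κ l_w * sg e_w.symm` (`eS_eq`, `av_conj`; `stab` does not change if the colors are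
composed with the injection `Fin (p + 1) → ℕ`).  So its rank and its `pT` are those of `eS κ l_w` (`rank_conj`, `pT_conj`).
(3) `h0`: `(#stab)⁻¹ ∑ trace (ρ σ) = trace (av ..) = rank (eS κ l_w) = ∏_i Rn p q (A i - w i)` (`ZO.trace_idem`, `eS_rank`,
`rank_esg`, `List.prod_ofFn`), `det_zero` (cast to `K`).
(4) The conclusion is `∑_w sgn w * tau (av κ (lin n) (stab (u w))) = 0` in `K` (`tau_sum`, `tau_smul`); by `pT_nat` each
`tau (av ..)` is a natural number equal to `pT (av ..)`; characteristic zero: the relation holds in `ℤ`, so in `ℝ`.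
-/

noncomputable section

namespace ZS

open Matrix Module ZO ZSp

theorem SJT_sum {p q a : ℕ} (hA : q + p + 1 ≤ a) (w : Equiv.Perm (Fin (p + 1)))
    (hw : w ∈ good (Ax p q a)) :
    (List.ofFn (sb (Ax p q a) w)).sum =
      (∑ i, Ax p q a i) - ∑ i : Fin (p + 1), (i : ℕ) := by
  rw [List.sum_ofFn]
  unfold sb
  rw [Finset.sum_tsub_distrib _ (fun i _ => mem_good.1 hw i)]
  congr 1
  exact Equiv.sum_comp w (fun i : Fin (p + 1) => (i : ℕ))

theorem SJT_fib {r : ℕ} {X Y : Type} [Fintype X] [DecidableEq X] [Fintype Y] [DecidableEq Y]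
    (u : X → Fin r) (c : Y → ℕ) (e : Y ≃ X) (he : (fun x => (u x : ℕ)) = c ∘ e.symm) (i : Fin r) :
    fib u i = fib c (i : ℕ) := by
  unfold fib
  refine Finset.card_equiv e.symm fun x => ?_
  rw [Finset.mem_filter, Finset.mem_filter]
  have h1 : (u x : ℕ) = c (e.symm x) := congrFun he x
  refine ⟨fun h => ⟨Finset.mem_univ _, ?_⟩, fun h => ⟨Finset.mem_univ _, ?_⟩⟩
  · rw [← h1, h.2]
  · apply Fin.ext
    rw [h1, h.2]

theorem SJT_stab {r : ℕ} {X : Type} [Fintype X] [DecidableEq X]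
    (u : X → Fin r) (c : X → ℕ) (he : (fun x => (u x : ℕ)) = c) : stab u = stab c := by
  subst he
  ext σ
  rw [mem_stab, mem_stab]
  constructor
  · intro h
    funext x
    exact congrArg Fin.val (congrFun h x)
  · intro h
    funext x
    exact Fin.ext (congrFun h x)

variable {α : Type} [Fintype α] [DecidableEq α] {K : Type*} [Field K] [CharZero K] {Q : SSys α K}

namespace Sgn

variable (G : Sgn Q)

/-- the list `A - w` for `A = (a, q + 1, .., q + p)` -/
def lw (κ a : ℕ) (w : Equiv.Perm (Fin (G.pk κ + 1))) : List ℕ :=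
  List.ofFn (sb (Ax (G.pk κ) (G.qk κ) a) w)

theorem lw_eq (κ a : ℕ) (w : Equiv.Perm (Fin (G.pk κ + 1))) :
    G.lw κ a w = (a - w 0) :: List.ofFn fun i : Fin (G.pk κ) => G.qk κ + 1 + i - w i.succ := by
  unfold lw
  rw [List.ofFn_succ]
  rfl

theorem jt_pT {T : Type} [Fintype T] [DecidableEq T] (t : Shp T) (κ a : ℕ)
    (ha : G.qk κ + G.pk κ + 1 ≤ a) :
    ∑ w ∈ good (Ax (G.pk κ) (G.qk κ) a), (sgi w : ℝ) *
      Q.pT t (sS (G.lw κ a w)) (G.eS κ (G.lw κ a w)) = 0 := by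
  obtain ⟨A, hA⟩ : ∃ A : Fin (G.pk κ + 1) → ℕ, A = Ax (G.pk κ) (G.qk κ) a := ⟨_, rfl⟩
  have hlw : ∀ w, G.lw κ a w = List.ofFn (sb A w) := fun w => by rw [hA]; rfl
  rw [← hA]
  obtain ⟨n, hn⟩ : ∃ n, n = (∑ i, A i) - ∑ i : Fin (G.pk κ + 1), (i : ℕ) := ⟨_, rfl⟩
  have hex : ∀ w, ∃ u : L n → Fin (G.pk κ + 1), w ∈ good A →
      ∃ e : LS (G.lw κ a w) ≃ L n, (fun x => (u x : ℕ)) = col (G.lw κ a w) ∘ e.symm := by
    intro w
    by_cases hw : w ∈ good A
    · have hc : Fintype.card (LS (G.lw κ a w)) = Fintype.card (L n) := by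
        rw [card_LS, card_L, hlw, hn]
        subst hA
        exact SJT_sum ha w hw
      have e : LS (G.lw κ a w) ≃ L n := Fintype.equivOfCardEq hc
      refine ⟨fun x => ⟨col (G.lw κ a w) (e.symm x), ?_⟩, fun _ => ⟨e, rfl⟩⟩
      have h1 := col_lt (G.lw κ a w) (e.symm x)
      have h2 : (G.lw κ a w).length = G.pk κ + 1 := by rw [hlw, List.length_ofFn]
      exact h1.trans_eq h2
    · exact ⟨fun _ => 0, fun h => absurd h hw⟩
  choose u hu using hex
  have hfib : ∀ w ∈ good A, ∀ i, fib (u w) i = A i - w i := by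
    intro w hw i
    obtain ⟨e, he⟩ := hu w hw
    rw [SJT_fib (u w) (col (G.lw κ a w)) e he i, fib_col, hlw,
      List.getD_eq_getElem _ _ (by rw [List.length_ofFn]; exact i.isLt), List.getElem_ofFn]
    rfl
  have hstab : ∀ w ∈ good A, ∃ e : LS (G.lw κ a w) ≃ L n,
      G.av κ (lin n) (stab (u w)) = G.sg (sS (G.lw κ a w)) (lin n) e * G.eS κ (G.lw κ a w) *
        G.sg (lin n) (sS (G.lw κ a w)) e.symm := by
    intro w hw
    obtain ⟨e, he⟩ := hu w hw
    refine ⟨e, ?_⟩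
    rw [G.eS_eq, G.av_conj, SJT_stab (u w) _ he]
  have hmem : ∀ w, G.av κ (lin n) (stab (u w)) ∈ Q.P (lin n) (lin n) := fun w => G.av_mem κ _ _
  have hidem : ∀ w, G.av κ (lin n) (stab (u w)) * G.av κ (lin n) (stab (u w)) =
      G.av κ (lin n) (stab (u w)) := fun w => G.av_stab_idem κ _ _
  have hrank : ∀ w ∈ good A, (((G.av κ (lin n) (stab (u w))).rank : ℕ) : ℤ) =
      ∏ i : Fin (G.pk κ + 1), Rn (G.pk κ) (G.qk κ) (A i - w i) := by
    intro w hw
    obtain ⟨e, he⟩ := hstab w hw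
    rw [he, SSys.rank_conj (G.eS_idem κ _) (G.sg_symm_mul _ _ e), G.eS_rank, hlw, List.map_ofFn,
      List.prod_ofFn, Nat.cast_prod]
    refine Finset.prod_congr rfl fun i _ => ?_
    exact G.rank_esg κ _
  have htr : ∀ w, ((stab (u w)).card : K)⁻¹ * ∑ σ ∈ stab (u w), Matrix.trace (G.rk κ (lin n) σ) =
      Matrix.trace (G.av κ (lin n) (stab (u w))) := by
    intro w
    unfold av
    rw [Matrix.trace_smul, Matrix.trace_sum, smul_eq_mul]
  let τ : Q.alg (lin n) →ₗ[K] K :=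
    { toFun := fun x => Q.tau t (lin n) x.1
      map_add' := fun x y => Q.tau_add t x.2 y.2
      map_smul' := fun c x => Q.tau_smul t c x.2 }
  have hτ : ∀ x y : Q.alg (lin n), τ (x * y) = τ (y * x) := fun x y => Q.tau_comm t y.2 x.2
  have h0 : ∑ w ∈ good A, (sgi w : K) * (((stab (u w)).card : K)⁻¹ *
      ∑ σ ∈ stab (u w), Matrix.trace (G.rk κ (lin n) σ)) = 0 := by
    have h1 : ∀ w ∈ good A, (sgi w : K) * (((stab (u w)).card : K)⁻¹ *
        ∑ σ ∈ stab (u w), Matrix.trace (G.rk κ (lin n) σ)) =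
        ((sgi w * ∏ i : Fin (G.pk κ + 1), Rn (G.pk κ) (G.qk κ) (A i - w i) : ℤ) : K) := by
      intro w hw
      rw [htr, trace_idem (hidem w), ← hrank w hw]
      push_cast
      rfl
    rw [Finset.sum_congr rfl h1, ← Int.cast_sum]
    have h2 := det_zero (G.pk κ) (G.qk κ) a (by omega)
    rw [← hA] at h2
    rw [h2, Int.cast_zero]
  have hjt := jt A (hA ▸ Ax_injective (G.pk κ) (G.qk κ) a (by omega)) u hfib (G.rk κ (lin n))
    (Q.alg (lin n)) (fun σ => G.rk_mem κ (lin n) σ) τ hτ h0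
  have hta : ∀ w, ((stab (u w)).card : K)⁻¹ *
      ∑ σ ∈ stab (u w), τ ⟨G.rk κ (lin n) σ, G.rk_mem κ (lin n) σ⟩ =
      Q.tau t (lin n) (G.av κ (lin n) (stab (u w))) := by
    intro w
    unfold av
    rw [Q.tau_smul t _ (sum_mem fun σ _ => G.rk_mem κ (lin n) σ),
      Q.tau_sum t _ _ fun σ _ => G.rk_mem κ (lin n) σ]
    rfl
  choose m hm1 hm2 using fun w => Q.pT_nat t (hmem w) (hidem w)
  have hK : ((∑ w ∈ good A, sgi w * (m w : ℤ) : ℤ) : K) = 0 := by
    rw [← hjt, Int.cast_sum]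
    refine Finset.sum_congr rfl fun w _ => ?_
    rw [hta w, hm2 w]
    push_cast
    rfl
  have hZ : ∑ w ∈ good A, sgi w * (m w : ℤ) = 0 := by exact_mod_cast hK
  have hR : ∑ w ∈ good A, (sgi w : ℝ) * (m w : ℝ) = 0 := by exact_mod_cast hZ
  rw [← hR]
  refine Finset.sum_congr rfl fun w hw => ?_
  congr 1
  rw [← hm1 w]
  obtain ⟨e, he⟩ := hstab w hw
  rw [he]
  exact (Q.pT_conj t (G.eS_mem κ _) (G.eS_idem κ _) (G.mem _ _ e) (G.mem _ _ e.symm)
    (G.sg_symm_mul _ _ e)).symm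

end Sgn

end ZS
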