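import Pool.Agent.W_f569db_sp.SEsg

set_option autoImplicit false

/-!
# Every nonzero vector is seen by a word

`exists_word`: for `y ≠ 0` of shape `s` there are `f₀ ∈ P s s` and a word `w` such that for every `E` in the span of the
permutations whose row `w` is the unit vector: `E f₀ y ∉ (N s s) y`.

Proof.  Let `C = Matrix (S → α) (Empty → α) K`, `M₀ = (N s s) y = {g * y | g ∈ N s s}` and `P₀ = {f * y | f ∈ P s s}` (submodules of
`C`: images of `N s s`, `P s s` under `f ↦ f * y`).  Both are stable under left multiplication by `P s s`.  `y ∈ P₀`, and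
`y ∉ M₀`: `y = g y` with `g` nilpotent gives `y = g^n y = 0`.
Let `π₀ : C → C` be a linear projection onto `M₀` (`Submodule.exists_isCompl`, `Submodule.linearProjOfIsCompl` or
`Submodule.exists_leftInverse`..: a linear map with `π₀ x ∈ M₀` for all `x` and `π₀ x = x` for `x ∈ M₀`), and
`π x = (n!)⁻¹ ∑_{σ : Perm S} sg σ * π₀ (sg σ⁻¹ * x)`, `n! = #Perm S ≠ 0`.  Then `π x ∈ M₀`, `π x = x` for `x ∈ M₀`, and
`π (sg τ * x) = sg τ * π x` (reindex the sum by `σ ↦ τ σ`), so `π (E * x) = E * π x` for `E ∈ pspan s`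
(`Submodule.span_induction`).
Put `x = y - π y`.  `π y = g₀ y` with `g₀ ∈ N s s`, so `x = f₀ y` with `f₀ = 1 - g₀ ∈ P s s`.  `x ≠ 0` as `y ∉ M₀`, and
`π x = π y - π (π y) = 0`.  Choose `w` with `x w d ≠ 0` (`d : Empty → α` the only element).  If `E ∈ pspan s` has row `w` equal to
the unit vector then `(E * x) w d = x w d ≠ 0`, so `E x ≠ 0`, and `π (E x) = E (π x) = 0`.  If `E f₀ y = g y` with `g ∈ N s s`
then `E x ∈ M₀`, so `E x = π (E x) = 0`: contradiction.
-/

noncomputable section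

namespace ZS

open Matrix Module ZO ZSp

variable {α : Type} [Fintype α] [DecidableEq α] {K : Type*} [Field K] [CharZero K] {Q : SSys α K}
  {S : Type} [Fintype S] [DecidableEq S]

namespace Sgn

variable (G : Sgn Q)

/-- left multiplication by a square matrix -/
def SLY_L (X : Matrix (S → α) (S → α) K) :
    Matrix (S → α) (Empty → α) K →ₗ[K] Matrix (S → α) (Empty → α) K where
  toFun x := X * x
  map_add' x x' := Matrix.mul_add X x x'
  map_smul' c x := Matrix.mul_smul X c x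

/-- evaluation at a column -/
def SLY_ev (y : Matrix (S → α) (Empty → α) K) :
    Matrix (S → α) (S → α) K →ₗ[K] Matrix (S → α) (Empty → α) K where
  toFun f := f * y
  map_add' f f' := Matrix.add_mul f f' y
  map_smul' c f := Matrix.smul_mul c f y

theorem SLY_L_apply (X : Matrix (S → α) (S → α) K) (x : Matrix (S → α) (Empty → α) K) :
    SLY_L X x = X * x := rfl

theorem SLY_sg_inv_mul (s : Shp S) (σ : Equiv.Perm S) (x : Matrix (S → α) (Empty → α) K) :
    G.sg s s σ * (G.sg s s σ⁻¹ * x) = x := by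
  rw [← Matrix.mul_assoc, ← G.sg_mul, mul_inv_cancel]
  have h : G.sg s s (1 : Equiv.Perm S) = 1 := G.refl s
  rw [h, Matrix.one_mul]

theorem exists_word {s : Shp S} (hnil : ∀ x ∈ Q.N s s, IsNilpotent x)
    {y : Matrix (S → α) (Empty → α) K} (hy : y ≠ 0) :
    ∃ f₀ ∈ Q.P s s, ∃ w : S → α, ∀ E ∈ G.pspan s, (∀ c, E w c = if c = w then 1 else 0) →
      ∀ g ∈ Q.N s s, g * y ≠ E * f₀ * y := by
  classical
  let M₀ : Submodule K (Matrix (S → α) (Empty → α) K) := (Q.N s s).map (SLY_ev y)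
  have hM : ∀ {x}, x ∈ M₀ ↔ ∃ g ∈ Q.N s s, g * y = x := fun {x} => Iff.rfl
  have hMP : ∀ X ∈ Q.P s s, ∀ x ∈ M₀, X * x ∈ M₀ := by
    intro X hX x hx
    obtain ⟨g, hg, rfl⟩ := hM.1 hx
    exact hM.2 ⟨X * g, Q.N_mul_left hX hg, Matrix.mul_assoc X g y⟩
  have hyM : y ∉ M₀ := by
    intro h
    obtain ⟨g, hg, hgy⟩ := hM.1 h
    obtain ⟨n, hn⟩ := hnil g hg
    have h1 : ∀ m : ℕ, g ^ m * y = y := by
      intro m
      induction m with
      | zero => rw [pow_zero, Matrix.one_mul]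
      | succ m ih => rw [pow_succ, Matrix.mul_assoc, hgy, ih]
    have h2 := h1 n
    rw [hn, Matrix.zero_mul] at h2
    exact hy h2.symm
  obtain ⟨p₀, hp₀⟩ := M₀.subtype.exists_leftInverse_of_injective (Submodule.ker_subtype M₀)
  have hp₁ : ∀ x : Matrix (S → α) (Empty → α) K, ∀ hx : x ∈ M₀, (p₀ x : Matrix _ _ K) = x := by
    intro x hx
    have h1 := LinearMap.congr_fun hp₀ ⟨x, hx⟩
    have h2 : p₀ x = ⟨x, hx⟩ := h1
    rw [h2]
  have hsgP : ∀ σ : Equiv.Perm S, G.sg s s σ ∈ Q.P s s := fun σ => G.mem s s σ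
  let c₀ : K := (Fintype.card (Equiv.Perm S) : K)
  have hc₀ : c₀ ≠ 0 := Nat.cast_ne_zero.2 Fintype.card_ne_zero
  let π : Matrix (S → α) (Empty → α) K →ₗ[K] Matrix (S → α) (Empty → α) K :=
    c₀⁻¹ • ∑ σ : Equiv.Perm S, (SLY_L (G.sg s s σ)).comp
      (M₀.subtype.comp (p₀.comp (SLY_L (G.sg s s σ⁻¹))))
  have hπ : ∀ x, π x = c₀⁻¹ • ∑ σ : Equiv.Perm S,
      G.sg s s σ * (p₀ (G.sg s s σ⁻¹ * x) : Matrix (S → α) (Empty → α) K) := by
    intro x
    simp only [π, LinearMap.smul_apply, LinearMap.sum_apply, LinearMap.comp_apply, SLY_L_apply,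
      Submodule.subtype_apply]
  have hπM : ∀ x, π x ∈ M₀ := by
    intro x
    rw [hπ]
    exact M₀.smul_mem _ (M₀.sum_mem fun σ _ => hMP _ (hsgP σ) _ (p₀ _).2)
  have hπid : ∀ x ∈ M₀, π x = x := by
    intro x hx
    rw [hπ]
    have h1 : ∀ σ : Equiv.Perm S,
        G.sg s s σ * (p₀ (G.sg s s σ⁻¹ * x) : Matrix (S → α) (Empty → α) K) = x := by
      intro σ
      rw [hp₁ _ (hMP _ (hsgP _) _ hx), G.SLY_sg_inv_mul]
    rw [Finset.sum_congr rfl fun σ _ => h1 σ, Finset.sum_const, Finset.card_univ,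
      ← Nat.cast_smul_eq_nsmul K, smul_smul, inv_mul_cancel₀ hc₀, one_smul]
  have hπsg : ∀ (τ : Equiv.Perm S) x, π (G.sg s s τ * x) = G.sg s s τ * π x := by
    intro τ x
    rw [hπ, hπ, Matrix.mul_smul, Matrix.mul_sum]
    congr 1
    refine Fintype.sum_equiv (Equiv.mulLeft τ⁻¹) _ _ fun σ => ?_
    simp only [Equiv.coe_mulLeft]
    rw [← Matrix.mul_assoc (G.sg s s τ), ← G.sg_mul, mul_inv_cancel_left, ← Matrix.mul_assoc,
      ← G.sg_mul, _root_.mul_inv_rev, inv_inv]
  have hπE : ∀ E ∈ G.pspan s, ∀ x, π (E * x) = E * π x := by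
    intro E hE x
    induction hE using Submodule.span_induction with
    | mem E hE =>
      obtain ⟨τ, rfl⟩ := hE
      exact hπsg τ x
    | zero => rw [Matrix.zero_mul, Matrix.zero_mul, map_zero]
    | add E E' _ _ h1 h2 => rw [Matrix.add_mul, Matrix.add_mul, map_add, h1, h2]
    | smul c E _ h1 => rw [Matrix.smul_mul, Matrix.smul_mul, map_smul, h1]
  obtain ⟨g₀, hg₀, hg₀y⟩ := hM.1 (hπM y)
  have hx : (1 - g₀) * y = y - π y := by rw [Matrix.sub_mul, Matrix.one_mul, hg₀y]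
  have hxne : y - π y ≠ 0 := by
    intro h
    rw [sub_eq_zero] at h
    exact hyM (h ▸ hπM y)
  obtain ⟨w, hw⟩ : ∃ w, (y - π y) w (fun e => Empty.elim e) ≠ 0 := by
    by_contra hcon
    push Not at hcon
    apply hxne
    ext w d
    have hd : d = fun e => Empty.elim e := Subsingleton.elim _ _
    rw [hd]
    exact hcon w
  refine ⟨1 - g₀, sub_mem (Q.one_mem s) hg₀.1, w, fun E hE hEw g hg hcon => ?_⟩
  have h1 : E * (y - π y) ∈ M₀ := by
    rw [← hx, ← Matrix.mul_assoc, ← hcon]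
    exact hM.2 ⟨g, hg, rfl⟩
  have h2 : π (y - π y) = 0 := by
    rw [map_sub, hπid _ (hπM y), sub_self]
  have h3 : E * (y - π y) = 0 := by
    rw [← hπid _ h1, hπE E hE, h2, Matrix.mul_zero]
  have h4 : (E * (y - π y)) w (fun e => Empty.elim e) = (y - π y) w (fun e => Empty.elim e) := by
    rw [Matrix.mul_apply, Finset.sum_eq_single w]
    · rw [hEw, if_pos rfl, one_mul]
    · intro c _ hc
      rw [hEw, if_neg hc, zero_mul]
    · intro h
      exact absurd (Finset.mem_univ w) h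
  rw [h3] at h4
  exact hw h4.symm

end Sgn

end ZS
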