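import Pool.Agent.W_f569db_sp.STau
import Pool.Agent.W_f569db_zs.Ann
import Pool.Agent.W_b4801b_h57.LayerE

set_option autoImplicit false

/-!
# One layer, relative to an idempotent, super version

`exists_idem_liftE`: as `exists_idem_lift` in `W_b4801b_h57/Lift`, with `exists_quotE`.

`layerG`: let `y` be a vector of the shape `s`, `E ∈ P s s` idempotent, `f₀ ∈ P s s` with `E f₀ y ∉ (N s s) y`.  Then
`dim (P s Y) y - dim (N s Y) y ≥ pT E - (rank E - 1) a` for `Y = t t`.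

Proof.  Put `z = E * f₀ * y` and `L = {F ∈ P s s | ∃ g ∈ N s s, F * z = g * y}`, a left ideal of `Q.alg s`.  `left_idemE`
(`rad_alg`) gives an idempotent `q ∈ P s s` with `x - x q ∈ N s s` for `x ∈ L` and `l ∈ L` with `q - l ∈ N s s`.
(a) `q ≠ 1`: otherwise `z = l z + (1 - l) z`, `l z = g y`, `(1 - l) z = (1 - l) E f₀ y` with `(1 - l) E f₀ ∈ N`, so
`z ∈ N y`: contradiction.
(b) For `F ∈ P s v` with `F z = g y`, `g ∈ N s v`: `F - F q ∈ N s v` (test with `B ∈ P v s` as in `exists_ann`: `B F ∈ L`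
because `B g ∈ N s s`).
(c) Let `φ F = F * y`, `ψ F = F * (E * f₀ * y)` on `P s Y`, `A = {F ∈ P s Y | ∃ g ∈ N s Y, ψ F = g y}`.  Then
`ψ (P s Y) ⊆ φ (P s Y)` (`E f₀ ∈ P s s`) and `dim P s Y - dim A ≤ dim φ(P) - dim φ(N)` (the map `P s Y → φ(P)/φ(N)` induced by
`ψ` has kernel `A`).  By (b), as in `layer` (`dim_image_le`): `dim A - dim N s Y ≤ cod (sand 1 q) (P s Y) (N s Y) = pT q`
(`cod_eq_pT`).  And `dim P s Y - dim N s Y = pT 1` (`cod_eq_pT` for `q = 1`).  So
`cod (sand 1 y) (P s Y) (N s Y) ≥ pT 1 - pT q = pT p` with `p = 1 - q ≠ 0` (`pT_add`).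
(d) `(1 - E) ∈ L` (`(1 - E) z = 0 = 0 * y`), so `(1 - E) p ∈ N s s`.  From here on the computation is the one of
`ZO.Sys.layerE` (`W_b4801b_h57/LayerE`): `x = E - p E`, `x x - x ∈ N`, lift to an idempotent `e'` (`exists_idem_liftE`),
`rank e' = rank E - rank p` and `tau e' = tau E - tau p`: the ordinary trace of an element of `N s s` is zero because it is
nilpotent (`Matrix.isNilpotent_trace_of_isNilpotent`), `tau_of_mem_N`, `tau_comm`, `pT_nat`, `pT_le`.
-/

noncomputable section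

namespace ZS

open Matrix Module ZO

theorem exists_idem_liftE {ι : Type*} [Fintype ι] [DecidableEq ι] {K : Type*} [Field K]
    {E : Matrix ι ι K} (D : Subalgebra K (Matrix ι ι K)) (hE : ∀ A ∈ D, E * A = A * E)
    (hnil : ∀ x ∈ radE E D, IsNilpotent x) {x : Matrix ι ι K} (hx : x ∈ D)
    (h : x * x - x ∈ radE E D) : ∃ e ∈ D, e * e = e ∧ e - x ∈ radE E D := by
  obtain ⟨R, _, _, _, _, π, hπ, hk⟩ := exists_quotE hE
  have h1 : π (⟨x, hx⟩ * ⟨x, hx⟩ - ⟨x, hx⟩) = 0 := (hk _).2 h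
  have h2 : IsIdempotentElem (π ⟨x, hx⟩) := by
    rw [map_sub, map_mul] at h1
    exact sub_eq_zero.mp h1
  obtain ⟨q, hq, hqe⟩ := exists_isIdempotentElem_eq_of_ker_isNilpotent
    (π : D →+* R) (fun y hy => by
      obtain ⟨n, hn⟩ := hnil _ ((hk y).1 hy)
      exact ⟨n, Subtype.ext (by rw [SubmonoidClass.coe_pow, hn]; rfl)⟩) (π ⟨x, hx⟩)
      ⟨⟨x, hx⟩, rfl⟩ h2
  have hqe' : π q = π ⟨x, hx⟩ := hqe
  refine ⟨q.1, q.2, congrArg Subtype.val hq, ?_⟩
  have h3 : π (q - ⟨x, hx⟩) = 0 := by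
    rw [map_sub, hqe', sub_self]
  exact (hk _).1 h3

/-- `dim F - dim {x ∈ F | ψ x ∈ φ(G)} ≤ dim φ(F) - dim φ(G)` if `ψ(F) ⊆ φ(F)`. -/
theorem SLayer_lin {K : Type*} [Field K] {V W : Type*} [AddCommGroup V] [Module K V]
    [FiniteDimensional K V] [AddCommGroup W] [Module K W] [FiniteDimensional K W]
    (φ ψ : V →ₗ[K] W) (F G : Submodule K V) (hGF : G ≤ F) (hψ : ∀ x ∈ F, ψ x ∈ F.map φ) :
    (finrank K F : ℝ) - finrank K (F ⊓ (G.map φ).comap ψ : Submodule K V) ≤ cod φ F G := by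
  have h1 := ann_rank ((G.map φ).mkQ ∘ₗ ψ) F
  have h2 := ann_rank (G.map φ).mkQ (F.map φ)
  have h3 : LinearMap.ker ((G.map φ).mkQ ∘ₗ ψ) = (G.map φ).comap ψ := by
    rw [LinearMap.ker_comp, Submodule.ker_mkQ]
  have h4 : F.map φ ⊓ G.map φ = G.map φ := inf_eq_right.2 (Submodule.map_mono hGF)
  rw [h3] at h1
  rw [Submodule.ker_mkQ, h4] at h2
  have h5 : F.map ((G.map φ).mkQ ∘ₗ ψ) ≤ (F.map φ).map (G.map φ).mkQ := by
    rintro _ ⟨x, hx, rfl⟩
    exact ⟨ψ x, hψ x hx, rfl⟩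
  have h6 := Submodule.finrank_mono h5
  unfold cod
  have h1' : (finrank K (F.map ((G.map φ).mkQ ∘ₗ ψ)) : ℝ) +
      finrank K (F ⊓ (G.map φ).comap ψ : Submodule K V) = finrank K F := by exact_mod_cast h1
  have h2' : (finrank K ((F.map φ).map (G.map φ).mkQ) : ℝ) + finrank K (G.map φ) =
      finrank K (F.map φ) := by exact_mod_cast h2
  have h6' : (finrank K (F.map ((G.map φ).mkQ ∘ₗ ψ)) : ℝ) ≤
      finrank K ((F.map φ).map (G.map φ).mkQ) := by exact_mod_cast h6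
  linarith

variable {α : Type} [Fintype α] [DecidableEq α] {K : Type*} [Field K] [CharZero K]
  {S T : Type} [Fintype S] [DecidableEq S] [Fintype T] [DecidableEq T]

namespace SSys

variable (Q : SSys α K) {s : Shp S}

theorem layerG (hnil : ∀ x ∈ Q.N s s, IsNilpotent x) (t : Shp T) (hpos : 0 < Q.a t t)
    {E f₀ : Matrix (S → α) (S → α) K} (hE : E ∈ Q.P s s) (hE2 : E * E = E) (hf : f₀ ∈ Q.P s s)
    {y : Matrix (S → α) (Empty → α) K} (hy : ∀ g ∈ Q.N s s, g * y ≠ E * f₀ * y) :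
    Q.pT t s E - ((E.rank : ℝ) - 1) * Q.a t t ≤
      cod (sand (1 : Matrix (T ⊕ T → α) (T ⊕ T → α) K) y) (Q.P s (t.p t)) (Q.N s (t.p t)) := by
  obtain ⟨z, hz⟩ : ∃ z : Matrix (S → α) (Empty → α) K, z = E * f₀ * y := ⟨_, rfl⟩
  have hEf : E * f₀ ∈ Q.P s s := Q.mul_mem hE hf
  let L : Submodule K (Matrix (S → α) (S → α) K) :=
    { carrier := {f | f ∈ Q.P s s ∧ ∃ g ∈ Q.N s s, f * z = g * y}
      add_mem' := by
        rintro a b ⟨h1, g1, hg1, h2⟩ ⟨h3, g2, hg2, h4⟩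
        refine ⟨add_mem h1 h3, g1 + g2, add_mem hg1 hg2, ?_⟩
        rw [Matrix.add_mul, Matrix.add_mul, h2, h4]
      zero_mem' := ⟨zero_mem _, 0, zero_mem _, by rw [Matrix.zero_mul, Matrix.zero_mul]⟩
      smul_mem' := by
        rintro c a ⟨h1, g1, hg1, h2⟩
        refine ⟨Submodule.smul_mem _ c h1, c • g1, Submodule.smul_mem _ c hg1, ?_⟩
        rw [Matrix.smul_mul, Matrix.smul_mul, h2] }
  obtain ⟨q, hq, hqq, hL, l, hl, hql⟩ := left_idemE (Q.alg s) (Q.alg_even s) hnil L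
    (fun f hf => hf.1)
    (fun x hx f hf => by
      obtain ⟨h1, g, hg, h2⟩ := hf
      exact ⟨Q.mul_mem hx h1, x * g, Q.N_mul_left hx hg, by
        rw [Matrix.mul_assoc, h2, Matrix.mul_assoc]⟩)
  rw [rad_alg] at hql
  have hq : q ∈ Q.P s s := hq
  -- (a)
  have hq1 : q ≠ 1 := by
    intro h0
    obtain ⟨_, g, hg, h2⟩ := hl
    refine hy (g + (q - l) * (E * f₀)) (add_mem hg (Q.N_mul_right hql hEf)) ?_
    rw [Matrix.add_mul, ← h2, Matrix.mul_assoc, ← hz, h0, Matrix.sub_mul, Matrix.one_mul]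
    abel
  -- (b)
  have hann : ∀ (Y : Type) [Fintype Y] [DecidableEq Y] (v : Shp Y)
      (f : Matrix (Y → α) (S → α) K), f ∈ Q.P s v → (∃ g ∈ Q.N s v, f * z = g * y) →
      f - f * q ∈ Q.N s v := by
    intro Y _ _ v f hf hg
    obtain ⟨g, hg, hfg⟩ := hg
    refine (Q.mem_N').2 ⟨sub_mem hf (Q.mul_mem hf hq), fun B hB => ?_⟩
    have h1 : B * f ∈ L := ⟨Q.mul_mem hB hf, B * g, Q.N_mul_left hB hg, by
      rw [Matrix.mul_assoc, hfg, Matrix.mul_assoc]⟩
    have h2 := hL _ h1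
    rw [rad_alg] at h2
    have h3 := Q.str_N h2
    rw [Matrix.mul_sub, ← Matrix.mul_assoc]
    exact h3
  -- (c)
  have hfull : (finrank K (Q.P s (t.p t)) : ℝ) - finrank K (Q.N s (t.p t)) =
      Q.pT t s (1 : Matrix (S → α) (S → α) K) := by
    rw [← Q.cod_eq_pT t (Q.one_mem s)]
    have h1 : sand (1 : Matrix (T ⊕ T → α) (T ⊕ T → α) K) (1 : Matrix (S → α) (S → α) K) =
        LinearMap.id := by
      apply LinearMap.ext
      intro x
      rw [sand_apply, Matrix.one_mul, Matrix.mul_one]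
      rfl
    unfold cod
    rw [h1, Submodule.map_id, Submodule.map_id]
  have hge : Q.pT t s (1 : Matrix (S → α) (S → α) K) - Q.pT t s q ≤
      cod (sand (1 : Matrix (T ⊕ T → α) (T ⊕ T → α) K) y) (Q.P s (t.p t)) (Q.N s (t.p t)) := by
    have hGF : Q.N s (t.p t) ≤ Q.P s (t.p t) := Q.N_le s (t.p t)
    have h1 := SLayer_lin (sand (1 : Matrix (T ⊕ T → α) (T ⊕ T → α) K) y)
      (sand (1 : Matrix (T ⊕ T → α) (T ⊕ T → α) K) z) (Q.P s (t.p t)) (Q.N s (t.p t)) hGF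
      (fun x hx => ⟨x * (E * f₀), Q.mul_mem hx hEf, by
        rw [sand_apply, sand_apply, Matrix.one_mul, Matrix.one_mul, hz, Matrix.mul_assoc]⟩)
    have h2 := dim_image_le (sand (1 : Matrix (T ⊕ T → α) (T ⊕ T → α) K) q)
      (fun x => by
        rw [sand_apply, sand_apply, Matrix.one_mul, Matrix.one_mul, Matrix.mul_assoc, hqq])
      (Q.P s (t.p t)) (Q.N s (t.p t)) (Q.P s (t.p t) ⊓ ((Q.N s (t.p t)).map
        (sand (1 : Matrix (T ⊕ T → α) (T ⊕ T → α) K) y)).comap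
        (sand (1 : Matrix (T ⊕ T → α) (T ⊕ T → α) K) z)) hGF
      (fun x hx => by
        rw [sand_apply, Matrix.one_mul]
        exact Q.mul_mem hx hq)
      (fun x hx => by
        rw [sand_apply, Matrix.one_mul]
        exact Q.N_mul_right hx hq)
      inf_le_left
      (fun x hx => by
        rw [sand_apply, Matrix.one_mul]
        refine hann _ _ x hx.1 ?_
        obtain ⟨g, hg, hgx⟩ := hx.2
        rw [sand_apply, sand_apply, Matrix.one_mul, Matrix.one_mul] at hgx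
        exact ⟨g, hg, hgx.symm⟩)
    rw [Q.cod_eq_pT t hq] at h2
    have h3 : finrank K (Q.N s (t.p t) ⊓ (Q.P s (t.p t) ⊓ ((Q.N s (t.p t)).map
        (sand (1 : Matrix (T ⊕ T → α) (T ⊕ T → α) K) y)).comap
        (sand (1 : Matrix (T ⊕ T → α) (T ⊕ T → α) K) z)) : Submodule K _) ≤
        finrank K (Q.N s (t.p t)) := Submodule.finrank_mono inf_le_left
    have h3' : (finrank K (Q.N s (t.p t) ⊓ (Q.P s (t.p t) ⊓ ((Q.N s (t.p t)).map
        (sand (1 : Matrix (T ⊕ T → α) (T ⊕ T → α) K) y)).comap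
        (sand (1 : Matrix (T ⊕ T → α) (T ⊕ T → α) K) z)) : Submodule K _) : ℝ) ≤
        finrank K (Q.N s (t.p t)) := by exact_mod_cast h3
    linarith
  -- (d)
  obtain ⟨p, hp⟩ : ∃ p : Matrix (S → α) (S → α) K, p = 1 - q := ⟨_, rfl⟩
  have hpP : p ∈ Q.P s s := by
    rw [hp]
    exact sub_mem (Q.one_mem s) hq
  have hpp : p * p = p := by
    rw [hp, Matrix.mul_sub, Matrix.mul_one, Matrix.sub_mul, Matrix.one_mul, hqq, sub_self,
      sub_zero]
  have h1e : (1 - E) * p ∈ Q.N s s := by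
    have h1 := hann S s (1 - E) (sub_mem (Q.one_mem s) hE) ⟨0, zero_mem _, by
      rw [hz, Matrix.mul_assoc E, ← Matrix.mul_assoc (1 - E), Matrix.sub_mul, Matrix.one_mul, hE2,
        sub_self, Matrix.zero_mul, Matrix.zero_mul]⟩
    have h2 : (1 - E) * p = (1 - E) - (1 - E) * q := by
      rw [hp, Matrix.mul_sub, Matrix.mul_one]
    rw [h2]
    exact h1
  obtain ⟨x, hx⟩ : ∃ x : Matrix (S → α) (S → α) K, x = E - p * E := ⟨_, rfl⟩
  have hxP : x ∈ Q.P s s := by
    rw [hx]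
    exact sub_mem hE (Q.mul_mem hpP hE)
  have hxx : x * x - x ∈ radE (dg Q.ε S) (Q.alg s) := by
    rw [Q.rad_alg]
    have h1 : x * x - x = (1 - E) * p * E - p * ((1 - E) * p) * E := by
      have h2 : x * x = E * E - E * p * E - p * (E * E) + p * E * p * E := by
        rw [hx]
        noncomm_ring
      have h3 : (1 - E) * p * E - p * ((1 - E) * p) * E =
          p * E - E * p * E - p * p * E + p * E * p * E := by
        noncomm_ring
      rw [h2, h3, hE2, hpp, hx]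
      abel
    rw [h1]
    exact sub_mem (Q.N_mul_right h1e hE) (Q.N_mul_right (Q.N_mul_left hpP h1e) hE)
  obtain ⟨e', he', hee', hex⟩ := exists_idem_liftE (Q.alg s) (Q.alg_even s) hnil (x := x) hxP hxx
  rw [Q.rad_alg] at hex
  have he'P : e' ∈ Q.P s s := he'
  have htrN : ∀ A ∈ Q.N s s, Matrix.trace A = 0 := fun A hA =>
    (Matrix.isNilpotent_trace_of_isNilpotent (hnil A hA)).eq_zero
  -- traces
  have htr : Matrix.trace E = Matrix.trace e' + Matrix.trace p := by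
    have h1 := htrN _ hex
    have h2 := htrN _ h1e
    rw [Matrix.trace_sub, hx, Matrix.trace_sub, Matrix.trace_mul_comm p E] at h1
    rw [Matrix.sub_mul, Matrix.one_mul, Matrix.trace_sub] at h2
    linear_combination -h1 - h2
  have htr1 : Matrix.trace (1 : Matrix (S → α) (S → α) K) =
      Matrix.trace q + Matrix.trace p := by
    rw [hp, Matrix.trace_sub]
    ring
  have hrk : E.rank = e'.rank + p.rank := by
    rw [trace_idem hE2, trace_idem hee', trace_idem hpp] at htr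
    exact_mod_cast htr
  have hrk1 : Fintype.card (S → α) = q.rank + p.rank := by
    rw [trace_idem hqq, trace_idem hpp, Matrix.trace_one] at htr1
    exact_mod_cast htr1
  have hlt := rank_lt_of_idem hqq hq1
  have hp1 : 1 ≤ p.rank := by omega
  -- the numbers `tau`
  have htau1 : Q.tau t s (1 : Matrix (S → α) (S → α) K) = Q.tau t s q + Q.tau t s p := by
    rw [← Q.tau_add t hq hpP]
    congr 1
    rw [hp]
    abel
  have htau : Q.tau t s E = Q.tau t s e' + Q.tau t s p := by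
    have h1 : Q.tau t s E = Q.tau t s x + Q.tau t s (p * E) := by
      rw [← Q.tau_add t hxP (Q.mul_mem hpP hE)]
      congr 1
      rw [hx]
      abel
    have h2 : Q.tau t s e' = Q.tau t s x := by
      have h3 : Q.tau t s e' = Q.tau t s (e' - x) + Q.tau t s x := by
        rw [← Q.tau_add t hex.1 hxP]
        congr 1
        abel
      rw [h3, Q.tau_of_mem_N t hex, zero_add]
    have h3 : Q.tau t s p = Q.tau t s (p * E) := by
      have h4 : Q.tau t s p = Q.tau t s ((1 - E) * p) + Q.tau t s (E * p) := by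
        rw [← Q.tau_add t h1e.1 (Q.mul_mem hE hpP)]
        congr 1
        noncomm_ring
      rw [h4, Q.tau_of_mem_N t h1e, zero_add]
      exact Q.tau_comm t hpP hE
    rw [h1, h2, h3]
  obtain ⟨n1, hn1, hn1'⟩ := Q.pT_nat t (Q.one_mem s) (Matrix.one_mul _)
  obtain ⟨nq, hnq, hnq'⟩ := Q.pT_nat t hq hqq
  obtain ⟨np, hnp, hnp'⟩ := Q.pT_nat t hpP hpp
  obtain ⟨ne, hne, hne'⟩ := Q.pT_nat t hE hE2
  obtain ⟨ne', hne1, hne1'⟩ := Q.pT_nat t he'P hee'
  have hN1 : n1 = nq + np := by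
    rw [hn1', hnq', hnp'] at htau1
    exact_mod_cast htau1
  have hN2 : ne = ne' + np := by
    rw [hne', hne1', hnp'] at htau
    exact_mod_cast htau
  have hle := Q.pT_le (t := t) he'P hee' hpos
  have hr : (e'.rank : ℝ) ≤ (E.rank : ℝ) - 1 := by
    have h1 : ((e'.rank + 1 : ℕ) : ℝ) ≤ (E.rank : ℕ) := by
      exact_mod_cast (by omega : e'.rank + 1 ≤ E.rank)
    push_cast at h1
    linarith
  have hr2 : (e'.rank : ℝ) * Q.a t t ≤ ((E.rank : ℝ) - 1) * Q.a t t :=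
    mul_le_mul_of_nonneg_right hr hpos.le
  have h1 : Q.pT t s (1 : Matrix (S → α) (S → α) K) - Q.pT t s q = Q.pT t s E - Q.pT t s e' := by
    rw [hn1, hnq, hne, hne1, hN1, hN2]
    push_cast
    ring
  linarith

end SSys

end ZS
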