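import Pool.Agent.W_f569db_sp.STau
import Pool.Agent.W_f569db_zs.LowA
import Pool.Agent.W_f569db_zs.Main
import Pool.Agent.W_f569db_zo.Ana

set_option autoImplicit false

/-!
# Deficits: generalities, the deficit of the identity

* `df_nonneg`: `pT_le`.
* `df_le_one`: `1 = X + (1 - X)`, `pT_add`, `rank 1 = rank X + rank (1 - X)` (traces), `df (1 - X) ≥ 0`.
  (See `FinalA_compl` in `W_b4801b_h57/FinalA`.)
* `lowA'`: `lowA` (`W_f569db_zs/LowA`) uses the nilpotency only for the shape `lin m`: same proof.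
* `A_step`: `A (n + 1 + 2 m) ≤ A (n + 2 m) + (b - 1) b^n A (2 m)` when there is a point (`u : e → o`, `v : o → e`, `v * u = 1`).
  Proof: let `t = lin m`, `s = lin n`, `π = u * v ∈ P o o`, an idempotent; `1 = kr 1 π + kr 1 (1 - π)` on `s.p o = lin (n + 1)`,
  orthogonal idempotents: `pT 1 = pT (kr 1 π) + pT (kr 1 (1 - π))` (`pT_one`, `pT_add`).  `pT (kr 1 (1 - π)) ≤ rank * a`,
  `rank (kr 1 (1 - π)) = b^n * (b - 1)` (`rank_kr_idem`; `rank π = tr (u v) = tr (v u) = 1`).  And `kr 1 π = (kr 1 u) (kr 1 v)`,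
  `(kr 1 v) (kr 1 u) = 1` on `s.p e`: `pT (kr 1 π) = pT (1 on s.p e) = pT (1 on s)` (`pT_conj` with `X = 1`, `Y = kr 1 u`,
  `Z = kr 1 v`; then `pT_one` for both: the number of letters of `s.p e` is `n`).
* `df_one`: let `1 ≤ M₀ ≤ m`, nilpotency for the shape `lin M₀`, and a point.  Then for every shape `s` with `n` letters
  `df (lin m) s 1 ≤ b^(n+3) * n / √M₀`.
  Proof.  `df s 1 = b^n - A (n + 2 m) / A (2 m)` (`pT_one`, `a_eq_A`, `card_L`, `Matrix.rank_one`).  The sequence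
  `x k = A (2 k)` is positive (`one_le_A`) and log-convex (`cs_a`, see the proof of `zero_one` in `W_f569db_zs/Main`), so
  `x (m + k) / x m ≥ (x (M₀ + 1) / x M₀)^k` (`ratio_mono`, `ratio_pow`) and by `ratio_quant` (its proof: with
  `x M₀ ≥ b^(2 M₀) / (M₀ + 1)^(b^2)` only at the index `M₀`, `x 0 ≤ 1`: `A 0 ≤ b^0`): `(x (M₀ + 1) / x M₀)^k ≥
  (1 - b^2 k log (M₀ + 1) / M₀) b^(2k) ≥ (1 - b^2 k / √M₀) b^(2k)` (`log_le_sqrt`).
  `n = 2 k`: `df ≤ b^n b^2 k / √M₀`.  `n = 2 k - 1`: `A_step` gives `A (n + 2m) ≥ A (n + 1 + 2m) - (b - 1) b^n A (2m)`, so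
  `A (n + 2m) / A (2m) ≥ b^(n+1) (1 - b^2 k / √M₀) - (b - 1) b^n = b^n (1 - b^3 k / √M₀)`, and `k ≤ n`.
-/

noncomputable section

namespace ZS

open Matrix Module ZO ZSp

variable {α : Type} [Fintype α] [DecidableEq α] {K : Type*} [Field K] [CharZero K]
  {S T : Type} [Fintype S] [DecidableEq S] [Fintype T] [DecidableEq T]

/-- a lower bound of a log-convex sequence at one index bounds the later ratios -/
theorem SOne_ana (s : ℕ → ℝ) (β : ℝ) (C M₀ m k : ℕ) (hβ : 1 ≤ β) (hpos : ∀ m, 0 < s m)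
    (hlc : ∀ m, (s (m + 1)) ^ 2 ≤ s m * s (m + 2))
    (hlow : β ^ M₀ ≤ ((M₀ : ℝ) + 1) ^ C * s M₀) (hup : s 0 ≤ 1) (h1 : 1 ≤ M₀) (hm : M₀ ≤ m) :
    (1 - C * k / √(M₀ : ℝ)) * β ^ k * s m ≤ s (m + k) := by
  have hM0 : (0 : ℝ) < M₀ := by exact_mod_cast h1
  have hβ0 : 0 < β := by linarith
  set r := s (M₀ + 1) / s M₀ with hr
  have hr0 : 0 < r := div_pos (hpos _) (hpos _)
  have h2 : s M₀ ≤ r ^ M₀ := by
    calc s M₀ ≤ r ^ M₀ * s 0 := le_ratio_pow s hpos hlc M₀
      _ ≤ r ^ M₀ * 1 := by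
        apply mul_le_mul_of_nonneg_left hup (pow_nonneg hr0.le _)
      _ = r ^ M₀ := mul_one _
  have h3 : β ^ M₀ ≤ ((M₀ : ℝ) + 1) ^ C * r ^ M₀ :=
    hlow.trans (mul_le_mul_of_nonneg_left h2 (by positivity))
  have h4 : M₀ * Real.log β ≤ C * Real.log (M₀ + 1) + M₀ * Real.log r := by
    have := Real.log_le_log (pow_pos hβ0 _) h3
    rw [Real.log_mul (by positivity) (by positivity), Real.log_pow, Real.log_pow,
      Real.log_pow] at this
    exact this
  have h5 : Real.log β - C / M₀ * Real.log (M₀ + 1) ≤ Real.log r := by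
    have : (M₀ : ℝ) * (Real.log β - C / M₀ * Real.log (M₀ + 1)) ≤ M₀ * Real.log r := by
      have e : (M₀ : ℝ) * (Real.log β - C / M₀ * Real.log (M₀ + 1)) =
          M₀ * Real.log β - C * Real.log (M₀ + 1) := by
        field_simp
      rw [e]; linarith
    exact le_of_mul_le_mul_left this hM0
  have h6 : k * Real.log β - C * k / M₀ * Real.log (M₀ + 1) ≤ k * Real.log r := by
    calc k * Real.log β - C * k / M₀ * Real.log (M₀ + 1)
        = k * (Real.log β - C / M₀ * Real.log (M₀ + 1)) := by ring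
      _ ≤ k * Real.log r := mul_le_mul_of_nonneg_left h5 (Nat.cast_nonneg _)
  have hs : 0 < √(M₀ : ℝ) := Real.sqrt_pos.mpr hM0
  have h7 : (C : ℝ) * k / M₀ * Real.log (M₀ + 1) ≤ C * k / √(M₀ : ℝ) := by
    have h8 : (C : ℝ) * k / M₀ * Real.log (M₀ + 1) ≤ C * k / M₀ * √(M₀ : ℝ) :=
      mul_le_mul_of_nonneg_left (log_le_sqrt M₀) (by positivity)
    have h9 : (C : ℝ) * k / M₀ * √(M₀ : ℝ) = C * k / √(M₀ : ℝ) := by
      have : (M₀ : ℝ) = √(M₀ : ℝ) * √(M₀ : ℝ) := (Real.mul_self_sqrt hM0.le).symm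
      rw [div_mul_eq_mul_div, div_eq_div_iff hM0.ne' hs.ne', mul_assoc, ← this]
    rw [h9] at h8
    exact h8
  have h8 : (1 - C * k / √(M₀ : ℝ)) * β ^ k ≤ r ^ k := by
    calc (1 - C * k / √(M₀ : ℝ)) * β ^ k
        ≤ Real.exp (-(C * k / M₀ * Real.log (M₀ + 1))) * β ^ k := by
          apply mul_le_mul_of_nonneg_right _ (pow_nonneg hβ0.le _)
          have := Real.add_one_le_exp (-(C * k / M₀ * Real.log (M₀ + 1)))
          linarith
      _ = Real.exp (k * Real.log β - C * k / M₀ * Real.log (M₀ + 1)) := by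
          rw [sub_eq_add_neg, Real.exp_add, mul_comm (Real.exp (k * Real.log β)),
            ← Real.log_pow, Real.exp_log (pow_pos hβ0 _)]
      _ ≤ Real.exp (k * Real.log r) := Real.exp_le_exp.mpr h6
      _ = r ^ k := by rw [← Real.log_pow, Real.exp_log (pow_pos hr0 _)]
  have h9 : r ≤ s (m + 1) / s m := ratio_mono s hpos hlc hm
  calc (1 - C * k / √(M₀ : ℝ)) * β ^ k * s m ≤ r ^ k * s m :=
        mul_le_mul_of_nonneg_right h8 (hpos _).le
    _ ≤ (s (m + 1) / s m) ^ k * s m :=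
        mul_le_mul_of_nonneg_right (pow_le_pow_left₀ hr0.le h9 k) (hpos _).le
    _ ≤ s (m + k) := ratio_pow s hpos hlc m k

namespace SSys

variable (Q : SSys α K)

theorem df_nonneg (t : Shp T) (s : Shp S) (hpos : 0 < Q.a t t) {X : Matrix (S → α) (S → α) K}
    (hX : X ∈ Q.P s s) (hX2 : X * X = X) : 0 ≤ Q.df t s X := by
  have h1 := Q.pT_le hX hX2 hpos
  have h2 : Q.pT t s X / Q.a t t ≤ X.rank := by
    rw [div_le_iff₀ hpos]
    exact h1
  unfold df
  linarith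

theorem df_le_one (t : Shp T) (s : Shp S) (hpos : 0 < Q.a t t) {X : Matrix (S → α) (S → α) K}
    (hX : X ∈ Q.P s s) (hX2 : X * X = X) : Q.df t s X ≤ Q.df t s 1 := by
  have h1 : (1 - X) ∈ Q.P s s := Submodule.sub_mem _ (Q.one_mem s) hX
  have h2 : (1 - X) * (1 - X) = 1 - X := by
    rw [Matrix.mul_sub, Matrix.sub_mul, Matrix.sub_mul, hX2]
    simp
  have hsum : X + (1 - X) = 1 := by abel
  have hr : X.rank + (1 - X).rank = (1 : Matrix (S → α) (S → α) K).rank := by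
    have h3 : Matrix.trace X + Matrix.trace (1 - X) =
        Matrix.trace (1 : Matrix (S → α) (S → α) K) := by
      rw [← Matrix.trace_add, hsum]
    rw [trace_idem hX2, trace_idem h2, trace_idem (Matrix.one_mul 1)] at h3
    exact_mod_cast h3
  have h4 := Q.pT_add t hX h1 hX2 h2 (by rw [hsum, Matrix.one_mul])
  rw [hsum] at h4
  have h5 := Q.df_nonneg t s hpos h1 h2
  have h6 : (X.rank : ℝ) + ((1 - X).rank : ℝ) = ((1 : Matrix (S → α) (S → α) K).rank : ℝ) := by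
    exact_mod_cast hr
  unfold df at h5 ⊢
  rw [h4, add_div, ← h6]
  linarith

theorem lowA' (hQ : Q.HasPerm) (m : ℕ) (hnil : ∀ x ∈ Q.N (lin m) (lin m), IsNilpotent x) :
    (Fintype.card α : ℝ) ^ (2 * m) ≤ (m + 1 : ℝ) ^ (Fintype.card α ^ 2) * Q.A (2 * m) := by
  obtain ⟨ρ, sgn, hmem, hs, hρ1, hρ0⟩ := hQ m
  obtain ⟨D, hss, hpm, hD⟩ := exists_symS ρ
  have h1 := dc D hss
  have h2 := orbS (ρ := ρ) hs hρ1 hρ0 (Subalgebra.toSubmodule (Subalgebra.centralizer K
    (D : Set (Matrix (L m → α) (L m → α) K)))) (by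
      intro A hA e
      exact hA (ρ e) (hpm e))
  have hDQ : D ≤ Q.alg (lin m) := by
    have h3 : D.toSubmodule ≤ Q.P (lin m) (lin m) := by
      refine hD.trans ?_
      rw [Submodule.span_le]
      rintro _ ⟨e, rfl⟩
      exact hmem e
    exact h3
  have h5 : (finrank K D : ℝ) ≤ Q.A (2 * m) := by
    have h3 := semis_subE (Q.alg (lin m)) D (Q.alg_even (lin m)) hnil hDQ hss
    have h4 := Q.a_eq_A (lin m) (lin m)
    rw [card_L, ← two_mul] at h4
    rw [← h4]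
    exact h3
  have h6 : ((Fintype.card (L m → α) ^ 2 : ℕ) : ℝ) ≤
      ((finrank K D * finrank K (Subalgebra.centralizer K
        (D : Set (Matrix (L m → α) (L m → α) K))) : ℕ) : ℝ) := by
    exact_mod_cast h1
  have h7 : ((Fintype.card (L m → α) ^ 2 : ℕ) : ℝ) = (Fintype.card α : ℝ) ^ (2 * m) := by
    rw [Fintype.card_fun, ← pow_mul, mul_comm, card_L]
    push_cast
    rfl
  have h8 : ((finrank K (Subalgebra.centralizer K
      (D : Set (Matrix (L m → α) (L m → α) K))) : ℕ) : ℝ) ≤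
        (m + 1 : ℝ) ^ (Fintype.card α ^ 2) := by
    have h9 : finrank K (Subalgebra.centralizer K (D : Set (Matrix (L m → α) (L m → α) K))) ≤
        (Fintype.card (L m) + 1) ^ (Fintype.card α ^ 2) := h2
    rw [card_L] at h9
    exact_mod_cast h9
  rw [← h7]
  refine h6.trans ?_
  push_cast
  rw [mul_comm]
  exact mul_le_mul h8 h5 (by positivity) (by positivity)

theorem A_step [Nonempty α] {u : Matrix (Unit → α) (Empty → α) K}
    {v : Matrix (Empty → α) (Unit → α) K} (hu : u ∈ Q.P Shp.e Shp.o) (hv : v ∈ Q.P Shp.o Shp.e)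
    (hvu : v * u = 1) (n m : ℕ) :
    Q.A (n + 1 + 2 * m) ≤ Q.A (n + 2 * m) +
      ((Fintype.card α : ℝ) - 1) * (Fintype.card α : ℝ) ^ n * Q.A (2 * m) := by
  have ha : Q.a (lin m) (lin m) = Q.A (2 * m) := by
    rw [Q.a_eq_A, card_L, ← two_mul]
  have hpos : 0 < Q.a (lin m) (lin m) := by
    rw [ha]
    exact lt_of_lt_of_le one_pos (Q.one_le_A hu hv hvu (2 * m))
  have hπ : u * v ∈ Q.P Shp.o Shp.o := Q.mul_mem hu hv
  have hπ2 : (u * v) * (u * v) = u * v := by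
    calc (u * v) * (u * v) = u * (v * u) * v := by simp only [Matrix.mul_assoc]
      _ = u * v := by rw [hvu, Matrix.mul_one]
  have hρ : (1 - u * v) ∈ Q.P Shp.o Shp.o := Submodule.sub_mem _ (Q.one_mem Shp.o) hπ
  have hρ2 : (1 - u * v) * (1 - u * v) = 1 - u * v := by
    rw [Matrix.mul_sub, Matrix.sub_mul, Matrix.sub_mul, hπ2]
    simp
  have h1 : kr (1 : Matrix (L n → α) (L n → α) K) (u * v) ∈
      Q.P ((lin n).p Shp.o) ((lin n).p Shp.o) := Q.kr_mem (Q.one_mem (lin n)) hπ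
  have h2 : kr (1 : Matrix (L n → α) (L n → α) K) (1 - u * v) ∈
      Q.P ((lin n).p Shp.o) ((lin n).p Shp.o) := Q.kr_mem (Q.one_mem (lin n)) hρ
  have h12 : kr (1 : Matrix (L n → α) (L n → α) K) (u * v) * kr 1 (u * v) = kr 1 (u * v) := by
    rw [kr_mul, hπ2, Matrix.one_mul]
  have h22 : kr (1 : Matrix (L n → α) (L n → α) K) (1 - u * v) * kr 1 (1 - u * v) =
      kr 1 (1 - u * v) := by
    rw [kr_mul, hρ2, Matrix.one_mul]
  have hsum : kr (1 : Matrix (L n → α) (L n → α) K) (u * v) + kr 1 (1 - u * v) = 1 := by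
    rw [← kr_add_right, add_sub_cancel, kr_one]
  have h3 := Q.pT_add (lin m) h1 h2 h12 h22 (by rw [hsum, Matrix.one_mul])
  rw [hsum, Q.pT_one (lin m) ((lin n).p Shp.o), Fintype.card_sum, card_L, card_L] at h3
  have h4 : Q.pT (lin m) ((lin n).p Shp.o)
      (kr (1 : Matrix (L n → α) (L n → α) K) (u * v)) = Q.A (n + 2 * m) := by
    have h5 := Q.pT_conj (lin m) (s := (lin n).p Shp.e) (s' := (lin n).p Shp.o)
      (X := (1 : Matrix (L n ⊕ Empty → α) (L n ⊕ Empty → α) K))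
      (Q.one_mem ((lin n).p Shp.e)) (Matrix.one_mul 1)
      (Y := kr (1 : Matrix (L n → α) (L n → α) K) u) (Q.kr_mem (Q.one_mem (lin n)) hu)
      (Z := kr (1 : Matrix (L n → α) (L n → α) K) v) (Q.kr_mem (Q.one_mem (lin n)) hv)
      (by rw [kr_mul, hvu, Matrix.one_mul, kr_one])
    rw [Matrix.mul_one, kr_mul, Matrix.one_mul, Q.pT_one (lin m) ((lin n).p Shp.e),
      Fintype.card_sum, card_L, card_L, Fintype.card_empty, add_zero] at h5
    exact h5
  have h5 := Q.pT_le h2 h22 hpos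
  have hrk : (kr (1 : Matrix (L n → α) (L n → α) K) (1 - u * v)).rank =
      Fintype.card α ^ n * (1 - u * v).rank := by
    rw [rank_kr_idem (Matrix.one_mul _) hρ2, Matrix.rank_one, Fintype.card_fun, card_L]
  have hrk2 : ((1 - u * v).rank : ℝ) = (Fintype.card α : ℝ) - 1 := by
    have h6 : Matrix.trace (1 - u * v) = (Fintype.card α : K) - 1 := by
      rw [Matrix.trace_sub, Matrix.trace_mul_comm, hvu, Matrix.trace_one, Matrix.trace_one,
        Fintype.card_fun, Fintype.card_fun, Fintype.card_empty, Fintype.card_unit, pow_one,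
        pow_zero, Nat.cast_one]
    rw [trace_idem hρ2] at h6
    have h7 : (1 - u * v).rank + 1 = Fintype.card α := by
      have h8 : (((1 - u * v).rank + 1 : ℕ) : K) = (Fintype.card α : K) := by
        rw [Nat.cast_add, h6, Nat.cast_one, sub_add_cancel]
      exact_mod_cast h8
    have h9 : (((1 - u * v).rank + 1 : ℕ) : ℝ) = (Fintype.card α : ℝ) := by rw [h7]
    rw [Nat.cast_add, Nat.cast_one] at h9
    linarith
  rw [hrk, Nat.cast_mul, Nat.cast_pow, hrk2, ha] at h5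
  have h6 : Fintype.card Unit = 1 := Fintype.card_unit
  rw [h6] at h3
  rw [h3, h4]
  have h7 : (Fintype.card α : ℝ) ^ n * ((Fintype.card α : ℝ) - 1) * Q.A (2 * m) =
      ((Fintype.card α : ℝ) - 1) * (Fintype.card α : ℝ) ^ n * Q.A (2 * m) := by ring
  rw [h7] at h5
  linarith

theorem df_one [Nonempty α] (hQ : Q.HasPerm) {u : Matrix (Unit → α) (Empty → α) K}
    {v : Matrix (Empty → α) (Unit → α) K} (hu : u ∈ Q.P Shp.e Shp.o) (hv : v ∈ Q.P Shp.o Shp.e)
    (hvu : v * u = 1) (M₀ m : ℕ) (h1 : 1 ≤ M₀) (hm : M₀ ≤ m)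
    (hnil : ∀ x ∈ Q.N (lin M₀) (lin M₀), IsNilpotent x) (s : Shp S) :
    Q.df (lin m) s 1 ≤ (Fintype.card α : ℝ) ^ (Fintype.card S + 3) * Fintype.card S / √(M₀ : ℝ) := by
  have ha : Q.a (lin m) (lin m) = Q.A (2 * m) := by
    rw [Q.a_eq_A, card_L, ← two_mul]
  have hApos : ∀ n, 0 < Q.A n := fun n => lt_of_lt_of_le one_pos (Q.one_le_A hu hv hvu n)
  have hdf : Q.df (lin m) s 1 = (Fintype.card α : ℝ) ^ Fintype.card S -
      Q.A (Fintype.card S + 2 * m) / Q.A (2 * m) := by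
    unfold df
    rw [Q.pT_one (lin m) s, ha, card_L, Matrix.rank_one, Fintype.card_fun, Nat.cast_pow]
  have hb : 1 ≤ Fintype.card α := Fintype.card_pos
  have hb0 : (1 : ℝ) ≤ Fintype.card α := by exact_mod_cast hb
  have hana : ∀ k : ℕ, (1 - ((Fintype.card α ^ 2 : ℕ) : ℝ) * k / √(M₀ : ℝ)) *
      ((Fintype.card α : ℝ) ^ 2) ^ k * Q.A (2 * m) ≤ Q.A (2 * (m + k)) := fun k =>
    SOne_ana (fun i => Q.A (2 * i)) ((Fintype.card α : ℝ) ^ 2) (Fintype.card α ^ 2) M₀ m k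
      (one_le_pow₀ hb0) (fun i => hApos _) (by
        intro i
        have h2 := Q.cs_a (lin i) (lin (i + 2))
        rw [Q.a_eq_A, Q.a_eq_A, Q.a_eq_A, card_L, card_L] at h2
        have e1 : i + (i + 2) = 2 * (i + 1) := by ring
        have e2 : i + i = 2 * i := by ring
        have e3 : i + 2 + (i + 2) = 2 * (i + 2) := by ring
        rw [e1, e2, e3] at h2
        exact h2)
      (by
        have h2 := Q.lowA' hQ M₀ hnil
        rw [← pow_mul]
        exact h2)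
      (by
        have h2 := Q.A_le (2 * 0)
        rw [Nat.mul_zero, pow_zero] at h2
        exact h2) h1 hm
  have hM0 : (0 : ℝ) < M₀ := by exact_mod_cast h1
  have hs : 0 < √(M₀ : ℝ) := Real.sqrt_pos.mpr hM0
  rw [hdf]
  generalize Fintype.card S = n
  rcases Nat.even_or_odd' n with ⟨k, hk | hk⟩
  · subst hk
    have h2 := hana k
    have e1 : 2 * (m + k) = 2 * k + 2 * m := by ring
    rw [e1, ← pow_mul] at h2
    have h3 : (1 - ((Fintype.card α ^ 2 : ℕ) : ℝ) * k / √(M₀ : ℝ)) *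
        (Fintype.card α : ℝ) ^ (2 * k) ≤ Q.A (2 * k + 2 * m) / Q.A (2 * m) := by
      rw [le_div_iff₀ (hApos _)]
      exact h2
    have h4 : (Fintype.card α : ℝ) ^ (2 * k) - Q.A (2 * k + 2 * m) / Q.A (2 * m) ≤
        (Fintype.card α : ℝ) ^ (2 * k + 2) * k / √(M₀ : ℝ) := by
      have h5 : (1 - ((Fintype.card α ^ 2 : ℕ) : ℝ) * k / √(M₀ : ℝ)) *
          (Fintype.card α : ℝ) ^ (2 * k) = (Fintype.card α : ℝ) ^ (2 * k) -
            (Fintype.card α : ℝ) ^ (2 * k + 2) * k / √(M₀ : ℝ) := by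
        push_cast
        rw [pow_add]
        ring
      rw [h5] at h3
      linarith
    refine h4.trans ?_
    apply div_le_div_of_nonneg_right _ hs.le
    apply mul_le_mul
    · exact pow_le_pow_right₀ hb0 (by omega)
    · have : k ≤ 2 * k := by omega
      exact_mod_cast this
    · exact Nat.cast_nonneg _
    · positivity
  · subst hk
    have h2 := hana (k + 1)
    have h3 := Q.A_step hu hv hvu (2 * k + 1) m
    have e1 : 2 * (m + (k + 1)) = 2 * k + 1 + 1 + 2 * m := by ring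
    rw [e1, ← pow_mul] at h2
    have h4 := h2.trans h3
    have h5 : (1 - ((Fintype.card α ^ 2 : ℕ) : ℝ) * ((k + 1 : ℕ) : ℝ) / √(M₀ : ℝ)) *
        (Fintype.card α : ℝ) ^ (2 * (k + 1)) -
          ((Fintype.card α : ℝ) - 1) * (Fintype.card α : ℝ) ^ (2 * k + 1) ≤
        Q.A (2 * k + 1 + 2 * m) / Q.A (2 * m) := by
      rw [le_div_iff₀ (hApos _), sub_mul]
      linarith
    have h6 : (1 - ((Fintype.card α ^ 2 : ℕ) : ℝ) * ((k + 1 : ℕ) : ℝ) / √(M₀ : ℝ)) *
        (Fintype.card α : ℝ) ^ (2 * (k + 1)) -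
          ((Fintype.card α : ℝ) - 1) * (Fintype.card α : ℝ) ^ (2 * k + 1) =
        (Fintype.card α : ℝ) ^ (2 * k + 1) -
          (Fintype.card α : ℝ) ^ (2 * k + 1 + 3) * ((k + 1 : ℕ) : ℝ) / √(M₀ : ℝ) := by
      push_cast
      ring
    rw [h6] at h5
    have h7 : (Fintype.card α : ℝ) ^ (2 * k + 1) - Q.A (2 * k + 1 + 2 * m) / Q.A (2 * m) ≤
        (Fintype.card α : ℝ) ^ (2 * k + 1 + 3) * ((k + 1 : ℕ) : ℝ) / √(M₀ : ℝ) := by linarith
    refine h7.trans ?_
    apply div_le_div_of_nonneg_right _ hs.le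
    apply mul_le_mul_of_nonneg_left _ (by positivity)
    have : k + 1 ≤ 2 * k + 1 := by omega
    exact_mod_cast this

end SSys

end ZS
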