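import Pool.Agent.W_f569db_sp.SEsg

set_option autoImplicit false

/-!
# The parity of a letter

`par_const`: on the constant word `a^S` the permutation `σ` acts by `(sgn σ)^(par a)`.
Proof.  `σ ↦ χ σ = sg s s σ (a^S) (a^S)` is multiplicative: `(sg σ * sg τ) (a^S) (a^S) = ∑_c sg σ (a^S) c * sg τ c (a^S)` and
only `c = a^S` contributes (`eq_zero`: `a^S ∘ σ = a^S`).  More generally for a bijection `e : S ≃ S'`:
`(sg e * X * sg e.symm) (a^S') (a^S') = ν X (a^S) (a^S) ν'` with `ν ν' = 1` (`sg_mul_symm`), so `χ` is invariant under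
transport (`sg_conj`).  For `s = o o` and the exchange `w`: `χ w ^ 2 = 1` so `χ w = ± 1 = (-1)^(par a)` by definition of
`par`.  Let `σ = swap x y`, `x ≠ y`, in `Perm S`.  Let `k = #S - 2` and choose a bijection `e : S ≃ (Unit ⊕ Unit) ⊕ L k` with
`e x = inl (inl ())`, `e y = inl (inr ())` (`Fintype.card` of the complement; e.g. first any bijection, then correct it by a
permutation).  The transport of `swap x y` is `sumCongr (sumComm) 1`, and `G.congr`, `G.refl` give `χ (swap x y) = χ w * 1`.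
Finally `Equiv.Perm.swap_induction_on` (or: `Equiv.Perm.sign` and `χ` are homomorphisms which agree on swaps).

`esg_row`: for `κ + par a` even the row `a^S` of `esg κ s` is the unit vector: the entry at `c` is
`(n!)⁻¹ ∑_σ (sgn σ)^κ sg σ (a^S) c`, zero for `c ≠ a^S` (`eq_zero`), and for `c = a^S` all terms are `(sgn σ)^(κ + par a) = 1`.

`esg_const`: for every `κ`: the entry of `esg κ s` at `(a^S, a^S)` is `1` if `κ + par a` is even or `#S ≤ 1`, and `0` otherwise
(`∑_σ sgn σ = 0` for `#S ≥ 2`: multiply by a transposition).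
-/

noncomputable section

namespace ZS

open Matrix Module ZO ZSp

variable {α : Type} [Fintype α] [DecidableEq α] {K : Type*} [Field K] [CharZero K] {Q : SSys α K}
  {S : Type} [Fintype S] [DecidableEq S]

namespace Sgn

variable (G : Sgn Q)

private theorem SPar_mul_left {S' : Type} [Fintype S'] [DecidableEq S'] (s : Shp S) (s' : Shp S')
    (e : S ≃ S') (a : α) (X : Matrix (S → α) (S → α) K) (c : S → α) :
    (G.sg s s' e * X) (fun _ => a) c = G.sg s s' e (fun _ => a) (fun _ => a) * X (fun _ => a) c := by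
  rw [Matrix.mul_apply]
  refine Finset.sum_eq_single (fun _ => a) (fun d _ hd => ?_) (fun h => ?_)
  · rw [G.eq_zero s s' e (fun _ => a) d (fun h => hd h.symm), zero_mul]
  · exact absurd (Finset.mem_univ _) h

private theorem SPar_mul_right {S' : Type} [Fintype S'] [DecidableEq S'] (s : Shp S) (s' : Shp S')
    (e : S ≃ S') (a : α) (X : Matrix (S' → α) (S' → α) K) (c : S' → α) :
    (X * G.sg s s' e) c (fun _ => a) = X c (fun _ => a) * G.sg s s' e (fun _ => a) (fun _ => a) := by
  rw [Matrix.mul_apply]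
  refine Finset.sum_eq_single (fun _ => a) (fun d _ hd => ?_) (fun h => ?_)
  · rw [G.eq_zero s s' e d (fun _ => a) (fun h => hd ?_), mul_zero]
    funext x
    have h1 := congrFun h (e.symm x)
    simp only [Function.comp_apply, Equiv.apply_symm_apply] at h1
    exact h1
  · exact absurd (Finset.mem_univ _) h

private theorem SPar_chi_mul (s : Shp S) (σ τ : Equiv.Perm S) (a : α) :
    G.sg s s (σ * τ) (fun _ => a) (fun _ => a) =
      G.sg s s σ (fun _ => a) (fun _ => a) * G.sg s s τ (fun _ => a) (fun _ => a) := by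
  rw [G.sg_mul, SPar_mul_left]

private theorem SPar_chi_one (s : Shp S) (a : α) :
    G.sg s s (1 : Equiv.Perm S) (fun _ => a) (fun _ => a) = 1 := by
  have h : G.sg s s (1 : Equiv.Perm S) = 1 := G.refl s
  rw [h, Matrix.one_apply_eq]

private theorem SPar_chi_conj {S' : Type} [Fintype S'] [DecidableEq S'] (s : Shp S) (s' : Shp S')
    (e : S ≃ S') (σ : Equiv.Perm S) (a : α) :
    G.sg s' s' (e.symm.trans (σ.trans e)) (fun _ => a) (fun _ => a) =
      G.sg s s σ (fun _ => a) (fun _ => a) := by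
  have h1 : (G.sg s s' e * G.sg s' s e.symm) (fun _ => a) (fun _ => a) = 1 := by
    rw [G.sg_mul_symm, Matrix.one_apply_eq]
  have h2 : (G.sg s s' e * G.sg s' s e.symm) (fun _ => a) (fun _ => a) =
      G.sg s s' e (fun _ => a) (fun _ => a) * G.sg s' s e.symm (fun _ => a) (fun _ => a) := by
    rw [Matrix.mul_apply]
    refine Finset.sum_eq_single (fun _ => a) (fun d _ hd => ?_) (fun h => ?_)
    · rw [G.eq_zero s s' e (fun _ => a) d (fun h => hd h.symm), zero_mul]
    · exact absurd (Finset.mem_univ _) h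
  have h3 : (G.sg s s' e * G.sg s s σ * G.sg s' s e.symm) (fun _ => a) (fun _ => a) =
      G.sg s s' e (fun _ => a) (fun _ => a) * G.sg s s σ (fun _ => a) (fun _ => a) *
        G.sg s' s e.symm (fun _ => a) (fun _ => a) := by
    rw [Matrix.mul_apply]
    rw [Finset.sum_eq_single (fun _ => a)]
    · rw [SPar_mul_left]
    · intro d _ hd
      rw [G.eq_zero s' s e.symm d (fun _ => a) (fun h => hd ?_), mul_zero]
      funext x
      have h4 := congrFun h (e x)
      simp only [Function.comp_apply, Equiv.symm_apply_apply] at h4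
      exact h4
    · intro h
      exact absurd (Finset.mem_univ _) h
  rw [← G.sg_conj s s' e σ, h3, mul_right_comm, ← h2, h1, one_mul]

private theorem SPar_w (a : α) :
    G.sg (Shp.o.p Shp.o) (Shp.o.p Shp.o) (Equiv.sumComm Unit Unit) (fun _ => a) (fun _ => a) =
      (-1 : K) ^ (G.par a) := by
  have h1 := SPar_chi_mul G (Shp.o.p Shp.o) (Equiv.sumComm Unit Unit) (Equiv.sumComm Unit Unit) a
  have h2 : ((Equiv.sumComm Unit Unit : Equiv.Perm (Unit ⊕ Unit)) *
      (Equiv.sumComm Unit Unit : Equiv.Perm (Unit ⊕ Unit))) = 1 := by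
    ext x
    rcases x with x | x <;> rfl
  rw [h2, SPar_chi_one] at h1
  unfold par
  split_ifs with h3
  · rw [h3, pow_zero]
  · rcases mul_self_eq_one_iff.1 h1.symm with h4 | h4
    · exact absurd h4 h3
    · rw [h4, pow_one]

private theorem SPar_swap (s : Shp S) (x y : S) (hxy : x ≠ y) (a : α) :
    G.sg s s (Equiv.swap x y) (fun _ => a) (fun _ => a) = (-1 : K) ^ (G.par a) := by
  have hc : 2 ≤ Fintype.card S := by
    have : 1 < Fintype.card S := Fintype.one_lt_card_iff.2 ⟨x, y, hxy⟩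
    omega
  have hc2 : Fintype.card S = Fintype.card ((Unit ⊕ Unit) ⊕ L (Fintype.card S - 2)) := by
    rw [Fintype.card_sum, Fintype.card_sum, card_L, Fintype.card_unit]
    omega
  let e : S ≃ (Unit ⊕ Unit) ⊕ L (Fintype.card S - 2) := Fintype.equivOfCardEq hc2
  have hne : e.symm (Sum.inl (Sum.inl ())) ≠ e.symm (Sum.inl (Sum.inr ())) := by
    intro h
    have h1 := e.symm.injective h
    cases h1
  have h1 : IsConj (Equiv.swap x y)
      (Equiv.swap (e.symm (Sum.inl (Sum.inl ()))) (e.symm (Sum.inl (Sum.inr ())))) :=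
    Equiv.Perm.isConj_swap hxy hne
  obtain ⟨c, hcc⟩ := isConj_iff.1 h1
  have h2 : G.sg s s (Equiv.swap x y) (fun _ => a) (fun _ => a) =
      G.sg s s (Equiv.swap (e.symm (Sum.inl (Sum.inl ()))) (e.symm (Sum.inl (Sum.inr ()))))
        (fun _ => a) (fun _ => a) := by
    rw [← hcc, SPar_chi_mul, SPar_chi_mul, mul_right_comm, ← SPar_chi_mul, mul_inv_cancel,
      SPar_chi_one, one_mul]
  have h3 := SPar_chi_conj G s ((Shp.o.p Shp.o).p (lin (Fintype.card S - 2))) e
    (Equiv.swap (e.symm (Sum.inl (Sum.inl ()))) (e.symm (Sum.inl (Sum.inr ())))) a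
  have h4 : e.symm.trans ((Equiv.swap (e.symm (Sum.inl (Sum.inl ())))
      (e.symm (Sum.inl (Sum.inr ())))).trans e) =
      Equiv.sumCongr (Equiv.sumComm Unit Unit) (Equiv.refl (L (Fintype.card S - 2))) := by
    have h5 : e.symm.trans ((Equiv.swap (e.symm (Sum.inl (Sum.inl ())))
      (e.symm (Sum.inl (Sum.inr ())))).trans e) =
      Equiv.swap (Sum.inl (Sum.inl ())) (Sum.inl (Sum.inr ())) := by
      rw [← Equiv.trans_assoc, Equiv.symm_trans_swap_trans, Equiv.apply_symm_apply,
        Equiv.apply_symm_apply]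
    rw [h5]
    apply Equiv.ext
    rintro ((⟨⟩ | ⟨⟩) | z)
    · rw [Equiv.swap_apply_left]
      rfl
    · rw [Equiv.swap_apply_right]
      rfl
    · rw [Equiv.swap_apply_of_ne_of_ne (fun h => by cases h) (fun h => by cases h)]
      rfl
  rw [h2, ← h3, h4, G.congr, G.refl]
  have h6 : (fun _ : (Unit ⊕ Unit) ⊕ L (Fintype.card S - 2) => a) ∘ Sum.inl = fun _ => a := rfl
  have h7 : (fun _ : (Unit ⊕ Unit) ⊕ L (Fintype.card S - 2) => a) ∘ Sum.inr = fun _ => a := rfl
  unfold kr
  rw [Matrix.of_apply, h6, h7, Matrix.one_apply_eq, mul_one]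
  exact SPar_w G a

theorem par_const (s : Shp S) (σ : Equiv.Perm S) (a : α) :
    G.sg s s σ (fun _ => a) (fun _ => a) = ((sgi σ : ℤ) : K) ^ (G.par a) := by
  induction σ using Equiv.Perm.swap_induction_on with
  | one =>
    rw [SPar_chi_one]
    unfold sgi
    rw [Equiv.Perm.sign_one, Units.val_one, Int.cast_one, one_pow]
  | swap_mul f x y hxy ih =>
    rw [SPar_chi_mul, ih, SPar_swap G s x y hxy a]
    unfold sgi
    rw [Equiv.Perm.sign_mul, Equiv.Perm.sign_swap hxy, Units.val_mul, Int.cast_mul, mul_pow,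
      Units.val_neg, Units.val_one, Int.cast_neg, Int.cast_one]

private theorem SPar_sgi_even (σ : Equiv.Perm S) {n : ℕ} (h : n % 2 = 0) :
    ((sgi σ : ℤ) : K) ^ n = 1 := by
  have h1 : ((sgi σ : ℤ) : K) ^ 2 = 1 := by
    unfold sgi
    rw [← Int.cast_pow, ← Units.val_pow_eq_pow_val, Int.units_sq, Units.val_one, Int.cast_one]
  obtain ⟨k, hk⟩ : ∃ k, n = 2 * k := ⟨n / 2, by omega⟩
  rw [hk, pow_mul, h1, one_pow]

private theorem SPar_esg_apply (κ : ℕ) (s : Shp S) (c d : S → α) :
    G.esg κ s c d = ((Finset.univ : Finset (Equiv.Perm S)).card : K)⁻¹ *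
      ∑ σ : Equiv.Perm S, ((sgi σ : ℤ) : K) ^ κ * G.sg s s σ c d := by
  unfold esg av
  rw [Matrix.smul_apply, Matrix.sum_apply, smul_eq_mul]
  rfl


theorem esg_row (κ : ℕ) (s : Shp S) (a : α) (h : (κ + G.par a) % 2 = 0) (c : S → α) :
    G.esg κ s (fun _ => a) c = if c = fun _ => a then 1 else 0 := by
  rw [SPar_esg_apply]
  by_cases hc : c = fun _ => a
  · rw [if_pos hc, hc]
    have h1 : ∀ σ : Equiv.Perm S, ((sgi σ : ℤ) : K) ^ κ *
        G.sg s s σ (fun _ => a) (fun _ => a) = 1 := by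
      intro σ
      rw [G.par_const, ← pow_add, SPar_sgi_even σ h]
    rw [Finset.sum_congr rfl (fun σ _ => h1 σ), Finset.sum_const, nsmul_eq_mul, mul_one]
    refine inv_mul_cancel₀ (Nat.cast_ne_zero.2 ?_)
    exact Finset.card_ne_zero_of_mem (Finset.mem_univ (1 : Equiv.Perm S))
  · rw [if_neg hc]
    have h1 : ∀ σ : Equiv.Perm S, ((sgi σ : ℤ) : K) ^ κ * G.sg s s σ (fun _ => a) c = 0 := by
      intro σ
      rw [G.eq_zero s s σ (fun _ => a) c (fun h => hc h.symm), mul_zero]
    rw [Finset.sum_congr rfl (fun σ _ => h1 σ), Finset.sum_const_zero, mul_zero]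


theorem esg_const (κ : ℕ) (s : Shp S) (a : α) :
    G.esg κ s (fun _ => a) (fun _ => a) =
      if (κ + G.par a) % 2 = 0 ∨ Fintype.card S ≤ 1 then 1 else 0 := by
  by_cases h : (κ + G.par a) % 2 = 0
  · rw [if_pos (Or.inl h), G.esg_row κ s a h, if_pos rfl]
  · rw [SPar_esg_apply]
    have h0 : ∀ σ : Equiv.Perm S, ((sgi σ : ℤ) : K) ^ κ *
        G.sg s s σ (fun _ => a) (fun _ => a) = ((sgi σ : ℤ) : K) := by
      intro σ
      rw [G.par_const, ← pow_add]
      obtain ⟨k, hk⟩ : ∃ k, κ + G.par a = k + 1 := ⟨κ + G.par a - 1, by omega⟩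
      rw [hk, pow_succ, SPar_sgi_even σ (by omega), one_mul]
    rw [Finset.sum_congr rfl (fun σ _ => h0 σ)]
    by_cases hc : Fintype.card S ≤ 1
    · rw [if_pos (Or.inr hc)]
      haveI : Subsingleton S := Fintype.card_le_one_iff_subsingleton.1 hc
      have h1 : ∀ σ : Equiv.Perm S, ((sgi σ : ℤ) : K) = 1 := by
        intro σ
        have h2 : σ = 1 := by
          ext x
          exact Subsingleton.elim _ _
        rw [h2]
        unfold sgi
        rw [Equiv.Perm.sign_one, Units.val_one, Int.cast_one]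
      rw [Finset.sum_congr rfl (fun σ _ => h1 σ), Finset.sum_const, nsmul_eq_mul, mul_one]
      refine inv_mul_cancel₀ (Nat.cast_ne_zero.2 ?_)
      exact Finset.card_ne_zero_of_mem (Finset.mem_univ (1 : Equiv.Perm S))
    · rw [if_neg (fun h1 => h1.elim h hc)]
      obtain ⟨x, y, hxy⟩ := Fintype.one_lt_card_iff.1 (not_le.1 hc)
      have h1 : ∑ σ : Equiv.Perm S, ((sgi σ : ℤ) : K) =
          ∑ σ : Equiv.Perm S, -((sgi σ : ℤ) : K) := by
        refine Fintype.sum_equiv (Equiv.mulLeft (Equiv.swap x y)) _ _ (fun σ => ?_)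
        rw [Equiv.coe_mulLeft]
        unfold sgi
        rw [Equiv.Perm.sign_mul, Equiv.Perm.sign_swap hxy, Units.val_mul, Units.val_neg,
          Units.val_one, neg_one_mul, Int.cast_neg, neg_neg]
      rw [Finset.sum_neg_distrib] at h1
      have h2 : ∑ σ : Equiv.Perm S, ((sgi σ : ℤ) : K) = 0 := self_eq_neg.1 h1
      rw [h2, mul_zero]


end Sgn

end ZS
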