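import Pool.Agent.W_f569db_sp.SWord
import Pool.Agent.W_f569db_sp.SLY
import Pool.Agent.W_f569db_sp.SLayer

set_option autoImplicit false

/-!
# The chain of layers with word idempotents: the power law

* `layerW`: `exists_word` gives `f₀`, `w`; the hypothesis gives `E`; `layerG` and
  `pT E - (rank E - 1) a = a - df E * a ≥ a / 2`.
* `chainW`: as `SSys.chain` (`W_f569db_zs/Chain`: `Chain_le`, `Sys.Chain_ne`), with `layerW` in place of `layer`.
* `chainW_h`: as `SSys.chain_h`: `s = e`, `y = 1`.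
* `power`: `J = 0` is clear (`0 ≤ h`).  Let `J ≥ 1`, `N = (J - 1) * #D`, so `N + 1 ≤ J #D ≤ M₀` and `1 ≤ M₀`.  `θ = 1 / √M₀`; the
  hypothesis of `df_esg` is `df_one`.  So `df (esg κ s) ≤ d₁ = C1 b * (N + 1)^(2 b) * √θ` for all shapes with at most `N` letters,
  and by `exists_E` the hypothesis of `chainW_h` holds if `b (N + 1)^(b^2) √(2 (N + 1)^b d₁) ≤ 1/2`.  This is
  `(2 b)^8 (N + 1)^(8 b^2) (2 C1 b)^4 (N + 1)^(12 b) ≤ M₀`: eighth power of both sides, `θ^2 = 1 / M₀`, and it follows from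
  `C2 b * (J #D)^(8 b (b + 2)) ≤ M₀`, as `N + 1 ≤ J #D` and `8 b^2 + 12 b ≤ 8 b (b + 2)`.
-/

noncomputable section

namespace ZS

open Matrix Module ZO ZSp

variable {α : Type} [Fintype α] [DecidableEq α] {K : Type*} [Field K] [CharZero K] {Q : SSys α K}

theorem SPow_C1_pos {b : ℕ} (hb : 1 ≤ b) : 1 ≤ C1 b := by
  unfold C1
  refine Nat.one_le_iff_ne_zero.2 ?_
  positivity

theorem SPow_ineq {b N M₀ : ℕ} {q : ℝ}
    (hkey : (2 * b) ^ 8 * (2 * C1 b) ^ 4 * (N + 1) ^ (8 * b ^ 2 + 12 * b) ≤ M₀)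
    (hq4 : q ^ 4 * M₀ = 1) (hq : 0 ≤ q) :
    (b : ℝ) * ((N : ℝ) + 1) ^ (b ^ 2) *
        √(2 * ((N : ℝ) + 1) ^ b * (C1 b * ((N : ℝ) + 1) ^ (2 * b) * q)) ≤ 1 / 2 := by
  obtain ⟨x, hx⟩ : ∃ x : ℝ, x = (N : ℝ) + 1 := ⟨_, rfl⟩
  have hx0 : 0 ≤ x := by
    rw [hx]
    positivity
  obtain ⟨c, hc⟩ : ∃ c : ℝ, c = (C1 b : ℝ) := ⟨_, rfl⟩
  have hc0 : 0 ≤ c := by
    rw [hc]
    positivity
  have hkey' : (2 * (b : ℝ)) ^ 8 * (2 * c) ^ 4 * x ^ (8 * b ^ 2 + 12 * b) ≤ M₀ := by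
    rw [hx, hc]
    exact_mod_cast hkey
  rw [← hx, ← hc]
  obtain ⟨Y, hY⟩ : ∃ Y : ℝ, Y = (2 * (b : ℝ)) ^ 2 * (2 * c) * x ^ (2 * b ^ 2 + 3 * b) := ⟨_, rfl⟩
  have hY0 : 0 ≤ Y := by
    rw [hY]
    positivity
  have hY4 : Y ^ 4 = (2 * (b : ℝ)) ^ 8 * (2 * c) ^ 4 * x ^ (8 * b ^ 2 + 12 * b) := by
    rw [hY]
    ring
  have hYq : Y * q ≤ 1 := by
    have h1 : (Y * q) ^ 4 ≤ 1 := by
      rw [mul_pow, hY4, ← hq4, mul_comm (q ^ 4)]
      exact mul_le_mul_of_nonneg_right hkey' (by positivity)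
    exact (pow_le_one_iff_of_nonneg (by positivity) (by norm_num)).1 h1
  have h2 : ((b : ℝ) * x ^ (b ^ 2)) ^ 2 * (2 * x ^ b * (c * x ^ (2 * b) * q)) ≤ (1 / 2) ^ 2 := by
    have h3 : ((b : ℝ) * x ^ (b ^ 2)) ^ 2 * (2 * x ^ b * (c * x ^ (2 * b) * q)) =
        Y * q / 4 := by
      rw [hY]
      ring
    rw [h3]
    linarith
  have h4 : (b : ℝ) * x ^ (b ^ 2) * √(2 * x ^ b * (c * x ^ (2 * b) * q)) =
      √(((b : ℝ) * x ^ (b ^ 2)) ^ 2 * (2 * x ^ b * (c * x ^ (2 * b) * q))) := by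
    rw [Real.sqrt_mul (sq_nonneg _), Real.sqrt_sq (by positivity)]
  rw [h4]
  exact (Real.sqrt_le_sqrt h2).trans_eq (Real.sqrt_sq (by norm_num))

namespace Sgn

variable (G : Sgn Q)

theorem layerW {T : Type} [Fintype T] [DecidableEq T] (t : Shp T) (hpos : 0 < Q.a t t)
    {S : Type} [Fintype S] [DecidableEq S] {s : Shp S} (hnil : ∀ x ∈ Q.N s s, IsNilpotent x)
    (hE : ∀ w : S → α, ∃ E ∈ G.pspan s, E * E = E ∧ (∀ c, E w c = if c = w then 1 else 0) ∧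
      Q.df t s E ≤ 1 / 2)
    {y : Matrix (S → α) (Empty → α) K} (hy : y ≠ 0) :
    Q.a t t / 2 ≤
      cod (sand (1 : Matrix (T ⊕ T → α) (T ⊕ T → α) K) y) (Q.P s (t.p t)) (Q.N s (t.p t)) := by
  obtain ⟨f₀, hf₀, w, hw⟩ := G.exists_word hnil hy
  obtain ⟨E, hE, hE2, hEw, hdf⟩ := hE w
  have h1 := Q.layerG hnil t hpos (G.pspan_le s hE) hE2 hf₀ (fun g hg => hw E hE hEw g hg)
  have h2 : Q.pT t s E = ((E.rank : ℝ) - Q.df t s E) * Q.a t t := by
    unfold SSys.df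
    rw [sub_sub_cancel, div_mul_cancel₀ _ hpos.ne']
  have h3 : Q.df t s E * Q.a t t ≤ 1 / 2 * Q.a t t := mul_le_mul_of_nonneg_right hdf hpos.le
  rw [h2] at h1
  linarith

theorem chainW {D : Type} [Fintype D] [DecidableEq D] {d : Shp D}
    {z : Matrix (D → α) (Empty → α) K} (hz : z ∈ Q.N Shp.e d) (hz0 : z ≠ 0) {N : ℕ}
    (hnil : Q.NilBelow (N + 1)) {T : Type} [Fintype T] [DecidableEq T] (t : Shp T)
    (hpos : 0 < Q.a t t)
    (hE : ∀ (S : Type) [Fintype S] [DecidableEq S] (s : Shp S), Fintype.card S ≤ N →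
      ∀ w : S → α, ∃ E ∈ G.pspan s, E * E = E ∧ (∀ c, E w c = if c = w then 1 else 0) ∧
        Q.df t s E ≤ 1 / 2) (J : ℕ) :
    ∀ (S : Type) [Fintype S] [DecidableEq S] (s : Shp S) (y : Matrix (S → α) (Empty → α) K),
      y ≠ 0 → (∀ j < J, Fintype.card S + j * Fintype.card D ≤ N) →
      J * (Q.a t t / 2) ≤
        finrank K ((Q.P s (t.p t)).map (sand (1 : Matrix (T ⊕ T → α) (T ⊕ T → α) K) y)) := by
  induction J with
  | zero =>
    intro S _ _ s y _ _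
    rw [Nat.cast_zero, zero_mul]
    positivity
  | succ J ih =>
    intro S _ _ s y hy0 hM
    have hS : Fintype.card S ≤ N := by simpa using hM 0 (Nat.succ_pos J)
    have hlayer := G.layerW t hpos (s := s) (hnil S s (Nat.lt_succ_of_le hS)) (hE S s hS) hy0
    have hih := ih (S ⊕ D) (s.p d) _ (Sys.Chain_ne hz0 hy0) (by
      intro j hj
      have := hM (j + 1) (Nat.succ_lt_succ hj)
      rw [Fintype.card_sum]
      have e : Fintype.card S + (j + 1) * Fintype.card D =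
        Fintype.card S + Fintype.card D + j * Fintype.card D := by ring
      rwa [e] at this)
    have hle : finrank K ((Q.P (s.p d) (t.p t)).map
        (sand (1 : Matrix (T ⊕ T → α) (T ⊕ T → α) K)
          (kr y z * pm α K (Equiv.emptySum Empty Empty).symm))) ≤
        finrank K ((Q.N s (t.p t)).map (sand (1 : Matrix (T ⊕ T → α) (T ⊕ T → α) K) y)) :=
      Submodule.finrank_mono (Q.Chain_le hz (t.p t) y)
    have hle' : (finrank K ((Q.P (s.p d) (t.p t)).map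
        (sand (1 : Matrix (T ⊕ T → α) (T ⊕ T → α) K)
          (kr y z * pm α K (Equiv.emptySum Empty Empty).symm))) : ℝ) ≤
        finrank K ((Q.N s (t.p t)).map (sand (1 : Matrix (T ⊕ T → α) (T ⊕ T → α) K) y)) := by
      exact_mod_cast hle
    unfold cod at hlayer
    push_cast
    linarith

theorem chainW_h {D : Type} [Fintype D] [DecidableEq D] {d : Shp D}
    {z : Matrix (D → α) (Empty → α) K} (hz : z ∈ Q.N Shp.e d) (hz0 : z ≠ 0) {N : ℕ}
    (hnil : Q.NilBelow (N + 1)) (m J : ℕ) (hpos : 0 < Q.A (2 * m))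
    (hE : ∀ (S : Type) [Fintype S] [DecidableEq S] (s : Shp S), Fintype.card S ≤ N →
      ∀ w : S → α, ∃ E ∈ G.pspan s, E * E = E ∧ (∀ c, E w c = if c = w then 1 else 0) ∧
        Q.df (lin m) s E ≤ 1 / 2) (hJ : ∀ j < J, j * Fintype.card D ≤ N) :
    J * Q.A (2 * m) ≤ 2 * Q.h (2 * m) := by
  have h1 : (1 : Matrix (Empty → α) (Empty → α) K) ≠ 0 := by
    intro h
    have h2 := congrFun (congrFun h Empty.elim) Empty.elim
    rw [Matrix.one_apply_eq] at h2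
    exact one_ne_zero h2
  have h0' : Q.a (lin m) (lin m) = Q.A (2 * m) := by
    rw [Q.a_eq_A, card_L, ← two_mul]
  have h0 : 0 < Q.a (lin m) (lin m) := by
    rw [h0']
    exact hpos
  have h2 := G.chainW hz hz0 hnil (lin m) h0 hE J Empty Shp.e 1 h1 (by
    intro j hj
    rw [Fintype.card_empty, zero_add]
    exact hJ j hj)
  have h3 := Q.finrank_P_e ((lin m).p (lin m))
  rw [Fintype.card_sum, card_L, ← two_mul] at h3
  have h4 : (finrank K ((Q.P Shp.e ((lin m).p (lin m))).map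
      (sand (1 : Matrix (L m ⊕ L m → α) (L m ⊕ L m → α) K)
        (1 : Matrix (Empty → α) (Empty → α) K))) : ℝ) ≤ Q.h (2 * m) := by
    rw [← h3]
    exact_mod_cast Submodule.finrank_map_le _ _
  rw [h0'] at h2
  have h5 := h2.trans h4
  linarith

include G in
theorem power [Nonempty α] (hQ : Q.HasPerm) {u : Matrix (Unit → α) (Empty → α) K}
    {v : Matrix (Empty → α) (Unit → α) K} (hu : u ∈ Q.P Shp.e Shp.o) (hv : v ∈ Q.P Shp.o Shp.e)
    (hvu : v * u = 1) {D : Type} [Fintype D] [DecidableEq D] {d : Shp D} (hD : 1 ≤ Fintype.card D)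
    {z : Matrix (D → α) (Empty → α) K} (hz : z ∈ Q.N Shp.e d) (hz0 : z ≠ 0) {M₀ : ℕ}
    (hnil : Q.NilBelow (M₀ + 1)) (m J : ℕ) (hm : M₀ ≤ m)
    (hJ : C2 (Fintype.card α) *
      (J * Fintype.card D) ^ (8 * Fintype.card α * (Fintype.card α + 2)) ≤ M₀) :
    J * Q.A (2 * m) ≤ 2 * Q.h (2 * m) := by
  have hpos : 0 < Q.A (2 * m) := lt_of_lt_of_le one_pos (Q.one_le_A hu hv hvu (2 * m))
  rcases Nat.eq_zero_or_pos J with hJ0 | hJ0
  · subst hJ0
    have h0 : 0 ≤ Q.h (2 * m) := by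
      unfold SSys.h
      positivity
    rw [Nat.cast_zero, zero_mul]
    linarith
  have hb : 1 ≤ Fintype.card α := Fintype.card_pos
  obtain ⟨b, hbd⟩ : ∃ b, b = Fintype.card α := ⟨_, rfl⟩
  rw [← hbd] at hb hJ
  obtain ⟨N, hN⟩ : ∃ N, N = (J - 1) * Fintype.card D := ⟨_, rfl⟩
  have hJD : N + 1 ≤ J * Fintype.card D := by
    obtain ⟨J', rfl⟩ : ∃ J', J = J' + 1 := ⟨J - 1, by omega⟩
    rw [hN, Nat.add_sub_cancel, Nat.add_mul, one_mul]
    omega
  have hN1 : (N + 1) ^ (8 * b ^ 2 + 12 * b) ≤ (J * Fintype.card D) ^ (8 * b * (b + 2)) := by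
    refine (Nat.pow_le_pow_left hJD _).trans (Nat.pow_le_pow_right (by omega) ?_)
    nlinarith
  have hC1 : 1 ≤ C1 b := SPow_C1_pos hb
  have hkey : (2 * b) ^ 8 * (2 * C1 b) ^ 4 * (N + 1) ^ (8 * b ^ 2 + 12 * b) ≤ M₀ := by
    refine le_trans ?_ hJ
    unfold C2
    exact Nat.mul_le_mul_left _ hN1
  have hNM : N + 1 ≤ M₀ := by
    refine le_trans ?_ hkey
    have h1 : 1 ≤ (2 * b) ^ 8 * (2 * C1 b) ^ 4 := Nat.one_le_iff_ne_zero.2 (by positivity)
    have h2 : N + 1 ≤ (N + 1) ^ (8 * b ^ 2 + 12 * b) := Nat.le_self_pow (by positivity) _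
    calc N + 1 = 1 * (N + 1) := (one_mul _).symm
      _ ≤ _ := Nat.mul_le_mul h1 h2
  have hM1 : 1 ≤ M₀ := by omega
  have hM1' : (1 : ℝ) ≤ M₀ := by exact_mod_cast hM1
  have hsM : 1 ≤ √(M₀ : ℝ) := by
    rw [Real.one_le_sqrt]
    exact hM1'
  obtain ⟨θ, hθ⟩ : ∃ θ : ℝ, θ = 1 / √(M₀ : ℝ) := ⟨_, rfl⟩
  have hθ0 : 0 ≤ θ := by
    rw [hθ]
    positivity
  have hθ1 : θ ≤ 1 := by
    rw [hθ, div_le_one (by linarith)]
    exact hsM
  have hθ2 : θ ^ 2 * M₀ = 1 := by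
    rw [hθ, div_pow, one_pow, Real.sq_sqrt (by linarith), one_div, inv_mul_cancel₀ (by linarith)]
  have hq4 : √θ ^ 4 * M₀ = 1 := by
    have h1 : √θ ^ 4 = (√θ ^ 2) ^ 2 := by ring
    rw [h1, Real.sq_sqrt hθ0, hθ2]
  have hposa : 0 < Q.a (lin m) (lin m) := by
    rw [Q.a_eq_A, card_L, ← two_mul]
    exact hpos
  have hdef : ∀ (S : Type) [Fintype S] [DecidableEq S] (s : Shp S),
      Q.df (lin m) s 1 ≤ (Fintype.card α : ℝ) ^ (Fintype.card S + 3) * Fintype.card S * θ := by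
    intro S _ _ s
    have h1 := Q.df_one hQ hu hv hvu M₀ m hM1 hm
      (hnil (L M₀) (lin M₀) (by rw [card_L]; omega)) s
    rw [hθ, mul_one_div]
    exact h1
  have hnil' : Q.NilBelow (N + 1) := fun S _ _ s hS => hnil S s (by omega)
  refine G.chainW_h hz hz0 hnil' m J hpos ?_ ?_
  · intro S _ _ s hS w
    obtain ⟨E, h1, h2, h3, h4⟩ := G.exists_E (lin m) hposa N
      (d₁ := C1 (Fintype.card α) * ((N : ℝ) + 1) ^ (2 * Fintype.card α) * √θ)
      (fun κ S _ _ s hS => G.df_esg (lin m) hposa hθ0 hθ1 hdef κ N s hS) s hS w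
    refine ⟨E, h1, h2, h3, h4.trans ?_⟩
    rw [← hbd]
    exact SPow_ineq hkey hq4 (Real.sqrt_nonneg θ)
  · intro j hj
    rw [hN]
    exact Nat.mul_le_mul_right _ (by omega)

end Sgn

end ZS
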