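import Pool.Agent.W_f569db_sp.SBlk
import Pool.Agent.W_f569db_sp.RNum
import Pool.Agent.W_f569db_zo.TwoA

set_option autoImplicit false

/-!
# The rank of the symmetrizers

`rank (esg κ (lin n)) = R_n (p, q) = [t^n] (1 + t)^q / (1 - t)^p`, `p = pk κ`, `q = qk κ`.

Proof.  For a set of letters `A` let `trA κ A n = ∑_{c : L n → α, c x ∈ A} esg κ (lin n) c c`.
(1) `trA_insert`: for `a ∉ A`: `trA κ (insert a A) n = ∑_{(i, l), i + l = n} esg κ (lin i) (a^i) (a^i) * trA κ A l`.
Sort the words `c : L n → insert a A` by `I = {x | c x = a}`, `i = #I`.  For fixed `I` choose a bijection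
`e : L i ⊕ L l ≃ L n` with `e (inl _) ∈ I`, `e (inr _) ∉ I`.  The words with `{c = a} = I` are `c ∘ e = Sum.elim a^i c'`,
`c' : L l → A`.  By `esg_diag` and `esg_block` the term is
`esg κ (lin n) c c = (i! l! / n!) * esg κ (lin i) (a^i) (a^i) * esg κ (lin l) c' c'`, and there are `n! / (i! l!)` sets `I` with `i`
elements (`Finset.card_powersetCard`, `Nat.choose_mul_factorial_mul_factorial`).
(2) `esg_const`: `esg κ (lin i) (a^i) (a^i)` is the coefficient of `t^i` in `f_a = 1 / (1 - t) = mk (fun _ => 1)` if `κ + par a` is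
even and in `f_a = 1 + t` if it is odd.
(3) Induction on `A` (`Finset.induction_on`; `A = ∅`: `n = 0` gives `esg κ (lin 0) = 1`, `esg_const` does not apply; the entry is
`1` because `L 0 = Empty`, `rk` of the only permutation is `1`): `trA κ A n` is the coefficient of `t^n` in `∏_{a ∈ A} f_a`
(`PowerSeries.coeff_mul`).  For `A = univ` the product is `Hs p q` (mapped to `K`).
(4) `rank = trace` for the idempotent `esg κ (lin n)` (`ZO.trace_idem`), and `K` has characteristic zero.

`pk_add_qk`: the two sets are complementary.  `rank_esg_le`: `Rn_le` and `pk_add_qk`.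
-/

noncomputable section

namespace ZS

open Matrix Module ZO ZSp

variable {α : Type} [Fintype α] [DecidableEq α] {K : Type*} [Field K] [CharZero K] {Q : SSys α K}

namespace Sgn

variable (G : Sgn Q)

omit [CharZero K] in
theorem pk_add_qk (κ : ℕ) : G.pk κ + G.qk κ = Fintype.card α := by
  unfold pk qk
  have h : (Finset.univ.filter fun a : α => (κ + G.par a) % 2 = 1) =
      Finset.univ.filter fun a : α => ¬ (κ + G.par a) % 2 = 0 := by
    refine Finset.filter_congr fun a _ => ?_
    omega
  rw [h, Finset.card_filter_add_card_filter_not, Finset.card_univ]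

/-- the partial trace -/
def trA (κ : ℕ) (A : Finset α) (n : ℕ) : K :=
  ∑ c ∈ Finset.univ.filter (fun c : L n → α => ∀ x, c x ∈ A), G.esg κ (lin n) c c

/-- a bijection which sorts the letters -/
theorem SRank_exists_e {S : Type} [Fintype S] [DecidableEq S] (I : Finset S) (i l : ℕ)
    (hi : I.card = i) (hl : Fintype.card S = i + l) :
    ∃ e : L i ⊕ L l ≃ S, (∀ x, e (Sum.inl x) ∈ I) ∧ ∀ y, e (Sum.inr y) ∉ I := by
  have h1 : Fintype.card (L i) = Fintype.card {x // x ∈ I} := by
    rw [card_L, Fintype.card_coe, hi]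
  have h2 : Fintype.card (L l) = Fintype.card {x // ¬ x ∈ I} := by
    rw [card_L, Fintype.card_subtype_compl, Fintype.card_coe, hi, hl]
    omega
  let e1 : L i ≃ {x // x ∈ I} := Fintype.equivOfCardEq h1
  let e2 : L l ≃ {x // ¬ x ∈ I} := Fintype.equivOfCardEq h2
  refine ⟨(Equiv.sumCongr e1 e2).trans (Equiv.sumCompl fun x => x ∈ I), fun x => ?_, fun y => ?_⟩
  · exact (e1 x).2
  · exact (e2 y).2

/-- the words with prescribed set of letters `a` -/
theorem SRank_inner (κ : ℕ) (A : Finset α) (a : α) (ha : a ∉ A) (n : ℕ) (I : Finset (L n)) (i : ℕ)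
    (hi : I.card = i) :
    ∑ c ∈ (Finset.univ.filter (fun c : L n → α => ∀ x, c x ∈ insert a A)).filter
        (fun c => (Finset.univ.filter fun x => c x = a) = I), G.esg κ (lin n) c c =
      ((i.factorial : K) * ((n - i).factorial : K) / (n.factorial : K)) *
        (G.esg κ (lin i) (fun _ => a) (fun _ => a) * G.trA κ A (n - i)) := by
  have hle : i ≤ n := by
    have := Finset.card_le_univ I
    rwa [card_L, hi] at this
  obtain ⟨e, he1, he2⟩ := SRank_exists_e I i (n - i) hi (by rw [card_L]; omega)
  unfold trA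
  rw [Finset.mul_sum, Finset.mul_sum]
  refine Finset.sum_bij' (fun c _ => fun y => c (e (Sum.inr y)))
    (fun c' _ => (Sum.elim (fun _ => a) c') ∘ e.symm) ?_ ?_ ?_ ?_ ?_
  · intro c hc
    rw [Finset.mem_filter, Finset.mem_filter] at hc
    rw [Finset.mem_filter]
    refine ⟨Finset.mem_univ _, fun y => ?_⟩
    have h1 := hc.1.2 (e (Sum.inr y))
    rw [Finset.mem_insert] at h1
    rcases h1 with h1 | h1
    · exfalso
      apply he2 y
      rw [← hc.2, Finset.mem_filter]
      exact ⟨Finset.mem_univ _, h1⟩
    · exact h1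
  · intro c' hc'
    rw [Finset.mem_filter] at hc'
    rw [Finset.mem_filter, Finset.mem_filter]
    have hA : ∀ z : L i ⊕ L (n - i), (Sum.elim (fun _ => a) c' : _ → α) z ∈ insert a A := by
      rintro (x | y)
      · exact Finset.mem_insert_self _ _
      · exact Finset.mem_insert_of_mem (hc'.2 y)
    refine ⟨⟨Finset.mem_univ _, fun x => hA _⟩, ?_⟩
    ext x
    rw [Finset.mem_filter]
    obtain ⟨z, rfl⟩ := e.surjective x
    simp only [Finset.mem_univ, true_and, Function.comp_apply, Equiv.symm_apply_apply]
    rcases z with z | z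
    · exact ⟨fun _ => he1 z, fun _ => rfl⟩
    · refine ⟨fun h => ?_, fun h => absurd h (he2 z)⟩
      exfalso
      have h1 : c' z = a := h
      have h2 := hc'.2 z
      rw [h1] at h2
      exact ha h2
  · intro c hc
    rw [Finset.mem_filter, Finset.mem_filter] at hc
    funext x
    obtain ⟨z, rfl⟩ := e.surjective x
    simp only [Function.comp_apply, Equiv.symm_apply_apply]
    rcases z with z | z
    · have h1 := he1 z
      rw [← hc.2, Finset.mem_filter] at h1
      exact h1.2.symm
    · rfl
  · intro c' hc'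
    funext y
    simp only [Function.comp_apply, Equiv.symm_apply_apply]
    rfl
  · intro c hc
    rw [Finset.mem_filter, Finset.mem_filter] at hc
    have hce : c ∘ e = Sum.elim (fun _ => a) (fun y => c (e (Sum.inr y))) := by
      funext z
      rcases z with z | z
      · have h1 := he1 z
        rw [← hc.2, Finset.mem_filter] at h1
        exact h1.2
      · rfl
    have hdiag := G.esg_diag κ ((lin i).p (lin (n - i))) (lin n) e c
    rw [hce] at hdiag
    rw [hdiag]
    have hblk := G.esg_block κ (lin i) (lin (n - i)) (fun _ => a)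
      (fun y => c (e (Sum.inr y))) (by
        intro x y h
        apply he2 y
        rw [← hc.2, Finset.mem_filter]
        exact ⟨Finset.mem_univ _, h.symm⟩)
    rw [card_L, card_L, show i + (n - i) = n by omega] at hblk
    have hn : (n.factorial : K) ≠ 0 := Nat.cast_ne_zero.2 (Nat.factorial_ne_zero n)
    rw [div_mul_eq_mul_div, eq_div_iff hn, mul_comm, hblk]

theorem trA_insert (κ : ℕ) (A : Finset α) (a : α) (ha : a ∉ A) (n : ℕ) :
    G.trA κ (insert a A) n = ∑ x ∈ Finset.HasAntidiagonal.antidiagonal n,
      G.esg κ (lin x.1) (fun _ => a) (fun _ => a) * G.trA κ A x.2 := by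
  have h1 : G.trA κ (insert a A) n = ∑ I : Finset (L n),
      ∑ c ∈ (Finset.univ.filter (fun c : L n → α => ∀ x, c x ∈ insert a A)).filter
        (fun c => (Finset.univ.filter fun x => c x = a) = I), G.esg κ (lin n) c c := by
    unfold trA
    exact (Finset.sum_fiberwise _ (fun c : L n → α => Finset.univ.filter fun x => c x = a) _).symm
  rw [h1, Finset.sum_congr rfl fun I _ => G.SRank_inner κ A a ha n I _ rfl]
  have h2 := Finset.sum_powerset_apply_card (fun i : ℕ =>
    ((i.factorial : K) * ((n - i).factorial : K) / (n.factorial : K)) *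
        (G.esg κ (lin i) (fun _ => a) (fun _ => a) * G.trA κ A (n - i)))
    (x := (Finset.univ : Finset (L n)))
  rw [Finset.powerset_univ, Finset.card_univ, card_L] at h2
  rw [h2, Finset.Nat.sum_antidiagonal_eq_sum_range_succ_mk]
  refine Finset.sum_congr rfl fun i hi => ?_
  have hi' : i ≤ n := Nat.lt_succ_iff.1 (Finset.mem_range.1 hi)
  have hn : (n.factorial : K) ≠ 0 := Nat.cast_ne_zero.2 (Nat.factorial_ne_zero n)
  have h3 : (n.choose i : K) * ((i.factorial : K) * ((n - i).factorial : K)) = n.factorial := by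
    rw [← mul_assoc]
    exact_mod_cast Nat.choose_mul_factorial_mul_factorial hi'
  rw [nsmul_eq_mul, ← mul_assoc, mul_div_assoc', h3, div_self hn, one_mul]

/-- the generating function of one letter -/
def SRank_f (κ : ℕ) (a : α) : PowerSeries ℤ :=
  if (κ + G.par a) % 2 = 0 then PowerSeries.mk fun _ => (1 : ℤ) else 1 + PowerSeries.X

theorem SRank_coeff (κ : ℕ) (a : α) (i : ℕ) :
    G.esg κ (lin i) (fun _ => a) (fun _ => a) =
      ((PowerSeries.coeff i (G.SRank_f κ a) : ℤ) : K) := by
  rw [G.esg_const, card_L]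
  unfold SRank_f
  by_cases h : (κ + G.par a) % 2 = 0
  · rw [if_pos (Or.inl h), if_pos h, PowerSeries.coeff_mk, Int.cast_one]
  · rw [if_neg h, map_add, PowerSeries.coeff_one, PowerSeries.coeff_X]
    rcases i with _ | _ | i
    · rw [if_pos (Or.inr (by omega))]
      simp
    · rw [if_pos (Or.inr (by omega))]
      simp
    · rw [if_neg (fun h1 => h1.elim h (by omega))]
      simp

theorem SRank_trA (κ : ℕ) (A : Finset α) (n : ℕ) :
    G.trA κ A n = ((PowerSeries.coeff n (∏ a ∈ A, G.SRank_f κ a) : ℤ) : K) := by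
  induction A using Finset.induction_on generalizing n with
  | empty =>
    rw [Finset.prod_empty, PowerSeries.coeff_one]
    unfold trA
    rcases n with _ | n
    · have h1 : ∀ σ : Equiv.Perm (L 0), σ = 1 := by
        intro σ
        ext x
        exact Empty.elim x
      have h2 : G.esg κ (lin 0) = (1 : Matrix (L 0 → α) (L 0 → α) K) := by
        unfold esg av
        have h3 : (Finset.univ : Finset (Equiv.Perm (L 0))) = {1} := by
          ext σ
          rw [Finset.mem_singleton]
          exact ⟨fun _ => h1 σ, fun _ => Finset.mem_univ _⟩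
        rw [h3, Finset.sum_singleton, Finset.card_singleton, map_one, Nat.cast_one, inv_one,
          one_smul]
      have h4 : (Finset.univ.filter (fun c : L 0 → α => ∀ x, c x ∈ (∅ : Finset α))) =
          ({fun x : L 0 => (Empty.elim x : α)} : Finset (L 0 → α)) := by
        ext c
        rw [Finset.mem_filter, Finset.mem_singleton]
        refine ⟨fun _ => ?_, fun _ => ⟨Finset.mem_univ _, fun x => Empty.elim x⟩⟩
        funext x
        exact Empty.elim x
      rw [h4, Finset.sum_singleton, h2, Matrix.one_apply_eq, if_pos rfl, Int.cast_one]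
    · rw [if_neg (Nat.succ_ne_zero n), Int.cast_zero]
      apply Finset.sum_eq_zero
      intro c hc
      exfalso
      rw [Finset.mem_filter] at hc
      exact absurd (hc.2 (Sum.inr ())) (Finset.notMem_empty _)
  | insert a A ha ih =>
    rw [G.trA_insert κ A a ha n, Finset.prod_insert ha, PowerSeries.coeff_mul, Int.cast_sum]
    refine Finset.sum_congr rfl fun x _ => ?_
    rw [Int.cast_mul, ih, G.SRank_coeff]

omit [CharZero K] in
theorem SRank_prod (κ : ℕ) : ∏ a : α, G.SRank_f κ a = Hs (G.pk κ) (G.qk κ) := by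
  unfold SRank_f Hs pk qk
  rw [Finset.prod_ite, Finset.prod_const, Finset.prod_const, mul_comm]
  congr 2
  congr 1
  refine Finset.filter_congr fun a _ => ?_
  omega

theorem rank_esg (κ n : ℕ) : ((G.esg κ (lin n)).rank : ℤ) = Rn (G.pk κ) (G.qk κ) n := by
  have h1 := ZO.trace_idem (G.esg_idem κ (lin n))
  have h2 : Matrix.trace (G.esg κ (lin n)) = G.trA κ Finset.univ n := by
    unfold trA Matrix.trace
    have h3 : (Finset.univ.filter (fun c : L n → α => ∀ x, c x ∈ (Finset.univ : Finset α))) =
        Finset.univ := by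
      ext c
      simp
    rw [h3]
    rfl
  rw [h2, G.SRank_trA, G.SRank_prod] at h1
  have h4 : ((((G.esg κ (lin n)).rank : ℕ) : ℤ) : K) = ((Rn (G.pk κ) (G.qk κ) n : ℤ) : K) := by
    rw [Int.cast_natCast, ← h1]
    rfl
  exact Int.cast_injective h4

theorem rank_esg_le (κ n : ℕ) :
    ((G.esg κ (lin n)).rank : ℝ) ≤ ((n : ℝ) + 1) ^ (Fintype.card α) := by
  have h1 := Rn_le (G.pk κ) (G.qk κ) n
  rw [← G.rank_esg, G.pk_add_qk] at h1
  exact_mod_cast h1

end Sgn

end ZS
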