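import Pool.Agent.W_f569db_sp.SDefs
import Pool.Agent.W_f569db_zs.Two
import Pool.Agent.W_b4801b_h57.Tau

set_option autoImplicit false

/-!
# The trace on `Hom_num (X V^{⊗ s} ⊗ V^{⊗ t}, V^{⊗ t})`, super version

Port of `W_b4801b_h57/Tau` from `ZO.Sys` to `ZS.SSys` (types replaced by shapes; `kr_one_mem_N` exists already:
`W_f569db_zs/BendB`; `Tau_kr_add_left`, `Tau_kr_smul_left`, `Tau_trace` can be used from the old file; `N_mul_left`,
`N_mul_right` as before).

* `tau t s X` is the trace of `F ↦ F * (X ⊗ 1)` on `P (s t) t` minus the trace on `N (s t) t`.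
* `pT_nat`: for an idempotent `q` both `pT t s q` and `tau t s q` are the same natural number.
* `pT_add`: `pT_nat` and `tau_add` (natural numbers in characteristic zero).
* `pT_conj`, `rank_conj`: `Y * X * Z` is idempotent (`Z * Y = 1`), `tau (Y * X * Z) = tau (X * Z * Y) = tau X`
  (`tau_comm` for `X * Z ∈ P s' s` and `Y`), and the same for the trace (`ZO.trace_idem`).
* `pT_one`: `pT t s 1 = cod (sand 1 (kr 1 1)) (P (s.p t) t) (N (s.p t) t) = a (s.p t) t` (`kr 1 1 = 1`, `csp_sand_one`) and `a_eq_A`.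
* `pT_swap`: `pT_conj` with `Y = sw`, `Z = sw` (`sw_mem`, `sw_sw`), `sw * kr X Y' = kr Y' X * sw` (`sw_kr`).
* `pT_lunit`: `kr 1 X` on `e.p s` is conjugate to `X` by `pm (Equiv.emptySum Empty S)` (`lunit_mem`, `lunit_symm_mem`,
  `Pm`-lemmas for the entries: see `FinalE_kr0` in `W_b4801b_h57/FinalE`), `pT_conj`.
-/

noncomputable section

namespace ZS

open Matrix Module ZO

variable {α : Type} [Fintype α] [DecidableEq α] {K : Type*} [Field K] [CharZero K]
  {S S' T : Type} [Fintype S] [DecidableEq S] [Fintype S'] [DecidableEq S'] [Fintype T]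
  [DecidableEq T]

namespace SSys

variable (Q : SSys α K)

/-- the right multiplication by `X ⊗ 1` on `P` -/
def tauP (t : Shp T) {s : Shp S} {s' : Shp S'} {X : Matrix (S' → α) (S → α) K}
    (hX : X ∈ Q.P s s') : Q.P (s'.p t) t →ₗ[K] Q.P (s.p t) t :=
  (sand (1 : Matrix (T → α) (T → α) K) (kr X (1 : Matrix (T → α) (T → α) K))).restrict
    (fun F hF => by
      rw [sand_apply, Matrix.one_mul]
      exact Q.mul_mem hF (Q.kr_mem hX (Q.one_mem t)))

/-- the right multiplication by `X ⊗ 1` on `N` -/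
def tauN (t : Shp T) {s : Shp S} {s' : Shp S'} {X : Matrix (S' → α) (S → α) K}
    (hX : X ∈ Q.P s s') : Q.N (s'.p t) t →ₗ[K] Q.N (s.p t) t :=
  (sand (1 : Matrix (T → α) (T → α) K) (kr X (1 : Matrix (T → α) (T → α) K))).restrict
    (fun F hF => by
      rw [sand_apply, Matrix.one_mul]
      exact Q.N_mul_right hF (Q.kr_mem hX (Q.one_mem t)))

open Classical in
/-- the trace of `F ↦ F * (X ⊗ 1)` on `P (s t) t / N (s t) t` -/
def tau (t : Shp T) (s : Shp S) (X : Matrix (S → α) (S → α) K) : K :=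
  if h : X ∈ Q.P s s then
    LinearMap.trace K _ (Q.tauP t h) - LinearMap.trace K _ (Q.tauN t h) else 0

variable (t : Shp T) {s : Shp S} {s' : Shp S'}

theorem STau_eq {X : Matrix (S → α) (S → α) K} (h : X ∈ Q.P s s) :
    Q.tau t s X = LinearMap.trace K _ (Q.tauP t h) - LinearMap.trace K _ (Q.tauN t h) :=
  dif_pos h

theorem STau_P_apply {X : Matrix (S' → α) (S → α) K} (hX : X ∈ Q.P s s')
    (F : Q.P (s'.p t) t) : (Q.tauP t hX F : Matrix (T → α) (S ⊕ T → α) K) =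
      (F : Matrix (T → α) (S' ⊕ T → α) K) * kr X (1 : Matrix (T → α) (T → α) K) := by
  change (1 : Matrix (T → α) (T → α) K) * (F : Matrix (T → α) (S' ⊕ T → α) K) * kr X 1 = _
  rw [Matrix.one_mul]
  rfl

theorem STau_N_apply {X : Matrix (S' → α) (S → α) K} (hX : X ∈ Q.P s s')
    (F : Q.N (s'.p t) t) : (Q.tauN t hX F : Matrix (T → α) (S ⊕ T → α) K) =
      (F : Matrix (T → α) (S' ⊕ T → α) K) * kr X (1 : Matrix (T → α) (T → α) K) := by
  change (1 : Matrix (T → α) (T → α) K) * (F : Matrix (T → α) (S' ⊕ T → α) K) * kr X 1 = _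
  rw [Matrix.one_mul]
  rfl

theorem tau_add {X Y : Matrix (S → α) (S → α) K} (hX : X ∈ Q.P s s) (hY : Y ∈ Q.P s s) :
    Q.tau t s (X + Y) = Q.tau t s X + Q.tau t s Y := by
  have h1 : Q.tauP t (add_mem hX hY) = Q.tauP t hX + Q.tauP t hY := by
    refine LinearMap.ext fun F => Subtype.ext ?_
    rw [LinearMap.add_apply, Submodule.coe_add, STau_P_apply, STau_P_apply, STau_P_apply,
      Sys.Tau_kr_add_left, Matrix.mul_add]
  have h2 : Q.tauN t (add_mem hX hY) = Q.tauN t hX + Q.tauN t hY := by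
    refine LinearMap.ext fun F => Subtype.ext ?_
    rw [LinearMap.add_apply, Submodule.coe_add, STau_N_apply, STau_N_apply, STau_N_apply,
      Sys.Tau_kr_add_left, Matrix.mul_add]
  rw [Q.STau_eq t hX, Q.STau_eq t hY, Q.STau_eq t (add_mem hX hY), h1, h2, map_add, map_add]
  ring

theorem tau_smul (c : K) {X : Matrix (S → α) (S → α) K} (hX : X ∈ Q.P s s) :
    Q.tau t s (c • X) = c * Q.tau t s X := by
  have h0 : c • X ∈ Q.P s s := Submodule.smul_mem _ c hX
  have h1 : Q.tauP t h0 = c • Q.tauP t hX := by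
    refine LinearMap.ext fun F => Subtype.ext ?_
    rw [LinearMap.smul_apply, Submodule.coe_smul, STau_P_apply, STau_P_apply,
      Sys.Tau_kr_smul_left, Matrix.mul_smul]
  have h2 : Q.tauN t h0 = c • Q.tauN t hX := by
    refine LinearMap.ext fun F => Subtype.ext ?_
    rw [LinearMap.smul_apply, Submodule.coe_smul, STau_N_apply, STau_N_apply,
      Sys.Tau_kr_smul_left, Matrix.mul_smul]
  rw [Q.STau_eq t hX, Q.STau_eq t h0, h1, h2, map_smul, map_smul, smul_eq_mul, smul_eq_mul]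
  ring

theorem tau_sum {ι : Type*} (I : Finset ι) (X : ι → Matrix (S → α) (S → α) K)
    (hX : ∀ i ∈ I, X i ∈ Q.P s s) : Q.tau t s (∑ i ∈ I, X i) = ∑ i ∈ I, Q.tau t s (X i) := by
  classical
  induction I using Finset.induction_on with
  | empty =>
    rw [Finset.sum_empty, Finset.sum_empty]
    have h1 := Q.tau_smul t 0 (zero_mem (Q.P s s))
    rwa [zero_smul, zero_mul] at h1
  | insert a I ha ih =>
    rw [Finset.sum_insert ha, Finset.sum_insert ha,
      Q.tau_add t (hX a (Finset.mem_insert_self a I))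
        (sum_mem fun i hi => hX i (Finset.mem_insert_of_mem hi)),
      ih fun i hi => hX i (Finset.mem_insert_of_mem hi)]

theorem tau_comm {X : Matrix (S' → α) (S → α) K} {Y : Matrix (S → α) (S' → α) K}
    (hX : X ∈ Q.P s s') (hY : Y ∈ Q.P s' s) : Q.tau t s (Y * X) = Q.tau t s' (X * Y) := by
  have e1 : Q.tauP t (Q.mul_mem hY hX) = Q.tauP t hX ∘ₗ Q.tauP t hY := by
    refine LinearMap.ext fun F => Subtype.ext ?_
    rw [LinearMap.comp_apply, STau_P_apply, STau_P_apply, STau_P_apply, Matrix.mul_assoc, kr_mul,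
      Matrix.one_mul]
  have e2 : Q.tauN t (Q.mul_mem hY hX) = Q.tauN t hX ∘ₗ Q.tauN t hY := by
    refine LinearMap.ext fun F => Subtype.ext ?_
    rw [LinearMap.comp_apply, STau_N_apply, STau_N_apply, STau_N_apply, Matrix.mul_assoc, kr_mul,
      Matrix.one_mul]
  have e3 : Q.tauP t (Q.mul_mem hX hY) = Q.tauP t hY ∘ₗ Q.tauP t hX := by
    refine LinearMap.ext fun F => Subtype.ext ?_
    rw [LinearMap.comp_apply, STau_P_apply, STau_P_apply, STau_P_apply, Matrix.mul_assoc, kr_mul,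
      Matrix.one_mul]
  have e4 : Q.tauN t (Q.mul_mem hX hY) = Q.tauN t hY ∘ₗ Q.tauN t hX := by
    refine LinearMap.ext fun F => Subtype.ext ?_
    rw [LinearMap.comp_apply, STau_N_apply, STau_N_apply, STau_N_apply, Matrix.mul_assoc, kr_mul,
      Matrix.one_mul]
  rw [Q.STau_eq t (Q.mul_mem hY hX), Q.STau_eq t (Q.mul_mem hX hY), e1, e2, e3, e4,
    LinearMap.trace_comp_comm', LinearMap.trace_comp_comm' (Q.tauN t hY)]

theorem tau_of_mem_N {X : Matrix (S → α) (S → α) K} (hX : X ∈ Q.N s s) : Q.tau t s X = 0 := by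
  have hk : kr X (1 : Matrix (T → α) (T → α) K) ∈ Q.N (s.p t) (s.p t) := Q.kr_one_mem_N hX
  have hmem : ∀ F : Q.P (s.p t) t, (Q.tauP t hX.1 F : Matrix (T → α) (S ⊕ T → α) K) ∈
      Q.N (s.p t) t := by
    intro F
    rw [STau_P_apply]
    exact Q.N_mul_left F.2 hk
  let G : Q.P (s.p t) t →ₗ[K] Q.N (s.p t) t :=
    LinearMap.codRestrict (Q.N (s.p t) t) ((Q.P (s.p t) t).subtype ∘ₗ Q.tauP t hX.1) hmem
  let J : Q.N (s.p t) t →ₗ[K] Q.P (s.p t) t := Submodule.inclusion (Q.N_le (s.p t) t)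
  have e1 : Q.tauP t hX.1 = J ∘ₗ G := by
    refine LinearMap.ext fun F => Subtype.ext ?_
    rfl
  have e2 : Q.tauN t hX.1 = G ∘ₗ J := by
    refine LinearMap.ext fun F => Subtype.ext ?_
    rw [STau_N_apply]
    change _ = (Q.tauP t hX.1 (J F) : Matrix (T → α) (S ⊕ T → α) K)
    rw [STau_P_apply]
    rfl
  rw [Q.STau_eq t hX.1, e1, e2, LinearMap.trace_comp_comm', sub_self]

theorem pT_nat {q : Matrix (S → α) (S → α) K} (hq : q ∈ Q.P s s) (hq2 : q * q = q) :
    ∃ n : ℕ, Q.pT t s q = n ∧ Q.tau t s q = n := by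
  have hPN : (Q.N (s.p t) t).map (sand (1 : Matrix (T → α) (T → α) K)
      (kr q (1 : Matrix (T → α) (T → α) K))) ≤ (Q.P (s.p t) t).map
      (sand (1 : Matrix (T → α) (T → α) K) (kr q (1 : Matrix (T → α) (T → α) K))) :=
    Submodule.map_mono (Q.N_le (s.p t) t)
  have hle := Submodule.finrank_mono hPN
  have hid : ∀ F : Matrix (T → α) (S ⊕ T → α) K,
      sand (1 : Matrix (T → α) (T → α) K) (kr q (1 : Matrix (T → α) (T → α) K))
        (sand (1 : Matrix (T → α) (T → α) K) (kr q (1 : Matrix (T → α) (T → α) K)) F) =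
      sand (1 : Matrix (T → α) (T → α) K) (kr q (1 : Matrix (T → α) (T → α) K)) F := by
    intro F
    rw [sand_apply, sand_apply, Matrix.one_mul, Matrix.one_mul, Matrix.mul_assoc, kr_mul, hq2,
      Matrix.one_mul]
  have hP : LinearMap.trace K _ (Q.tauP t hq) = (finrank K ((Q.P (s.p t) t).map
      (sand (1 : Matrix (T → α) (T → α) K) (kr q (1 : Matrix (T → α) (T → α) K)))) : K) := by
    exact Sys.Tau_trace _ _ hid
  have hN : LinearMap.trace K _ (Q.tauN t hq) = (finrank K ((Q.N (s.p t) t).map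
      (sand (1 : Matrix (T → α) (T → α) K) (kr q (1 : Matrix (T → α) (T → α) K)))) : K) := by
    exact Sys.Tau_trace _ _ hid
  refine ⟨finrank K ((Q.P (s.p t) t).map
      (sand (1 : Matrix (T → α) (T → α) K) (kr q (1 : Matrix (T → α) (T → α) K)))) -
      finrank K ((Q.N (s.p t) t).map
      (sand (1 : Matrix (T → α) (T → α) K) (kr q (1 : Matrix (T → α) (T → α) K)))), ?_, ?_⟩
  · unfold pT cod
    rw [Nat.cast_sub hle]
  · rw [Q.STau_eq t hq, hP, hN, Nat.cast_sub hle]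

theorem pT_add {X Y : Matrix (S → α) (S → α) K} (hX : X ∈ Q.P s s) (hY : Y ∈ Q.P s s)
    (hX2 : X * X = X) (hY2 : Y * Y = Y) (hXY : (X + Y) * (X + Y) = X + Y) :
    Q.pT t s (X + Y) = Q.pT t s X + Q.pT t s Y := by
  obtain ⟨n1, a1, b1⟩ := Q.pT_nat t hX hX2
  obtain ⟨n2, a2, b2⟩ := Q.pT_nat t hY hY2
  obtain ⟨n3, a3, b3⟩ := Q.pT_nat t (add_mem hX hY) hXY
  have h1 := Q.tau_add t hX hY
  rw [b1, b2, b3] at h1
  have h2 : n3 = n1 + n2 := by exact_mod_cast h1
  rw [a1, a2, a3, h2]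
  push_cast
  ring

theorem conj_idem {X : Matrix (S → α) (S → α) K} (hX2 : X * X = X)
    {Y : Matrix (S' → α) (S → α) K} {Z : Matrix (S → α) (S' → α) K} (hZY : Z * Y = 1) :
    (Y * X * Z) * (Y * X * Z) = Y * X * Z := by
  have h1 : (Y * X * Z) * (Y * X * Z) = Y * (X * ((Z * Y) * (X * Z))) := by
    simp only [Matrix.mul_assoc]
  rw [h1, hZY, Matrix.one_mul, ← Matrix.mul_assoc X X Z, hX2, Matrix.mul_assoc]

theorem pT_conj {X : Matrix (S → α) (S → α) K} (hX : X ∈ Q.P s s) (hX2 : X * X = X)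
    {Y : Matrix (S' → α) (S → α) K} (hY : Y ∈ Q.P s s') {Z : Matrix (S → α) (S' → α) K}
    (hZ : Z ∈ Q.P s' s) (hZY : Z * Y = 1) : Q.pT t s' (Y * X * Z) = Q.pT t s X := by
  obtain ⟨n1, a1, b1⟩ := Q.pT_nat t hX hX2
  obtain ⟨n2, a2, b2⟩ := Q.pT_nat t (Q.mul_mem (Q.mul_mem hY hX) hZ) (conj_idem hX2 hZY)
  have h1 := Q.tau_comm t (Q.mul_mem hX hZ) hY
  rw [← Matrix.mul_assoc, b2, Matrix.mul_assoc, hZY, Matrix.mul_one, b1] at h1
  have h2 : n2 = n1 := by exact_mod_cast h1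
  rw [a1, a2, h2]

theorem rank_conj {X : Matrix (S → α) (S → α) K} (hX2 : X * X = X)
    {Y : Matrix (S' → α) (S → α) K} {Z : Matrix (S → α) (S' → α) K} (hZY : Z * Y = 1) :
    (Y * X * Z).rank = X.rank := by
  have h1 : ((Y * X * Z).rank : K) = (X.rank : K) := by
    rw [← trace_idem (conj_idem hX2 hZY), ← trace_idem hX2, Matrix.mul_assoc,
      Matrix.trace_mul_comm, Matrix.mul_assoc, hZY, Matrix.mul_one]
  exact_mod_cast h1

theorem pT_one (s : Shp S) : Q.pT t s (1 : Matrix (S → α) (S → α) K) =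
    Q.A (Fintype.card S + 2 * Fintype.card T) := by
  unfold pT
  rw [kr_one, csp_sand_one]
  have h1 : Q.a (s.p t) t = Q.A (Fintype.card (S ⊕ T) + Fintype.card T) := Q.a_eq_A (s.p t) t
  have h2 : Fintype.card (S ⊕ T) + Fintype.card T = Fintype.card S + 2 * Fintype.card T := by
    rw [Fintype.card_sum]
    ring
  rw [h2] at h1
  rw [← h1]
  rfl

theorem pT_swap {X : Matrix (S → α) (S → α) K} (hX : X ∈ Q.P s s) (hX2 : X * X = X)
    {Y : Matrix (S' → α) (S' → α) K} (hY : Y ∈ Q.P s' s') (hY2 : Y * Y = Y) :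
    Q.pT t (s.p s') (kr X Y) = Q.pT t (s'.p s) (kr Y X) := by
  have h1 : Q.sw s s' * kr X Y * Q.sw s' s = kr Y X := by
    rw [Q.sw_kr hX hY, Matrix.mul_assoc, Q.sw_sw s' s, Matrix.mul_one]
  rw [← h1]
  exact (Q.pT_conj t (Q.kr_mem hX hY) (by rw [kr_mul, hX2, hY2]) (Q.sw_mem s s') (Q.sw_mem s' s)
    (Q.sw_sw s s')).symm

theorem pT_lunit {X : Matrix (S → α) (S → α) K} (hX : X ∈ Q.P s s) (hX2 : X * X = X) :
    Q.pT t (Shp.e.p s) (kr (1 : Matrix (Empty → α) (Empty → α) K) X) = Q.pT t s X := by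
  have h1 : pm α K (Equiv.emptySum Empty S).symm * X * pm α K (Equiv.emptySum Empty S) =
      kr (1 : Matrix (Empty → α) (Empty → α) K) X := by
    ext c d
    rw [mul_pm_apply, pm_mul_apply]
    change X _ _ = (1 : Matrix (Empty → α) (Empty → α) K) (c ∘ Sum.inl) (d ∘ Sum.inl) *
      X (c ∘ Sum.inr) (d ∘ Sum.inr)
    have h2 : (c ∘ Sum.inl : Empty → α) = d ∘ Sum.inl := Subsingleton.elim _ _
    rw [h2, Matrix.one_apply_eq, one_mul]
    rfl
  rw [← h1]
  exact Q.pT_conj t hX hX2 (Q.lunit_symm_mem s) (Q.lunit_mem s) (by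
    have h2 := pm_symm_mul (α := α) (K := K) (Equiv.emptySum Empty S).symm
    rwa [Equiv.symm_symm] at h2)

end SSys

end ZS
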