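import Pool.Agent.W_f569db_sp.SGram
import Pool.Agent.W_f569db_sp.STau
import Pool.Agent.W_b4801b_h57.CauchyV

set_option autoImplicit false

/-!
# Cauchy-Schwarz for virtual objects, super version

Port of `W_b4801b_h57/CauchyV` to `ZS.SSys`.

`cod_sand_eq'`: generalisation of `cod_sand_eq` (`W_f569db_zs/Two`), same proof: bending the factor `s'` of the target:
`cod (sand (f ⊗ 1) (e ⊗ 1)) (P (s t) (s' t)) (N ..) = pT t (s' s) (adj f ⊗ e)`.

`adj_adj`: for even `f`: `adj (adj f) = f`: `adj g g' f = (g f g')ᵀ`, so `adj (adj f) = g'ᵀ g f g' gᵀ` and `gᵀ = dg g`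
(`g_symm`), `dg g = g dg` (`g_even`), `g'ᵀ = (gᵀ)⁻¹ = g' dg`, `g'ᵀ g = g' dg g = g' g dg = dg`, `g' gᵀ = g' dg g = dg`,
`dg f dg = f` (`even`, `dg_sq`).

`virt`: let `X ∈ P s s`, `Y ∈ P s' s'` be idempotents.  Put `f = adj X ∈ P s s` (idempotent, `rank f = rank X`,
`adj f = X`).  `gram_P` for the three objects `(t, 1)`, `(s t, f ⊗ 1)`, `(s' t, Y ⊗ 1)` gives vectors `v₀, v₁, v₂` with
`⟨v₀,v₀⟩ = a t t`, `⟨v₂,v₀⟩ = pT Y`, `⟨v₂,v₁⟩ = pT (adj f ⊗ Y) = pT (X ⊗ Y)` (`cod_sand_eq'`),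
`⟨v₁,v₁⟩ = pT (adj f ⊗ f) ≤ (rank X)^2 a`, `⟨v₂,v₂⟩ = pT (adj Y ⊗ Y) ≤ (rank Y)^2 a` (`pT_le`), and
`⟨v₁,v₀⟩ = ⟨v₀,v₁⟩`: `cod (sand (f ⊗ 1) 1) (P t (s t)) (N t (s t)) = pT X` (bending as in `cod_sand_eq'`, `t` in place of
`s t` on the source; e.g. compose `cod_sand_eq'` for `s = Shp.e`, `e = 1` with the unit isomorphism, `pT (adj f ⊗ 1_e) =
pT (adj f)`).
Then `|r v₀ - v₁|^2 = r^2 a - 2 r pT X + ⟨v₁,v₁⟩ ≤ 2 r (r a - pT X)` (`r = rank X`), Cauchy-Schwarz.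

`virt_df`: take square roots and divide by `a`.

`df_kr`: `rank (X ⊗ Y) = rank X * rank Y` (`ZO.rank_kr_idem`), `df (X ⊗ Y) = rank X * df Y + (rank X * pT Y / a - pT (X ⊗ Y) / a)`,
`virt_df`.
-/

noncomputable section

namespace ZS

open Matrix Module ZO

variable {α : Type} [Fintype α] [DecidableEq α] {K : Type*} [Field K] [CharZero K]
  {S S' T : Type} [Fintype S] [DecidableEq S] [Fintype S'] [DecidableEq S'] [Fintype T]
  [DecidableEq T]

namespace SSys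

variable (Q : SSys α K) (t : Shp T) {s : Shp S} {s' : Shp S'}

theorem cod_sand_eq' {e : Matrix (S → α) (S → α) K} {f : Matrix (S' → α) (S' → α) K} :
    cod (sand (kr f (1 : Matrix (T → α) (T → α) K)) (kr e (1 : Matrix (T → α) (T → α) K)))
      (Q.P (s.p t) (s'.p t)) (Q.N (s.p t) (s'.p t)) =
        Q.pT t (s'.p s) (kr (adj (Q.G s') (Q.G' s') f) e) := by
  let b : Matrix (S' ⊕ T → α) (S ⊕ T → α) K →ₗ[K] Matrix (T → α) (S' ⊕ (S ⊕ T) → α) K :=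
    bnd (S := S') (T' := T) (T := S ⊕ T) (Q.G s')
  let r : Matrix (T → α) (S' ⊕ (S ⊕ T) → α) K →ₗ[K] Matrix (T → α) ((S' ⊕ S) ⊕ T → α) K :=
    sand (1 : Matrix (T → α) (T → α) K) (pm α K (Equiv.sumAssoc S' S T))
  have hb : Function.Injective b := Q.bnd_inj s'
  have hΨ : Function.Injective (r ∘ₗ b) := by
    rw [LinearMap.coe_comp]
    exact (Two_inj (Two_pm_mul_symm (Equiv.sumAssoc S' S T))).comp hb
  refine Sys.Two_cod_transport _ _ (r ∘ₗ b) (r ∘ₗ b) hΨ ?_ ?_ ?_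
  · intro x
    show r (b _) = sand _ _ (r (b x))
    have h1 : b (kr f (1 : Matrix (T → α) (T → α) K) * x * kr e (1 : Matrix (T → α) (T → α) K)) =
        b x * kr (adj (Q.G s') (Q.G' s') f) (kr e (1 : Matrix (T → α) (T → α) K)) := by
      show bnd (Q.G s') _ = bnd (Q.G s') x * _
      rw [Matrix.mul_assoc, bnd_kr_one (Q.g'g s'), bnd_mul, Matrix.mul_assoc, kr_mul,
        Matrix.one_mul, Matrix.mul_one]
    have h0 : sand (kr f (1 : Matrix (T → α) (T → α) K)) (kr e (1 : Matrix (T → α) (T → α) K)) x =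
        kr f (1 : Matrix (T → α) (T → α) K) * x * kr e (1 : Matrix (T → α) (T → α) K) :=
      sand_apply _ _ _
    rw [h0, h1]
    show (1 : Matrix (T → α) (T → α) K) *
        (b x * kr (adj (Q.G s') (Q.G' s') f) (kr e (1 : Matrix (T → α) (T → α) K))) *
          pm α K (Equiv.sumAssoc S' S T) =
      (1 : Matrix (T → α) (T → α) K) * ((1 : Matrix (T → α) (T → α) K) * b x *
        pm α K (Equiv.sumAssoc S' S T)) *
          kr (kr (adj (Q.G s') (Q.G' s') f) e) (1 : Matrix (T → α) (T → α) K)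
    rw [Matrix.one_mul, Matrix.one_mul, Matrix.one_mul, Matrix.mul_assoc, Sys.Two_kr_assoc,
      Matrix.mul_assoc]
  · rw [Submodule.map_comp]
    show ((Q.P (s.p t) (s'.p t)).map (bnd (S := S') (Q.G s'))).map r = _
    rw [map_bnd_P]
    exact Q.Two_map_P (Q.assoc_mem s' s t) (Q.assoc_symm_mem s' s t) (pm_symm_mul _)
  · rw [Submodule.map_comp]
    show ((Q.N (s.p t) (s'.p t)).map (bnd (S := S') (Q.G s'))).map r = _
    rw [map_bnd_N]
    exact Q.Two_map_N (Q.assoc_mem s' s t) (Q.assoc_symm_mem s' s t) (pm_symm_mul _)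

theorem adj_adj {f : Matrix (S → α) (S → α) K} (hf : f ∈ Q.P s s) :
    adj (Q.G s) (Q.G' s) (adj (Q.G s) (Q.G' s) f) = f := by
  have h1 : (Q.G s)ᵀ = dg Q.ε S * Q.G s := Q.g_symm s
  have hd : dg Q.ε S * dg Q.ε S = (1 : Matrix (S → α) (S → α) K) := dg_sq Q.ε_sq
  have h2 : (Q.G' s)ᵀ = Q.G' s * dg Q.ε S := by
    have h3 : (Q.G' s)ᵀ * (dg Q.ε S * Q.G s) = 1 := by
      rw [← h1, ← Matrix.transpose_mul, Q.gg' s, Matrix.transpose_one]
    have h4 : (Q.G' s)ᵀ * dg Q.ε S = Q.G' s := by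
      calc (Q.G' s)ᵀ * dg Q.ε S = (Q.G' s)ᵀ * (dg Q.ε S * (Q.G s * Q.G' s)) := by
            rw [Q.gg' s, Matrix.mul_one]
        _ = ((Q.G' s)ᵀ * (dg Q.ε S * Q.G s)) * Q.G' s := by
            simp only [Matrix.mul_assoc]
        _ = Q.G' s := by rw [h3, Matrix.one_mul]
    calc (Q.G' s)ᵀ = (Q.G' s)ᵀ * (dg Q.ε S * dg Q.ε S) := by rw [hd, Matrix.mul_one]
      _ = ((Q.G' s)ᵀ * dg Q.ε S) * dg Q.ε S := by rw [Matrix.mul_assoc]
      _ = Q.G' s * dg Q.ε S := by rw [h4]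
  have h5 : Q.G' s * dg Q.ε S * Q.G s = dg Q.ε S := by
    rw [Matrix.mul_assoc, Q.g_even s, ← Matrix.mul_assoc, Q.g'g s, Matrix.one_mul]
  unfold adj
  rw [Matrix.transpose_mul, Matrix.transpose_mul, Matrix.transpose_transpose, h1, h2]
  calc Q.G' s * dg Q.ε S * (Q.G s * f * Q.G' s * (dg Q.ε S * Q.G s))
      = (Q.G' s * dg Q.ε S * Q.G s) * f * (Q.G' s * dg Q.ε S * Q.G s) := by
        simp only [Matrix.mul_assoc]
    _ = dg Q.ε S * f * dg Q.ε S := by rw [h5]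
    _ = f * (dg Q.ε S * dg Q.ε S) := by rw [Q.even hf, Matrix.mul_assoc]
    _ = f := by rw [hd, Matrix.mul_one]

/-- bending of the source `t` -/
theorem SVirt_cod_one {f : Matrix (S → α) (S → α) K} :
    cod (sand (kr f (1 : Matrix (T → α) (T → α) K)) (1 : Matrix (T → α) (T → α) K))
      (Q.P t (s.p t)) (Q.N t (s.p t)) = Q.pT t s (adj (Q.G s) (Q.G' s) f) := by
  let b : Matrix (S ⊕ T → α) (T → α) K →ₗ[K] Matrix (T → α) (S ⊕ T → α) K :=
    bnd (S := S) (T' := T) (T := T) (Q.G s)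
  have hb : Function.Injective b := Q.bnd_inj s
  refine Sys.Two_cod_transport _ _ b b hb ?_ (map_bnd_P Q s t t) (map_bnd_N Q s t t)
  intro x
  have h1 : b (kr f (1 : Matrix (T → α) (T → α) K) * x) =
      b x * kr (adj (Q.G s) (Q.G' s) f) (1 : Matrix (T → α) (T → α) K) :=
    bnd_kr_one (Q.g'g s) f x
  have h0 : sand (kr f (1 : Matrix (T → α) (T → α) K)) (1 : Matrix (T → α) (T → α) K) x =
      kr f (1 : Matrix (T → α) (T → α) K) * x := by
    rw [sand_apply, Matrix.mul_one]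
  rw [h0, h1, sand_apply, Matrix.one_mul]

/-- the shapes of the three objects -/
def SVirt_sh {S S' T : Type} (s : Shp S) (s' : Shp S') (t : Shp T) :
    ∀ k, Shp (Sys.CauchyV_U S' S T k)
  | none => t
  | some false => s.p t
  | some true => s'.p t

theorem SVirt_gram {f : Matrix (S → α) (S → α) K} {Y : Matrix (S' → α) (S' → α) K}
    (hf : f ∈ Q.P s s) (hY : Y ∈ Q.P s' s') (hf2 : f * f = f) (hY2 : Y * Y = Y) :
    ∃ (n : ℕ) (v₀ v₁ v₂ : Fin n → ℝ), (∑ i, v₀ i * v₀ i = Q.a t t) ∧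
      (∑ i, v₀ i * v₁ i = Q.pT t s (adj (Q.G s) (Q.G' s) f)) ∧
      (∑ i, v₂ i * v₀ i = Q.pT t s' Y) ∧
      (∑ i, v₂ i * v₁ i = Q.pT t (s.p s') (kr (adj (Q.G s) (Q.G' s) f) Y)) ∧
      (∑ i, v₁ i * v₁ i = Q.pT t (s.p s) (kr (adj (Q.G s) (Q.G' s) f) f)) ∧
      (∑ i, v₂ i * v₂ i = Q.pT t (s'.p s') (kr (adj (Q.G s') (Q.G' s') Y) Y)) := by
  have hmem : ∀ k, Sys.CauchyV_e S' S T Y f k ∈ Q.P (SVirt_sh s s' t k) (SVirt_sh s s' t k) := by
    intro k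
    match k with
    | none => exact Q.one_mem t
    | some false => exact Q.kr_mem hf (Q.one_mem t)
    | some true => exact Q.kr_mem hY (Q.one_mem t)
  have hid : ∀ k, Sys.CauchyV_e S' S T Y f k * Sys.CauchyV_e S' S T Y f k = Sys.CauchyV_e S' S T Y f k := by
    intro k
    match k with
    | none => exact Matrix.one_mul _
    | some false =>
      show kr f (1 : Matrix (T → α) (T → α) K) * kr f (1 : Matrix (T → α) (T → α) K) =
        kr f (1 : Matrix (T → α) (T → α) K)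
      rw [kr_mul, hf2, Matrix.one_mul]
    | some true =>
      show kr Y (1 : Matrix (T → α) (T → α) K) * kr Y (1 : Matrix (T → α) (T → α) K) =
        kr Y (1 : Matrix (T → α) (T → α) K)
      rw [kr_mul, hY2, Matrix.one_mul]
  obtain ⟨n, ρ, hρ⟩ := Q.gram_P (Sys.CauchyV_U S' S T) (SVirt_sh s s' t) (Sys.CauchyV_e S' S T Y f)
    hmem hid
  refine ⟨n, ρ none, ρ (some false), ρ (some true), ?_, ?_, ?_, ?_, ?_, ?_⟩
  · rw [← hρ none none]
    exact csp_sand_one _ _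
  · rw [← hρ none (some false)]
    exact Q.SVirt_cod_one t
  · rw [← hρ (some true) none]
    rfl
  · rw [← hρ (some true) (some false)]
    exact Q.cod_sand_eq' t
  · rw [← hρ (some false) (some false)]
    exact Q.cod_sand_eq' t
  · rw [← hρ (some true) (some true)]
    exact Q.cod_sand_eq' t

theorem SVirt_le (hpos : 0 < Q.a t t) {X : Matrix (S → α) (S → α) K} (hX : X ∈ Q.P s s)
    (hX2 : X * X = X) :
    Q.pT t (s.p s) (kr (adj (Q.G s) (Q.G' s) X) X) ≤ (X.rank : ℝ) ^ 2 * Q.a t t := by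
  have h1 := Q.pT_le (t := t) (Q.kr_mem (Q.adj_mem hX) hX)
    (by rw [kr_mul, adj_idem (Q.g'g s) hX2, hX2]) hpos
  rw [rank_kr_idem (adj_idem (Q.g'g s) hX2) hX2, rank_adj_idem (Q.g'g s) hX2, Nat.cast_mul,
    ← sq] at h1
  exact h1

theorem virt (hpos : 0 < Q.a t t) {X : Matrix (S → α) (S → α) K} (hX : X ∈ Q.P s s)
    (hX2 : X * X = X) {Y : Matrix (S' → α) (S' → α) K} (hY : Y ∈ Q.P s' s') (hY2 : Y * Y = Y) :
    ((X.rank : ℝ) * Q.pT t s' Y - Q.pT t (s.p s') (kr X Y)) ^ 2 ≤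
      2 * X.rank * (X.rank * Q.a t t - Q.pT t s X) * ((Y.rank : ℝ) ^ 2 * Q.a t t) := by
  set f := adj (Q.G s) (Q.G' s) X with hf
  have hfP : f ∈ Q.P s s := Q.adj_mem hX
  have hf2 : f * f = f := adj_idem (Q.g'g s) hX2
  have hff : adj (Q.G s) (Q.G' s) f = X := Q.adj_adj hX
  have hfr : f.rank = X.rank := rank_adj_idem (Q.g'g s) hX2
  obtain ⟨n, v₀, v₁, v₂, h00, h01, h20, h21, h11, h22⟩ :=
    Q.SVirt_gram t (s := s) (s' := s') hfP hY hf2 hY2
  have hle1 := Q.SVirt_le t hpos hfP hf2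
  have hle2 := Q.SVirt_le t hpos hY hY2
  rw [hff] at h01 h21 h11 hle1
  rw [hfr] at hle1
  set r : ℝ := (X.rank : ℝ) with hr
  have hcs := Finset.sum_mul_sq_le_sq_mul_sq Finset.univ v₂ (fun i => r * v₀ i - v₁ i)
  have e1 : ∑ i, v₂ i * (r * v₀ i - v₁ i) =
      r * Q.pT t s' Y - Q.pT t (s.p s') (kr X Y) := by
    rw [← h20, ← h21, Finset.mul_sum, ← Finset.sum_sub_distrib]
    exact Finset.sum_congr rfl fun i _ => by ring
  have e2 : ∑ i, (r * v₀ i - v₁ i) ^ 2 =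
      r ^ 2 * Q.a t t - 2 * r * Q.pT t s X + Q.pT t (s.p s) (kr X f) := by
    rw [← h00, ← h01, ← h11, Finset.mul_sum, Finset.mul_sum, ← Finset.sum_sub_distrib,
      ← Finset.sum_add_distrib]
    exact Finset.sum_congr rfl fun i _ => by ring
  have e3 : ∑ i, v₂ i ^ 2 = Q.pT t (s'.p s') (kr (adj (Q.G s') (Q.G' s') Y) Y) := by
    rw [← h22]
    exact Finset.sum_congr rfl fun i _ => by ring
  rw [e1] at hcs
  have h3 : ∑ i, (r * v₀ i - v₁ i) ^ 2 ≤ 2 * r * (r * Q.a t t - Q.pT t s X) := by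
    rw [e2]
    nlinarith
  have h4 : 0 ≤ ∑ i, (r * v₀ i - v₁ i) ^ 2 := Finset.sum_nonneg fun i _ => sq_nonneg _
  have h5 : 0 ≤ ∑ i, v₂ i ^ 2 := Finset.sum_nonneg fun i _ => sq_nonneg _
  calc (r * Q.pT t s' Y - Q.pT t (s.p s') (kr X Y)) ^ 2
      ≤ (∑ i, v₂ i ^ 2) * ∑ i, (r * v₀ i - v₁ i) ^ 2 := hcs
    _ ≤ ((Y.rank : ℝ) ^ 2 * Q.a t t) * (2 * r * (r * Q.a t t - Q.pT t s X)) := by
        rw [e3] at h5 ⊢
        exact mul_le_mul hle2 h3 h4 (h5.trans hle2)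
    _ = 2 * r * (r * Q.a t t - Q.pT t s X) * ((Y.rank : ℝ) ^ 2 * Q.a t t) := by ring

theorem virt_df (hpos : 0 < Q.a t t) {X : Matrix (S → α) (S → α) K} (hX : X ∈ Q.P s s)
    (hX2 : X * X = X) {Y : Matrix (S' → α) (S' → α) K} (hY : Y ∈ Q.P s' s') (hY2 : Y * Y = Y) :
    |(X.rank : ℝ) * (Q.pT t s' Y / Q.a t t) - Q.pT t (s.p s') (kr X Y) / Q.a t t| ≤
      Y.rank * √(2 * X.rank * Q.df t s X) := by
  have h1 := Q.virt t hpos hX hX2 hY hY2
  set r : ℝ := (X.rank : ℝ) with hr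
  set y : ℝ := (Y.rank : ℝ) with hy
  set a := Q.a t t with ha
  have ha0 : a ≠ 0 := hpos.ne'
  have h2 : (r * (Q.pT t s' Y / a) - Q.pT t (s.p s') (kr X Y) / a) ^ 2 ≤
      y ^ 2 * (2 * r * Q.df t s X) := by
    have e1 : (r * (Q.pT t s' Y / a) - Q.pT t (s.p s') (kr X Y) / a) ^ 2 =
        (r * Q.pT t s' Y - Q.pT t (s.p s') (kr X Y)) ^ 2 / a ^ 2 := by
      field_simp
    have e2 : y ^ 2 * (2 * r * Q.df t s X) =
        2 * r * (r * a - Q.pT t s X) * (y ^ 2 * a) / a ^ 2 := by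
      have e3 : Q.df t s X = (r * a - Q.pT t s X) / a := by
        unfold df
        rw [← ha, ← hr]
        field_simp
      rw [e3]
      field_simp
    rw [e1, e2]
    exact div_le_div_of_nonneg_right h1 (sq_nonneg a)
  have h3 := Real.abs_le_sqrt h2
  rwa [Real.sqrt_mul (sq_nonneg y), Real.sqrt_sq (Nat.cast_nonneg _)] at h3

theorem df_kr (hpos : 0 < Q.a t t) {X : Matrix (S → α) (S → α) K} (hX : X ∈ Q.P s s)
    (hX2 : X * X = X) {Y : Matrix (S' → α) (S' → α) K} (hY : Y ∈ Q.P s' s') (hY2 : Y * Y = Y) :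
    Q.df t (s.p s') (kr X Y) ≤
      X.rank * Q.df t s' Y + Y.rank * √(2 * X.rank * Q.df t s X) := by
  have h1 := Q.virt_df t hpos hX hX2 hY hY2
  have h2 := (le_abs_self _).trans h1
  have h3 : Q.df t (s.p s') (kr X Y) = X.rank * Q.df t s' Y +
      ((X.rank : ℝ) * (Q.pT t s' Y / Q.a t t) - Q.pT t (s.p s') (kr X Y) / Q.a t t) := by
    unfold df
    rw [ZO.rank_kr_idem hX2 hY2]
    push_cast
    ring
  rw [h3]
  linarith

end SSys

end ZS
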