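import Pool.Agent.W_f569db_sp.SJT
import Pool.Agent.W_f569db_sp.SVirt
import Pool.Agent.W_f569db_sp.SOne
import Pool.Agent.W_f569db_sp.RRec

set_option autoImplicit false

/-!
# The deficit of the symmetrizers

Let `b = #α ≥ 1`, `0 ≤ θ ≤ 1` and suppose that `df t s 1 ≤ b^(|s| + 3) |s| θ` for all shapes `s`.  Then
`df t s (esg κ s) ≤ C1 b * (N + 1)^(2 b) * √θ` for all shapes with at most `N` letters.

Proof.  `p = pk κ`, `q = qk κ`, `p + q = b`.  By `esg_congr`, `rank_conj`, `pT_conj` it is enough to consider `s = lin n`.  Let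
`φ X = pT X / a`, `f n = φ (esg κ (lin n))`, `r n = rank (esg κ (lin n)) = Rn p q n ≤ (n + 1)^b` (`rank_esg`, `rank_esg_le`),
`δ n = r n - f n = df ≥ 0` (`df_nonneg`).
(1) `n ≤ b`: `δ n ≤ df 1 ≤ b^(b + 3) b θ ≤ b^(b + 4) √θ` (`df_le_one`; `θ ≤ √θ`).
(2) `b < a ≤ N`: for `w ∈ good (Ax p q a)` let `X = esg κ (lin (a - w 0))`, `Y = eS κ l'`, `l' = List.ofFn (q + 1 + i - w (i+1))`
(`lw_eq`; `sS`, `eS` of a cons list are by definition `p`, `kr`).  `l'` has sum `n_w ≤ p (q + p) ≤ b^2`.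
`rank X ≤ (N + 1)^b`, `rank Y = ∏ Rn p q (q + 1 + i - w (i+1))` (`eS_rank`) and `rank Y ≤ b^(n_w) ≤ b^(b^2)`
(size of the matrix, `Matrix.rank_le_card_height`), `df Y ≤ df 1 ≤ b^(b^2 + 3) b^2 θ`.  By `virt_df` (with `Y` as first factor)
and `pT_swap`: `|rank Y * φ X - φ (X ⊗ Y)| ≤ rank X * √(2 rank Y * df Y) ≤ (N + 1)^b ε₁`, `ε₁ = √(2 b^(2 b^2 + 5) θ)`.
`jt_pT` (divide by `a`) and `#good ≤ (p + 1)! ≤ (b + 1)!`, `|sgn| = 1` give
`|∑_w sgn w * (f (a - w 0) * ∏_i Rn p q (q + 1 + i - w (i+1)))| ≤ (b + 1)! (N + 1)^b ε₁`.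
`expand` (with this `f`) and `1 ≤ |kap p q|` (`kap_ne_zero` in `RDet`, an integer) give
`|∑_j (-1)^j binom(p, j) f (a - j)| ≤ (b + 1)! (N + 1)^b ε₁`, and `Rz_rec` (`RNum`) gives `∑_j (-1)^j binom(p, j) r (a - j) = 0`, so
the same bound holds for `δ`.
(3) `rec_bound` with `B = b`: `δ n ≤ (2 (N + 1))^p (b^(b + 4) √θ + (b + 1)! (N + 1)^b ε₁)` for `n ≤ N`, and
`ε₁ ≤ 2 b^(b^2 + 3) √θ`; `p ≤ b`.
-/

noncomputable section

namespace ZS

open Matrix Module ZO ZSp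

theorem SSym_sgi {n : ℕ} (w : Equiv.Perm (Fin n)) : |(sgi w : ℝ)| = 1 := by
  unfold sgi
  rcases Int.units_eq_one_or (Equiv.Perm.sign w) with h | h
  · rw [h]
    simp
  · rw [h]
    simp

variable {α : Type} [Fintype α] [DecidableEq α] {K : Type*} [Field K] [CharZero K] {Q : SSys α K}

namespace Sgn

variable (G : Sgn Q)

theorem SSym_conj {S S' T : Type} [Fintype S] [DecidableEq S] [Fintype S'] [DecidableEq S']
    [Fintype T] [DecidableEq T] (t : Shp T) (κ : ℕ) (s : Shp S) (s' : Shp S') (e : S ≃ S') :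
    (G.esg κ s).rank = (G.esg κ s').rank ∧
      Q.df t s (G.esg κ s) = Q.df t s' (G.esg κ s') := by
  have h1 : (G.esg κ s).rank = (G.esg κ s').rank := by
    rw [← G.esg_congr κ s s' e, SSys.rank_conj (G.esg_idem κ s) (G.sg_symm_mul s s' e)]
  refine ⟨h1, ?_⟩
  unfold SSys.df
  rw [h1]
  congr 2
  rw [← G.esg_congr κ s s' e, Q.pT_conj t (G.esg_mem κ s) (G.esg_idem κ s) (G.mem _ _ e)
    (G.mem _ _ e.symm) (G.sg_symm_mul s s' e)]

/-- the normalised numerical trace of the product of the symmetrizers for `A - w` -/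
def SSym_F {T : Type} [Fintype T] [DecidableEq T] (t : Shp T) (κ a p q : ℕ)
    (w : Equiv.Perm (Fin (p + 1))) : ℝ :=
  Q.pT t (sS ((a - w 0) :: List.ofFn fun i : Fin p => q + 1 + i - w i.succ))
    (G.eS κ ((a - w 0) :: List.ofFn fun i : Fin p => q + 1 + i - w i.succ)) / Q.a t t

theorem SSym_key [Nonempty α] {T : Type} [Fintype T] [DecidableEq T] (t : Shp T)
    (hpos : 0 < Q.a t t) {θ : ℝ} (h0 : 0 ≤ θ)
    (hdef : ∀ (S : Type) [Fintype S] [DecidableEq S] (s : Shp S),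
      Q.df t s 1 ≤ (Fintype.card α : ℝ) ^ (Fintype.card S + 3) * Fintype.card S * θ)
    (κ N a : ℕ) (haN : a ≤ N) {b p q : ℕ} (hbd : b = Fintype.card α) (hp : p = G.pk κ)
    (hq : q = G.qk κ) (hpq : p + q = b) {ε₁ : ℝ} (hε₁ : ε₁ = 2 * (b : ℝ) ^ (b ^ 2 + 3) * √θ)
    (f : ℕ → ℝ) (hf : f = fun n => Q.pT t (lin n) (G.esg κ (lin n)) / Q.a t t)
    (w : Equiv.Perm (Fin (p + 1))) :
    |f (a - w 0) * ∏ i : Fin p, (Rn p q (q + 1 + i - w i.succ) : ℝ) -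
      SSym_F G t κ a p q w| ≤ ((N : ℝ) + 1) ^ b * ε₁ := by
  have hb : 1 ≤ b := by
    rw [hbd]
    exact Fintype.card_pos
  have hb1 : (1 : ℝ) ≤ b := by exact_mod_cast hb
  obtain ⟨l, hl⟩ : ∃ l : List ℕ, l = List.ofFn fun i : Fin p => q + 1 + i - w i.succ := ⟨_, rfl⟩
  obtain ⟨x, hx⟩ : ∃ x, x = a - w 0 := ⟨_, rfl⟩
  have hsum : l.sum ≤ b ^ 2 := by
    rw [hl, List.sum_ofFn]
    have h2 : ∀ i ∈ (Finset.univ : Finset (Fin p)), q + 1 + (i : ℕ) - (w i.succ : ℕ) ≤ b := by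
      intro i _
      have := i.isLt
      omega
    refine (Finset.sum_le_sum h2).trans ?_
    rw [Finset.sum_const, Finset.card_univ, Fintype.card_fin, smul_eq_mul, sq]
    exact Nat.mul_le_mul_right _ (by omega)
  have hsum' : (l.sum : ℝ) ≤ (b : ℝ) ^ 2 := by exact_mod_cast hsum
  have hrk : ((G.eS κ l).rank : ℝ) = ∏ i : Fin p, (Rn p q (q + 1 + i - w i.succ) : ℝ) := by
    rw [G.eS_rank, hl, List.map_ofFn, List.prod_ofFn, Nat.cast_prod]
    refine Finset.prod_congr rfl fun i _ => ?_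
    have h3 := G.rank_esg κ (q + 1 + i - w i.succ)
    rw [← hp, ← hq] at h3
    rw [← h3, Int.cast_natCast]
    rfl
  have hrk2 : ((G.eS κ l).rank : ℝ) ≤ (b : ℝ) ^ (b ^ 2) := by
    have h2 : (G.eS κ l).rank ≤ b ^ (b ^ 2) := by
      refine (Matrix.rank_le_card_height _).trans ?_
      rw [Fintype.card_fun, card_LS, ← hbd]
      exact Nat.pow_le_pow_right hb hsum
    exact_mod_cast h2
  have hdf : Q.df t (sS l) (G.eS κ l) ≤ (b : ℝ) ^ (b ^ 2 + 3) * (b : ℝ) ^ 2 * θ := by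
    refine (Q.df_le_one t (sS l) hpos (G.eS_mem κ l) (G.eS_idem κ l)).trans ?_
    refine (hdef (LS l) (sS l)).trans ?_
    rw [← hbd, card_LS]
    have h2 : (b : ℝ) ^ (l.sum + 3) ≤ (b : ℝ) ^ (b ^ 2 + 3) :=
      pow_le_pow_right₀ hb1 (by omega)
    gcongr
  have hdf0 := Q.df_nonneg t (sS l) hpos (G.eS_mem κ l) (G.eS_idem κ l)
  have hrX : ((G.esg κ (lin x)).rank : ℝ) ≤ ((N : ℝ) + 1) ^ b := by
    rw [hbd]
    refine (G.rank_esg_le κ x).trans ?_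
    have h2 : (x : ℝ) ≤ N := by
      have : x ≤ N := by omega
      exact_mod_cast this
    exact pow_le_pow_left₀ (by positivity) (by linarith) _
  have hv := Q.virt_df t hpos (G.eS_mem κ l) (G.eS_idem κ l) (G.esg_mem κ (lin x))
    (G.esg_idem κ (lin x))
  have hsw := Q.pT_swap t (G.eS_mem κ l) (G.eS_idem κ l) (G.esg_mem κ (lin x))
    (G.esg_idem κ (lin x))
  have hF : SSym_F G t κ a p q w =
      Q.pT t ((sS l).p (lin x)) (kr (G.eS κ l) (G.esg κ (lin x))) / Q.a t t := by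
    rw [hsw, hl, hx]
    rfl
  have hfx : f (a - w 0) = Q.pT t (lin x) (G.esg κ (lin x)) / Q.a t t := by
    rw [hf, hx]
  rw [hF, hfx, ← hrk, mul_comm (Q.pT t (lin x) (G.esg κ (lin x)) / Q.a t t)]
  refine hv.trans ?_
  have hsq : √(2 * ((G.eS κ l).rank : ℝ) * Q.df t (sS l) (G.eS κ l)) ≤ ε₁ := by
    rw [Real.sqrt_le_left (by rw [hε₁]; positivity)]
    have h2 : ε₁ ^ 2 = 4 * (b : ℝ) ^ (2 * b ^ 2 + 6) * θ := by
      rw [hε₁]
      have h3 : (2 * (b : ℝ) ^ (b ^ 2 + 3) * √θ) ^ 2 =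
        4 * (b : ℝ) ^ (2 * b ^ 2 + 6) * √θ ^ 2 := by ring
      rw [h3, Real.sq_sqrt h0]
    rw [h2]
    calc 2 * ((G.eS κ l).rank : ℝ) * Q.df t (sS l) (G.eS κ l)
        ≤ 2 * (b : ℝ) ^ (b ^ 2) * ((b : ℝ) ^ (b ^ 2 + 3) * (b : ℝ) ^ 2 * θ) := by
          gcongr
      _ = 2 * (b : ℝ) ^ (2 * b ^ 2 + 5) * θ := by ring
      _ ≤ 4 * (b : ℝ) ^ (2 * b ^ 2 + 6) * θ := by
          have h3 : (b : ℝ) ^ (2 * b ^ 2 + 5) ≤ (b : ℝ) ^ (2 * b ^ 2 + 6) :=
            pow_le_pow_right₀ hb1 (by omega)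
          gcongr
          norm_num
  exact mul_le_mul hrX hsq (Real.sqrt_nonneg _) (by positivity)

theorem df_esg_lin [Nonempty α] {T : Type} [Fintype T] [DecidableEq T] (t : Shp T)
    (hpos : 0 < Q.a t t) {θ : ℝ} (h0 : 0 ≤ θ) (h1 : θ ≤ 1)
    (hdef : ∀ (S : Type) [Fintype S] [DecidableEq S] (s : Shp S),
      Q.df t s 1 ≤ (Fintype.card α : ℝ) ^ (Fintype.card S + 3) * Fintype.card S * θ)
    (κ N n : ℕ) (hn : n ≤ N) :
    Q.df t (lin n) (G.esg κ (lin n)) ≤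
      C1 (Fintype.card α) * ((N : ℝ) + 1) ^ (2 * Fintype.card α) * √θ := by
  obtain ⟨b, hbd⟩ : ∃ b, b = Fintype.card α := ⟨_, rfl⟩
  have hb : 1 ≤ b := by
    rw [hbd]
    exact Fintype.card_pos
  have hb1 : (1 : ℝ) ≤ b := by exact_mod_cast hb
  obtain ⟨p, hp⟩ : ∃ p, p = G.pk κ := ⟨_, rfl⟩
  obtain ⟨q, hq⟩ : ∃ q, q = G.qk κ := ⟨_, rfl⟩
  have hpq : p + q = b := by
    rw [hp, hq, hbd]
    exact G.pk_add_qk κ
  have hθs : θ ≤ √θ := by
    have h2 : √θ ≤ 1 := Real.sqrt_le_one.2 h1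
    nlinarith [Real.sq_sqrt h0, Real.sqrt_nonneg θ]
  have hN1 : (1 : ℝ) ≤ (N : ℝ) + 1 := by
    have := Nat.cast_nonneg (α := ℝ) N
    linarith
  obtain ⟨f, hf⟩ : ∃ f : ℕ → ℝ, f = fun n => Q.pT t (lin n) (G.esg κ (lin n)) / Q.a t t := ⟨_, rfl⟩
  obtain ⟨δ, hδ⟩ : ∃ δ : ℕ → ℝ, δ = fun n => Q.df t (lin n) (G.esg κ (lin n)) := ⟨_, rfl⟩
  have hδf : ∀ n, δ n = (Rn p q n : ℝ) - f n := by
    intro n
    rw [hδ, hf, hp, hq, ← G.rank_esg κ n]
    rfl
  have hδ0 : ∀ n, 0 ≤ δ n := by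
    intro n
    rw [hδ]
    exact Q.df_nonneg t (lin n) hpos (G.esg_mem κ _) (G.esg_idem κ _)
  -- (1)
  have hs1 : ∀ a, a ≤ b → |δ a| ≤ (b : ℝ) ^ (b + 4) * √θ := by
    intro a ha
    rw [abs_of_nonneg (hδ0 a), hδ]
    refine (Q.df_le_one t (lin a) hpos (G.esg_mem κ _) (G.esg_idem κ _)).trans ?_
    refine (hdef (L a) (lin a)).trans ?_
    rw [← hbd, card_L]
    have ha' : (a : ℝ) ≤ b := by exact_mod_cast ha
    have h2 : (b : ℝ) ^ (a + 3) ≤ (b : ℝ) ^ (b + 3) := pow_le_pow_right₀ hb1 (by omega)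
    calc (b : ℝ) ^ (a + 3) * a * θ ≤ (b : ℝ) ^ (b + 3) * b * √θ := by gcongr
      _ = (b : ℝ) ^ (b + 4) * √θ := by ring
  -- (2)
  obtain ⟨ε₁, hε₁⟩ : ∃ ε₁ : ℝ, ε₁ = 2 * (b : ℝ) ^ (b ^ 2 + 3) * √θ := ⟨_, rfl⟩
  have hε₁0 : 0 ≤ ε₁ := by
    rw [hε₁]
    positivity
  have hs2 : ∀ a, b < a → a ≤ N →
      |∑ j ∈ Finset.range (p + 1), (-1 : ℝ) ^ j * (p.choose j : ℝ) * δ (a - j)| ≤
        ((b + 1).factorial : ℝ) * (((N : ℝ) + 1) ^ b * ε₁) := by
    intro a hba haN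
    have hrec : ∑ j ∈ Finset.range (p + 1), (-1 : ℝ) ^ j * (p.choose j : ℝ) *
        (Rn p q (a - j) : ℝ) = 0 := by
      have h2 := Rz_rec p q a (by omega)
      have h4 := congrArg (fun z : ℤ => (z : ℝ)) h2
      push_cast at h4
      rw [← h4]
      refine Finset.sum_congr rfl fun j hj => ?_
      rw [Finset.mem_range] at hj
      unfold Rz
      rw [if_pos (by omega)]
    have hδs : ∑ j ∈ Finset.range (p + 1), (-1 : ℝ) ^ j * (p.choose j : ℝ) * δ (a - j) =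
        -∑ j ∈ Finset.range (p + 1), (-1 : ℝ) ^ j * (p.choose j : ℝ) * f (a - j) := by
      have h2 : ∀ j ∈ Finset.range (p + 1), (-1 : ℝ) ^ j * (p.choose j : ℝ) * δ (a - j) =
          (-1 : ℝ) ^ j * (p.choose j : ℝ) * (Rn p q (a - j) : ℝ) -
          (-1 : ℝ) ^ j * (p.choose j : ℝ) * f (a - j) := by
        intro j _
        rw [hδf]
        ring
      rw [Finset.sum_congr rfl h2, Finset.sum_sub_distrib, hrec, zero_sub]
    rw [hδs, abs_neg]
    have hexp := expand p q a (by omega) f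
    have hkap : (1 : ℝ) ≤ |(kap p q : ℝ)| := by
      have h2 : 1 ≤ |kap p q| := Int.one_le_abs (kap_ne_zero p q)
      rw [← Int.cast_abs]
      exact_mod_cast h2
    have hjt := G.jt_pT t κ a (by omega)
    have hkey : ∀ w ∈ good (Ax p q a),
        |f (a - w 0) * ∏ i : Fin p, (Rn p q (q + 1 + i - w i.succ) : ℝ) -
          SSym_F G t κ a p q w| ≤ ((N : ℝ) + 1) ^ b * ε₁ := by
      intro w hw
      exact G.SSym_key t hpos h0 hdef κ N a haN hbd hp hq hpq hε₁ f hf w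
    have hzero : ∑ w ∈ good (Ax p q a), (sgi w : ℝ) * SSym_F G t κ a p q w = 0 := by
      subst hp hq
      have h2 : ∀ w ∈ good (Ax (G.pk κ) (G.qk κ) a), (sgi w : ℝ) * SSym_F G t κ a (G.pk κ) (G.qk κ) w =
          ((sgi w : ℝ) * Q.pT t (sS (G.lw κ a w)) (G.eS κ (G.lw κ a w))) / Q.a t t := by
        intro w _
        unfold SSym_F
        rw [← G.lw_eq κ a w]
        ring
      rw [Finset.sum_congr rfl h2, ← Finset.sum_div, hjt, zero_div]
    have habs : |∑ w ∈ good (Ax p q a), (sgi w : ℝ) * (f (a - w 0) *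
        ∏ i : Fin p, (Rn p q (q + 1 + i - w i.succ) : ℝ))| ≤
        ((b + 1).factorial : ℝ) * (((N : ℝ) + 1) ^ b * ε₁) := by
      have h2 : ∑ w ∈ good (Ax p q a), (sgi w : ℝ) * (f (a - w 0) *
          ∏ i : Fin p, (Rn p q (q + 1 + i - w i.succ) : ℝ)) =
          ∑ w ∈ good (Ax p q a), (sgi w : ℝ) * (f (a - w 0) *
            ∏ i : Fin p, (Rn p q (q + 1 + i - w i.succ) : ℝ) - SSym_F G t κ a p q w) := by
        rw [← sub_zero (∑ w ∈ good (Ax p q a), (sgi w : ℝ) * (f (a - w 0) *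
          ∏ i : Fin p, (Rn p q (q + 1 + i - w i.succ) : ℝ))), ← hzero, ← Finset.sum_sub_distrib]
        exact Finset.sum_congr rfl fun w _ => by ring
      rw [h2]
      refine (Finset.abs_sum_le_sum_abs _ _).trans ?_
      have h3 : ∀ w ∈ good (Ax p q a), |(sgi w : ℝ) * (f (a - w 0) *
            ∏ i : Fin p, (Rn p q (q + 1 + i - w i.succ) : ℝ) - SSym_F G t κ a p q w)| ≤
          ((N : ℝ) + 1) ^ b * ε₁ := by
        intro w hw
        rw [abs_mul, SSym_sgi, one_mul]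
        exact hkey w hw
      refine (Finset.sum_le_sum h3).trans ?_
      rw [Finset.sum_const, nsmul_eq_mul]
      refine mul_le_mul_of_nonneg_right ?_ (by positivity)
      have h4 : (good (Ax p q a)).card ≤ (b + 1).factorial := by
        unfold good
        refine (Finset.card_filter_le _ _).trans ?_
        rw [Finset.card_univ, Fintype.card_perm, Fintype.card_fin]
        exact Nat.factorial_le (by omega)
      exact_mod_cast h4
    rw [hexp, abs_mul] at habs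
    refine le_trans ?_ habs
    exact le_mul_of_one_le_left (abs_nonneg _) hkap
  -- (3)
  have hfin := rec_bound p δ b N (by omega) (by positivity) (by positivity) hs1 hs2 n hn
  rw [abs_of_nonneg (hδ0 n)] at hfin
  have hδn : δ n = Q.df t (lin n) (G.esg κ (lin n)) := by rw [hδ]
  rw [hδn] at hfin
  refine hfin.trans ?_
  rw [← hbd]
  have h5 : (2 * ((N : ℝ) + 1)) ^ p ≤ (2 * ((N : ℝ) + 1)) ^ b :=
    pow_le_pow_right₀ (by linarith) (by omega)
  have h6 : (1 : ℝ) ≤ ((N : ℝ) + 1) ^ b := one_le_pow₀ hN1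
  calc (2 * ((N : ℝ) + 1)) ^ p * ((b : ℝ) ^ (b + 4) * √θ +
        ((b + 1).factorial : ℝ) * (((N : ℝ) + 1) ^ b * ε₁))
      ≤ (2 * ((N : ℝ) + 1)) ^ b * ((b : ℝ) ^ (b + 4) * √θ * ((N : ℝ) + 1) ^ b +
        ((b + 1).factorial : ℝ) * (((N : ℝ) + 1) ^ b * ε₁)) := by
        refine mul_le_mul h5 ?_ (by positivity) (by positivity)
        have h7 : 0 ≤ (b : ℝ) ^ (b + 4) * √θ := by positivity
        nlinarith
    _ = C1 b * ((N : ℝ) + 1) ^ (2 * b) * √θ := by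
        rw [hε₁]
        unfold C1
        push_cast
        rw [mul_pow, two_mul b, pow_add]
        ring

theorem df_esg [Nonempty α] {T : Type} [Fintype T] [DecidableEq T] (t : Shp T)
    (hpos : 0 < Q.a t t) {θ : ℝ} (h0 : 0 ≤ θ) (h1 : θ ≤ 1)
    (hdef : ∀ (S : Type) [Fintype S] [DecidableEq S] (s : Shp S),
      Q.df t s 1 ≤ (Fintype.card α : ℝ) ^ (Fintype.card S + 3) * Fintype.card S * θ)
    (κ N : ℕ) {S : Type} [Fintype S] [DecidableEq S] (s : Shp S) (hn : Fintype.card S ≤ N) :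
    Q.df t s (G.esg κ s) ≤
      C1 (Fintype.card α) * ((N : ℝ) + 1) ^ (2 * Fintype.card α) * √θ := by
  have e : L (Fintype.card S) ≃ S := Fintype.equivOfCardEq (card_L _)
  rw [← (G.SSym_conj t κ (lin (Fintype.card S)) s e).2]
  exact G.df_esg_lin t hpos h0 h1 hdef κ N _ hn

theorem rank_esg_le' (κ N : ℕ) {S : Type} [Fintype S] [DecidableEq S] (s : Shp S)
    (hn : Fintype.card S ≤ N) :
    ((G.esg κ s).rank : ℝ) ≤ ((N : ℝ) + 1) ^ (Fintype.card α) := by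
  have e : L (Fintype.card S) ≃ S := Fintype.equivOfCardEq (card_L _)
  rw [← (G.SSym_conj Shp.e κ (lin (Fintype.card S)) s e).1]
  refine (G.rank_esg_le κ _).trans ?_
  have h1 : ((Fintype.card S : ℕ) : ℝ) ≤ N := by exact_mod_cast hn
  exact pow_le_pow_left₀ (by positivity) (by linarith) _

end Sgn

end ZS
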