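import Pool.Agent.W_f569db_sp.SSym

set_option autoImplicit false

/-!
# Idempotents adapted to a word

Let `x = (N + 1)^b`, `b = #α`, and suppose that `df t s (esg κ s) ≤ d₁` for all shapes with at most `N` letters.  Then for every
shape `s` with at most `N` letters and every word `w : S → α` there is an idempotent `E` in the span of the permutations whose
row `w` is the unit vector, with `rank E ≤ x^b` and `df t s E ≤ b x^b √(2 x d₁)`.

Proof.  Put `e = √(2 x d₁)`.  Induction on the set `A` of letters (`Finset.induction_on`) for the statement: for all shapes with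
at most `N` letters and all words `w` with letters in `A` there is `E` with `rank E ≤ x^#A`, `df E ≤ #A x^#A e`.
`A = ∅`: `S` is empty, `E = 1 = sg s s 1`; there is only one word, `rank 1 = 1`, `df 1 = 1 - A (2m) / A (2m) = 0` (`pT_one`, `a_eq_A`).
`insert a A`, `a ∉ A`: let `I = {x | w x = a}`, `i = #I`, `l = #S - i`, `e₀ : S ≃ L i ⊕ L l` a bijection with `e₀ x` in the first
summand iff `x ∈ I`.  Let `w' : L l → α`, `w' y = w (e₀.symm (inr y))`: letters in `A`; `E'` for `w'` and `lin l`.  Put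
`F = kr (esg (par a) (lin i)) E'`, in the span of the permutations (`kr_pspan`, `esg_mem_pspan`), idempotent (`kr_mul`), the row
`w ∘ e₀.symm = Sum.elim a^i w'` is the unit vector (`esg_row` with `κ = par a`), `rank F ≤ x * x^#A` (`ZO.rank_kr_idem`,
`rank_esg_le'`), `df F ≤ rank (esg ..) * df E' + rank E' * √(2 rank (esg ..) df (esg ..)) ≤ x (#A x^#A e) + x^#A e ≤ (#A + 1) x^(#A + 1) e`
(`df_kr`, `1 ≤ x`).  `E = sg e₀.symm * F * sg e₀`: `conj_pspan`, `conj_idem`, `rank_conj`, `pT_conj`.  Row `w` of `E`: `sg e₀.symm` has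
in row `w` only the entry at `w ∘ e₀.symm` (`eq_zero`), `F` there only the diagonal entry `1`, and `sg e₀` in the row `w ∘ e₀.symm`
only the entry at `w`; the product of the two entries is the entry `(w, w)` of `sg e₀.symm * sg e₀ = 1` (`sg_symm_mul`).
-/

noncomputable section

namespace ZS

open Matrix Module ZO ZSp

variable {α : Type} [Fintype α] [DecidableEq α] {K : Type*} [Field K] [CharZero K] {Q : SSys α K}

namespace Sgn

variable (G : Sgn Q)

/-- the conjugate of a matrix whose row `w ∘ e` is the unit vector -/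
theorem SWord_row {S S' : Type} [Fintype S] [DecidableEq S] [Fintype S'] [DecidableEq S']
    (u : Shp S') (s : Shp S) (e : S' ≃ S) (w : S → α) (F : Matrix (S' → α) (S' → α) K)
    (hF : ∀ c, F (w ∘ e) c = if c = w ∘ e then 1 else 0) (c : S → α) :
    (G.sg u s e * F * G.sg s u e.symm) w c = if c = w then 1 else 0 := by
  have h1 : ∀ d, (G.sg u s e * F) w d = G.sg u s e w (w ∘ e) * F (w ∘ e) d := by
    intro d
    rw [Matrix.mul_apply]
    refine Finset.sum_eq_single (w ∘ e) (fun d' _ hd => ?_) (fun h => ?_)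
    · rw [G.eq_zero u s e w d' (fun h => hd h.symm), zero_mul]
    · exact absurd (Finset.mem_univ _) h
  have h2 : (G.sg u s e * F * G.sg s u e.symm) w c =
      G.sg u s e w (w ∘ e) * G.sg s u e.symm (w ∘ e) c := by
    rw [Matrix.mul_apply]
    rw [Finset.sum_eq_single (w ∘ e)]
    · rw [h1, hF, if_pos rfl, mul_one]
    · intro d _ hd
      rw [h1, hF, if_neg hd, mul_zero, zero_mul]
    · intro h
      exact absurd (Finset.mem_univ _) h
  have h3 : (G.sg u s e * G.sg s u e.symm) w c =
      G.sg u s e w (w ∘ e) * G.sg s u e.symm (w ∘ e) c := by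
    rw [Matrix.mul_apply]
    refine Finset.sum_eq_single (w ∘ e) (fun d' _ hd => ?_) (fun h => ?_)
    · rw [G.eq_zero u s e w d' (fun h => hd h.symm), zero_mul]
    · exact absurd (Finset.mem_univ _) h
  rw [h2, ← h3, G.sg_mul_symm, Matrix.one_apply]
  by_cases h : c = w
  · rw [if_pos h, if_pos h.symm]
  · rw [if_neg h, if_neg (fun h' => h h'.symm)]

theorem SWord_ind {T : Type} [Fintype T] [DecidableEq T] (t : Shp T) (hpos : 0 < Q.a t t) (N : ℕ)
    {d₁ : ℝ} (hd₁ : ∀ (κ : ℕ) (S : Type) [Fintype S] [DecidableEq S] (s : Shp S),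
      Fintype.card S ≤ N → Q.df t s (G.esg κ s) ≤ d₁) (A : Finset α) :
    ∀ (S : Type) [Fintype S] [DecidableEq S] (s : Shp S), Fintype.card S ≤ N → ∀ w : S → α,
      (∀ y, w y ∈ A) →
      ∃ E ∈ G.pspan s, E * E = E ∧ (∀ c, E w c = if c = w then 1 else 0) ∧
        (E.rank : ℝ) ≤ (((N : ℝ) + 1) ^ (Fintype.card α)) ^ A.card ∧
        Q.df t s E ≤ A.card * (((N : ℝ) + 1) ^ (Fintype.card α)) ^ A.card *
          √(2 * ((N : ℝ) + 1) ^ (Fintype.card α) * d₁) := by
  have hx1 : (1 : ℝ) ≤ ((N : ℝ) + 1) ^ (Fintype.card α) := by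
    apply one_le_pow₀
    have : (0 : ℝ) ≤ N := Nat.cast_nonneg N
    linarith
  set x : ℝ := ((N : ℝ) + 1) ^ (Fintype.card α) with hx
  have hx0 : 0 < x := by linarith
  set e₁ : ℝ := √(2 * x * d₁) with he₁
  have he0 : 0 ≤ e₁ := Real.sqrt_nonneg _
  induction A using Finset.induction_on with
  | empty =>
    intro S _ _ s hS w hw
    have hE : IsEmpty S := ⟨fun y => absurd (hw y) (Finset.notMem_empty _)⟩
    have hcS : Fintype.card S = 0 := Fintype.card_eq_zero
    have hcw : Fintype.card (S → α) = 1 := by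
      rw [Fintype.card_fun, hcS, pow_zero]
    have hrk : (1 : Matrix (S → α) (S → α) K).rank = 1 := by
      rw [Matrix.rank_one, hcw]
    refine ⟨1, Submodule.subset_span ⟨Equiv.refl S, G.refl s⟩, mul_one _, fun c => ?_, ?_, ?_⟩
    · rw [Matrix.one_apply]
      by_cases h : c = w
      · rw [if_pos h, if_pos h.symm]
      · rw [if_neg h, if_neg (fun h' => h h'.symm)]
    · rw [hrk, Finset.card_empty, pow_zero, Nat.cast_one]
    · rw [Finset.card_empty, Nat.cast_zero, zero_mul, zero_mul]
      unfold SSys.df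
      rw [hrk, Q.pT_one, hcS, zero_add, Q.a_eq_A, ← two_mul, Nat.cast_one]
      have h1 : Q.A (2 * Fintype.card T) = Q.a t t := by rw [Q.a_eq_A, two_mul]
      rw [h1, div_self hpos.ne', sub_self]
  | insert a A ha ih =>
    intro S _ _ s hS w hw
    set I : Finset S := Finset.univ.filter fun y => w y = a with hI
    have hle : I.card ≤ Fintype.card S := Finset.card_le_univ I
    obtain ⟨i, hi⟩ : ∃ i, I.card = i := ⟨_, rfl⟩
    obtain ⟨l, hl⟩ : ∃ l, Fintype.card S - I.card = l := ⟨_, rfl⟩
    have hil : i + l = Fintype.card S := by omega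
    obtain ⟨e, he1, he2⟩ := SRank_exists_e I i l hi hil.symm
    have hw' : ∀ y, w (e (Sum.inr y)) ∈ A := by
      intro y
      have h1 := hw (e (Sum.inr y))
      rw [Finset.mem_insert] at h1
      rcases h1 with h1 | h1
      · exfalso
        apply he2 y
        rw [hI, Finset.mem_filter]
        exact ⟨Finset.mem_univ _, h1⟩
      · exact h1
    obtain ⟨E', hE'm, hE'i, hE'r, hE'rk, hE'd⟩ := ih (L l)
      (lin l) (by rw [card_L]; omega) (fun y => w (e (Sum.inr y))) hw'
    set X := G.esg (G.par a) (lin i) with hX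
    have hXm : X ∈ Q.P (lin i) (lin i) := G.esg_mem _ _
    have hXi : X * X = X := G.esg_idem _ _
    have hXr : (X.rank : ℝ) ≤ x := G.rank_esg_le' _ N _ (by rw [card_L]; omega)
    have hXd : Q.df t (lin i) X ≤ d₁ := hd₁ _ _ _ (by rw [card_L]; omega)
    have hXd0 : 0 ≤ Q.df t (lin i) X := Q.df_nonneg t _ hpos hXm hXi
    have hE'm2 : E' ∈ Q.P (lin l) (lin l) :=
      G.pspan_le _ hE'm
    set u := (lin i).p (lin l) with hu
    set F := kr X E' with hF
    have hFm : F ∈ G.pspan u := G.kr_pspan _ _ (G.esg_mem_pspan _ _) hE'm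
    have hFm2 : F ∈ Q.P u u := G.pspan_le _ hFm
    have hFi : F * F = F := by rw [hF, kr_mul, hXi, hE'i]
    have hFr : F.rank = X.rank * E'.rank := ZO.rank_kr_idem hXi hE'i
    have hwl : (w ∘ e) ∘ Sum.inl = fun _ : L i => a := by
      funext z
      have h1 := he1 z
      rw [hI, Finset.mem_filter] at h1
      exact h1.2
    have hFrow : ∀ c, F (w ∘ e) c = if c = w ∘ e then 1 else 0 := by
      intro c
      have h0 : F (w ∘ e) c = X ((w ∘ e) ∘ Sum.inl) (c ∘ Sum.inl) *
          E' ((w ∘ e) ∘ Sum.inr) (c ∘ Sum.inr) := rfl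
      have h1 : (w ∘ e) ∘ Sum.inr = fun y => w (e (Sum.inr y)) := rfl
      rw [h0, hwl, h1, hX, G.esg_row _ _ a (by omega), hE'r]
      by_cases hc : c = w ∘ e
      · rw [if_pos hc, if_pos, if_pos, mul_one]
        · rw [hc]; rfl
        · rw [hc]; exact hwl
      · rw [if_neg hc]
        by_cases hc1 : c ∘ Sum.inl = fun _ : L i => a
        · rw [if_neg (c := c ∘ Sum.inr = fun y => w (e (Sum.inr y))), mul_zero]
          intro hc2
          apply hc
          funext z
          rcases z with z | z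
          · have h3 := congrFun hc1 z
            have h4 := congrFun hwl z
            exact h3.trans h4.symm
          · exact congrFun hc2 z
        · rw [if_neg hc1, zero_mul]
    have hZY : G.sg s u e.symm * G.sg u s e = 1 := G.sg_symm_mul u s e
    refine ⟨G.sg u s e * F * G.sg s u e.symm, G.conj_pspan u s e hFm,
      SSys.conj_idem hFi hZY, G.SWord_row u s e w F hFrow, ?_, ?_⟩
    · rw [SSys.rank_conj hFi hZY, hFr, Finset.card_insert_of_notMem ha, pow_succ', Nat.cast_mul]
      exact mul_le_mul hXr hE'rk (Nat.cast_nonneg _) hx0.le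
    · have hdf : Q.df t s (G.sg u s e * F * G.sg s u e.symm) = Q.df t u F := by
        unfold SSys.df
        rw [SSys.rank_conj hFi hZY, Q.pT_conj t hFm2 hFi (G.mem u s e) (G.mem s u e.symm) hZY]
      rw [hdf]
      have h1 : Q.df t u F ≤ X.rank * Q.df t (lin l) E' +
          E'.rank * √(2 * X.rank * Q.df t (lin i) X) :=
        Q.df_kr t hpos hXm hXi hE'm2 hE'i
      have h2 : √(2 * X.rank * Q.df t (lin i) X) ≤ e₁ := by
        apply Real.sqrt_le_sqrt
        have h3 : (0 : ℝ) ≤ X.rank := Nat.cast_nonneg _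
        have h4 : 2 * (X.rank : ℝ) ≤ 2 * x := by linarith
        exact mul_le_mul h4 hXd hXd0 (by positivity)
      have hp0 : 0 < x ^ A.card := by positivity
      have h5 : (X.rank : ℝ) * Q.df t (lin l) E' ≤
          x * (A.card * x ^ A.card * e₁) := by
        have h6 : (X.rank : ℝ) * Q.df t (lin l) E' ≤
            X.rank * (A.card * x ^ A.card * e₁) :=
          mul_le_mul_of_nonneg_left hE'd (Nat.cast_nonneg _)
        refine h6.trans (mul_le_mul_of_nonneg_right hXr ?_)
        exact mul_nonneg (mul_nonneg (Nat.cast_nonneg _) hp0.le) he0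
      have h7 : (E'.rank : ℝ) * √(2 * X.rank * Q.df t (lin i) X) ≤ x ^ A.card * e₁ :=
        mul_le_mul hE'rk h2 (Real.sqrt_nonneg _) hp0.le
      rw [Finset.card_insert_of_notMem ha, pow_succ, Nat.cast_add, Nat.cast_one]
      have h8 : x ^ A.card * e₁ ≤ x ^ A.card * x * e₁ := by
        have h9 : x ^ A.card * 1 ≤ x ^ A.card * x := mul_le_mul_of_nonneg_left hx1 hp0.le
        rw [mul_one] at h9
        exact mul_le_mul_of_nonneg_right h9 he0
      calc Q.df t u F ≤ x * (A.card * x ^ A.card * e₁) + x ^ A.card * e₁ := by linarith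
        _ ≤ x * (A.card * x ^ A.card * e₁) + x ^ A.card * x * e₁ := by linarith
        _ = ((A.card : ℝ) + 1) * (x ^ A.card * x) * e₁ := by ring

theorem exists_E {T : Type} [Fintype T] [DecidableEq T] (t : Shp T) (hpos : 0 < Q.a t t) (N : ℕ)
    {d₁ : ℝ} (hd₁ : ∀ (κ : ℕ) (S : Type) [Fintype S] [DecidableEq S] (s : Shp S),
      Fintype.card S ≤ N → Q.df t s (G.esg κ s) ≤ d₁)
    {S : Type} [Fintype S] [DecidableEq S] (s : Shp S) (hS : Fintype.card S ≤ N) (w : S → α) :
    ∃ E ∈ G.pspan s, E * E = E ∧ (∀ c, E w c = if c = w then 1 else 0) ∧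
      Q.df t s E ≤ Fintype.card α * ((N : ℝ) + 1) ^ (Fintype.card α ^ 2) *
        √(2 * ((N : ℝ) + 1) ^ (Fintype.card α) * d₁) := by
  obtain ⟨E, h1, h2, h3, _, h5⟩ := G.SWord_ind t hpos N hd₁ Finset.univ S s hS w
    (fun y => Finset.mem_univ _)
  refine ⟨E, h1, h2, h3, ?_⟩
  rw [Finset.card_univ, ← pow_mul, ← pow_two] at h5
  exact h5

end Sgn

end ZS
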